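import Pool.Agent.TWB.LINE

/-!
A1.  `#T = t + 2`, `T` generic: `[PosR u (t+1) T] = Σ_{x ∈ T} [UpR u t (T.erase x)]` mod 2.

Proof.
(1) There is `w : β → ℝ`, not identically `0` on `T`, with `Σ_{x ∈ T} w x * u x i = 0` for all `i`
    with `i.val < t + 1` (`t + 2` unknowns, `t + 1` equations: e.g.
    `LinearMap.exists_ne_zero..`/`Matrix.exists_mulVec_eq_zero_iff`/`LinearMap.ker_ne_bot_of_finrank_lt`
    for the linear map `(T → ℝ) → (Fin (t+1) → ℝ)`).
(2) Every relation `a` on `T` in the first `t+1` coordinates with `a x = 0` for one `x ∈ T` vanishes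
    on `T`: it is a relation on `T.erase x` which has `t + 1 ≤ N` elements, use `hG`.
    So `w x ≠ 0` for all `x ∈ T`, and every relation `a` on `T` in the first `t+1` coordinates is a
    multiple of `w` on `T` (take `a - (a x / w x) w`).
(3) For `x ∈ T` there is `ζ x : β → ℝ` with `ζ x x = 0`, `Σ_{y ∈ T} ζ x y * u y i = 0` for
    `i.val < t` and `= 1` for `i.val = t`: the linear map
    `(T.erase x → ℝ) → (Fin (t+1) → ℝ)` is injective by `hG` (`#(T.erase x) = t+1`), hence surjective
    (equal finite dimension, `LinearMap.injective_iff_surjective_of_finrank_eq_finrank`).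
(4) `ζ x y ≠ 0` for `y ∈ T`, `y ≠ x`: otherwise `ζ x` is a relation in the first `t` coordinates on
    the `t` elements `(T.erase x).erase y`, so `ζ x = 0` on `T` by `hG`, contradiction to the value
    `1` in coordinate `t`.
(5) Fix `x0 ∈ T`.  `ζ x - ζ x0` is a relation in the first `t+1` coordinates, so
    `ζ x y = ζ x0 y + s x * w y` (`y ∈ T`) for a real number `s x`.  At `y`: `ζ y y = 0` gives
    `ζ x y = (s x - s y) * w y` for all `x, y ∈ T`.  By (4) `s` is injective on `T`.
(6) `UpR u t (T.erase x) ↔ ∀ y ∈ T, y ≠ x → 0 < w y * (s x - s y)`: (←) take `z = ζ x`.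
    (→) if `z` is positive on `T.erase x`, first `t` coordinates `0` and coordinate `t` equal to
    `L > 0`, then `z / L - ζ x` is a relation on `T.erase x` in the first `t + 1` coordinates, so it
    vanishes by `hG` and `ζ x y = z y / L > 0`.
(7) `PosR u (t+1) T ↔ (∀ y ∈ T, 0 < w y) ∨ (∀ y ∈ T, w y < 0)`: (←) `z = ± w`; (→) `z` is a multiple
    of `w` by (2).
(8) Apply `LINE` with `b = w`.
-/

set_option autoImplicit false

namespace Pool.Agent.TWB

/-- the evaluation map of the combinations of `S` in the first `m` coordinates -/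
private noncomputable def ev {β : Type*} {N : ℕ} (u : β → Fin N → ℝ) (S : Finset β) (m : ℕ)
    (hm : m ≤ N) : (S → ℝ) →ₗ[ℝ] (Fin m → ℝ) where
  toFun z := fun i => ∑ x : S, z x * u x (Fin.castLE hm i)
  map_add' z z' := by
    funext i
    simp only [Pi.add_apply, add_mul, Finset.sum_add_distrib]
  map_smul' c z := by
    funext i
    simp only [Pi.smul_apply, smul_eq_mul, RingHom.id_apply, Finset.mul_sum, mul_assoc]

open Classical in
private theorem ext_sum {β : Type*} {N : ℕ} (u : β → Fin N → ℝ) (S : Finset β) (z : S → ℝ)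
    (i : Fin N) : ∑ x ∈ S, (if h : x ∈ S then z ⟨x, h⟩ else 0) * u x i = ∑ x : S, z x * u x i := by
  rw [← Finset.sum_coe_sort S (fun x => (if h : x ∈ S then z ⟨x, h⟩ else 0) * u x i)]
  refine Finset.sum_congr rfl fun x _ => ?_
  rw [dif_pos x.2]

open Classical in
private theorem A1_w {β : Type*} {N : ℕ} (u : β → Fin N → ℝ) (T : Finset β) (t : ℕ)
    (ht : t + 1 ≤ N) (hc : T.card = t + 2) :
    ∃ w : β → ℝ, (∃ x ∈ T, w x ≠ 0) ∧ ∀ i : Fin N, i.val < t + 1 → ∑ x ∈ T, w x * u x i = 0 := by
  have h1 : Module.finrank ℝ (Fin (t + 1) → ℝ) < Module.finrank ℝ (T → ℝ) := by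
    rw [Module.finrank_fintype_fun_eq_card, Module.finrank_fintype_fun_eq_card, Fintype.card_fin,
      Fintype.card_coe, hc]
    omega
  have h2 := LinearMap.ker_ne_bot_of_finrank_lt (f := ev u T (t + 1) ht) h1
  obtain ⟨z, hz, hz0⟩ := (Submodule.ne_bot_iff _).mp h2
  refine ⟨fun x => if h : x ∈ T then z ⟨x, h⟩ else 0, ?_, ?_⟩
  · by_contra hcon
    push Not at hcon
    apply hz0
    funext x
    have := hcon x.1 x.2
    rw [dif_pos x.2] at this
    exact this
  · intro i hi
    rw [ext_sum]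
    have h3 := congrFun (LinearMap.mem_ker.mp hz) ⟨i.val, hi⟩
    exact h3

open Classical in
private theorem A1_z {β : Type*} {N : ℕ} (u : β → Fin N → ℝ) (S : Finset β) (t : ℕ)
    (ht : t + 1 ≤ N) (hG : GenOn u S) (hc : S.card = t + 1) :
    ∃ z : β → ℝ, (∀ x, x ∉ S → z x = 0) ∧ (∀ i : Fin N, i.val < t → ∑ x ∈ S, z x * u x i = 0) ∧
      ∀ i : Fin N, i.val = t → ∑ x ∈ S, z x * u x i = 1 := by
  have h1 : Module.finrank ℝ (S → ℝ) = Module.finrank ℝ (Fin (t + 1) → ℝ) := by
    rw [Module.finrank_fintype_fun_eq_card, Module.finrank_fintype_fun_eq_card, Fintype.card_fin,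
      Fintype.card_coe, hc]
  have hinj : Function.Injective (ev u S (t + 1) ht) := by
    rw [← LinearMap.ker_eq_bot, LinearMap.ker_eq_bot']
    intro z hz
    have h2 := hG S (Finset.Subset.refl S) (by omega) (fun x => if h : x ∈ S then z ⟨x, h⟩ else 0)
      (by
        intro i hi
        rw [hc] at hi
        rw [ext_sum]
        exact congrFun hz ⟨i.val, hi⟩)
    funext x
    have := h2 x.1 x.2
    rw [dif_pos x.2] at this
    exact this
  have hsurj := (LinearMap.injective_iff_surjective_of_finrank_eq_finrank h1).mp hinj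
  obtain ⟨z, hz⟩ := hsurj (fun i => if i.val = t then 1 else 0)
  refine ⟨fun x => if h : x ∈ S then z ⟨x, h⟩ else 0, ?_, ?_, ?_⟩
  · intro x hx
    exact dif_neg hx
  · intro i hi
    rw [ext_sum]
    have h3 := congrFun hz ⟨i.val, by omega⟩
    have h4 : ¬ (i.val = t) := by omega
    simp only [h4, if_false] at h3
    exact h3
  · intro i hi
    rw [ext_sum]
    have h3 := congrFun hz ⟨i.val, by omega⟩
    exact h3.trans (if_pos hi)

open Classical in
theorem A1 {β : Type*} [DecidableEq β] {N : ℕ} (u : β → Fin N → ℝ) (T : Finset β) (t : ℕ)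
    (ht : t + 1 ≤ N) (hG : GenOn u T) (hc : T.card = t + 2) :
    (if PosR u (t + 1) T then (1 : ZMod 2) else 0)
      = ∑ x ∈ T, if UpR u t (T.erase x) then (1 : ZMod 2) else 0 := by
  obtain ⟨w, ⟨x1, hx1, hwx1⟩, hw⟩ := A1_w u T t ht hc
  -- relations which vanish at one point
  have K : ∀ a : β → ℝ, (∀ i : Fin N, i.val < t + 1 → ∑ x ∈ T, a x * u x i = 0) →
      ∀ x ∈ T, a x = 0 → ∀ y ∈ T, a y = 0 := by
    intro a ha x hx hax y hy
    by_cases hyx : y = x
    · rw [hyx, hax]
    have hcard : (T.erase x).card = t + 1 := by rw [Finset.card_erase_of_mem hx, hc]; omega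
    refine hG (T.erase x) (Finset.erase_subset _ _) (by omega) a ?_ y
      (Finset.mem_erase.mpr ⟨hyx, hy⟩)
    intro i hi
    rw [hcard] at hi
    rw [← ha i hi, ← Finset.add_sum_erase T _ hx, hax, zero_mul, zero_add]
  have hw0 : ∀ x ∈ T, w x ≠ 0 := fun x hx h => hwx1 (K w hw x hx h x1 hx1)
  have hGe : ∀ x, GenOn u (T.erase x) := fun x S hS =>
    hG S (hS.trans (Finset.erase_subset _ _))
  have hce : ∀ x ∈ T, (T.erase x).card = t + 1 := by
    intro x hx
    rw [Finset.card_erase_of_mem hx, hc]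
    omega
  have hz : ∀ x : β, ∃ z : β → ℝ, x ∈ T → (z x = 0 ∧
      (∀ i : Fin N, i.val < t → ∑ y ∈ T.erase x, z y * u y i = 0) ∧
      ∀ i : Fin N, i.val = t → ∑ y ∈ T.erase x, z y * u y i = 1) := by
    intro x
    by_cases hx : x ∈ T
    · obtain ⟨z, h1, h2, h3⟩ := A1_z u (T.erase x) t ht (hGe x) (hce x hx)
      exact ⟨z, fun _ => ⟨h1 x (Finset.notMem_erase x T), h2, h3⟩⟩
    · exact ⟨0, fun h => absurd h hx⟩
  choose ζ hζ using hz
  have hζs : ∀ x ∈ T, ∀ i : Fin N, ∑ y ∈ T, ζ x y * u y i = ∑ y ∈ T.erase x, ζ x y * u y i := by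
    intro x hx i
    rw [← Finset.add_sum_erase T _ hx, (hζ x hx).1, zero_mul, zero_add]
  -- (4)
  have h4 : ∀ x ∈ T, ∀ y ∈ T, y ≠ x → ζ x y ≠ 0 := by
    intro x hx y hy hyx h0
    have hyS : y ∈ T.erase x := Finset.mem_erase.mpr ⟨hyx, hy⟩
    have hcard : ((T.erase x).erase y).card = t := by
      rw [Finset.card_erase_of_mem hyS, hce x hx]
      omega
    have h5 : ∀ z ∈ (T.erase x).erase y, ζ x z = 0 := by
      refine hG _ ((Finset.erase_subset _ _).trans (Finset.erase_subset _ _)) (by omega) (ζ x) ?_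
      intro i hi
      rw [hcard] at hi
      rw [← (hζ x hx).2.1 i hi, ← Finset.add_sum_erase (T.erase x) _ hyS, h0, zero_mul, zero_add]
    have h6 := (hζ x hx).2.2 ⟨t, by omega⟩ rfl
    rw [← Finset.add_sum_erase (T.erase x) _ hyS, h0, zero_mul, zero_add,
      Finset.sum_eq_zero (fun z hz => by rw [h5 z hz, zero_mul])] at h6
    exact zero_ne_one h6
  -- (5)
  set s : β → ℝ := fun x => ζ x x1 / w x1 with hs
  have h5 : ∀ x ∈ T, ∀ y ∈ T, ζ x y = ζ x1 y + s x * w y := by
    intro x hx y hy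
    have h6 := K (fun y => ζ x y - ζ x1 y - s x * w y) (by
      intro i hi
      have e1 : ∑ y ∈ T, (ζ x y - ζ x1 y - s x * w y) * u y i =
          ∑ y ∈ T, ζ x y * u y i - ∑ y ∈ T, ζ x1 y * u y i - s x * ∑ y ∈ T, w y * u y i := by
        rw [Finset.mul_sum, ← Finset.sum_sub_distrib, ← Finset.sum_sub_distrib]
        refine Finset.sum_congr rfl fun y _ => ?_
        ring
      rw [e1, hw i hi, hζs x hx, hζs x1 hx1]
      rcases Nat.lt_succ_iff_lt_or_eq.mp hi with h | h
      · rw [(hζ x hx).2.1 i h, (hζ x1 hx1).2.1 i h]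
        ring
      · rw [(hζ x hx).2.2 i h, (hζ x1 hx1).2.2 i h]
        ring) x1 hx1 (by
      show ζ x x1 - ζ x1 x1 - s x * w x1 = 0
      rw [(hζ x1 hx1).1, hs]
      field_simp
      ring) y hy
    have h7 : ζ x y - ζ x1 y - s x * w y = 0 := h6
    linarith
  have h6 : ∀ x ∈ T, ∀ y ∈ T, ζ x y = w y * (s x - s y) := by
    intro x hx y hy
    have e1 := h5 x hx y hy
    have e2 := h5 y hy y hy
    rw [(hζ y hy).1] at e2
    linarith
  have hinj : Set.InjOn s (T : Set β) := by
    intro x hx y hy hxy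
    by_contra hne
    have h7 := h4 x hx y hy (fun h => hne h.symm)
    rw [h6 x hx y hy, hxy, sub_self, mul_zero] at h7
    exact h7 rfl
  -- (6)
  have hUp : ∀ x ∈ T, (UpR u t (T.erase x) ↔ ∀ y ∈ T, y ≠ x → 0 < w y * (s x - s y)) := by
    intro x hx
    constructor
    · rintro ⟨z, hz1, hz2, i, hi, hz3⟩ y hy hyx
      set L := ∑ y ∈ T.erase x, z y * u y i with hL
      have h7 : ∀ y ∈ T.erase x, z y / L - ζ x y = 0 := by
        refine hG (T.erase x) (Finset.erase_subset _ _) (by rw [hce x hx]; omega)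
          (fun y => z y / L - ζ x y) ?_
        intro j hj
        rw [hce x hx] at hj
        have e1 : ∑ y ∈ T.erase x, (z y / L - ζ x y) * u y j =
            (∑ y ∈ T.erase x, z y * u y j) / L - ∑ y ∈ T.erase x, ζ x y * u y j := by
          rw [Finset.sum_div, ← Finset.sum_sub_distrib]
          refine Finset.sum_congr rfl fun y _ => ?_
          ring
        rw [e1]
        rcases Nat.lt_succ_iff_lt_or_eq.mp hj with h | h
        · rw [hz2 j h, (hζ x hx).2.1 j h]
          ring
        · have hij : j = i := Fin.ext (by rw [h, hi])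
          rw [(hζ x hx).2.2 j h, hij, ← hL, div_self hz3.ne', sub_self]
      have h8 := h7 y (Finset.mem_erase.mpr ⟨hyx, hy⟩)
      rw [← h6 x hx y hy]
      have h9 : 0 < z y / L := div_pos (hz1 y (Finset.mem_erase.mpr ⟨hyx, hy⟩)) hz3
      linarith
    · intro h
      refine ⟨ζ x, ?_, (hζ x hx).2.1, ⟨t, by omega⟩, rfl, ?_⟩
      · intro y hy
        rw [Finset.mem_erase] at hy
        rw [h6 x hx y hy.2]
        exact h y hy.2 hy.1
      · rw [(hζ x hx).2.2 ⟨t, by omega⟩ rfl]
        exact one_pos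
  -- (7)
  have hPos : PosR u (t + 1) T ↔ ((∀ y ∈ T, 0 < w y) ∨ (∀ y ∈ T, w y < 0)) := by
    constructor
    · rintro ⟨z, hz1, hz2⟩
      set c := z x1 / w x1 with hcd
      have h7 : ∀ y ∈ T, z y = c * w y := by
        intro y hy
        have h8 := K (fun y => z y - c * w y) (by
          intro i hi
          have e1 : ∑ y ∈ T, (z y - c * w y) * u y i =
              ∑ y ∈ T, z y * u y i - c * ∑ y ∈ T, w y * u y i := by
            rw [Finset.mul_sum, ← Finset.sum_sub_distrib]
            refine Finset.sum_congr rfl fun y _ => ?_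
            ring
          rw [e1, hw i hi, hz2 i hi]
          ring) x1 hx1 (by
          show z x1 - c * w x1 = 0
          rw [hcd, div_mul_cancel₀ _ hwx1, sub_self]) y hy
        have h9 : z y - c * w y = 0 := h8
        linarith
      rcases lt_trichotomy c 0 with h | h | h
      · right
        intro y hy
        have h8 := hz1 y hy
        rw [h7 y hy] at h8
        by_contra hn
        push Not at hn
        nlinarith
      · exfalso
        have h8 := hz1 x1 hx1
        rw [h7 x1 hx1, h, zero_mul] at h8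
        exact lt_irrefl _ h8
      · left
        intro y hy
        have h8 := hz1 y hy
        rw [h7 y hy] at h8
        exact (mul_pos_iff_of_pos_left h).mp h8
    · rintro (h | h)
      · exact ⟨w, h, hw⟩
      · refine ⟨fun x => -w x, fun x hx => by
          show 0 < -w x
          linarith [h x hx], fun i hi => ?_⟩
        simp only [neg_mul, Finset.sum_neg_distrib, hw i hi, neg_zero]
  have hL := LINE T ⟨x1, hx1⟩ s w hinj hw0
  refine (if_congr hPos rfl rfl).trans (hL.symm.trans ?_)
  refine Finset.sum_congr rfl fun x hx => ?_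
  by_cases h : ∀ y ∈ T, y ≠ x → 0 < w y * (s x - s y)
  · rw [if_pos h, if_pos ((hUp x hx).mpr h)]
  · rw [if_neg h, if_neg (fun h' => h ((hUp x hx).mp h'))]

end Pool.Agent.TWB
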