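import Pool.Agent.TWB.Defs

/-!
A2.  `#T = t + 1`, `t < N`, `T` generic: exactly one of up and down iff there is a positive
relation on the first `t` coordinates.

Proof of A2.  `z`, `z'` positive on `T` with the first `t` coordinates zero are proportional: choose
`x ∈ T`; `z' x * z - z x * z'` vanishes at `x` and is a relation on the `t` elements `T.erase x` in
the first `t` coordinates, so it is `0` on `T` by `hG`.  Also `Σ z * u _ t ≠ 0` for such a `z`:
otherwise `z` is a relation in the first `t + 1` coordinates on `T` (`t + 1 ≤ N` elements) and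
`z = 0` on `T`, but `T` is nonempty and `z > 0`.  If there is no such `z` all three are `0`.  If there
is one, `Σ z * u _ t` is positive or negative; in the first case `UpR u t T` holds and
`UpR (-u) t T` fails (a `z'` for it is a positive multiple of `z` on `T`), in the second case
conversely.

UpR_flip: `uu v (x.1, !x.2) = - uu v x`, reindex the sums (`Finset.sum_image`, the flip is
injective); `z` for the flipped set corresponds to `z ∘ flip`.

Gen_good: let `S ⊆ T`, `z` a relation.  `fst` is injective on `S`; put `S' = S.image fst`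
(`#S' = #S`) and `z' j = Σ_{x ∈ S with x.1 = j} z x * sg x.2` (one term); then
`Σ_{j ∈ S'} z' j * v j i = Σ_{x ∈ S} z x * uu v x i = 0` for `i < #S'`, so `z' = 0` on `S'`, hence
`z x * sg x.2 = 0`, `z x = 0`.
-/

set_option autoImplicit false

namespace Pool.Agent.TWB

private theorem a2_prop {β : Type*} {N : ℕ} (u : β → Fin N → ℝ) (T : Finset β) (t : ℕ)
    (ht : t < N) (hG : GenOn u T) (hc : T.card = t + 1) (z z' : β → ℝ)
    (h1 : ∀ i : Fin N, i.val < t → ∑ x ∈ T, z x * u x i = 0)
    (h2 : ∀ i : Fin N, i.val < t → ∑ x ∈ T, z' x * u x i = 0) (y : β) (hy : y ∈ T) :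
    z' y * ∑ x ∈ T, z x * u x ⟨t, ht⟩ = z y * ∑ x ∈ T, z' x * u x ⟨t, ht⟩ := by
  classical
  have hw : ∀ x ∈ T.erase y, z' y * z x - z y * z' x = 0 := by
    refine hG (T.erase y) (Finset.erase_subset y T) ?_ (fun x => z' y * z x - z y * z' x) ?_
    · rw [Finset.card_erase_of_mem hy, hc]
      omega
    · intro i hi
      rw [Finset.card_erase_of_mem hy, hc] at hi
      have hi' : i.val < t := by omega
      have e : ∑ x ∈ T, (z' y * z x - z y * z' x) * u x i = 0 := by
        have e1 : ∑ x ∈ T, (z' y * z x - z y * z' x) * u x i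
            = z' y * ∑ x ∈ T, z x * u x i - z y * ∑ x ∈ T, z' x * u x i := by
          rw [Finset.mul_sum, Finset.mul_sum, ← Finset.sum_sub_distrib]
          exact Finset.sum_congr rfl fun x _ => by ring
        rw [e1, h1 i hi', h2 i hi']
        ring
      rw [← Finset.add_sum_erase T _ hy] at e
      have e0 : (z' y * z y - z y * z' y) * u y i = 0 := by ring
      rw [e0, zero_add] at e
      exact e
  rw [Finset.mul_sum, Finset.mul_sum]
  refine Finset.sum_congr rfl fun x hx => ?_
  by_cases hxy : x = y
  · rw [hxy]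
    ring
  · have h := hw x (Finset.mem_erase.mpr ⟨hxy, hx⟩)
    have h' : z' y * z x = z y * z' x := by linarith
    rw [← mul_assoc, ← mul_assoc, h']

open Classical in
theorem A2 {β : Type*} {N : ℕ} (u : β → Fin N → ℝ) (T : Finset β) (t : ℕ)
    (ht : t < N) (hG : GenOn u T) (hc : T.card = t + 1) :
    (if UpR u t T then (1 : ZMod 2) else 0)
        + (if UpR (fun x i => -(u x i)) t T then (1 : ZMod 2) else 0)
      = if PosR u t T then (1 : ZMod 2) else 0 := by
  have hne : T.Nonempty := by
    rw [← Finset.card_pos, hc]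
    omega
  obtain ⟨y, hy⟩ := hne
  have hneg : ∀ (z : β → ℝ) (i : Fin N), ∑ x ∈ T, z x * -(u x i) = -∑ x ∈ T, z x * u x i := by
    intro z i
    rw [← Finset.sum_neg_distrib]
    exact Finset.sum_congr rfl fun x _ => by ring
  have hup : UpR u t T → PosR u t T := fun ⟨z, h1, h2, _⟩ => ⟨z, h1, h2⟩
  have hdn : UpR (fun x i => -(u x i)) t T → PosR u t T := by
    rintro ⟨z, h1, h2, _⟩
    refine ⟨z, h1, fun i hi => ?_⟩
    have h := h2 i hi
    rw [hneg z i] at h
    linarith
  by_cases hP : PosR u t T
  · rw [if_pos hP]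
    obtain ⟨z, hz, hr⟩ := hP
    have hs : ∑ x ∈ T, z x * u x ⟨t, ht⟩ ≠ 0 := by
      intro h0
      have h := hG T (Finset.Subset.refl T) (by omega) z (fun i hi => by
        rw [hc] at hi
        rcases Nat.lt_succ_iff_lt_or_eq.mp hi with h | h
        · exact hr i h
        · have hi' : i = ⟨t, ht⟩ := Fin.ext h
          rw [hi']
          exact h0) y hy
      exact (hz y hy).ne' h
    rcases lt_or_gt_of_ne hs with hs | hs
    · have hD : UpR (fun x i => -(u x i)) t T := by
        refine ⟨z, hz, fun i hi => ?_, ⟨t, ht⟩, rfl, ?_⟩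
        · rw [hneg, hr i hi, neg_zero]
        · rw [hneg]
          linarith
      have hU : ¬ UpR u t T := by
        rintro ⟨z', h1, h2, i, hi, h3⟩
        have hi' : i = ⟨t, ht⟩ := Fin.ext hi
        rw [hi'] at h3
        have h := a2_prop u T t ht hG hc z z' hr h2 y hy
        have h4 := mul_neg_of_pos_of_neg (h1 y hy) hs
        have h5 := mul_pos (hz y hy) h3
        linarith
      rw [if_neg hU, if_pos hD]
      rfl
    · have hU : UpR u t T := ⟨z, hz, hr, ⟨t, ht⟩, rfl, hs⟩
      have hD : ¬ UpR (fun x i => -(u x i)) t T := by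
        rintro ⟨z', h1, h2, i, hi, h3⟩
        have hi' : i = ⟨t, ht⟩ := Fin.ext hi
        rw [hi', hneg] at h3
        have h2' : ∀ i : Fin N, i.val < t → ∑ x ∈ T, z' x * u x i = 0 := fun i hi => by
          have h := h2 i hi
          rw [hneg] at h
          linarith
        have h := a2_prop u T t ht hG hc z z' hr h2' y hy
        have h4 := mul_pos (h1 y hy) hs
        have h5 := mul_neg_of_pos_of_neg (hz y hy) (show ∑ x ∈ T, z' x * u x ⟨t, ht⟩ < 0 by
          linarith)
        linarith
      rw [if_pos hU, if_neg hD]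
      rfl
  · rw [if_neg hP, if_neg (fun h => hP (hup h)), if_neg (fun h => hP (hdn h)), add_zero]

private theorem sg_not (b : Bool) : sg (!b) = -sg b := by
  cases b <;> simp [sg]

private theorem sg_ne (b : Bool) : sg b ≠ 0 := by
  cases b <;> simp [sg]

private theorem flip_flip {α : Type*} (x : α × Bool) :
    (fun x : α × Bool => (x.1, !x.2)) ((fun x : α × Bool => (x.1, !x.2)) x) = x := by
  simp

private theorem uu_flip {α : Type*} {N : ℕ} (v : α → Fin N → ℝ) (x : α × Bool) (i : Fin N) :
    uu v (x.1, !x.2) i = -(uu v x i) := by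
  simp only [uu, sg_not]
  ring

private theorem flip_inj {α : Type*} :
    Function.Injective (fun x : α × Bool => (x.1, !x.2)) := fun x y h => by
  have h1 := congrArg (fun x : α × Bool => (x.1, !x.2)) h
  simpa using h1

theorem UpR_flip {α : Type*} [DecidableEq α] {N : ℕ} (v : α → Fin N → ℝ) (t : ℕ)
    (T : Finset (α × Bool)) :
    UpR (uu v) t (T.image (fun x => (x.1, !x.2))) ↔ UpR (fun x i => -(uu v x i)) t T := by
  have hsum : ∀ (z : α × Bool → ℝ) (i : Fin N),
      ∑ x ∈ T.image (fun x => (x.1, !x.2)), z x * uu v x i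
        = ∑ x ∈ T, z (x.1, !x.2) * -(uu v x i) := by
    intro z i
    rw [Finset.sum_image (fun x _ y _ h => flip_inj h)]
    exact Finset.sum_congr rfl fun x _ => by rw [uu_flip]
  constructor
  · rintro ⟨z, h1, h2, i, hi, h3⟩
    refine ⟨fun x => z (x.1, !x.2), fun x hx => h1 _ (Finset.mem_image_of_mem _ hx),
      fun i hi => ?_, i, hi, ?_⟩
    · rw [← hsum]
      exact h2 i hi
    · rw [← hsum]
      exact h3
  · rintro ⟨z, h1, h2, i, hi, h3⟩
    have hb : ∀ x : α × Bool, (fun x : α × Bool => z (x.1, !x.2)) (x.1, !x.2) = z x := by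
      intro x
      simp
    refine ⟨fun x => z (x.1, !x.2), fun x hx => ?_, fun i hi => ?_, i, hi, ?_⟩
    · obtain ⟨y, hy, rfl⟩ := Finset.mem_image.mp hx
      rw [hb]
      exact h1 y hy
    · rw [hsum]
      simp only [Bool.not_not]
      exact h2 i hi
    · rw [hsum]
      simp only [Bool.not_not]
      exact h3

theorem Gen_good {α : Type*} [Fintype α] {N : ℕ} (v : α → Fin N → ℝ)
    (hv : GenOn v Finset.univ) (T : Finset (α × Bool))
    (hT : Set.InjOn Prod.fst (T : Set (α × Bool))) : GenOn (uu v) T := by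
  classical
  intro S hST hSN z hz x hx
  have hinj : Set.InjOn Prod.fst (S : Set (α × Bool)) :=
    hT.mono (by exact_mod_cast hST)
  have hcard : (S.image Prod.fst).card = S.card := Finset.card_image_of_injOn hinj
  set z' : α → ℝ := fun j => ∑ y ∈ S with y.1 = j, z y * sg y.2 with hz'
  have hone : ∀ y ∈ S, z' y.1 = z y * sg y.2 := by
    intro y hy
    rw [hz']
    show ∑ w ∈ S with w.1 = y.1, z w * sg w.2 = z y * sg y.2
    rw [Finset.sum_eq_single y]
    · intro w hw hwy
      exfalso
      rw [Finset.mem_filter] at hw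
      exact hwy (hinj (by exact_mod_cast hw.1) (by exact_mod_cast hy) hw.2)
    · intro h
      exact absurd (by rw [Finset.mem_filter]; exact ⟨hy, rfl⟩) h
  have hrel : ∀ i : Fin N, i.val < (S.image Prod.fst).card →
      ∑ j ∈ S.image Prod.fst, z' j * v j i = 0 := by
    intro i hi
    rw [hcard] at hi
    rw [Finset.sum_image (fun a ha b hb h => hinj ha hb h)]
    rw [← hz i hi]
    refine Finset.sum_congr rfl fun y hy => ?_
    rw [hone y hy, uu]
    ring
  have h := hv (S.image Prod.fst) (Finset.subset_univ _) (by rw [hcard]; exact hSN) z' hrel x.1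
    (Finset.mem_image_of_mem _ hx)
  rw [hone x hx] at h
  exact (mul_eq_zero.mp h).resolve_right (sg_ne x.2)

end Pool.Agent.TWB
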