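import Pool.Agent.TWB.Defs

/-!
IDS.  The identities of the chains `hh x l` in a commutative ring of characteristic 2 with a
derivation `d`, an involutive automorphism `g` commuting with `d`, and elements `x j b` with
`d (x j b) = 1`, `g (x j b) = x j (!b)`.

Write `y j = x j true + x j false`; `d (y j) = 1 + 1 = 0`, `g (y j) = y j`; so `d` of a product of
`y`s is `0` and `g` fixes it.  (Note `d 1 = 0` from `d (1 * 1)`.)

(1) `d (hh x 0) = Σ_{p : ZMod n} 1 = n = 1` since `n` is odd (`ZMod.card`, `Finset.card_univ`).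

(2) `l = 0`: `hh x 1 = Σ_p x p true * 1 * x (p+1+0) false`; `d` of it is
`Σ_p x (p+1) false + Σ_p x p true = Σ_p (x p false + x p true)` (shift of `p` by the bijection
`p ↦ p + 1`) `= hh x 0 + g (hh x 0)`.
`l = m + 1`: with `B p = ∏_{t < m} y (p + 1 + t)`,
`d (hh x (m+2)) = Σ_p [∏_{t < m+1} y (p+1+t)] * x (p+1+(m+1)) (δ')
                + Σ_p x p true * ∏_{t < m+1} y (p+1+t)`, `δ' = decide ((m+1) % 2 = 1)`.
In the first sum replace `p` by `p - 1` (`Equiv.sum_comp`):
`Σ_p ∏_{t < m+1} y (p+t) * x (p+1+m) δ' = Σ_p y p * B p * x (p+1+m) δ'` (`Finset.prod_range_succ'`);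
the second is `Σ_p x p true * B p * y (p+1+m)` (`Finset.prod_range_succ`).  With
`e = x (p+1+m) δ`, `δ = decide (m % 2 = 1)`, `e' = x (p+1+m) (!δ)`, `δ' = !δ`, `a = x p true`,
`a' = x p false`: the `p` term is `B p * ((a + a') e' + a (e + e')) = B p * (a e + a' e')`
(characteristic 2) `= a B p e + g (a B p e)`; sum: `hh x (m+1) + g (hh x (m+1))`.

(3) `l = 0`: `1 + g 1 = 1 + 1 = 0`.  `l = m + 1`: `d h + g (d h)` with `d h = h' + g h'`, so
`h' + g h' + g h' + g (g h') = 0`.
(4) clear.
-/

set_option autoImplicit false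

namespace Pool.Agent.TWB

theorem IDS {R : Type*} [CommRing R] (h2 : ∀ a : R, a + a = 0) (g : R →+* R) (d : R →+ R)
    (hleib : ∀ a b, d (a * b) = a * d b + b * d a) (hgg : ∀ a, g (g a) = a)
    (hgd : ∀ a, d (g a) = g (d a)) {n : ℕ} [NeZero n] (hn : n % 2 = 1)
    (x : ZMod n → Bool → R) (hx : ∀ j b, d (x j b) = 1) (hgx : ∀ j b, g (x j b) = x j (!b)) :
    d (hh x 0) = 1 ∧ (∀ l, d (hh x (l + 1)) = hh x l + g (hh x l)) ∧
      (∀ l, d (hh x l + g (hh x l)) = 0) ∧
      (∀ l, g (hh x l + g (hh x l)) = hh x l + g (hh x l)) := by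
  have hd1 : d 1 = 0 := by
    have h := hleib 1 1
    rw [mul_one, one_mul, h2] at h
    exact h
  have hdY : ∀ j, d (x j true + x j false) = 0 := fun j => by
    rw [map_add, hx, hx]
    exact h2 1
  have hgY : ∀ j, g (x j true + x j false) = x j true + x j false := fun j => by
    rw [map_add, hgx, hgx, Bool.not_true, Bool.not_false, add_comm]
  have hdP : ∀ (m : ℕ) (q : ZMod n),
      d (∏ t ∈ Finset.range m, (x (q + (t : ZMod n)) true + x (q + (t : ZMod n)) false)) = 0 := by
    intro m q
    refine Finset.prod_induction _ (fun a => d a = 0) (fun a b ha hb => ?_) hd1 (fun t _ => hdY _)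
    rw [hleib, ha, hb, mul_zero, mul_zero, add_zero]
  have hgP : ∀ (m : ℕ) (q : ZMod n),
      g (∏ t ∈ Finset.range m, (x (q + (t : ZMod n)) true + x (q + (t : ZMod n)) false)) =
        ∏ t ∈ Finset.range m, (x (q + (t : ZMod n)) true + x (q + (t : ZMod n)) false) := by
    intro m q
    rw [map_prod]
    exact Finset.prod_congr rfl fun t _ => hgY _
  have hshift : ∀ F : ZMod n → R, ∑ p, F (p + 1) = ∑ p, F p := fun F =>
    Equiv.sum_comp (Equiv.addRight (1 : ZMod n)) F
  have h1 : d (hh x 0) = 1 := by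
    show d (∑ p : ZMod n, x p true) = 1
    rw [map_sum]
    simp only [hx, Finset.sum_const, Finset.card_univ, ZMod.card, nsmul_eq_mul, mul_one]
    obtain ⟨k, hk⟩ : ∃ k, n = k + k + 1 := ⟨n / 2, by omega⟩
    rw [hk]
    push_cast
    rw [h2, zero_add]
  have hsucc : ∀ l, d (hh x (l + 1)) = hh x l + g (hh x l) := by
    intro l
    have hterm : ∀ (a P e : R), d a = 1 → d P = 0 → d e = 1 → d (a * P * e) = a * P + P * e := by
      intro a P e ha hP he
      rw [hleib, hleib, ha, hP, he]
      ring
    cases l with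
    | zero =>
      show d (∑ p : ZMod n, x p true *
        (∏ t ∈ Finset.range 0, (x (p + 1 + (t : ZMod n)) true + x (p + 1 + (t : ZMod n)) false)) *
        x (p + 1 + ((0 : ℕ) : ZMod n)) (decide (0 % 2 = 1))) =
          ∑ p : ZMod n, x p true + g (∑ p : ZMod n, x p true)
      rw [map_sum, map_sum, Finset.sum_congr rfl fun p _ => hterm _ _ _ (hx _ _) (hdP 0 (p + 1)) (hx _ _)]
      simp only [Finset.range_zero, Finset.prod_empty, mul_one, one_mul, Nat.cast_zero, add_zero, hgx,
        Bool.not_true, Finset.sum_add_distrib]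
      congr 1
      exact hshift fun p => x p (decide (0 % 2 = 1))
    | succ m =>
      show d (∑ p : ZMod n, x p true *
        (∏ t ∈ Finset.range (m + 1), (x (p + 1 + (t : ZMod n)) true + x (p + 1 + (t : ZMod n)) false)) *
        x (p + 1 + ((m + 1 : ℕ) : ZMod n)) (decide ((m + 1) % 2 = 1))) =
          ∑ p : ZMod n, x p true *
            (∏ t ∈ Finset.range m, (x (p + 1 + (t : ZMod n)) true + x (p + 1 + (t : ZMod n)) false)) *
            x (p + 1 + (m : ZMod n)) (decide (m % 2 = 1)) +
          g (∑ p : ZMod n, x p true *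
            (∏ t ∈ Finset.range m, (x (p + 1 + (t : ZMod n)) true + x (p + 1 + (t : ZMod n)) false)) *
            x (p + 1 + (m : ZMod n)) (decide (m % 2 = 1)))
      rw [map_sum, map_sum,
        Finset.sum_congr rfl fun p _ => hterm _ _ _ (hx _ _) (hdP (m + 1) (p + 1)) (hx _ _),
        Finset.sum_add_distrib]
      have hF := hshift (fun p => (∏ t ∈ Finset.range (m + 1), (x (p + (t : ZMod n)) true +
        x (p + (t : ZMod n)) false)) * x (p + ((m + 1 : ℕ) : ZMod n)) (decide ((m + 1) % 2 = 1)))
      rw [hF, ← Finset.sum_add_distrib, ← Finset.sum_add_distrib]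
      refine Finset.sum_congr rfl fun p _ => ?_
      rw [map_mul, map_mul, hgx, hgx, hgP m (p + 1), Finset.prod_range_succ, Finset.prod_range_succ']
      have e1 : ∀ t : ℕ, p + ((t + 1 : ℕ) : ZMod n) = p + 1 + (t : ZMod n) := fun t => by
        push_cast
        ring
      simp only [e1, Nat.cast_zero, add_zero, Bool.not_true]
      have e2 : decide ((m + 1) % 2 = 1) = !decide (m % 2 = 1) := by
        rcases Nat.mod_two_eq_zero_or_one m with h | h
        · have : (m + 1) % 2 = 1 := by omega
          simp [h, this]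
        · have : (m + 1) % 2 = 0 := by omega
          simp [h, this]
      rw [e2]
      set B := ∏ t ∈ Finset.range m, (x (p + 1 + (t : ZMod n)) true + x (p + 1 + (t : ZMod n)) false)
        with hB
      have e3 : x (p + 1 + (m : ZMod n)) true + x (p + 1 + (m : ZMod n)) false =
          x (p + 1 + (m : ZMod n)) (decide (m % 2 = 1)) + x (p + 1 + (m : ZMod n)) (!decide (m % 2 = 1)) := by
        cases decide (m % 2 = 1) with
        | true => rfl
        | false => exact add_comm _ _
      rw [e3]
      linear_combination h2 (x p true * B * x (p + 1 + (m : ZMod n)) (!decide (m % 2 = 1)))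
  refine ⟨h1, hsucc, fun l => ?_, fun l => ?_⟩
  · rw [map_add, hgd]
    cases l with
    | zero => rw [h1, map_one, h2]
    | succ m =>
      rw [hsucc, map_add, hgg]
      linear_combination h2 (hh x m + g (hh x m))
  · rw [map_add, hgg, add_comm]

end Pool.Agent.TWB
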