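import Pool.Agent.TWB.ARC

/-!
STR.  Products of the cycles of several circuits.

str_fst: `Finset.mem_biUnion`, arc_fst.
str_good: the arcs of different circuits have different first components of the first coordinate
(arc_fst), inside one arc use arc_inj, arc_card (`k i + 1 ≤ 2 * k i + 1`); `Finset.card_biUnion`.
ZS_mem: induction on `S`: `S = ∅`: `1 = mon ∅`, Str with arbitrary `p`, `b`.
Step: `Sp_mul` with ZZ_mem (for `j`) and the induction hypothesis (disjoint since `j ∉ S`, str_fst);
from `T = arc k j p (k j + 1) b` and `T' = S.biUnion ...` with `p', b'` take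
`Function.update p' j p`, `Function.update b' j b` (on `S` nothing changes).
mix_mem: `Sp_mul` of ZS_mem and hh_mem (disjoint), then Sp_mono: `T ∪ T'` with `Str k S T` and
`T' = arc k i p (l+1) b`, `i ∉ S`, `l + 1 ≤ 2 * k i + 1`.
last_mem: the same, `l = k i`, part_full, and `Function.update`.
-/

set_option autoImplicit false

namespace Pool.Agent.TWB

variable {ι : Type*} [DecidableEq ι]

theorem str_fst {k : ι → ℕ} {S : Finset ι} {T : Finset (Vx k × Bool)} (h : Str k S T)
    {x : Vx k × Bool} (hx : x ∈ T) : x.1.1 ∈ S := by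
  obtain ⟨p, b, _, rfl⟩ := h
  obtain ⟨i, hi, hxi⟩ := Finset.mem_biUnion.mp hx
  rw [arc_fst hxi]
  exact hi

theorem str_good {k : ι → ℕ} {S : Finset ι} {T : Finset (Vx k × Bool)} (h : Str k S T) :
    Set.InjOn Prod.fst (T : Set (Vx k × Bool)) ∧ T.card = ∑ i ∈ S, (k i + 1) := by
  obtain ⟨p, b, _, rfl⟩ := h
  constructor
  · intro x hx y hy hxy
    rw [Finset.mem_coe, Finset.mem_biUnion] at hx hy
    obtain ⟨i, hi, hxi⟩ := hx
    obtain ⟨j, hj, hyj⟩ := hy
    have hij : i = j := by
      rw [← arc_fst hxi, ← arc_fst hyj, hxy]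
    subst hij
    exact arc_inj k i (p i) (k i + 1) (b i) (by omega) hxi hyj hxy
  · rw [Finset.card_biUnion]
    · exact Finset.sum_congr rfl fun i _ => arc_card k i (p i) (k i + 1) (b i) (by omega)
    · intro i _ j _ hij
      refine Finset.disjoint_left.mpr ?_
      intro x hxi hxj
      exact hij (by rw [← arc_fst hxi, ← arc_fst hxj])

private theorem str_insert {k : ι → ℕ} {S : Finset ι} {j : ι} (hj : j ∉ S)
    {T T' : Finset (Vx k × Bool)} (hT : FullArc k j T) (hT' : Str k S T') :
    Str k (insert j S) (T ∪ T') := by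
  obtain ⟨p, b, hb, rfl⟩ := hT
  obtain ⟨p', b', hb', rfl⟩ := hT'
  refine ⟨Function.update p' j p, Function.update b' j b, ?_, ?_⟩
  · intro i hi
    rcases Finset.mem_insert.mp hi with h | h
    · subst h
      rw [Function.update_self]
      exact hb
    · have hij : i ≠ j := fun h' => hj (h' ▸ h)
      rw [Function.update_of_ne hij]
      exact hb' i h
  · rw [Finset.biUnion_insert, Function.update_self, Function.update_self]
    congr 1
    refine Finset.biUnion_congr rfl fun i hi => ?_
    have hij : i ≠ j := fun h' => hj (h' ▸ hi)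
    rw [Function.update_of_ne hij, Function.update_of_ne hij]

theorem ZS_mem (k : ι → ℕ) (hk : ∀ i, k i % 2 = 1) (S : Finset ι) :
    ∏ i ∈ S, ZZ k i ∈ Sp (Str k S) := by
  induction S using Finset.induction_on with
  | empty =>
    rw [Finset.prod_empty]
    have h1 : (1 : MvPolynomial (Vx k × Bool) (ZMod 2)) = mon ∅ := by
      unfold mon
      rw [Finset.prod_empty]
    rw [h1]
    refine mon_mem ⟨fun _ => 0, fun _ _ => true, fun i hi => absurd hi (Finset.notMem_empty i), ?_⟩
    rw [Finset.biUnion_empty]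
  | insert j S hj ih =>
    rw [Finset.prod_insert hj]
    refine Sp_mono ?_ (Sp_mul (P := FullArc k j) (Q := Str k S) ?_ (ZZ_mem k j (hk j)) ih)
    · rintro U ⟨T, T', hT, hT', rfl⟩
      exact str_insert hj hT hT'
    · rintro T T' ⟨p, b, _, rfl⟩ hT'
      rw [Finset.disjoint_left]
      intro x hx hx'
      have h1 := str_fst hT' hx'
      rw [arc_fst hx] at h1
      exact hj h1

private theorem str_part_disj {k : ι → ℕ} {S : Finset ι} {i : ι} (hi : i ∉ S) {l : ℕ}
    {T T' : Finset (Vx k × Bool)} (hT : Str k S T) (hT' : PartArc k i l T') : Disjoint T T' := by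
  obtain ⟨p, b, _, _, rfl⟩ := hT'
  rw [Finset.disjoint_left]
  intro x hx hx'
  have h1 := str_fst hT hx
  rw [arc_fst hx'] at h1
  exact hi h1

theorem mix_mem (k : ι → ℕ) (hk : ∀ i, k i % 2 = 1) (S : Finset ι) (i : ι) (hi : i ∉ S)
    (l : ℕ) (hl : l ≤ 2 * k i) :
    (∏ j ∈ S, ZZ k j) * hh (xx k i) l ∈
      Sp (fun T : Finset (Vx k × Bool) => Set.InjOn Prod.fst (T : Set (Vx k × Bool)) ∧
        T.card = (∑ j ∈ S, (k j + 1)) + (l + 1)) := by
  refine Sp_mono ?_ (Sp_mul (P := Str k S) (Q := PartArc k i l)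
    (fun T T' hT hT' => str_part_disj hi hT hT') (ZS_mem k hk S) (hh_mem k i l hl))
  rintro U ⟨T, T', hT, hT', rfl⟩
  have hdis := str_part_disj hi hT hT'
  obtain ⟨h1, h2⟩ := str_good hT
  obtain ⟨p, b, _, _, rfl⟩ := hT'
  constructor
  · rw [Finset.coe_union]
    intro x hx y hy hxy
    rcases hx with hx | hx <;> rcases hy with hy | hy
    · exact h1 hx hy hxy
    · exfalso
      have h3 := str_fst hT (Finset.mem_coe.mp hx)
      have h4 := arc_fst (Finset.mem_coe.mp hy)
      rw [hxy, h4] at h3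
      exact hi h3
    · exfalso
      have h3 := str_fst hT (Finset.mem_coe.mp hy)
      have h4 := arc_fst (Finset.mem_coe.mp hx)
      rw [← hxy, h4] at h3
      exact hi h3
    · exact arc_inj k i p (l + 1) b (by omega) hx hy hxy
  · rw [Finset.card_union_of_disjoint hdis, h2, arc_card k i p (l + 1) b (by omega)]

theorem last_mem (k : ι → ℕ) (hk : ∀ i, k i % 2 = 1) (S : Finset ι) (i : ι) (hi : i ∉ S) :
    (∏ j ∈ S, ZZ k j) * hh (xx k i) (k i) ∈ Sp (Str k (insert i S)) := by
  refine Sp_mono ?_ (Sp_mul (P := Str k S) (Q := PartArc k i (k i))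
    (fun T T' hT hT' => str_part_disj hi hT hT') (ZS_mem k hk S) (hh_mem k i (k i) (by omega)))
  rintro U ⟨T, T', hT, hT', rfl⟩
  rw [Finset.union_comm]
  exact str_insert hi (part_full (hk i) hT') hT

end Pool.Agent.TWB
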