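import Pool.Agent.TWB.A1
import Pool.Agent.TWB.A2
import Pool.Agent.TWB.IDS
import Pool.Agent.TWB.STR

/-!
A4.  For a generic configuration of vectors in `ℝ^N`, `N + 1 = Σ_i (k i + 1)`, all `k i` odd, there
is a union of full signed arcs (one for each circuit) with a positive relation.

Proof.  By `ext_lin` let `P t`, `U t` be the linear maps to `ZMod 2` with
`P t (mon T) = [PosR (uu v) t T]`, `U t (mon T) = [UpR (uu v) t T]`.  Call `T` good of size `m` if
`fst` is injective on `T` and `#T = m`; `GenOn (uu v) T` for good `T` by `Gen_good`.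
(a) For `C` in the span of good sets of size `t + 2`, `t + 1 ≤ N`: `P (t+1) C = U t (dd C)`
    (`Sp_congr` with `M = ZMod 2`, `dd_mon`, `A1`).
(b) For `C` in the span of good sets of size `t + 1`, `t < N`: `U t (C + gg C) = P t C`
    (`Sp_congr`, `gg_mon`, `UpR_flip`, `A2`).
Write `Z S = ∏_{j∈S} ZZ k j`, `D S = Σ_{j∈S} (k j + 1)`, `h i l = hh (xx k i) l`.  By `IDS` (applied
with `R = MvPolynomial ..`, `g = gg`, `d = dd`, `x = xx k i`, `n = 2 * k i + 1`; `a + a = 0` by
`CharTwo.add_self_eq_zero` or `two_nsmul`; `xx` are variables): `dd (h i 0) = 1`,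
`dd (h i (l+1)) = h i l + gg (h i l)`, `dd (ZZ k i) = 0`, `gg (ZZ k i) = ZZ k i`.  Hence
`dd (Z S) = 0` (Leibniz, induction on `S`) and `gg (Z S) = Z S`.
(c) Claim: for `i ∉ S` (so `D S + (k i + 1) ≤ N + 1`): `P (D S) (Z S * h i 0) = 1`; and if this holds
    then for all `l ≤ k i`: `P (D S + l) (Z S * h i l) = 1`.
    Second part (climbing) by induction on `l`, `l + 1 ≤ k i`: with `t = D S + l`,
    `P (t+1) (Z S * h i (l+1)) = U t (dd (Z S * h i (l+1)))` by (a) (mix_mem; `t + 1 ≤ N`)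
    `= U t (Z S * (h i l + gg (h i l))) = U t (C + gg C)`, `C = Z S * h i l`,
    `= P t C = 1` by (b).
    First part by induction on `S`.  `S = ∅`: `P 0 (h i 0) = Σ_p P 0 (X (⟨i,p⟩,true)) = Σ_p 1
    = 2 * k i + 1 = 1` in `ZMod 2` (`PosR u 0 T` is always true: `z = 1`;
    `X y = mon {y}`).  Step: `insert j S`, `i ∉ insert j S`: by the induction hypothesis for `(S, j)`
    and climbing `P t (C) = 1` with `t = D S + k j`, `C = Z S * h j (k j)`;
    `C + gg C = Z S * ZZ k j = Z (insert j S)`, so `U t (Z (insert j S)) = 1` by (b), and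
    `P (t+1) (Z (insert j S) * h i 0) = U t (dd (...)) = U t (Z (insert j S)) = 1` by (a),
    `D (insert j S) = t + 1`.
(d) Take any `i₀` and `S = univ.erase i₀`: climbing to `l = k i₀` gives
    `P N (Z S * h i₀ (k i₀)) = 1 ≠ 0` (`D S + k i₀ = N`); `last_mem` and `Sp_exists` give `T` with
    `Str k univ T` and `PosR (uu v) N T`.
-/

set_option autoImplicit false

namespace Pool.Agent.TWB

private theorem a4_add_self {σ : Type*} (a : MvPolynomial σ (ZMod 2)) : a + a = 0 := by
  have h1 : a + a = (2 : ZMod 2) • a := by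
    rw [two_smul]
  have h2 : (2 : ZMod 2) = 0 := by decide
  rw [h1, h2, zero_smul]

private theorem a4_ids {ι : Type*} (k : ι → ℕ) (i : ι) :
    dd (hh (xx k i) 0) = 1 ∧
      (∀ l, dd (hh (xx k i) (l + 1)) = hh (xx k i) l + gg (hh (xx k i) l)) ∧
      dd (ZZ k i) = 0 ∧ gg (ZZ k i) = ZZ k i := by
  have h := IDS (R := MvPolynomial (Vx k × Bool) (ZMod 2)) a4_add_self
    (gg (α := Vx k)).toRingHom (dd (σ := Vx k × Bool)).toLinearMap.toAddMonoidHom
    (fun a b => by
      show dd (a * b) = a * dd b + b * dd a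
      rw [Derivation.leibniz, smul_eq_mul, smul_eq_mul])
    (fun a => gg_gg a) (fun a => dd_gg a) (n := 2 * k i + 1) (by omega) (xx k i)
    (fun j b => by
      show dd (MvPolynomial.X ((⟨i, j⟩ : Vx k), b)) = 1
      unfold dd
      rw [MvPolynomial.mkDerivation_X])
    (fun j b => by
      show gg (MvPolynomial.X ((⟨i, j⟩ : Vx k), b)) = MvPolynomial.X ((⟨i, j⟩ : Vx k), !b)
      unfold gg
      rw [MvPolynomial.rename_X])
  exact ⟨h.1, h.2.1, h.2.2.1 (k i), h.2.2.2 (k i)⟩

private theorem a4_dZ {ι : Type*} [DecidableEq ι] (k : ι → ℕ) (S : Finset ι) :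
    dd (∏ j ∈ S, ZZ k j) = 0 := by
  induction S using Finset.induction_on with
  | empty =>
    rw [Finset.prod_empty]
    exact Derivation.map_one_eq_zero _
  | insert j S hj ih =>
    rw [Finset.prod_insert hj, Derivation.leibniz, ih, (a4_ids k j).2.2.1]
    simp

private theorem a4_gZ {ι : Type*} [DecidableEq ι] (k : ι → ℕ) (S : Finset ι) :
    gg (∏ j ∈ S, ZZ k j) = ∏ j ∈ S, ZZ k j := by
  rw [map_prod]
  exact Finset.prod_congr rfl fun j _ => (a4_ids k j).2.2.2

theorem A4 {ι : Type*} [Fintype ι] [DecidableEq ι] [Nonempty ι] (k : ι → ℕ)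
    (hk : ∀ i, k i % 2 = 1) {N : ℕ} (hN : N + 1 = ∑ i, (k i + 1)) (v : Vx k → Fin N → ℝ)
    (hv : GenOn v Finset.univ) :
    ∃ T : Finset (Vx k × Bool), Str k Finset.univ T ∧ PosR (uu v) N T := by
  classical
  choose P hP using fun t => ext_lin (σ := Vx k × Bool)
    (fun T => if PosR (uu v) t T then (1 : ZMod 2) else 0)
  choose U hU using fun t => ext_lin (σ := Vx k × Bool)
    (fun T => if UpR (uu v) t T then (1 : ZMod 2) else 0)
  have hA : ∀ t, t + 1 ≤ N → ∀ C ∈ Sp (fun T : Finset (Vx k × Bool) =>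
      Set.InjOn Prod.fst (T : Set (Vx k × Bool)) ∧ T.card = t + 2),
      P (t + 1) C = U t (dd C) := by
    intro t ht C hC
    refine Sp_congr (P (t + 1)) ((U t).comp (dd (σ := Vx k × Bool)).toLinearMap) ?_ hC
    intro T hT
    show P (t + 1) (mon T) = U t (dd (mon T))
    rw [hP, dd_mon, map_sum]
    have h1 := A1 (uu v) T t ht (Gen_good v hv T hT.1) hT.2
    rw [h1]
    exact Finset.sum_congr rfl fun x _ => (hU t _).symm
  have hB : ∀ t, t < N → ∀ C ∈ Sp (fun T : Finset (Vx k × Bool) =>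
      Set.InjOn Prod.fst (T : Set (Vx k × Bool)) ∧ T.card = t + 1),
      U t (C + gg C) = P t C := by
    intro t ht C hC
    refine Sp_congr ((U t).comp (LinearMap.id + (gg (α := Vx k)).toLinearMap)) (P t) ?_ hC
    intro T hT
    show U t (mon T + gg (mon T)) = P t (mon T)
    rw [map_add, gg_mon, hU, hU, hP]
    have h1 := A2 (uu v) T t ht (Gen_good v hv T hT.1) hT.2
    rw [← h1]
    congr 1
    simp only [UpR_flip]
  -- sums of sizes
  have hD : ∀ (S : Finset ι) (i : ι), i ∉ S → (∑ j ∈ S, (k j + 1)) + (k i + 1) ≤ N + 1 := by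
    intro S i hi
    have h1 : ∑ j ∈ insert i S, (k j + 1) = (k i + 1) + ∑ j ∈ S, (k j + 1) :=
      Finset.sum_insert hi
    have h2 : ∑ j ∈ insert i S, (k j + 1) ≤ ∑ j, (k j + 1) :=
      Finset.sum_le_sum_of_subset (Finset.subset_univ _)
    omega
  have climb : ∀ (S : Finset ι) (i : ι), i ∉ S →
      P (∑ j ∈ S, (k j + 1)) ((∏ j ∈ S, ZZ k j) * hh (xx k i) 0) = 1 →
      ∀ l, l ≤ k i → P ((∑ j ∈ S, (k j + 1)) + l) ((∏ j ∈ S, ZZ k j) * hh (xx k i) l) = 1 := by
    intro S i hi h0 l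
    induction l with
    | zero => intro _; exact h0
    | succ l ih =>
      intro hl
      have hih := ih (by omega)
      have hDi := hD S i hi
      have e1 := hA ((∑ j ∈ S, (k j + 1)) + l) (by omega)
        ((∏ j ∈ S, ZZ k j) * hh (xx k i) (l + 1))
        (Sp_mono (fun T hT => ⟨hT.1, by rw [hT.2]; ring⟩) (mix_mem k hk S i hi (l + 1) (by omega)))
      have e2 : dd ((∏ j ∈ S, ZZ k j) * hh (xx k i) (l + 1))
          = (∏ j ∈ S, ZZ k j) * hh (xx k i) l + gg ((∏ j ∈ S, ZZ k j) * hh (xx k i) l) := by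
        rw [Derivation.leibniz, a4_dZ, (a4_ids k i).2.1 l, map_mul, a4_gZ, smul_zero, add_zero,
          smul_eq_mul, mul_add]
      have e3 := hB ((∑ j ∈ S, (k j + 1)) + l) (by omega) ((∏ j ∈ S, ZZ k j) * hh (xx k i) l)
        (Sp_mono (fun T hT => ⟨hT.1, by rw [hT.2]; ring⟩) (mix_mem k hk S i hi l (by omega)))
      rw [← add_assoc, e1, e2, e3]
      exact hih
  have base : ∀ (S : Finset ι) (i : ι), i ∉ S →
      P (∑ j ∈ S, (k j + 1)) ((∏ j ∈ S, ZZ k j) * hh (xx k i) 0) = 1 := by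
    intro S
    induction S using Finset.induction_on with
    | empty =>
      intro i _
      rw [Finset.sum_empty, Finset.prod_empty, one_mul]
      show P 0 (∑ p : ZMod (2 * k i + 1), xx k i p true) = 1
      rw [map_sum]
      have h1 : ∀ p : ZMod (2 * k i + 1), P 0 (xx k i p true) = 1 := by
        intro p
        have h2 : xx k i p true = mon {((⟨i, p⟩ : Vx k), true)} := by
          unfold mon xx
          rw [Finset.prod_singleton]
        rw [h2, hP, if_pos]
        exact ⟨fun _ => 1, fun x _ => one_pos, fun j hj => absurd hj (Nat.not_lt_zero _)⟩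
      rw [Finset.sum_congr rfl fun p _ => h1 p, Finset.sum_const, Finset.card_univ, ZMod.card,
        nsmul_eq_mul, mul_one]
      push_cast
      have h3 : (2 : ZMod 2) = 0 := by decide
      rw [h3, zero_mul, zero_add]
    | insert j S hj ih =>
      intro i hi
      have h1 := climb S j hj (ih j hj) (k j) le_rfl
      have hDi := hD (insert j S) i hi
      rw [Finset.sum_insert hj] at hDi
      have e0 : (∏ x ∈ insert j S, ZZ k x)
          = (∏ x ∈ S, ZZ k x) * hh (xx k j) (k j) + gg ((∏ x ∈ S, ZZ k x) * hh (xx k j) (k j)) := by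
        rw [Finset.prod_insert hj, map_mul, a4_gZ, mul_comm, ← mul_add]
        rfl
      have e3 := hB ((∑ x ∈ S, (k x + 1)) + k j) (by omega)
        ((∏ x ∈ S, ZZ k x) * hh (xx k j) (k j))
        (Sp_mono (fun T hT => ⟨hT.1, by rw [hT.2]; ring⟩) (mix_mem k hk S j hj (k j) (by omega)))
      rw [← e0, h1] at e3
      have e1 := hA ((∑ x ∈ S, (k x + 1)) + k j) (by omega)
        ((∏ x ∈ insert j S, ZZ k x) * hh (xx k i) 0)
        (Sp_mono (fun T hT => ⟨hT.1, by rw [hT.2, Finset.sum_insert hj]; ring⟩)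
          (mix_mem k hk (insert j S) i hi 0 (by omega)))
      have e2 : dd ((∏ x ∈ insert j S, ZZ k x) * hh (xx k i) 0) = ∏ x ∈ insert j S, ZZ k x := by
        rw [Derivation.leibniz, a4_dZ, (a4_ids k i).1, smul_zero, add_zero, smul_eq_mul, mul_one]
      have e4 : (∑ x ∈ insert j S, (k x + 1)) = (∑ x ∈ S, (k x + 1)) + k j + 1 := by
        rw [Finset.sum_insert hj]
        ring
      rw [e4, e1, e2, e3]
  -- conclusion
  obtain ⟨i₀⟩ := (inferInstance : Nonempty ι)
  have hi₀ : i₀ ∉ (Finset.univ : Finset ι).erase i₀ := Finset.notMem_erase _ _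
  have h1 := climb (Finset.univ.erase i₀) i₀ hi₀ (base _ i₀ hi₀) (k i₀) le_rfl
  have h2 : (∑ j ∈ (Finset.univ : Finset ι).erase i₀, (k j + 1)) + k i₀ = N := by
    have h3 := Finset.sum_erase_add (Finset.univ : Finset ι) (fun j => k j + 1) (Finset.mem_univ i₀)
    omega
  rw [h2] at h1
  have h3 := last_mem k hk (Finset.univ.erase i₀) i₀ hi₀
  rw [Finset.insert_erase (Finset.mem_univ i₀)] at h3
  obtain ⟨T, hT, hPT⟩ := Sp_exists (P N) h3 (by rw [h1]; exact one_ne_zero)
  refine ⟨T, hT, ?_⟩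
  rw [hP] at hPT
  by_contra hn
  rw [if_neg hn] at hPT
  exact hPT rfl

end Pool.Agent.TWB
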