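import Pool.Agent.TWB.SPN

/-!
ARC.  The chains `hh (xx k i) l` are combinations of monomials of signed arcs.

`n = 2 * k i + 1`.  For `t, t' < n` in `ℕ`, `p + t = p + t'` in `ZMod n` implies `t = t'`
(`ZMod.natCast_eq_natCast_iff'`, `Nat.mod_eq_of_lt`).  This gives arc_inj, arc_card.

hh_mem: `l = 0`: `hh = Σ_p X (⟨i,p⟩, true) = Σ_p mon (arc k i p 1 (fun _ => true))` (note
`p + 0 = p`); PartArc with `b = fun _ => true`.
`l = m + 1 ≤ 2 * k i`: it suffices that each term is in the span (`Submodule.sum_mem`).  Fix `p`.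
Claim: for `r ≤ m` the product
`G r = X (⟨i,p⟩,true) * ∏_{t < r} (xx (p+1+t) true + xx (p+1+t) false)` is in
`Sp (fun T => ∃ b, b 0 = true ∧ T = arc k i p (r+1) b)`: induction on `r`; step by `Sp_mul` with
`xx j true + xx j false ∈ Sp (fun T => ∃ c, T = {(⟨i,j⟩, c)})`, `j = p + 1 + r`
(disjoint since all elements of the arc have first coordinates `p + t`, `t ≤ r`, and
`p + 1 + r = p + (r+1)` is different), and
`arc k i p (r+1) b ∪ {(⟨i, p+1+r⟩, c)} = arc k i p (r+2) (Function.update b (r+1) c)`.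
The last factor in the same way with `c = decide (m % 2 = 1)`; then
`b' = Function.update b (m+1) c` satisfies `b' 0 = true`, `b' (m+1) = decide (m % 2 = 1)`.
(The product is associated as `(x * ∏) * x`.)

part_full: `k i = m + 1` with `m` even, so `b (k i) = false = !(b 0)`.
full_flip: `b ↦ fun t => !(b t)`.
ZZ_mem: hh_mem with `l = k i ≤ 2 * k i`, part_full and Sp_mono; gg_mem, full_flip; Submodule.add_mem.
-/

set_option autoImplicit false

namespace Pool.Agent.TWB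

variable {ι : Type*} [DecidableEq ι]

theorem mem_arc {k : ι → ℕ} {i : ι} {p : ZMod (2 * k i + 1)} {m : ℕ} {b : ℕ → Bool}
    {x : Vx k × Bool} :
    x ∈ arc k i p m b ↔ ∃ t : ℕ, t < m ∧ x = ((⟨i, p + (t : ZMod (2 * k i + 1))⟩ : Vx k), b t) := by
  unfold arc
  rw [Finset.mem_image]
  constructor
  · rintro ⟨t, ht, he⟩
    exact ⟨t, Finset.mem_range.1 ht, he.symm⟩
  · rintro ⟨t, ht, he⟩
    exact ⟨t, Finset.mem_range.2 ht, he.symm⟩

theorem arc_fst {k : ι → ℕ} {i : ι} {p : ZMod (2 * k i + 1)} {m : ℕ} {b : ℕ → Bool}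
    {x : Vx k × Bool} (hx : x ∈ arc k i p m b) : x.1.1 = i := by
  obtain ⟨t, -, rfl⟩ := mem_arc.1 hx
  rfl

omit [DecidableEq ι] in
theorem arc_cast_inj {k : ι → ℕ} {i : ι} {p : ZMod (2 * k i + 1)} {t t' : ℕ}
    (ht : t < 2 * k i + 1) (ht' : t' < 2 * k i + 1)
    (h : (⟨i, p + (t : ZMod (2 * k i + 1))⟩ : Vx k) = ⟨i, p + (t' : ZMod (2 * k i + 1))⟩) :
    t = t' := by
  have h1 := (Sigma.mk.inj_iff.1 h).2
  have h2 : (t : ZMod (2 * k i + 1)) = (t' : ZMod (2 * k i + 1)) :=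
    add_left_cancel (eq_of_heq h1)
  rw [ZMod.natCast_eq_natCast_iff'] at h2
  rwa [Nat.mod_eq_of_lt ht, Nat.mod_eq_of_lt ht'] at h2

theorem arc_inj (k : ι → ℕ) (i : ι) (p : ZMod (2 * k i + 1)) (m : ℕ) (b : ℕ → Bool)
    (hm : m ≤ 2 * k i + 1) : Set.InjOn Prod.fst (arc k i p m b : Set (Vx k × Bool)) := by
  intro x hx y hy hxy
  rw [Finset.mem_coe, mem_arc] at hx hy
  obtain ⟨t, ht, rfl⟩ := hx
  obtain ⟨t', ht', rfl⟩ := hy
  have := arc_cast_inj (by omega) (by omega) hxy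
  subst this
  rfl

theorem arc_card (k : ι → ℕ) (i : ι) (p : ZMod (2 * k i + 1)) (m : ℕ) (b : ℕ → Bool)
    (hm : m ≤ 2 * k i + 1) : (arc k i p m b).card = m := by
  unfold arc
  rw [Finset.card_image_of_injOn, Finset.card_range]
  intro t ht t' ht' h
  rw [Finset.mem_coe, Finset.mem_range] at ht ht'
  exact arc_cast_inj (by omega) (by omega) (congrArg Prod.fst h)

theorem arc_succ (k : ι → ℕ) (i : ι) (p : ZMod (2 * k i + 1)) (m : ℕ) (b : ℕ → Bool) :
    arc k i p (m + 1) b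
      = arc k i p m b ∪ {((⟨i, p + (m : ZMod (2 * k i + 1))⟩ : Vx k), b m)} := by
  ext x
  rw [Finset.mem_union, Finset.mem_singleton, mem_arc, mem_arc]
  constructor
  · rintro ⟨t, ht, rfl⟩
    rcases Nat.lt_succ_iff_lt_or_eq.1 ht with h | h
    · exact Or.inl ⟨t, h, rfl⟩
    · subst h; exact Or.inr rfl
  · rintro (⟨t, ht, rfl⟩ | rfl)
    · exact ⟨t, by omega, rfl⟩
    · exact ⟨m, by omega, rfl⟩

theorem arc_congr (k : ι → ℕ) (i : ι) (p : ZMod (2 * k i + 1)) (m : ℕ) {b b' : ℕ → Bool}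
    (h : ∀ t, t < m → b t = b' t) : arc k i p m b = arc k i p m b' := by
  ext x
  rw [mem_arc, mem_arc]
  constructor
  · rintro ⟨t, ht, rfl⟩
    exact ⟨t, ht, by rw [h t ht]⟩
  · rintro ⟨t, ht, rfl⟩
    exact ⟨t, ht, by rw [h t ht]⟩

theorem arc_step {k : ι → ℕ} {i : ι} {p : ZMod (2 * k i + 1)} {r : ℕ} (hr : r + 1 ≤ 2 * k i)
    (Q : Bool → Prop) {a x : MvPolynomial (Vx k × Bool) (ZMod 2)}
    (ha : a ∈ Sp (fun T => ∃ b : ℕ → Bool, b 0 = true ∧ T = arc k i p (r + 1) b))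
    (hx : x ∈ Sp (fun T => ∃ c, Q c ∧
      T = {((⟨i, p + ((r + 1 : ℕ) : ZMod (2 * k i + 1))⟩ : Vx k), c)})) :
    a * x ∈ Sp (fun T => ∃ b : ℕ → Bool, b 0 = true ∧ Q (b (r + 1)) ∧
      T = arc k i p (r + 2) b) := by
  refine Sp_mono ?_ (Sp_mul ?_ ha hx)
  · rintro U ⟨T, T', ⟨b, hb, rfl⟩, ⟨c, hc, rfl⟩, rfl⟩
    refine ⟨Function.update b (r + 1) c, ?_, ?_, ?_⟩
    · rw [Function.update_of_ne (by omega)]; exact hb
    · rw [Function.update_self]; exact hc
    · rw [arc_succ k i p (r + 1), Function.update_self]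
      congr 1
      refine arc_congr k i p (r + 1) (fun t ht => ?_)
      rw [Function.update_of_ne (by omega)]
  · rintro T T' ⟨b, hb, rfl⟩ ⟨c, hc, rfl⟩
    rw [Finset.disjoint_singleton_right, mem_arc]
    rintro ⟨t, ht, he⟩
    have := arc_cast_inj (by omega) (by omega) (congrArg Prod.fst he)
    omega

theorem arc_one (k : ι → ℕ) (i : ι) (p : ZMod (2 * k i + 1)) (b : ℕ → Bool) :
    arc k i p 1 b = {((⟨i, p⟩ : Vx k), b 0)} := by
  rw [arc_succ k i p 0 b]
  have h0 : arc k i p 0 b = ∅ := by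
    ext x
    rw [mem_arc]
    simp
  rw [h0, Finset.empty_union]
  simp

theorem xx_mem (k : ι → ℕ) (i : ι) (p : ZMod (2 * k i + 1)) :
    xx k i p true ∈ Sp (fun T => ∃ b : ℕ → Bool, b 0 = true ∧ T = arc k i p 1 b) := by
  have h1 : xx k i p true = mon ({((⟨i, p⟩ : Vx k), true)} : Finset (Vx k × Bool)) := by
    unfold xx mon
    rw [Finset.prod_singleton]
  rw [h1]
  refine mon_mem ⟨fun _ => true, rfl, ?_⟩
  rw [arc_one]

omit [DecidableEq ι] in
theorem xx_single (k : ι → ℕ) (i : ι) (p : ZMod (2 * k i + 1)) (c : Bool) {Q : Bool → Prop}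
    (hQ : Q c) :
    xx k i p c ∈ Sp (fun T => ∃ c, Q c ∧ T = {((⟨i, p⟩ : Vx k), c)}) := by
  have h1 : xx k i p c = mon ({((⟨i, p⟩ : Vx k), c)} : Finset (Vx k × Bool)) := by
    unfold xx mon
    rw [Finset.prod_singleton]
  rw [h1]
  exact mon_mem ⟨c, hQ, rfl⟩

theorem hh_mem (k : ι → ℕ) (i : ι) (l : ℕ) (hl : l ≤ 2 * k i) :
    hh (xx k i) l ∈ Sp (PartArc k i l) := by
  cases l with
  | zero =>
    show ∑ p : ZMod (2 * k i + 1), xx k i p true ∈ _
    refine Submodule.sum_mem _ (fun p _ => Sp_mono ?_ (xx_mem k i p))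
    rintro T ⟨b, hb, rfl⟩
    exact ⟨p, b, hb, fun l' hl' => by omega, rfl⟩
  | succ m =>
    show ∑ p : ZMod (2 * k i + 1), xx k i p true *
      (∏ t ∈ Finset.range m, (xx k i (p + 1 + (t : ZMod (2 * k i + 1))) true
        + xx k i (p + 1 + (t : ZMod (2 * k i + 1))) false)) *
      xx k i (p + 1 + (m : ZMod (2 * k i + 1))) (decide (m % 2 = 1)) ∈ _
    refine Submodule.sum_mem _ (fun p _ => ?_)
    have hidx : ∀ r : ℕ, p + 1 + (r : ZMod (2 * k i + 1))
        = p + ((r + 1 : ℕ) : ZMod (2 * k i + 1)) := by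
      intro r
      push_cast
      ring
    have claim : ∀ r, r ≤ m → xx k i p true *
        (∏ t ∈ Finset.range r, (xx k i (p + 1 + (t : ZMod (2 * k i + 1))) true
        + xx k i (p + 1 + (t : ZMod (2 * k i + 1))) false)) ∈
        Sp (fun T => ∃ b : ℕ → Bool, b 0 = true ∧ T = arc k i p (r + 1) b) := by
      intro r
      induction r with
      | zero =>
        intro _
        rw [Finset.range_zero, Finset.prod_empty, mul_one]
        exact xx_mem k i p
      | succ r ih =>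
        intro hr
        rw [Finset.prod_range_succ, ← mul_assoc]
        refine Sp_mono ?_ (arc_step (by omega) (fun _ => True) (ih (by omega)) ?_)
        · rintro T ⟨b, hb, -, rfl⟩
          exact ⟨b, hb, rfl⟩
        · rw [hidx]
          exact Submodule.add_mem _ (xx_single k i _ true trivial) (xx_single k i _ false trivial)
    refine Sp_mono ?_ (arc_step (by omega) (fun c => c = decide (m % 2 = 1)) (claim m le_rfl)
      (by rw [hidx]; exact xx_single k i _ _ rfl))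
    rintro T ⟨b, hb, hb', rfl⟩
    refine ⟨p, b, hb, fun l' hl' => ?_, rfl⟩
    have : l' = m := by omega
    rw [this]
    exact hb'

theorem part_full {k : ι → ℕ} {i : ι} (hk : k i % 2 = 1) {T : Finset (Vx k × Bool)}
    (h : PartArc k i (k i) T) : FullArc k i T := by
  obtain ⟨p, b, hb0, hbl, rfl⟩ := h
  refine ⟨p, b, ?_, rfl⟩
  rw [hbl (k i - 1) (by omega), hb0]
  have : ¬ (k i - 1) % 2 = 1 := by omega
  simp [this]

theorem full_flip {k : ι → ℕ} {i : ι} {T : Finset (Vx k × Bool)}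
    (h : FullArc k i T) : FullArc k i (T.image (fun x => (x.1, !x.2))) := by
  obtain ⟨p, b, hb, rfl⟩ := h
  refine ⟨p, fun t => !(b t), by simp [hb], ?_⟩
  unfold arc
  rw [Finset.image_image]
  rfl

theorem ZZ_mem (k : ι → ℕ) (i : ι) (hk : k i % 2 = 1) : ZZ k i ∈ Sp (FullArc k i) := by
  have h1 : hh (xx k i) (k i) ∈ Sp (FullArc k i) :=
    Sp_mono (fun T hT => part_full hk hT) (hh_mem k i (k i) (by omega))
  refine Submodule.add_mem _ h1 (Sp_mono ?_ (gg_mem h1))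
  rintro T ⟨T', hT', rfl⟩
  exact full_flip hT'

end Pool.Agent.TWB
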