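import Pool.Agent.TWB.Defs

/-!
BLOCK.  Solvability of the blocks of a partition of the circuits gives a solution for every
involution that preserves the blocks.

Proof.  For `x : P` let `ι' = {i // π i = x}` and `τ' : Vx (k ∘ val) → Vx (k ∘ val)`,
`⟨⟨i, hi⟩, v⟩ ↦ ⟨⟨(τ ⟨i, v⟩).1, (hπ _).trans hi⟩, (τ ⟨i, v⟩).2⟩`, an involution.  `h x τ'` gives
`p' x`, `c' x` (choose).  Put `p i = p' (π i) ⟨i, rfl⟩`, `c ⟨i, v⟩ = c' (π i) ⟨⟨i, rfl⟩, v⟩`.  For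
`w : Vx k` and `hx : π w.1 = x`: `c w = c' x ⟨⟨w.1, hx⟩, w.2⟩` (`subst hx; rfl`).  Apply this with
`x = π v.1` to `w = τ v` and to `w = v`.  If `τ v ≠ v` then also
`τ' ⟨⟨v.1, rfl⟩, v.2⟩ ≠ ⟨⟨v.1, rfl⟩, v.2⟩` (the map `⟨⟨i, hi⟩, v⟩ ↦ ⟨i, v⟩` has values `τ v` and `v`).
-/

set_option autoImplicit false

namespace Pool.Agent.TWB

theorem BLOCK {ι P : Type*} (k : ι → ℕ) (π : ι → P)
    (h : ∀ x : P, Solv (fun i : {i : ι // π i = x} => k i.1))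
    (τ : Vx k → Vx k) (hτ : ∀ v, τ (τ v) = v) (hπ : ∀ v, π (τ v).1 = π v.1) :
    ∃ (p : ∀ i, ZMod (2 * k i + 1)) (c : Vx k → Bool), (∀ v, τ v ≠ v → c (τ v) ≠ c v) ∧
      ∀ (i : ι) (t : ℕ), t ≤ k i →
        c ⟨i, 2 * (p i + (t : ZMod (2 * k i + 1)))⟩
          ≠ c ⟨i, 2 * (p i + (t : ZMod (2 * k i + 1))) + 1⟩ := by
  classical
  set k' : ∀ x : P, {i : ι // π i = x} → ℕ := fun x i => k i.1 with hk'
  set τ' : ∀ x : P, Vx (k' x) → Vx (k' x) := fun x v =>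
    ⟨⟨(τ ⟨v.1.1, v.2⟩).1, (hπ _).trans v.1.2⟩, (τ ⟨v.1.1, v.2⟩).2⟩ with hτ'
  set Ψ : ∀ x : P, Vx (k' x) → Vx k := fun x v => ⟨v.1.1, v.2⟩ with hΨ
  have hΨinj : ∀ x, Function.Injective (Ψ x) := by
    rintro x ⟨⟨i, hi⟩, v⟩ ⟨⟨j, hj⟩, w⟩ hvw
    simp only [hΨ, Sigma.mk.injEq] at hvw
    obtain ⟨rfl, hvw⟩ := hvw
    rw [heq_eq_eq] at hvw
    subst hvw
    rfl
  have hΨτ : ∀ x v, Ψ x (τ' x v) = τ (Ψ x v) := fun x v => rfl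
  have hinv : ∀ x v, τ' x (τ' x v) = v := by
    intro x v
    apply hΨinj
    rw [hΨτ, hΨτ, hτ]
  choose p' c' h1 h2 using fun x => h x (τ' x) (hinv x)
  refine ⟨fun i => p' (π i) ⟨i, rfl⟩, fun v => c' (π v.1) ⟨⟨v.1, rfl⟩, v.2⟩, fun v hv => ?_,
    fun i t ht => ?_⟩
  · have key : ∀ (w : Vx k) (x : P) (hx : π w.1 = x),
        c' (π w.1) ⟨⟨w.1, rfl⟩, w.2⟩ = c' x ⟨⟨w.1, hx⟩, w.2⟩ := by
      intro w x hx
      subst hx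
      rfl
    have h3 := h1 (π v.1) ⟨⟨v.1, rfl⟩, v.2⟩ (by
      intro h4
      apply hv
      have h5 := congrArg (Ψ (π v.1)) h4
      rw [hΨτ] at h5
      exact h5)
    have h6 := key (τ v) (π v.1) (hπ v)
    intro h7
    exact h3 (h6.symm.trans h7)
  · exact h2 (π i) ⟨i, rfl⟩ t ht

end Pool.Agent.TWB
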