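import Pool.Agent.TWB.Defs

/-!
CLO.  Existence of a relation is preserved in the limit.

Proof.  For a finset `T` let `K T` be the set of `(ε, z)`, `z : σ → ℝ`, with `0 ≤ z x ≤ 1` for all
`x`, `z x = 0` for `x ∉ T`, `Σ_{x∈T} z x = 1` and `Σ_{x∈T} z x * (u x i + ε * w x i) = 0` for all `i`:
a closed subset of `ℝ × (σ → ℝ)` contained in `univ ×ˢ C`, `C = Set.pi univ (fun _ => Set.Icc 0 1)`
compact.  Its projection `A T` to `ℝ` is closed (e.g. `isClosedMap_fst_of_compactSpace` for the
compact space `C`, or sequences).  `A = ⋃_{T, P T} A T` is a finite union, closed.  Every `ε` outside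
the given finite set is in `A`: `PosR` at level `N` gives `z > 0` on `T`, all coordinates `0`;
`T` is nonempty, divide by `Σ_T z` and put `z = 0` outside `T`.  So the complement of `A` is open and
finite, hence empty (`ℝ` has no nonempty finite open subset: `IsOpen.eq_empty_of_finite..`, or: a
dense set (`Set.Finite.dense_compl`) that is closed is everything).  So `0 ∈ A`.
-/

set_option autoImplicit false

namespace Pool.Agent.TWB

theorem CLO {σ : Type*} [Fintype σ] {N : ℕ} (P : Finset σ → Prop) (u w : σ → Fin N → ℝ)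
    (h : {ε : ℝ | ¬ ∃ T : Finset σ, P T ∧ T.Nonempty ∧
      PosR (fun x i => u x i + ε * w x i) N T}.Finite) :
    ∃ T : Finset σ, P T ∧ ∃ z : σ → ℝ, (∀ x ∈ T, 0 ≤ z x) ∧ ∑ x ∈ T, z x = 1 ∧
      ∀ i, ∑ x ∈ T, z x * u x i = 0 := by
  classical
  set K : Finset σ → Set (ℝ × (σ → Set.Icc (0 : ℝ) 1)) := fun T =>
    {q | ∑ x ∈ T, (q.2 x : ℝ) = 1} ∩ ⋂ i : Fin N, {q | ∑ x ∈ T, (q.2 x : ℝ) * (u x i + q.1 * w x i) = 0}
    with hK
  have hKc : ∀ T, IsClosed (K T) := by
    intro T
    refine IsClosed.inter (isClosed_eq ?_ continuous_const)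
      (isClosed_iInter fun i => isClosed_eq ?_ continuous_const)
    · refine continuous_finsetSum _ fun x _ => ?_
      exact continuous_subtype_val.comp ((continuous_apply x).comp continuous_snd)
    · refine continuous_finsetSum _ fun x _ => ?_
      refine (continuous_subtype_val.comp ((continuous_apply x).comp continuous_snd)).mul ?_
      exact continuous_const.add (continuous_fst.mul continuous_const)
  set A : Set ℝ := ⋃ T ∈ {T : Finset σ | P T}, Prod.fst '' K T with hA
  have hAc : IsClosed A := (Set.toFinite {T : Finset σ | P T}).isClosed_biUnion fun T _ =>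
    isClosedMap_fst_of_compactSpace _ (hKc T)
  have hfin : Aᶜ.Finite := by
    refine h.subset fun ε hε => ?_
    rintro ⟨T, hT, hTne, z, hz, hr⟩
    refine hε ?_
    rw [hA, Set.mem_iUnion₂]
    have hS : 0 < ∑ x ∈ T, z x := Finset.sum_pos hz hTne
    have h01 : ∀ x, (if x ∈ T then z x / ∑ x ∈ T, z x else 0) ∈ Set.Icc (0 : ℝ) 1 := by
      intro x
      split_ifs with hx
      · refine ⟨(div_pos (hz x hx) hS).le, ?_⟩
        rw [div_le_one hS]
        exact Finset.single_le_sum (fun y hy => (hz y hy).le) hx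
      · exact ⟨le_rfl, zero_le_one⟩
    refine ⟨T, hT, (ε, fun x => ⟨_, h01 x⟩), ⟨?_, ?_⟩, rfl⟩
    · show ∑ x ∈ T, (if x ∈ T then z x / ∑ x ∈ T, z x else 0) = 1
      rw [Finset.sum_congr rfl fun x hx => if_pos hx, ← Finset.sum_div, div_self hS.ne']
    · rw [Set.mem_iInter]
      intro i
      show ∑ x ∈ T, (if x ∈ T then z x / ∑ x ∈ T, z x else 0) * (u x i + ε * w x i) = 0
      have e1 : ∀ x ∈ T, (if x ∈ T then z x / ∑ x ∈ T, z x else 0) * (u x i + ε * w x i) =
          z x * (u x i + ε * w x i) / ∑ x ∈ T, z x := by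
        intro x hx
        rw [if_pos hx]
        ring
      rw [Finset.sum_congr rfl e1, ← Finset.sum_div, hr i i.2, zero_div]
  have h0 : (0 : ℝ) ∈ A := by
    have hd : Dense A := by
      have := hfin.countable.dense_compl ℝ
      rwa [compl_compl] at this
    have := hd.closure_eq
    rw [hAc.closure_eq] at this
    rw [this]
    exact Set.mem_univ _
  rw [hA, Set.mem_iUnion₂] at h0
  obtain ⟨T, hT, ⟨ε, z⟩, ⟨h1, h2⟩, h3⟩ := h0
  simp only at h3
  subst h3
  refine ⟨T, hT, fun x => z x, fun x _ => (z x).2.1, h1, fun i => ?_⟩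
  have := Set.mem_iInter.1 h2 i
  simpa using this

end Pool.Agent.TWB
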