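import Pool.Agent.TWB.Defs

/-!
PERT.  Every configuration of vectors becomes generic after adding `ε` times a Vandermonde
configuration, for all but finitely many `ε`.

Proof.  Choose an injective `c : α → ℝ` (e.g. `c j = (Fintype.equivFin α j : ℕ)`), `w j i = c j ^ i`.
For a finset `S` of `α` with `s = #S ≤ N` let `e : Fin s ≃ S` and let `A`, `B` be the `s × s`
matrices `A i j = v (e j) i`, `B i j = w (e j) i` (`i < s ≤ N`).  `det B ≠ 0` (transpose of a
Vandermonde matrix with different nodes, `Matrix.det_vandermonde_ne_zero_iff`).  The polynomial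
`f_S = det (X • B.map C + A.map C)` has coefficient `det B ≠ 0` at `X ^ s`
(`Polynomial.coeff_det_X_add_C_card`), so `f_S ≠ 0` and it has finitely many roots, and
`f_S.eval ε = det (ε • B + A)` (`Polynomial.eval_det`, or ring hom `Polynomial.evalRingHom` and
`RingHom.map_det`).  If `ε` is not a root of any `f_S` then the configuration is generic: a relation
`z` on `S` in the first `s` coordinates is a vector with `(ε • B + A).mulVec (z ∘ e) = 0`, hence `0`
(`Matrix.eq_zero_of_mulVec_eq_zero`).  Finite union over `S` (`Set.Finite.subset`,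
`Set.finite_iUnion`).
-/

set_option autoImplicit false

namespace Pool.Agent.TWB

open Matrix Polynomial in
private theorem pert_poly {s : ℕ} (A B : Matrix (Fin s) (Fin s) ℝ) (hB : B.det ≠ 0) :
    {ε : ℝ | (ε • B + A).det = 0}.Finite := by
  set f : ℝ[X] := ((X : ℝ[X]) • B.map (C : ℝ → ℝ[X]) + A.map (C : ℝ → ℝ[X])).det with hf
  have hf0 : f ≠ 0 := by
    intro h0
    apply hB
    have h1 := Polynomial.coeff_det_X_add_C_card B A
    rw [← hf, h0, Polynomial.coeff_zero] at h1
    exact h1.symm
  have hev : ∀ ε : ℝ, f.eval ε = (ε • B + A).det := by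
    intro ε
    rw [hf, ← Polynomial.coe_evalRingHom, RingHom.map_det]
    congr 1
    ext i j
    have h2 : B i j * ε = ε * B i j := mul_comm _ _
    simp [RingHom.mapMatrix_apply, Matrix.map_apply, Matrix.add_apply, Matrix.smul_apply, h2]
  refine (f.roots.toFinset.finite_toSet).subset ?_
  intro ε hε
  rw [Finset.mem_coe, Multiset.mem_toFinset, Polynomial.mem_roots hf0, Polynomial.IsRoot.def,
    hev]
  exact hε

private theorem PERT_aux {α : Type*} [Fintype α] {N : ℕ} (v w : α → Fin N → ℝ)
    (c : α → ℝ) (hc : Function.Injective c) (hw : ∀ j i, w j i = c j ^ (i : ℕ)) (S : Finset α)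
    (hS : S.card ≤ N) :
    {ε : ℝ | ¬ ∀ z : α → ℝ, (∀ i : Fin N, i.val < S.card →
      ∑ x ∈ S, z x * (v x i + ε * w x i) = 0) → ∀ x ∈ S, z x = 0}.Finite := by
  let e : Fin S.card ≃ S := S.equivFin.symm
  let A : Matrix (Fin S.card) (Fin S.card) ℝ := fun i j => v (e j) (Fin.castLE hS i)
  let B : Matrix (Fin S.card) (Fin S.card) ℝ := fun i j => w (e j) (Fin.castLE hS i)
  have hB : B.det ≠ 0 := by
    have h1 : B = Matrix.transpose (Matrix.vandermonde fun j : Fin S.card => c (e j)) := by
      ext i j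
      rw [Matrix.transpose_apply, Matrix.vandermonde_apply]
      exact hw _ _
    rw [h1, Matrix.det_transpose]
    refine Matrix.det_vandermonde_ne_zero_iff.2 ?_
    intro i j hij
    exact e.injective (Subtype.ext (hc hij))
  refine (pert_poly A B hB).subset ?_
  intro ε hε
  by_contra hdet
  apply hε
  intro z hz
  have hdet' : (ε • B + A).det ≠ 0 := hdet
  have h1 : (ε • B + A).mulVec (fun j => z (e j)) = 0 := by
    funext i
    have h2 := hz (Fin.castLE hS i) i.2
    rw [Pi.zero_apply]
    calc (ε • B + A).mulVec (fun j => z (e j)) i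
        = ∑ j : Fin S.card, (ε * w (e j) (Fin.castLE hS i) + v (e j) (Fin.castLE hS i)) *
            z (e j) := rfl
      _ = ∑ x : S, (ε * w x (Fin.castLE hS i) + v x (Fin.castLE hS i)) * z x :=
          Equiv.sum_comp e (fun x : S =>
            (ε * w x (Fin.castLE hS i) + v x (Fin.castLE hS i)) * z x)
      _ = ∑ x ∈ S, (ε * w x (Fin.castLE hS i) + v x (Fin.castLE hS i)) * z x :=
          Finset.sum_coe_sort S
            (fun x => (ε * w x (Fin.castLE hS i) + v x (Fin.castLE hS i)) * z x)
      _ = ∑ x ∈ S, z x * (v x (Fin.castLE hS i) + ε * w x (Fin.castLE hS i)) :=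
          Finset.sum_congr rfl fun x _ => by ring
      _ = 0 := h2
  have h2 := Matrix.eq_zero_of_mulVec_eq_zero hdet' h1
  intro x hx
  have h3 := congrFun h2 (e.symm ⟨x, hx⟩)
  simpa using h3

theorem PERT {α : Type*} [Fintype α] {N : ℕ} (v : α → Fin N → ℝ) :
    ∃ w : α → Fin N → ℝ,
      {ε : ℝ | ¬ GenOn (fun j i => v j i + ε * w j i) (Finset.univ : Finset α)}.Finite := by
  classical
  let c : α → ℝ := fun j => ((Fintype.equivFin α j : ℕ) : ℝ)
  have hc : Function.Injective c := by
    intro i j hij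
    have h1 : (Fintype.equivFin α i : ℕ) = (Fintype.equivFin α j : ℕ) := Nat.cast_injective hij
    exact (Fintype.equivFin α).injective (Fin.ext h1)
  refine ⟨fun j i => c j ^ (i : ℕ), ?_⟩
  have hfin : (⋃ S : {S : Finset α // S.card ≤ N},
      {ε : ℝ | ¬ ∀ z : α → ℝ, (∀ i : Fin N, i.val < S.1.card →
        ∑ x ∈ S.1, z x * (v x i + ε * (c x ^ (i : ℕ))) = 0) → ∀ x ∈ S.1, z x = 0}).Finite := by
    apply Set.finite_iUnion
    intro S
    exact PERT_aux v (fun j i => c j ^ (i : ℕ)) c hc (fun _ _ => rfl) S.1 S.2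
  refine hfin.subset ?_
  intro ε hε
  by_contra hno
  apply hε
  intro S _ hS z hz
  by_contra hx
  apply hno
  rw [Set.mem_iUnion]
  exact ⟨⟨S, hS⟩, fun hall => hx (hall z hz)⟩

end Pool.Agent.TWB
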