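import Pool.Agent.TWB.A4
import Pool.Agent.TWB.PERT
import Pool.Agent.TWB.CLO

/-!
BUA.  Main theorem of part A: for circuits of lengths `2 k i + 1`, all `k i` odd, and arbitrary
vectors `V e` of the edges in a space of dimension `Σ (k i + 1) - 1`, there are arcs of `k i + 1`
consecutive edges and signs, opposite at the two ends of each arc, such that the signed vectors have
a nontrivial nonnegative relation.

Proof.  `N = Fintype.card ρ`, `e : ρ ≃ Fin N`, `v j i = V j (e.symm i)`.  `PERT` gives `w`.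
`uu (v + ε w) = uu v + ε uu w` pointwise.  For all `ε` outside a finite set `A4` gives `T` with
`Str k univ T` and `PosR (uu (v + ε w)) N T`; `T` is nonempty (`str_good`: its cardinality is
`Σ (k i + 1) = N + 1 > 0`).  `CLO` with `P = Str k univ`, `u = uu v`, `w = uu w` gives `T`, `z ≥ 0` with
sum `1` and `Σ_{x∈T} z x * uu v x i = 0`.  From `Str` get `p`, `b`.  Put
`z' i t = if t ≤ k i then z (⟨i, p i + t⟩, b i t) else 0`.  For every function `f`,
`Σ_{x∈T} f x = Σ_i Σ_{t < k i + 1} f (⟨i, p i + t⟩, b i t)` (`Finset.sum_biUnion`: arcs of different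
circuits are disjoint (`arc_fst`); `Finset.sum_image`: injective for `t < k i + 1 ≤ 2 k i + 1`).
The sum of all `z'` is `1`, so some `z' i t ≠ 0`.
-/

set_option autoImplicit false

namespace Pool.Agent.TWB

private theorem bua_inj {n a b : ℕ} [NeZero n] (p : ZMod n) (ha : a < n) (hb : b < n)
    (h : p + (a : ZMod n) = p + (b : ZMod n)) : a = b := by
  have h1 : (a : ZMod n) = (b : ZMod n) := add_left_cancel h
  rw [ZMod.natCast_eq_natCast_iff'] at h1
  rwa [Nat.mod_eq_of_lt ha, Nat.mod_eq_of_lt hb] at h1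

private theorem bua_sum {ι : Type*} [Fintype ι] [DecidableEq ι] (k : ι → ℕ)
    (p : ∀ i, ZMod (2 * k i + 1)) (b : ι → ℕ → Bool) (F : Vx k × Bool → ℝ) :
    ∑ x ∈ Finset.univ.biUnion (fun i => arc k i (p i) (k i + 1) (b i)), F x =
      ∑ i, ∑ t ∈ Finset.range (k i + 1), F (⟨i, p i + (t : ZMod (2 * k i + 1))⟩, b i t) := by
  rw [Finset.sum_biUnion]
  · refine Finset.sum_congr rfl fun i _ => ?_
    unfold arc
    rw [Finset.sum_image]
    intro a ha a' ha' haa
    simp only [Finset.coe_range, Set.mem_Iio] at ha ha'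
    have h1 := congrArg Prod.fst haa
    simp only [Sigma.mk.injEq, heq_eq_eq, true_and] at h1
    exact bua_inj (p i) (by omega) (by omega) h1
  · intro i _ j _ hij
    rw [Function.onFun, Finset.disjoint_left]
    intro x hx hx'
    unfold arc at hx hx'
    obtain ⟨t, _, rfl⟩ := Finset.mem_image.1 hx
    obtain ⟨t', _, h'⟩ := Finset.mem_image.1 hx'
    exact hij (congrArg (fun x : Vx k × Bool => x.1.1) h').symm

theorem BUA {ι : Type*} [Fintype ι] [DecidableEq ι] [Nonempty ι] (k : ι → ℕ)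
    (hk : ∀ i, k i % 2 = 1) {ρ : Type*} [Fintype ρ]
    (hρ : Fintype.card ρ + 1 = ∑ i, (k i + 1)) (V : Vx k → ρ → ℝ) :
    ∃ (p : ∀ i, ZMod (2 * k i + 1)) (b : ι → ℕ → Bool) (z : ι → ℕ → ℝ),
      (∀ i t, 0 ≤ z i t) ∧ (∃ i, ∃ t ≤ k i, z i t ≠ 0) ∧ (∀ i, b i (k i) = !(b i 0)) ∧
      ∀ r : ρ, ∑ i, ∑ t ∈ Finset.range (k i + 1),
        sg (b i t) * z i t * V ⟨i, p i + (t : ZMod (2 * k i + 1))⟩ r = 0 := by
  classical
  set e := Fintype.equivFin ρ with he
  set v : Vx k → Fin (Fintype.card ρ) → ℝ := fun j i => V j (e.symm i) with hv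
  obtain ⟨w, hw⟩ := PERT v
  obtain ⟨T, hT, z, hz0, hz1, hz2⟩ := CLO (Str k Finset.univ) (uu v) (uu w) (by
    refine hw.subset fun ε hε => ?_
    intro hgen
    refine hε ?_
    obtain ⟨T, hT, hP⟩ := A4 k hk hρ _ hgen
    refine ⟨T, hT, ?_, ?_⟩
    · obtain ⟨p, b, _, rfl⟩ := hT
      obtain ⟨i⟩ := ‹Nonempty ι›
      refine ⟨(⟨i, p i + ((0 : ℕ) : ZMod (2 * k i + 1))⟩, b i 0), ?_⟩
      rw [Finset.mem_biUnion]
      refine ⟨i, Finset.mem_univ _, ?_⟩
      unfold arc
      exact Finset.mem_image_of_mem (fun t : ℕ => ((⟨i, p i + (t : ZMod (2 * k i + 1))⟩ : Vx k), b i t))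
        (Finset.mem_range.2 (Nat.succ_pos _))
    · have hfun : (fun x i => uu v x i + ε * uu w x i) = uu (fun j i => v j i + ε * w j i) := by
        funext x i
        unfold uu
        ring
      rw [hfun]
      exact hP)
  obtain ⟨p, b, hb, rfl⟩ := hT
  have hmem : ∀ i, ∀ t ≤ k i, ((⟨i, p i + (t : ZMod (2 * k i + 1))⟩ : Vx k), b i t) ∈
      Finset.univ.biUnion (fun i => arc k i (p i) (k i + 1) (b i)) := by
    intro i t ht
    rw [Finset.mem_biUnion]
    refine ⟨i, Finset.mem_univ _, ?_⟩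
    unfold arc
    exact Finset.mem_image_of_mem (fun t : ℕ => ((⟨i, p i + (t : ZMod (2 * k i + 1))⟩ : Vx k), b i t))
      (Finset.mem_range.2 (Nat.lt_succ_of_le ht))
  refine ⟨p, b, fun i t => if t ≤ k i then z (⟨i, p i + (t : ZMod (2 * k i + 1))⟩, b i t) else 0,
    fun i t => ?_, ?_, fun i => hb i (Finset.mem_univ _), fun r => ?_⟩
  · dsimp only
    split_ifs with h
    · exact hz0 _ (hmem i t h)
    · exact le_rfl
  · by_contra hcon
    push Not at hcon
    rw [bua_sum] at hz1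
    rw [Finset.sum_eq_zero] at hz1
    · exact zero_ne_one hz1
    · intro i _
      refine Finset.sum_eq_zero fun t ht => ?_
      have ht' : t ≤ k i := Nat.lt_succ_iff.1 (Finset.mem_range.1 ht)
      have := hcon i t ht'
      rwa [if_pos ht'] at this
  · have h1 := hz2 (e r)
    rw [bua_sum] at h1
    refine Eq.trans ?_ h1
    refine Finset.sum_congr rfl fun i _ => Finset.sum_congr rfl fun t ht => ?_
    have ht' : t ≤ k i := Nat.lt_succ_iff.1 (Finset.mem_range.1 ht)
    dsimp only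
    rw [if_pos ht']
    simp only [uu, hv, Equiv.symm_apply_apply]
    ring

end Pool.Agent.TWB
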