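import Pool.Agent.TWB.NU
import Pool.Agent.Helper74.BIS.TWO

/-!
COL.  The colouring from a relation with positive coefficients at all ends of the arcs.

Write `e i t = ⟨i, p i + t⟩`, `t ≤ k i`.  For a vertex `v` put
`A v = Σ_i Σ_{t < k i + 1} sg (s i t) * z i t * ((if hd (e i t) = v then a (e i t) else 0)
        - (if tl (e i t) = v then b (e i t) else 0))`.
(1) If `τ v ≠ v` then `A v + A (τ v) = 0`: `o v = some q` for some `q` (`ho1`), and `o w = some q`
    iff `w = v` or `w = τ v` (`ho2`), so `hrel q` says exactly this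
    (`(if o w = some q then x else 0) = (if w = v then x else 0) + (if w = τ v then x else 0)`).
(2) Coincidences: `hd (e i t) = hd (e i' t')` iff `i = i'`, `t = t'` (`two_inj`, `add_inj`), the same
    for `tl`; `hd (e i t) = tl (e i' t')` iff `i = i'`, `t = 0`, `t' = k i` (`two_cross`, `end_eq`).  So
    * `1 ≤ t ≤ k i`: `A (hd (e i t)) = sg (s i t) * z i t * a (e i t)`;
    * `t < k i`: `A (tl (e i t)) = - sg (s i t) * z i t * b (e i t)`;
    * `A (hd (e i 0)) = A (tl (e i (k i))) = sg (s i 0) * z i 0 * a (e i 0)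
       - sg (s i (k i)) * z i (k i) * b (e i (k i))
       = sg (s i 0) * (z i 0 * a (e i 0) + z i (k i) * b (e i (k i)))` by `hs`.
(3) `TWO τ (nuH (fun i => 2 * p i + 1))` gives `c0`.  Let `c v = true` if `0 < A v`, `false` if
    `A v < 0`, `c0 v` if `A v = 0`.
    * `τ v ≠ v`: by (1) either `A v`, `A (τ v)` have opposite signs or both are `0` and
      `c0 (τ v) ≠ c0 v`.
    * edge `t = 0`: `A (hd)` has the sign `s i 0`, `A (tl) = - sg (s i 0) * z i 0 * b` (`0 < k i`)
      the opposite sign.  Edge `t = k i` (`≥ 1`): `A (hd) = sg (s i (k i)) z i (k i) a`, opposite to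
      `A (tl (e i (k i)))` which has the sign `s i 0`.
    * `1 ≤ t < k i`: `A (hd)`, `A (tl)` have opposite signs if `z i t > 0`; if `z i t = 0` both are `0`
      and `tl (e i t) = nuH _ (hd (e i t))` (`nuZ_edge`), different from `hd (e i t)`, so `c0`
      separates them.
-/

set_option autoImplicit false

namespace Pool.Agent.TWB

private theorem sum42 {ι : Type*} [Fintype ι] [DecidableEq ι] (k : ι → ℕ) (F : ι → ℕ → ℝ)
    (i0 : ι) (t0 : ℕ) (ht0 : t0 ≤ k i0)
    (h : ∀ i t, t ≤ k i → ¬ (i = i0 ∧ t = t0) → F i t = 0) :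
    ∑ i, ∑ t ∈ Finset.range (k i + 1), F i t = F i0 t0 := by
  rw [Finset.sum_eq_single i0]
  · rw [Finset.sum_eq_single t0]
    · intro t ht hne
      exact h i0 t (by rw [Finset.mem_range] at ht; omega) (fun hh => hne hh.2)
    · intro hn
      exact absurd (Finset.mem_range.2 (by omega)) hn
  · intro i _ hne
    refine Finset.sum_eq_zero fun t ht => ?_
    exact h i t (by rw [Finset.mem_range] at ht; omega) (fun hh => hne hh.1)
  · intro hn
    exact absurd (Finset.mem_univ _) hn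

private theorem zero42 {ι : Type*} [Fintype ι] (k : ι → ℕ) (F : ι → ℕ → ℝ)
    (h : ∀ i t, t ≤ k i → F i t = 0) :
    ∑ i, ∑ t ∈ Finset.range (k i + 1), F i t = 0 := by
  refine Finset.sum_eq_zero fun i _ => Finset.sum_eq_zero fun t ht => ?_
  exact h i t (by rw [Finset.mem_range] at ht; omega)

open Classical in
/-- colour from a real number and a default colour -/
private noncomputable def cz42 (x : ℝ) (b : Bool) : Bool :=
  if 0 < x then true else if x < 0 then false else b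

private theorem cz42_pos {x : ℝ} (hx : 0 < x) (b : Bool) : cz42 x b = true := by
  rw [cz42, if_pos hx]

private theorem cz42_neg {x : ℝ} (hx : x < 0) (b : Bool) : cz42 x b = false := by
  rw [cz42, if_neg (by linarith), if_pos hx]

private theorem cz42_zero (b : Bool) : cz42 0 b = b := by
  rw [cz42, if_neg (lt_irrefl _), if_neg (lt_irrefl _)]

private theorem cz42_opp {x y : ℝ} (h : x + y = 0) {b b' : Bool} (hb : b ≠ b') :
    cz42 x b ≠ cz42 y b' := by
  rcases lt_trichotomy x 0 with hx | hx | hx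
  · rw [cz42_neg hx, cz42_pos (by linarith)]
    simp
  · have hy : y = 0 := by linarith
    rw [hx, hy, cz42_zero, cz42_zero]
    exact hb
  · rw [cz42_pos hx, cz42_neg (by linarith)]
    simp

private theorem cz42_sg (β : Bool) {x y : ℝ} (hx : 0 < x) (hy : 0 < y) (b b' : Bool) :
    cz42 (sg β * x) b ≠ cz42 (-(sg β * y)) b' := by
  cases β
  · rw [cz42_neg (by simp [sg, hx]), cz42_pos (by simp [sg, hy])]
    simp
  · rw [cz42_pos (by simp [sg, hx]), cz42_neg (by simp [sg, hy])]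
    simp

private theorem sg42_not (β : Bool) : sg (!β) = - sg β := by
  cases β <;> simp [sg]

theorem COL {ι : Type*} [Fintype ι] [DecidableEq ι] (k : ι → ℕ) (hk : ∀ i, 1 ≤ k i)
    (τ : Vx k → Vx k) (hτ : ∀ v, τ (τ v) = v) {Q : Type*} [DecidableEq Q]
    (o : Vx k → Option Q) (ho1 : ∀ v, o v = none ↔ τ v = v)
    (ho2 : ∀ v w, τ v ≠ v → (o w = o v ↔ w = v ∨ w = τ v))
    (a b : Vx k → ℝ) (ha : ∀ e, 0 < a e) (hb : ∀ e, 0 < b e)
    (p : ∀ i, ZMod (2 * k i + 1)) (s : ι → ℕ → Bool) (hs : ∀ i, s i (k i) = !(s i 0))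
    (z : ι → ℕ → ℝ) (hz : ∀ i t, 0 ≤ z i t) (hz0 : ∀ i, 0 < z i 0 ∧ 0 < z i (k i))
    (hrel : ∀ q : Q, ∑ i, ∑ t ∈ Finset.range (k i + 1), sg (s i t) * z i t *
      ((if o (hd (⟨i, p i + (t : ZMod (2 * k i + 1))⟩ : Vx k)) = some q
          then a ⟨i, p i + (t : ZMod (2 * k i + 1))⟩ else 0)
        - (if o (tl (⟨i, p i + (t : ZMod (2 * k i + 1))⟩ : Vx k)) = some q
          then b ⟨i, p i + (t : ZMod (2 * k i + 1))⟩ else 0)) = 0) :
    ∃ c : Vx k → Bool, (∀ v, τ v ≠ v → c (τ v) ≠ c v) ∧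
      ∀ (i : ι) (t : ℕ), t ≤ k i →
        c (hd (⟨i, p i + (t : ZMod (2 * k i + 1))⟩ : Vx k))
          ≠ c (tl (⟨i, p i + (t : ZMod (2 * k i + 1))⟩ : Vx k)) := by
  classical
  set e : ∀ _ : ι, ℕ → Vx k := fun i t => ⟨i, p i + (t : ZMod (2 * k i + 1))⟩ with he
  have F1 : ∀ i t i' t', t ≤ k i → t' ≤ k i' → hd (e i t) = hd (e i' t') → i = i' ∧ t = t' := by
    intro i t i' t' ht ht' h
    have h1 : i = i' := congrArg Sigma.fst h
    subst h1
    refine ⟨rfl, ?_⟩
    have h2 : 2 * (p i + (t : ZMod (2 * k i + 1))) = 2 * (p i + (t' : ZMod (2 * k i + 1))) := by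
      simpa [hd, he] using h
    exact add_inj (k i) (p i) t t' ht ht' (two_inj (k i) _ _ h2)
  have F2 : ∀ i t i' t', t ≤ k i → t' ≤ k i' → tl (e i t) = tl (e i' t') → i = i' ∧ t = t' := by
    intro i t i' t' ht ht' h
    have h1 : i = i' := congrArg Sigma.fst h
    subst h1
    refine ⟨rfl, ?_⟩
    have h2 : 2 * (p i + (t : ZMod (2 * k i + 1))) + 1 =
        2 * (p i + (t' : ZMod (2 * k i + 1))) + 1 := eq_of_heq (Sigma.mk.inj_iff.1 h).2
    exact add_inj (k i) (p i) t t' ht ht' (two_inj (k i) _ _ (add_right_cancel h2))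
  have F3 : ∀ i t i' t', t ≤ k i → t' ≤ k i' → hd (e i t) = tl (e i' t') →
      i = i' ∧ t = 0 ∧ t' = k i' := by
    intro i t i' t' ht ht' h
    have h1 : i = i' := congrArg Sigma.fst h
    subst h1
    have h2 : 2 * (p i + (t : ZMod (2 * k i + 1))) =
        2 * (p i + (t' : ZMod (2 * k i + 1))) + 1 := eq_of_heq (Sigma.mk.inj_iff.1 h).2
    have h3 := two_cross (k i) (p i) t t' ht ht' h2
    exact ⟨rfl, h3.1, h3.2⟩
  have F4 : ∀ i, tl (e i (k i)) = hd (e i 0) := by
    intro i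
    have h2 := end_eq (k i) (p i)
    change (⟨i, 2 * (p i + ((k i : ℕ) : ZMod (2 * k i + 1))) + 1⟩ : Vx k) =
      ⟨i, 2 * (p i + ((0 : ℕ) : ZMod (2 * k i + 1)))⟩
    rw [h2, Nat.cast_zero, add_zero]
  let H : Vx k → ℝ := fun v => ∑ i, ∑ t ∈ Finset.range (k i + 1),
    sg (s i t) * z i t * (if hd (e i t) = v then a (e i t) else 0)
  let L : Vx k → ℝ := fun v => ∑ i, ∑ t ∈ Finset.range (k i + 1),
    sg (s i t) * z i t * (if tl (e i t) = v then b (e i t) else 0)
  have H1 : ∀ i t, t ≤ k i → H (hd (e i t)) = sg (s i t) * z i t * a (e i t) := by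
    intro i t ht
    change (∑ i', ∑ t' ∈ Finset.range (k i' + 1),
      sg (s i' t') * z i' t' * (if hd (e i' t') = hd (e i t) then a (e i' t') else 0)) = _
    rw [sum42 k _ i t ht]
    · rw [if_pos rfl]
    · intro i' t' ht' hne
      rw [if_neg (fun h => hne (F1 i' t' i t ht' ht h)), mul_zero]
  have L1 : ∀ i t, t ≤ k i → L (tl (e i t)) = sg (s i t) * z i t * b (e i t) := by
    intro i t ht
    change (∑ i', ∑ t' ∈ Finset.range (k i' + 1),
      sg (s i' t') * z i' t' * (if tl (e i' t') = tl (e i t) then b (e i' t') else 0)) = _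
    rw [sum42 k _ i t ht]
    · rw [if_pos rfl]
    · intro i' t' ht' hne
      rw [if_neg (fun h => hne (F2 i' t' i t ht' ht h)), mul_zero]
  have H0 : ∀ i t, t ≤ k i → t ≠ k i → H (tl (e i t)) = 0 := by
    intro i t ht hne
    refine zero42 k _ fun i' t' ht' => ?_
    rw [if_neg (fun h => hne (F3 i' t' i t ht' ht h).2.2), mul_zero]
  have L0 : ∀ i t, t ≤ k i → t ≠ 0 → L (hd (e i t)) = 0 := by
    intro i t ht hne
    refine zero42 k _ fun i' t' ht' => ?_
    rw [if_neg (fun h => hne (F3 i t i' t' ht ht' h.symm).2.1), mul_zero]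
  let A : Vx k → ℝ := fun v => H v - L v
  have A1 : ∀ i t, t ≤ k i → t ≠ 0 → A (hd (e i t)) = sg (s i t) * (z i t * a (e i t)) := by
    intro i t ht hne
    change H _ - L _ = _
    rw [H1 i t ht, L0 i t ht hne]
    ring
  have A2 : ∀ i t, t ≤ k i → t ≠ k i → A (tl (e i t)) = -(sg (s i t) * (z i t * b (e i t))) := by
    intro i t ht hne
    change H _ - L _ = _
    rw [L1 i t ht, H0 i t ht hne]
    ring
  have A3 : ∀ i, A (hd (e i 0)) =
      sg (s i 0) * (z i 0 * a (e i 0) + z i (k i) * b (e i (k i))) := by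
    intro i
    change H _ - L _ = _
    rw [H1 i 0 (Nat.zero_le _), ← F4 i, L1 i (k i) le_rfl, hs i, sg42_not]
    ring
  have A4 : ∀ v, τ v ≠ v → A (τ v) + A v = 0 := by
    intro v hv
    obtain ⟨q, hq⟩ : ∃ q, o v = some q := by
      rcases h : o v with _ | q
      · exact absurd ((ho1 v).1 h) hv
      · exact ⟨q, rfl⟩
    have key : ∀ (w : Vx k) (x : ℝ), (if o w = some q then x else 0) =
        (if w = τ v then x else 0) + (if w = v then x else 0) := by
      intro w x
      have h1 : o w = some q ↔ w = v ∨ w = τ v := by rw [← hq]; exact ho2 v w hv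
      by_cases h2 : w = v
      · have h3 : w ≠ τ v := fun h => hv (h.symm.trans h2)
        rw [if_pos (h1.2 (Or.inl h2)), if_neg h3, if_pos h2, zero_add]
      · by_cases h3 : w = τ v
        · rw [if_pos (h1.2 (Or.inr h3)), if_pos h3, if_neg h2, add_zero]
        · rw [if_neg (fun h => (h1.1 h).elim h2 h3), if_neg h2, if_neg h3, add_zero]
    have h1 := hrel q
    rw [← h1]
    change ((∑ i, ∑ t ∈ Finset.range (k i + 1),
      sg (s i t) * z i t * (if hd (e i t) = τ v then a (e i t) else 0)) -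
      (∑ i, ∑ t ∈ Finset.range (k i + 1),
      sg (s i t) * z i t * (if tl (e i t) = τ v then b (e i t) else 0))) +
      ((∑ i, ∑ t ∈ Finset.range (k i + 1),
      sg (s i t) * z i t * (if hd (e i t) = v then a (e i t) else 0)) -
      (∑ i, ∑ t ∈ Finset.range (k i + 1),
      sg (s i t) * z i t * (if tl (e i t) = v then b (e i t) else 0))) = _
    rw [← Finset.sum_sub_distrib, ← Finset.sum_sub_distrib, ← Finset.sum_add_distrib]
    refine Finset.sum_congr rfl fun i _ => ?_
    rw [← Finset.sum_sub_distrib, ← Finset.sum_sub_distrib, ← Finset.sum_add_distrib]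
    refine Finset.sum_congr rfl fun t _ => ?_
    have k1 := key (hd (e i t)) (a (e i t))
    have k2 := key (tl (e i t)) (b (e i t))
    simp only [he] at k1 k2 ⊢
    rw [k1, k2]
    ring
  obtain ⟨c0, hc1, hc2⟩ := Pool.Agent.Helper74.BIS.TWO τ (nuH (fun i => 2 * p i + 1)) hτ
    (nuH_nuH _)
  refine ⟨fun v => cz42 (A v) (c0 v), fun v hv => cz42_opp (A4 v hv) (hc1 v hv), ?_⟩
  intro i t ht
  change cz42 (A (hd (e i t))) (c0 (hd (e i t))) ≠ cz42 (A (tl (e i t))) (c0 (tl (e i t)))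
  have hpX : 0 < z i 0 * a (e i 0) + z i (k i) * b (e i (k i)) :=
    add_pos (mul_pos (hz0 i).1 (ha _)) (mul_pos (hz0 i).2 (hb _))
  have hk1 := hk i
  by_cases h0 : t = 0
  · subst h0
    rw [A3, A2 i 0 (Nat.zero_le _) (by omega)]
    exact cz42_sg _ hpX (mul_pos (hz0 i).1 (hb _)) _ _
  by_cases h1 : t = k i
  · rw [A1 i t ht h0, h1, F4 i, A3 i, hs i, sg42_not, neg_mul]
    exact (cz42_sg _ hpX (mul_pos (hz0 i).2 (ha _)) _ _).symm
  rw [A1 i t ht h0, A2 i t ht h1]
  rcases (hz i t).eq_or_lt with hzt | hzt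
  · rw [← hzt, zero_mul, zero_mul, mul_zero, neg_zero, cz42_zero, cz42_zero]
    have h2 : nuH (fun i => 2 * p i + 1) (hd (e i t)) = tl (e i t) := by
      have h3 := nuZ_edge (k i) (p i) t (by omega) ht
      change (⟨i, nuZ (2 * p i + 1) (2 * (p i + (t : ZMod (2 * k i + 1))))⟩ : Vx k) =
        ⟨i, 2 * (p i + (t : ZMod (2 * k i + 1))) + 1⟩
      rw [h3]
    have h4 := hc2 (hd (e i t))
    rw [h2] at h4
    exact (h4 (fun h => h0 (F3 i t i t ht ht h.symm).2.1)).symm
  · exact cz42_sg _ (mul_pos hzt (ha _)) (mul_pos hzt (hb _)) _ _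

end Pool.Agent.TWB
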