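import Pool.Agent.Helper74.BIS.CIR

/-!
CYCP.  Parametrisation of an odd component of a 2-regular graph by `ZMod (2 k + 1)`.

Proof.  Take `q ∈ K.supp` (`K.nonempty_supp`).  `cyc` (Helper74/BIS/CIR.lean) gives a closed walk
`p : F.Walk q q`, a cycle, whose support is `K.supp`, of length `2 k + 1`.
`φ j = p.getVert j.val`.  Injective: a cycle has `getVert` injective on `{0, ..., length - 1}`
(`SimpleGraph.Walk.IsCycle.getVert_injOn'`).  `v ∈ K.supp` iff `v ∈ p.support` iff
`v = p.getVert i` for some `i ≤ length` (`Walk.mem_support_iff_exists_getVert`); `getVert length = q =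
getVert 0`, so `i < length` may be assumed, `j = (i : ZMod (2 k + 1))`, `j.val = i`.
Adjacent: for `j.val + 1 < 2 k + 1`, `(j + 1).val = j.val + 1` (`Walk.adj_getVert_succ`); for
`j.val = 2 k`, `j + 1 = 0` and `getVert 0 = q = getVert (2 k + 1)`.
-/

set_option autoImplicit false

namespace Pool.Agent.TWB

open SimpleGraph

theorem CYCP {V : Type*} [Finite V] (F : SimpleGraph V) (hF : ∀ v, (F.neighborSet v).ncard = 2)
    (K : F.ConnectedComponent) (k : ℕ) (hk : K.supp.ncard = 2 * k + 1) :
    ∃ φ : ZMod (2 * k + 1) → V, Function.Injective φ ∧ (∀ v, v ∈ K.supp ↔ ∃ j, φ j = v) ∧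
      ∀ j, F.Adj (φ j) (φ (j + 1)) := by
  classical
  obtain ⟨q, hq⟩ := K.nonempty_supp
  obtain ⟨p, hp, hs, hl⟩ := Helper74.BIS.cyc F hF K q hq
  rw [hk] at hl
  refine ⟨fun j => p.getVert j.val, ?_, ?_, ?_⟩
  · intro i j hij
    have hi := ZMod.val_lt i
    have hj := ZMod.val_lt j
    have h1 : i.val ∈ {i | i ≤ p.length - 1} := by
      rw [Set.mem_ofPred_eq]
      omega
    have h2 : j.val ∈ {i | i ≤ p.length - 1} := by
      rw [Set.mem_ofPred_eq]
      omega
    exact ZMod.val_injective _ (hp.getVert_injOn' h1 h2 hij)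
  · intro v
    rw [← hs, Walk.mem_support_iff_exists_getVert]
    constructor
    · rintro ⟨i, hi, hil⟩
      by_cases h : i < 2 * k + 1
      · exact ⟨(i : ZMod (2 * k + 1)), by
          change p.getVert (i : ZMod (2 * k + 1)).val = v
          rw [ZMod.val_cast_of_lt h]; exact hi⟩
      · have h' : i = p.length := by omega
        rw [h', Walk.getVert_length] at hi
        exact ⟨0, by
          change p.getVert (0 : ZMod (2 * k + 1)).val = v
          rw [ZMod.val_zero, Walk.getVert_zero]; exact hi⟩
    · rintro ⟨j, rfl⟩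
      have hj := ZMod.val_lt j
      exact ⟨j.val, rfl, by omega⟩
  · intro j
    have hj := ZMod.val_lt j
    by_cases h : j.val + 1 < 2 * k + 1
    · have h1 : (1 : ZMod (2 * k + 1)).val = 1 := by
        rw [ZMod.val_one_eq_one_mod]
        exact Nat.mod_eq_of_lt (by omega)
      have h2 : (j + 1).val = j.val + 1 := by
        rw [ZMod.val_add_of_lt (by rw [h1]; exact h), h1]
      change F.Adj (p.getVert j.val) (p.getVert (j + 1).val)
      rw [h2]
      exact p.adj_getVert_succ (by omega)
    · have h0 : j.val + 1 = 2 * k + 1 := by omega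
      have h2 : j + 1 = 0 := by
        have h3 : ((j.val + 1 : ℕ) : ZMod (2 * k + 1)) = 0 := by
          rw [h0]
          exact ZMod.natCast_self _
        rw [Nat.cast_add, Nat.cast_one, ZMod.natCast_zmod_val] at h3
        exact h3
      change F.Adj (p.getVert j.val) (p.getVert (j + 1).val)
      rw [h2, ZMod.val_zero, Walk.getVert_zero]
      have h4 := p.adj_getVert_succ (i := j.val) (by omega)
      have h5 : p.getVert (j.val + 1) = q := by
        rw [h0, ← hl]
        exact p.getVert_length
      rwa [h5] at h4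

end Pool.Agent.TWB
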