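import Mathlib

/-!
# TWB: 2-bisections of cubic graphs with a 2-factor whose odd circuits have length 3 mod 4
(MP_be493c_co, architect helper71).

PART A (a mod 2 degree theorem for signed cyclic arcs), PART B (abstract solvability `Solv`),
PART C (from `Solv` to 2-bisections of cubic graphs with bridges).

This file: all definitions of parts A and B.

Circuit `i` has `2 * k i + 1` vertices `⟨i, v⟩`, `v : ZMod (2 * k i + 1)`; its edges are
`e_j = {2 j, 2 j + 1}`, `j : ZMod (2 * k i + 1)` (all edges, since 2 is invertible).  The edges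
`e_p, e_{p+1}, ..., e_{p+k}` cover the vertex `2 p` twice and every other vertex once.
-/

set_option autoImplicit false

namespace Pool.Agent.TWB

/-- sign of a Bool -/
def sg (b : Bool) : ℝ := if b then 1 else -1

/-! ## linear algebra: relations with positive coefficients -/

/-- every subset `S` of `T` with at most `N` elements is independent on the first `#S`
coordinates -/
def GenOn {β : Type*} {N : ℕ} (u : β → Fin N → ℝ) (T : Finset β) : Prop :=
  ∀ S : Finset β, S ⊆ T → S.card ≤ N → ∀ z : β → ℝ,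
    (∀ i : Fin N, i.val < S.card → ∑ x ∈ S, z x * u x i = 0) → ∀ x ∈ S, z x = 0

/-- a relation on the first `t` coordinates, positive on `T` -/
def PosR {β : Type*} {N : ℕ} (u : β → Fin N → ℝ) (t : ℕ) (T : Finset β) : Prop :=
  ∃ z : β → ℝ, (∀ x ∈ T, 0 < z x) ∧ ∀ i : Fin N, i.val < t → ∑ x ∈ T, z x * u x i = 0

/-- a positive combination which vanishes in the first `t` coordinates and is positive in the
coordinate number `t` -/
def UpR {β : Type*} {N : ℕ} (u : β → Fin N → ℝ) (t : ℕ) (T : Finset β) : Prop :=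
  ∃ z : β → ℝ, (∀ x ∈ T, 0 < z x) ∧
    (∀ i : Fin N, i.val < t → ∑ x ∈ T, z x * u x i = 0) ∧
    ∃ i : Fin N, i.val = t ∧ 0 < ∑ x ∈ T, z x * u x i

/-- signed vectors -/
def uu {α : Type*} {N : ℕ} (v : α → Fin N → ℝ) (x : α × Bool) (i : Fin N) : ℝ :=
  sg x.2 * v x.1 i

/-! ## chains: polynomials over the field with two elements in the signed vertices -/

/-- the squarefree monomial of a set -/
noncomputable def mon {σ : Type*} (T : Finset σ) : MvPolynomial σ (ZMod 2) :=
  ∏ x ∈ T, MvPolynomial.X x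

/-- the span of the monomials of the sets with property `P` -/
noncomputable def Sp {σ : Type*} (P : Finset σ → Prop) :
    Submodule (ZMod 2) (MvPolynomial σ (ZMod 2)) :=
  Submodule.span (ZMod 2) {m | ∃ T, P T ∧ m = mon T}

/-- the boundary -/
noncomputable def dd {σ : Type*} :
    Derivation (ZMod 2) (MvPolynomial σ (ZMod 2)) (MvPolynomial σ (ZMod 2)) :=
  MvPolynomial.mkDerivation (ZMod 2) (fun _ => 1)

/-- the antipodal map -/
noncomputable def gg {α : Type*} :
    MvPolynomial (α × Bool) (ZMod 2) →ₐ[ZMod 2] MvPolynomial (α × Bool) (ZMod 2) :=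
  MvPolynomial.rename (fun x => (x.1, !x.2))

/-- the chains `h_{l+1}` (written `hh x l`): signed arcs `p, p+1, ..., p+l`, free signs inside,
sign `+` at `p` and sign `+` at `p + l` iff `l` is even (`l = 0`: one point) -/
def hh {R : Type*} [CommRing R] {n : ℕ} [NeZero n] (x : ZMod n → Bool → R) : ℕ → R
  | 0 => ∑ p : ZMod n, x p true
  | (l + 1) => ∑ p : ZMod n, x p true *
      (∏ t ∈ Finset.range l, (x (p + 1 + (t : ZMod n)) true + x (p + 1 + (t : ZMod n)) false)) *
      x (p + 1 + (l : ZMod n)) (decide (l % 2 = 1))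

section circuits

variable {ι : Type*}

/-- all vertices (also: all edges) of the circuits -/
abbrev Vx (k : ι → ℕ) : Type _ := Σ i : ι, ZMod (2 * k i + 1)

/-- the signed arc `p, p+1, ..., p+m-1` with signs `b` -/
def arc (k : ι → ℕ) [DecidableEq ι] (i : ι) (p : ZMod (2 * k i + 1)) (m : ℕ) (b : ℕ → Bool) :
    Finset (Vx k × Bool) :=
  (Finset.range m).image (fun t : ℕ => ((⟨i, p + (t : ZMod (2 * k i + 1))⟩ : Vx k), b t))

/-- a full signed arc (`k i + 1` edges) with opposite signs at its two ends -/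
def FullArc (k : ι → ℕ) [DecidableEq ι] (i : ι) (T : Finset (Vx k × Bool)) : Prop :=
  ∃ (p : ZMod (2 * k i + 1)) (b : ℕ → Bool), b (k i) = !(b 0) ∧ T = arc k i p (k i + 1) b

/-- a partial signed arc (`l + 1` edges) of circuit `i` -/
def PartArc (k : ι → ℕ) [DecidableEq ι] (i : ι) (l : ℕ) (T : Finset (Vx k × Bool)) : Prop :=
  ∃ (p : ZMod (2 * k i + 1)) (b : ℕ → Bool), b 0 = true ∧
    (∀ l', l = l' + 1 → b l = decide (l' % 2 = 1)) ∧ T = arc k i p (l + 1) b

/-- a union of full signed arcs, one for each circuit in `S` -/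
def Str (k : ι → ℕ) [DecidableEq ι] (S : Finset ι) (T : Finset (Vx k × Bool)) : Prop :=
  ∃ (p : ∀ i, ZMod (2 * k i + 1)) (b : ι → ℕ → Bool), (∀ i ∈ S, b i (k i) = !(b i 0)) ∧
    T = S.biUnion (fun i => arc k i (p i) (k i + 1) (b i))

/-- the variables of circuit `i` -/
noncomputable def xx (k : ι → ℕ) (i : ι) (j : ZMod (2 * k i + 1)) (b : Bool) :
    MvPolynomial (Vx k × Bool) (ZMod 2) :=
  MvPolynomial.X ((⟨i, j⟩ : Vx k), b)

/-- the cycle of circuit `i` -/
noncomputable def ZZ (k : ι → ℕ) (i : ι) : MvPolynomial (Vx k × Bool) (ZMod 2) :=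
  hh (xx k i) (k i) + gg (hh (xx k i) (k i))

/-- Abstract solvability: for every involution `τ` of the set of all vertices (fixed points
allowed) there are a 2-colouring `c` and numbers `p i` such that `τ v` and `v` have different
colours whenever `τ v ≠ v`, and the edges `e_{p i}, ..., e_{p i + k i}` of circuit `i` are
bichromatic. -/
def Solv (k : ι → ℕ) : Prop :=
  ∀ τ : Vx k → Vx k, (∀ v, τ (τ v) = v) →
    ∃ (p : ∀ i, ZMod (2 * k i + 1)) (c : Vx k → Bool), (∀ v, τ v ≠ v → c (τ v) ≠ c v) ∧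
      ∀ (i : ι) (t : ℕ), t ≤ k i →
        c ⟨i, 2 * (p i + (t : ZMod (2 * k i + 1)))⟩
          ≠ c ⟨i, 2 * (p i + (t : ZMod (2 * k i + 1))) + 1⟩

end circuits

/-- the first end `2 j` of the edge `e_j` -/
def hd {ι : Type*} {k : ι → ℕ} (e : Vx k) : Vx k := ⟨e.1, 2 * e.2⟩

/-- the second end `2 j + 1` of the edge `e_j` -/
def tl {ι : Type*} {k : ι → ℕ} (e : Vx k) : Vx k := ⟨e.1, 2 * e.2 + 1⟩

/-- the matching `{s+1, s+2}, {s+3, s+4}, ...` of an odd circuit minus the vertex `s` -/
def nuZ {n : ℕ} (s v : ZMod n) : ZMod n :=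
  if (v - s).val = 0 then v else if (v - s).val % 2 = 1 then v + 1 else v - 1

/-- the vector of an edge `e` with ends in the orbits `o₁ e`, `o₂ e` (`none` = fixed point of the
involution, no row), weights `a e`, `b e` and additional coordinates `γ e` -/
def vec {E Q : Type*} [DecidableEq Q] {g : ℕ} (o₁ o₂ : E → Option Q) (a b : E → ℝ)
    (γ : E → Fin g → ℝ) (e : E) : Q ⊕ Fin g → ℝ
  | Sum.inl q => (if o₁ e = some q then a e else 0) - (if o₂ e = some q then b e else 0)
  | Sum.inr s => γ e s

end Pool.Agent.TWB
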