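import Pool.Agent.Helper74.BIS.TWO

/-!
FLIPC.  A colouring alternating along two involutions `m`, `n` with prescribed values on `U`.

Proof.  `n' v = if v ∈ U then τ v else n v` is an involution: for `v ∉ U` also `n v ∉ U` (otherwise
`n (n v) = n v`, so `v = n v ∈ U`).  `TWO m n'` gives `c0` with `c0 (m v) ≠ c0 v` if `m v ≠ v`,
`c0 (n v) ≠ c0 v` if `v ∉ U`, `n v ≠ v` (for `v ∈ U` `n v = v`), and `c0 (τ v) ≠ c0 v` if `v ∈ U`,
`τ v ≠ v`.  Let `f x` be the statement: there is `v ∈ U` with `R x v` and `c0 v ≠ c1 v`, `R` the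
reflexive-transitive closure; `c x = if f x then !(c0 x) else c0 x`.  `R` is symmetric (each step
`b = m a ∨ b = n a` can be reversed since `m`, `n` are involutions), so `f (m x) ↔ f x`,
`f (n x) ↔ f x`, and `c` alternates along `m` and `n` as `c0` does.  For `v ∈ U`: `f v ↔ c0 v ≠ c1 v`:
(←) `v` itself.  (→) let `w ∈ U`, `R v w`, `c0 w ≠ c1 w`; `w = v` is fine; if `w = τ v ≠ v` then
`c0 (τ v) ≠ c0 v`, `c1 (τ v) ≠ c1 v`, so `c0 v ≠ c1 v` (Bool).  Hence `c v = c1 v` for `v ∈ U`.
-/

set_option autoImplicit false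

namespace Pool.Agent.TWB

theorem FLIPC {V : Type*} (m n τ : V → V) (hm : ∀ v, m (m v) = v) (hn : ∀ v, n (n v) = v)
    (hτ : ∀ v, τ (τ v) = v) (U : Set V) (hU : ∀ v ∈ U, n v = v) (hτU : ∀ v ∈ U, τ v ∈ U)
    (hτ2 : ∀ v ∈ U, ∀ w ∈ U, Relation.ReflTransGen (fun a b => b = m a ∨ b = n a) v w →
        w = v ∨ w = τ v)
    (c1 : V → Bool) (hc1 : ∀ v ∈ U, τ v ≠ v → c1 (τ v) ≠ c1 v) :
    ∃ c : V → Bool, (∀ v, m v ≠ v → c (m v) ≠ c v) ∧ (∀ v, n v ≠ v → c (n v) ≠ c v) ∧
      ∀ v ∈ U, c v = c1 v := by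
  classical
  obtain ⟨c0, h1, h2⟩ := Pool.Agent.Helper74.BIS.TWO m (fun v => if v ∈ U then τ v else n v) hm (by
    intro v
    by_cases h : v ∈ U
    · have h' := hτU v h
      simp only [h, if_true, h', hτ]
    · have h' : n v ∉ U := fun h3 => h (by
        have h4 := hU _ h3
        rw [hn] at h4
        rw [h4]
        exact h3)
      simp only [h, if_false, h', hn])
  let f : V → Prop := fun x => ∃ v ∈ U, Relation.ReflTransGen (fun a b => b = m a ∨ b = n a) x v ∧ c0 v ≠ c1 v
  have fm : ∀ x, f (m x) ↔ f x := by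
    intro x
    constructor
    · rintro ⟨v, hv, h, h3⟩
      exact ⟨v, hv, Relation.ReflTransGen.head (Or.inl rfl) h, h3⟩
    · rintro ⟨v, hv, h, h3⟩
      exact ⟨v, hv, Relation.ReflTransGen.head (Or.inl (hm x).symm) h, h3⟩
  have fn : ∀ x, f (n x) ↔ f x := by
    intro x
    constructor
    · rintro ⟨v, hv, h, h3⟩
      exact ⟨v, hv, Relation.ReflTransGen.head (Or.inr rfl) h, h3⟩
    · rintro ⟨v, hv, h, h3⟩
      exact ⟨v, hv, Relation.ReflTransGen.head (Or.inr (hn x).symm) h, h3⟩
  have key : ∀ (x y : V), (f y ↔ f x) → c0 y ≠ c0 x →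
      (if f y then !(c0 y) else c0 y) ≠ (if f x then !(c0 x) else c0 x) := by
    intro x y h h3
    by_cases hf : f x
    · rw [if_pos hf, if_pos (h.2 hf)]
      intro h4
      exact h3 (Bool.not_inj h4)
    · rw [if_neg hf, if_neg (fun h4 => hf (h.1 h4))]
      exact h3
  refine ⟨fun x => if f x then !(c0 x) else c0 x, fun v hv => ?_, fun v hv => ?_, fun v hv => ?_⟩
  · exact key v (m v) (fm v) (h1 v hv)
  · have hvU : v ∉ U := fun h => hv (hU v h)
    have h3 := h2 v
    simp only [hvU, if_false] at h3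
    exact key v (n v) (fn v) (h3 hv)
  · by_cases hf : f v
    · have h3 : c0 v ≠ c1 v := by
        obtain ⟨w, hw, hR, h4⟩ := hf
        rcases hτ2 v hv w hw hR with h5 | h5
        · rw [h5] at h4
          exact h4
        · by_cases h6 : τ v = v
          · rw [h5, h6] at h4
            exact h4
          · have h7 := h2 v
            simp only [hv, if_true] at h7
            have h8 := h7 h6
            have h9 := hc1 v hv h6
            rw [h5] at h4
            revert h4 h8 h9
            cases c0 (τ v) <;> cases c0 v <;> cases c1 (τ v) <;> cases c1 v <;> simp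
      simp only [hf, if_true]
      revert h3
      cases c0 v <;> cases c1 v <;> simp
    · simp only [hf, if_false]
      by_contra h3
      exact hf ⟨v, hv, Relation.ReflTransGen.refl, h3⟩

end Pool.Agent.TWB
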