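import Mathlib

/-!
TAU.  Two involutions `m`, `n` and a set `U` of fixed points of `n`: every component contains at
most two points of `U`; `τ` exchanges them.

Proof.  The proof of the theorem `ORB` in `Pool/Agent/Helper74/BIS/ORB.lean` (copy it) contains the
statement `huniq` (there `μ = m`, `ν = n`, `D` = a finset of fixed points of `ν`; the finiteness is
not used for `huniq`): if `q, x, y ∈ U`, `x`, `y` reachable from `q` by steps `b = m a ∨ b = n a`,
`x ≠ q`, `y ≠ q`, then `x = y`; and `hsymm`: reachability is symmetric.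
Define `τ v = if h : v ∈ U ∧ ∃ x ∈ U, x ≠ v ∧ R v x then choose else v`, where `R` is the
reflexive-transitive closure.  `τ (τ v) = v`: if `τ v = x ≠ v` then `x ∈ U`, `R x v`, `v ≠ x`, so `τ x`
is a point of `U` reachable from `x`, different from `x`, hence `v` by uniqueness.
-/

set_option autoImplicit false

namespace Pool.Agent.TWB

private theorem tau_aux {V : Type*} (μ ν : V → V) (hμ : ∀ v, μ (μ v) = v) (hν : ∀ v, ν (ν v) = v)
    (U : Set V) (hU : ∀ v ∈ U, ν v = v) :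
    (∀ q ∈ U, ∀ x ∈ U, ∀ y ∈ U,
      Relation.ReflTransGen (fun a b => b = μ a ∨ b = ν a) q x →
      Relation.ReflTransGen (fun a b => b = μ a ∨ b = ν a) q y → x ≠ q → y ≠ q → x = y) ∧
    (∀ a b, Relation.ReflTransGen (fun a b => b = μ a ∨ b = ν a) a b →
      Relation.ReflTransGen (fun a b => b = μ a ∨ b = ν a) b a) := by
  classical
  let m : Equiv.Perm V := ⟨μ, μ, hμ, hμ⟩
  let n : Equiv.Perm V := ⟨ν, ν, hν, hν⟩
  have hm : m * m = 1 := by ext v; exact hμ v
  have hn : n * n = 1 := by ext v; exact hν v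
  have hm' : m⁻¹ = m := by rw [inv_eq_iff_mul_eq_one]; exact hm
  have hn' : n⁻¹ = n := by rw [inv_eq_iff_mul_eq_one]; exact hn
  let ρ : Equiv.Perm V := n * m
  have hinv : ρ⁻¹ = m * n := by simp only [ρ]; rw [mul_inv_rev, hm', hn']
  have hconjm : ∀ k : ℤ, m * ρ ^ k = ρ ^ (-k) * m := by
    intro k
    have h1 : m * ρ * m⁻¹ = ρ⁻¹ := by
      rw [hinv]
      simp only [ρ]
      rw [hm', mul_assoc, mul_assoc, hm, mul_one]
    have h2 : m * ρ ^ k * m⁻¹ = (ρ⁻¹) ^ k := by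
      rw [← h1, conj_zpow]
    rw [inv_zpow, ← zpow_neg] at h2
    rw [← h2, inv_mul_cancel_right]
  have hconjn : ∀ k : ℤ, n * ρ ^ k = ρ ^ (-k) * n := by
    intro k
    have h1 : n * ρ * n⁻¹ = ρ⁻¹ := by
      rw [hinv]
      simp only [ρ]
      rw [hn', ← mul_assoc, hn, one_mul]
    have h2 : n * ρ ^ k * n⁻¹ = (ρ⁻¹) ^ k := by
      rw [← h1, conj_zpow]
    rw [inv_zpow, ← zpow_neg] at h2
    rw [← h2, inv_mul_cancel_right]
  have horb : ∀ q ∈ U, ∀ x, Relation.ReflTransGen (fun a b => b = μ a ∨ b = ν a) q x →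
      ∃ k : ℤ, x = (ρ ^ k) q := by
    intro q hq x hx
    induction hx with
    | refl => exact ⟨0, by simp⟩
    | tail _ hbc ih =>
      obtain ⟨k, rfl⟩ := ih
      rcases hbc with rfl | rfl
      · refine ⟨-k - 1, ?_⟩
        have h1 : (m * ρ ^ k) q = (ρ ^ (-k) * m) q := by rw [hconjm]
        have h2 : m q = (ρ ^ (-1 : ℤ)) q := by
          rw [zpow_neg_one, hinv]
          change m q = m (n q)
          congr 1
          exact (hU q hq).symm
        have h3 : (ρ ^ (-k) * m) q = (ρ ^ (-k) * ρ ^ (-1 : ℤ)) q := congrArg (ρ ^ (-k)) h2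
        rw [← zpow_add] at h3
        exact h1.trans h3
      · refine ⟨-k, ?_⟩
        have h1 : (n * ρ ^ k) q = (ρ ^ (-k) * n) q := by rw [hconjn]
        have h2 : n q = q := hU q hq
        have h3 : (ρ ^ (-k) * n) q = (ρ ^ (-k)) q := congrArg (ρ ^ (-k)) h2
        exact h1.trans h3
  have hper : ∀ q ∈ U, ∀ k : ℤ, (ρ ^ k) q ∈ U → (ρ ^ (2 * k)) q = q := by
    intro q hq k hk
    have h0 : n ((ρ ^ k) q) = (ρ ^ k) q := hU _ hk
    have h1 : (n * ρ ^ k) q = (ρ ^ (-k) * n) q := by rw [hconjn]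
    have h2 : n q = q := hU q hq
    have h3 : (ρ ^ (-k) * n) q = (ρ ^ (-k)) q := congrArg (ρ ^ (-k)) h2
    have h4 : (ρ ^ k) q = (ρ ^ (-k)) q := h0.symm.trans (h1.trans h3)
    have h5 : (ρ ^ k * ρ ^ k) q = (ρ ^ k * ρ ^ (-k)) q := congrArg (ρ ^ k) h4
    rw [← zpow_add, ← zpow_add, add_neg_cancel, zpow_zero] at h5
    rw [two_mul]
    exact h5
  have hdvd : ∀ q, ∀ k : ℤ, (ρ ^ k) q = q ↔
      (Function.minimalPeriod (fun x => ρ • x) q : ℤ) ∣ k := by
    intro q k
    rw [← MulAction.zpow_smul_eq_iff_minimalPeriod_dvd]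
    rfl
  have huniq : ∀ q ∈ U, ∀ x ∈ U, ∀ y ∈ U,
      Relation.ReflTransGen (fun a b => b = μ a ∨ b = ν a) q x →
      Relation.ReflTransGen (fun a b => b = μ a ∨ b = ν a) q y → x ≠ q → y ≠ q → x = y := by
    intro q hq x hx y hy hqx hqy hxq hyq
    obtain ⟨k, rfl⟩ := horb q hq x hqx
    obtain ⟨l, rfl⟩ := horb q hq y hqy
    have h1 := hper q hq k hx
    have h2 := hper q hq l hy
    rw [hdvd] at h1 h2
    have h3 : ¬ (Function.minimalPeriod (fun x => ρ • x) q : ℤ) ∣ k := fun h => hxq ((hdvd q k).2 h)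
    have h4 : ¬ (Function.minimalPeriod (fun x => ρ • x) q : ℤ) ∣ l := fun h => hyq ((hdvd q l).2 h)
    have h5 : (Function.minimalPeriod (fun x => ρ • x) q : ℤ) ∣ (k - l) := by
      generalize (Function.minimalPeriod (fun x => ρ • x) q : ℤ) = N at h1 h2 h3 h4
      obtain ⟨a, ha⟩ := h1
      obtain ⟨b, hb⟩ := h2
      rcases Int.even_or_odd' a with ⟨a', rfl | rfl⟩
      · exact absurd ⟨a', by linarith⟩ h3
      rcases Int.even_or_odd' b with ⟨b', rfl | rfl⟩
      · exact absurd ⟨b', by linarith⟩ h4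
      exact ⟨a' - b', by linarith⟩
    have h6 := (hdvd q (k - l)).2 h5
    have h7 : (ρ ^ l * ρ ^ (k - l)) q = (ρ ^ l) q := congrArg (ρ ^ l) h6
    rw [← zpow_add] at h7
    have h8 : l + (k - l) = k := by ring
    rw [h8] at h7
    exact h7
  have hsymm : ∀ a b, Relation.ReflTransGen (fun a b => b = μ a ∨ b = ν a) a b →
      Relation.ReflTransGen (fun a b => b = μ a ∨ b = ν a) b a := by
    intro a b h
    induction h with
    | refl => exact Relation.ReflTransGen.refl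
    | tail _ hbc ih =>
      refine Relation.ReflTransGen.head ?_ ih
      rcases hbc with rfl | rfl
      · left; exact (hμ _).symm
      · right; exact (hν _).symm
  exact ⟨huniq, hsymm⟩

theorem TAU {V : Type*} (m n : V → V) (hm : ∀ v, m (m v) = v) (hn : ∀ v, n (n v) = v)
    (U : Set V) (hU : ∀ v ∈ U, n v = v) :
    ∃ τ : V → V, (∀ v, τ (τ v) = v) ∧ (∀ v, v ∉ U → τ v = v) ∧ (∀ v ∈ U, τ v ∈ U) ∧
      (∀ v, Relation.ReflTransGen (fun a b => b = m a ∨ b = n a) v (τ v)) ∧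
      ∀ v ∈ U, ∀ w ∈ U, Relation.ReflTransGen (fun a b => b = m a ∨ b = n a) v w →
        w = v ∨ w = τ v := by
  classical
  obtain ⟨huniq, hsymm⟩ := tau_aux m n hm hn U hU
  have key : ∀ v, ∃ t : V, Relation.ReflTransGen (fun a b => b = m a ∨ b = n a) v t ∧
      (v ∉ U → t = v) ∧ (v ∈ U → t ∈ U) ∧
      (v ∈ U → ∀ w ∈ U, Relation.ReflTransGen (fun a b => b = m a ∨ b = n a) v w → w = v ∨ w = t) := by
    intro v
    by_cases h : v ∈ U ∧ ∃ x ∈ U, x ≠ v ∧ Relation.ReflTransGen (fun a b => b = m a ∨ b = n a) v x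
    · obtain ⟨hv, x, hx, hxv, hvx⟩ := h
      refine ⟨x, hvx, fun h' => absurd hv h', fun _ => hx, fun _ w hw hvw => ?_⟩
      by_cases hwv : w = v
      · exact Or.inl hwv
      · exact Or.inr (huniq v hv w hw x hx hvw hvx hwv hxv)
    · refine ⟨v, Relation.ReflTransGen.refl, fun _ => rfl, fun hv => hv, fun hv w hw hvw => ?_⟩
      left
      by_contra hwv
      exact h ⟨hv, w, hw, hwv, hvw⟩
  choose τ h1 h2 h3 h4 using key
  refine ⟨τ, fun v => ?_, h2, h3, h1, h4⟩
  by_cases hv : v ∈ U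
  · rcases h4 (τ v) (h3 v hv) v hv (hsymm _ _ (h1 v)) with h | h
    · -- v = τ v
      rw [← h]; exact h.symm
    · exact h.symm
  · rw [h2 v hv, h2 v hv]

end Pool.Agent.TWB
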