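import Pool.Agent.TWB.NU
import Pool.Agent.TWB.TAU
import Pool.Agent.TWB.FLIPC

/-!
FIXP.  A fixed point of `τ` on circuit `j` reduces the problem to the other circuits.

Proof.  `q = ⟨j, a⟩`.  Let `n v = ⟨j, nuZ a v.2⟩` for `v` on circuit `j` and `n v = v` for the others
(an involution, `nuZ_nuZ`; e.g. `n = nuH s` on circuit `j`, `s` with `s j = a`), and
`U = {v | v.1 ≠ j}` (fixed points of `n`).  `TAU τ n` gives an involution `t` of `Vx k` which maps `U` to
`U`.  Let `ι' = {i // i ≠ j}`; `Vx (fun i : ι' => k i.1)` is in bijection with `U`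
(`⟨⟨i, hi⟩, v⟩ ↦ ⟨i, v⟩`), let `t'` be the involution induced by `t`.  `hS t'` gives `p'`, `c'`.
Let `c1 : Vx k → Bool` be `c'` on `U` (anything else outside); for `v ∈ U`, `t v ≠ v`:
`c1 (t v) ≠ c1 v`.  `FLIPC τ n t` gives `c2` alternating along `τ` and `n` (where they do not fix) with
`c2 = c1` on `U`.  Let `p j = (k j + 1) (a - 1)` (`2 p j + 1 = a`), `p i = p' ⟨i, _⟩` for `i ≠ j`, and
`c = Function.update c2 q (!(c2 ⟨j, a - 1⟩))`, `a - 1 ≠ a`.
* `τ v ≠ v`: `v ≠ q`, `τ v ≠ q`, so `c = c2` at both.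
* circuit `i ≠ j`: `c = c2 = c1 = c'` there.
* circuit `j`, `t = 0`: the edge `{a - 1, a}`: clear.  `1 ≤ t ≤ k j`: the edge
  `{2 (p + t), 2 (p + t) + 1}` does not contain `a` (`nuZ a` exchanges its two different ends by
  `nuZ_edge`, `nuZ a a = a`), `n` maps the first to the second end, so `c2` separates them.
(Compare the proof of `T1` in `Pool/Agent/TWB/T1.lean`.)
-/

set_option autoImplicit false

namespace Pool.Agent.TWB

private def emb76 {ι : Type*} (k : ι → ℕ) (j : ι) (v : Vx (fun i : {i : ι // i ≠ j} => k i.1)) :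
    Vx k := ⟨v.1.1, v.2⟩

private def back76 {ι : Type*} (k : ι → ℕ) (j : ι) (v : Vx k) (h : v.1 ≠ j) :
    Vx (fun i : {i : ι // i ≠ j} => k i.1) := ⟨⟨v.1, h⟩, v.2⟩

private theorem emb_back76 {ι : Type*} (k : ι → ℕ) (j : ι) (v : Vx k) (h : v.1 ≠ j) :
    emb76 k j (back76 k j v h) = v := rfl

private theorem back_emb76 {ι : Type*} (k : ι → ℕ) (j : ι)
    (v : Vx (fun i : {i : ι // i ≠ j} => k i.1)) (h : (emb76 k j v).1 ≠ j) :
    back76 k j (emb76 k j v) h = v := rfl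

private theorem back_congr76 {ι : Type*} (k : ι → ℕ) (j : ι) {v w : Vx k} (e : v = w)
    (h : v.1 ≠ j) (h' : w.1 ≠ j) : back76 k j v h = back76 k j w h' := by
  subst e
  rfl

private theorem emb_inj76 {ι : Type*} (k : ι → ℕ) (j : ι)
    {v w : Vx (fun i : {i : ι // i ≠ j} => k i.1)} (h : emb76 k j v = emb76 k j w) : v = w := by
  have h1 := back_congr76 k j h v.1.2 w.1.2
  rwa [back_emb76, back_emb76] at h1

theorem FIXP {ι : Type*} [DecidableEq ι] (k : ι → ℕ) (hk : ∀ i, 1 ≤ k i) (j : ι)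
    (hS : Solv (fun i : {i : ι // i ≠ j} => k i.1)) (τ : Vx k → Vx k)
    (hτ : ∀ v, τ (τ v) = v) (a : ZMod (2 * k j + 1)) (hq : τ ⟨j, a⟩ = ⟨j, a⟩) :
    ∃ (p : ∀ i, ZMod (2 * k i + 1)) (c : Vx k → Bool), (∀ v, τ v ≠ v → c (τ v) ≠ c v) ∧
      ∀ (l : ι) (t : ℕ), t ≤ k l →
        c ⟨l, 2 * (p l + (t : ZMod (2 * k l + 1)))⟩
          ≠ c ⟨l, 2 * (p l + (t : ZMod (2 * k l + 1))) + 1⟩ := by
  classical
  obtain ⟨s, hs⟩ : ∃ s : ∀ i, ZMod (2 * k i + 1), s j = a :=
    ⟨Function.update (fun _ => 0) j a, Function.update_self _ _ _⟩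
  obtain ⟨n, hn1, hn2⟩ : ∃ n : Vx k → Vx k, (∀ v, v.1 = j → n v = nuH s v) ∧
      (∀ v, v.1 ≠ j → n v = v) :=
    ⟨fun v => if v.1 = j then nuH s v else v, fun v hv => if_pos hv, fun v hv => if_neg hv⟩
  have hnn : ∀ v, n (n v) = v := by
    intro v
    by_cases h : v.1 = j
    · rw [hn1 v h, hn1 (nuH s v) h, nuH_nuH]
    · rw [hn2 v h, hn2 v h]
  have hU : ∀ v ∈ {v : Vx k | v.1 ≠ j}, n v = v := fun v hv => hn2 v hv
  obtain ⟨t, ht1, ht2, ht3, ht4, ht5⟩ := TAU τ n hτ hnn {v : Vx k | v.1 ≠ j} hU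
  obtain ⟨t', ht'⟩ : ∃ t' : Vx (fun i : {i : ι // i ≠ j} => k i.1) →
      Vx (fun i : {i : ι // i ≠ j} => k i.1), ∀ v, emb76 k j (t' v) = t (emb76 k j v) :=
    ⟨fun v => back76 k j (t (emb76 k j v)) (ht3 (emb76 k j v) v.1.2), fun v => rfl⟩
  obtain ⟨p', c', hc1', hc2'⟩ := hS t' (by
    intro v
    apply emb_inj76 k j
    rw [ht', ht', ht1])
  obtain ⟨c1, hc1⟩ : ∃ c1 : Vx k → Bool, ∀ v, c1 (emb76 k j v) = c' v :=
    ⟨fun v => if h : v.1 ≠ j then c' (back76 k j v h) else true, fun v => by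
      have h : (emb76 k j v).1 ≠ j := v.1.2
      change (if h : (emb76 k j v).1 ≠ j then c' (back76 k j (emb76 k j v) h) else true) = c' v
      rw [dif_pos h, back_emb76]⟩
  obtain ⟨c2, hd1, hd2, hd3⟩ := FLIPC τ n t hτ hnn ht1 {v : Vx k | v.1 ≠ j} hU ht3 ht5 c1 (by
    intro v hv htv
    have e1 : v = emb76 k j (back76 k j v hv) := rfl
    rw [e1, ← ht', hc1, hc1]
    apply hc1'
    intro h
    apply htv
    rw [e1, ← ht', h])
  obtain ⟨p₀, hp₀⟩ : ∃ p₀ : ZMod (2 * k j + 1), p₀ = ((k j : ZMod (2 * k j + 1)) + 1) * (a - 1) :=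
    ⟨_, rfl⟩
  have h0 : (2 : ZMod (2 * k j + 1)) * (k j : ZMod (2 * k j + 1)) + 1 = 0 := by
    have := ZMod.natCast_self (2 * k j + 1)
    push_cast at this
    exact this
  have hx : 2 * p₀ + 1 = a := by
    rw [hp₀]
    linear_combination (a - 1) * h0
  have hone : (1 : ZMod (2 * k j + 1)) ≠ 0 := by
    have : Fact (1 < 2 * k j + 1) := ⟨by have := hk j; omega⟩
    exact one_ne_zero
  have hinj : ∀ a b : ZMod (2 * k j + 1), (⟨j, a⟩ : Vx k) = ⟨j, b⟩ → a = b := by
    intro a b hab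
    simpa using hab
  obtain ⟨p, hpj, hpi⟩ : ∃ p : ∀ i, ZMod (2 * k i + 1), p j = p₀ ∧
      ∀ (i : ι) (h : i ≠ j), p i = p' ⟨i, h⟩ := by
    refine ⟨fun i => if h : i = j then h ▸ p₀ else p' ⟨i, h⟩, ?_, fun i h => ?_⟩
    · simp
    · simp only [dif_neg h]
  refine ⟨p, Function.update c2 ⟨j, a⟩ (!(c2 ⟨j, 2 * p₀⟩)), fun v hv => ?_, fun l tt htt => ?_⟩
  · have h1 : v ≠ ⟨j, a⟩ := by
      rintro rfl
      exact hv hq
    have h2 : τ v ≠ ⟨j, a⟩ := by
      intro h3
      apply h1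
      rw [← hτ v, h3, hq]
    rw [Function.update_of_ne h1, Function.update_of_ne h2]
    exact hd1 v hv
  · rcases eq_or_ne l j with hl | hl
    · subst hl
      rw [hpj]
      rcases Nat.eq_zero_or_pos tt with rfl | htp
      · have e1 : p₀ + ((0 : ℕ) : ZMod (2 * k l + 1)) = p₀ := by
          rw [Nat.cast_zero, add_zero]
        rw [e1, hx, Function.update_self, Function.update_of_ne]
        · cases c2 ⟨l, 2 * p₀⟩ <;> simp
        · intro h3
          have h4 := hinj _ _ h3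
          apply hone
          have h5 : 2 * p₀ + 1 = 2 * p₀ := by rw [hx, h4]
          simpa using h5
      · have h3 := nuZ_edge (k l) p₀ tt htp htt
        have h4 : n (⟨l, 2 * (p₀ + (tt : ZMod (2 * k l + 1)))⟩ : Vx k) =
            ⟨l, 2 * (p₀ + (tt : ZMod (2 * k l + 1))) + 1⟩ := by
          rw [hn1 _ rfl]
          unfold nuH
          simp only
          rw [hs, ← hx, h3]
        have h5 : (⟨l, 2 * (p₀ + (tt : ZMod (2 * k l + 1))) + 1⟩ : Vx k) ≠
            ⟨l, 2 * (p₀ + (tt : ZMod (2 * k l + 1)))⟩ := by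
          intro h6
          have := hinj _ _ h6
          apply hone
          simpa using this
        have h6 := hd2 ⟨l, 2 * (p₀ + (tt : ZMod (2 * k l + 1)))⟩ (by rw [h4]; exact h5)
        rw [h4] at h6
        rw [Function.update_of_ne, Function.update_of_ne]
        · exact h6.symm
        · intro h7
          have h8 := hinj _ _ h7
          have h9 : 2 * (p₀ + (tt : ZMod (2 * k l + 1))) = 2 * p₀ := by
            have h10 : 2 * (p₀ + (tt : ZMod (2 * k l + 1))) + 1 = 2 * p₀ + 1 := by rw [h8, hx]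
            exact add_right_cancel h10
          have h11 := two_inj (k l) _ _ h9
          have h12 := add_inj (k l) p₀ tt 0 htt (Nat.zero_le _)
            (by rw [Nat.cast_zero, add_zero]; exact h11)
          omega
        · intro h7
          have h8 := hinj _ _ h7
          rw [h8, hx, nuZ_self] at h3
          apply hone
          have h9 : a + 1 = a := h3.symm
          simpa using h9
    · have h1 : ∀ b : ZMod (2 * k l + 1), (⟨l, b⟩ : Vx k) ≠ ⟨j, a⟩ := by
        intro b hb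
        exact hl (congrArg Sigma.fst hb)
      rw [Function.update_of_ne (h1 _), Function.update_of_ne (h1 _), hd3 _ hl, hd3 _ hl, hpi l hl]
      have h2 := hc2' ⟨l, hl⟩ tt htt
      rw [← hc1, ← hc1] at h2
      exact h2

end Pool.Agent.TWB
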