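import Pool.Agent.TWB.Defs

/-!
GW.  Generic positive weights: all families of edges that can be matched into the rows are linearly
independent.

Proof.  Variables `W = E × (Bool ⊕ Fin g)`, `a e = w (e, inl true)`, `b e = w (e, inl false)`,
`γ e s = w (e, inr s)`.  For a pair `(X, φ)`, `φ : E → Q ⊕ Fin g` injective on `X` and adapted
(`∀ e ∈ X, ∀ q, φ e = inl q → o₁ e = some q ∨ o₂ e = some q`), let `f_{X,φ}` be the determinant of
the `X × X` matrix over `MvPolynomial W ℝ` with entry (row `e'`, column `e`)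
`mv e (φ e')`, where `mv e (inl q) = (if o₁ e = some q then X (e, inl true) else 0)
- (if o₂ e = some q then X (e, inl false) else 0)`, `mv e (inr s) = X (e, inr s)`.
`f_{X,φ} ≠ 0`: evaluate at the point `w⁰` with
`w⁰ (e, inl true) = 1` if `φ e = inl q` and `o₁ e = some q`;
`w⁰ (e, inl false) = 1` if `φ e = inl q` and `o₁ e ≠ some q` (then `o₂ e = some q`);
`w⁰ (e, inr s) = 1` if `φ e = inr s`; all other values `0`.
Then the entry for `(e', e)`, `e, e' ∈ X`, is `± 1` if `φ e' = φ e` (i.e. `e = e'`) and `0` otherwise: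
a diagonal matrix with entries `± 1`, determinant `≠ 0`.
There are finitely many pairs (`Finset E × (E → Q ⊕ Fin g)` is finite), the product of the
`f_{X,φ}` is `≠ 0` (`Finset.prod_ne_zero_iff`, domain), so by `MvPolynomial.funext_set` with
`s _ = Set.Ioi 0` (infinite) there is a point `w` with all coordinates `> 0` where the product
(hence every `f_{X,φ}`) does not vanish.
For such `w`: if `(X, φ)` is adapted and `Σ_{e∈X} y e * vec .. e r = 0` for all rows `r`, then the
vector `(y e)_{e ∈ X}` is in the kernel of the evaluated matrix, whose determinant is not zero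
(`RingHom.map_det`, `Matrix.eq_zero_of_mulVec_eq_zero`), so `y = 0` on `X`.
-/

set_option autoImplicit false

namespace Pool.Agent.TWB

/-- the generic entry -/
noncomputable def gwE {E Q : Type*} [DecidableEq Q] {g : ℕ} (o₁ o₂ : E → Option Q) (e : E) :
    Q ⊕ Fin g → MvPolynomial (E × (Bool ⊕ Fin g)) ℝ
  | Sum.inl q => (if o₁ e = some q then MvPolynomial.X (e, Sum.inl true) else 0) -
      (if o₂ e = some q then MvPolynomial.X (e, Sum.inl false) else 0)
  | Sum.inr s => MvPolynomial.X (e, Sum.inr s)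

theorem gw_eval {E Q : Type*} [DecidableEq Q] {g : ℕ} (o₁ o₂ : E → Option Q) (e : E)
    (w : E × (Bool ⊕ Fin g) → ℝ) (r : Q ⊕ Fin g) :
    MvPolynomial.eval w (gwE o₁ o₂ e r) =
      vec o₁ o₂ (fun e => w (e, Sum.inl true)) (fun e => w (e, Sum.inl false))
        (fun e s => w (e, Sum.inr s)) e r := by
  rcases r with q | s
  · simp only [gwE, vec, map_sub]
    congr 1
    · split_ifs
      · exact MvPolynomial.eval_X _
      · exact map_zero _
    · split_ifs
      · exact MvPolynomial.eval_X _
      · exact map_zero _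
  · simp only [gwE, vec]
    exact MvPolynomial.eval_X _

open Classical in
/-- the generic determinant -/
noncomputable def gwD {E Q : Type*} [DecidableEq Q] {g : ℕ} (o₁ o₂ : E → Option Q)
    (X : Finset E) (φ : E → Q ⊕ Fin g) : MvPolynomial (E × (Bool ⊕ Fin g)) ℝ :=
  Matrix.det (Matrix.of (fun e' e : X => gwE o₁ o₂ (e : E) (φ (e' : E))))

open Classical in
theorem gw_evalD {E Q : Type*} [DecidableEq Q] {g : ℕ} (o₁ o₂ : E → Option Q)
    (X : Finset E) (φ : E → Q ⊕ Fin g) (w : E × (Bool ⊕ Fin g) → ℝ) :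
    MvPolynomial.eval w (gwD o₁ o₂ X φ) =
      Matrix.det (Matrix.of (fun e' e : X =>
        vec o₁ o₂ (fun e => w (e, Sum.inl true)) (fun e => w (e, Sum.inl false))
        (fun e s => w (e, Sum.inr s)) (e : E) (φ (e' : E)))) := by
  unfold gwD
  rw [RingHom.map_det]
  congr 1
  ext e' e
  simp only [RingHom.mapMatrix_apply, Matrix.map_apply, Matrix.of_apply]
  exact gw_eval o₁ o₂ _ w _

/-- adapted pairs -/
def gwA {E Q : Type*} {g : ℕ} (o₁ o₂ : E → Option Q) (X : Finset E) (φ : E → Q ⊕ Fin g) :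
    Prop :=
  Set.InjOn φ (X : Set E) ∧ ∀ e ∈ X, ∀ q, φ e = Sum.inl q → o₁ e = some q ∨ o₂ e = some q

open Classical in
theorem gw_ne {E Q : Type*} [DecidableEq Q] {g : ℕ} (o₁ o₂ : E → Option Q)
    (X : Finset E) (φ : E → Q ⊕ Fin g) (h : gwA o₁ o₂ X φ) : gwD o₁ o₂ X φ ≠ 0 := by
  intro h0
  obtain ⟨hinj, had⟩ := h
  let w : E × (Bool ⊕ Fin g) → ℝ := fun p =>
    match p.2 with
    | Sum.inl true => if ∃ q, φ p.1 = Sum.inl q ∧ o₁ p.1 = some q then 1 else 0
    | Sum.inl false => if ∃ q, φ p.1 = Sum.inl q ∧ o₁ p.1 ≠ some q then 1 else 0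
    | Sum.inr s => if φ p.1 = Sum.inr s then 1 else 0
  have hw1 : ∀ e, w (e, Sum.inl true) = if ∃ q, φ e = Sum.inl q ∧ o₁ e = some q then 1 else 0 :=
    fun e => rfl
  have hw2 : ∀ e, w (e, Sum.inl false) =
      if ∃ q, φ e = Sum.inl q ∧ o₁ e ≠ some q then 1 else 0 := fun e => rfl
  have hw3 : ∀ e s, w (e, Sum.inr s) = if φ e = Sum.inr s then 1 else 0 := fun e s => rfl
  have hev := gw_evalD o₁ o₂ X φ w
  rw [h0, map_zero] at hev
  -- the diagonal entries
  have hdiag : ∀ e ∈ X, vec o₁ o₂ (fun e => w (e, Sum.inl true)) (fun e => w (e, Sum.inl false))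
        (fun e s => w (e, Sum.inr s)) e (φ e) ≠ 0 := by
    intro e he
    rcases hφ : φ e with q | s
    · rcases Classical.em (o₁ e = some q) with h1 | h1
      · have e1 : w (e, Sum.inl true) = 1 := by
          rw [hw1, if_pos ⟨q, hφ, h1⟩]
        have e2 : w (e, Sum.inl false) = 0 := by
          rw [hw2, if_neg]
          rintro ⟨q', h3, h4⟩
          rw [hφ] at h3
          have h5 := Sum.inl.inj h3
          rw [h5] at h1
          exact h4 h1
        simp only [vec, e1, e2, if_pos h1, ite_self, sub_zero]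
        exact one_ne_zero
      · have e1 : w (e, Sum.inl true) = 0 := by
          rw [hw1, if_neg]
          rintro ⟨q', h3, h4⟩
          rw [hφ] at h3
          have h5 := Sum.inl.inj h3
          rw [← h5] at h4
          exact h1 h4
        have e2 : w (e, Sum.inl false) = 1 := by
          rw [hw2, if_pos ⟨q, hφ, h1⟩]
        have h2 : o₂ e = some q := by
          rcases had e he q hφ with h3 | h3
          · exact absurd h3 h1
          · exact h3
        simp only [vec, e1, e2, if_pos h2, ite_self, zero_sub]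
        exact neg_ne_zero.2 one_ne_zero
    · have e3 : w (e, Sum.inr s) = 1 := by
        rw [hw3, if_pos hφ]
      simp only [vec, e3]
      exact one_ne_zero
  have hoff : ∀ e ∈ X, ∀ e' ∈ X, e' ≠ e →
      vec o₁ o₂ (fun e => w (e, Sum.inl true)) (fun e => w (e, Sum.inl false))
        (fun e s => w (e, Sum.inr s)) e (φ e') = 0 := by
    intro e he e' he' hne
    have hφne : φ e' ≠ φ e := fun h => hne (hinj he' he h)
    rcases hφ : φ e with q | s
    · rw [hφ] at hφne
      have e3 : ∀ s, w (e, Sum.inr s) = 0 := by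
        intro s
        rw [hw3, if_neg]
        rw [hφ]
        exact fun h => by cases h
      rcases Classical.em (o₁ e = some q) with h1 | h1
      · have e2 : w (e, Sum.inl false) = 0 := by
          rw [hw2, if_neg]
          rintro ⟨q', h3, h4⟩
          rw [hφ] at h3
          have h5 := Sum.inl.inj h3
          rw [h5] at h1
          exact h4 h1
        rcases hφ' : φ e' with q' | s'
        · have hq : o₁ e ≠ some q' := by
            rw [h1]
            intro h
            rw [hφ', Option.some.inj h] at hφne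
            exact hφne rfl
          simp only [vec, e2, if_neg hq, ite_self, sub_zero]
        · simp only [vec, e3]
      · have e1 : w (e, Sum.inl true) = 0 := by
          rw [hw1, if_neg]
          rintro ⟨q', h3, h4⟩
          rw [hφ] at h3
          have h5 := Sum.inl.inj h3
          rw [← h5] at h4
          exact h1 h4
        have h2 : o₂ e = some q := by
          rcases had e he q hφ with h3 | h3
          · exact absurd h3 h1
          · exact h3
        rcases hφ' : φ e' with q' | s'
        · have hq : o₂ e ≠ some q' := by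
            rw [h2]
            intro h
            rw [hφ', Option.some.inj h] at hφne
            exact hφne rfl
          simp only [vec, e1, if_neg hq, ite_self, sub_zero]
        · simp only [vec, e3]
    · rw [hφ] at hφne
      have e1 : w (e, Sum.inl true) = 0 := by
        rw [hw1, if_neg]
        rintro ⟨q', h3, h4⟩
        rw [hφ] at h3
        cases h3
      have e2 : w (e, Sum.inl false) = 0 := by
        rw [hw2, if_neg]
        rintro ⟨q', h3, h4⟩
        rw [hφ] at h3
        cases h3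
      rcases hφ' : φ e' with q' | s'
      · simp only [vec, e1, e2, ite_self, sub_zero]
      · have e3 : w (e, Sum.inr s') = 0 := by
          rw [hw3, if_neg]
          intro h
          rw [hφ', ← h, hφ] at hφne
          exact hφne rfl
        simp only [vec, e3]
  have hM : (Matrix.of (fun e' e : X =>
        vec o₁ o₂ (fun e => w (e, Sum.inl true)) (fun e => w (e, Sum.inl false))
        (fun e s => w (e, Sum.inr s)) (e : E) (φ (e' : E)))) =
      Matrix.diagonal (fun e : X =>
        vec o₁ o₂ (fun e => w (e, Sum.inl true)) (fun e => w (e, Sum.inl false))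
        (fun e s => w (e, Sum.inr s)) (e : E) (φ (e : E))) := by
    ext e' e
    rcases Classical.em (e' = e) with h | h
    · rw [h, Matrix.diagonal_apply_eq, Matrix.of_apply]
    · rw [Matrix.diagonal_apply_ne _ h, Matrix.of_apply]
      exact hoff e e.2 e' e'.2 (fun h' => h (Subtype.ext h'))
  rw [hM, Matrix.det_diagonal] at hev
  have hprod := Finset.prod_ne_zero_iff.2 (fun e (_ : e ∈ (Finset.univ : Finset X)) =>
    hdiag e e.2)
  exact hprod hev.symm

open Classical in
theorem gw_indep {E Q : Type*} [DecidableEq Q] {g : ℕ} (o₁ o₂ : E → Option Q)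
    (a b : E → ℝ) (γ : E → Fin g → ℝ) (X : Finset E) (φ : E → Q ⊕ Fin g)
    (hdet : Matrix.det (Matrix.of (fun e' e : X =>
      vec o₁ o₂ a b γ (e : E) (φ (e' : E)))) ≠ 0)
    (y : E → ℝ) (hy : ∀ r, ∑ e ∈ X, y e * vec o₁ o₂ a b γ e r = 0) : ∀ e ∈ X, y e = 0 := by
  have h := Matrix.eq_zero_of_mulVec_eq_zero hdet (v := fun e : X => y e) (by
    funext e'
    rw [Matrix.mulVec, dotProduct, Pi.zero_apply, ← hy (φ (e' : E)),
      ← Finset.sum_coe_sort X (fun e => y e * vec o₁ o₂ a b γ e (φ (e' : E)))]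
    refine Finset.sum_congr rfl fun e _ => ?_
    rw [Matrix.of_apply, mul_comm])
  intro e he
  exact congrFun h ⟨e, he⟩

theorem GW {E Q : Type*} [Fintype E] [Fintype Q] [DecidableEq Q] (g : ℕ)
    (o₁ o₂ : E → Option Q) :
    ∃ (a b : E → ℝ) (γ : E → Fin g → ℝ), (∀ e, 0 < a e) ∧ (∀ e, 0 < b e) ∧
      ∀ X : Finset E,
        (∃ φ : E → Q ⊕ Fin g, Set.InjOn φ (X : Set E) ∧
          ∀ e ∈ X, ∀ q, φ e = Sum.inl q → o₁ e = some q ∨ o₂ e = some q) →
        ∀ y : E → ℝ, (∀ r, ∑ e ∈ X, y e * vec o₁ o₂ a b γ e r = 0) → ∀ e ∈ X, y e = 0 := by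
  classical
  let P : MvPolynomial (E × (Bool ⊕ Fin g)) ℝ :=
    ∏ p ∈ (Finset.univ : Finset (Finset E × (E → Q ⊕ Fin g))).filter
      (fun p => gwA o₁ o₂ p.1 p.2), gwD o₁ o₂ p.1 p.2
  have hP : P ≠ 0 := by
    refine Finset.prod_ne_zero_iff.2 fun p hp => ?_
    exact gw_ne o₁ o₂ p.1 p.2 (Finset.mem_filter.1 hp).2
  have hex : ∃ w : E × (Bool ⊕ Fin g) → ℝ, (∀ x, 0 < w x) ∧ MvPolynomial.eval w P ≠ 0 := by
    by_contra hc
    apply hP
    refine MvPolynomial.funext_set (fun _ => Set.Ioi (0 : ℝ)) (fun _ => Set.Ioi_infinite 0) ?_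
    intro x hx
    rw [map_zero]
    by_contra h
    exact hc ⟨x, fun i => hx i (Set.mem_univ i), h⟩
  obtain ⟨w, hw, hPw⟩ := hex
  refine ⟨fun e => w (e, Sum.inl true), fun e => w (e, Sum.inl false),
    fun e s => w (e, Sum.inr s), fun e => hw _, fun e => hw _, ?_⟩
  rintro X ⟨φ, hφ⟩ y hy
  have h1 : MvPolynomial.eval w (gwD o₁ o₂ X φ) ≠ 0 := by
    have h2 : MvPolynomial.eval w P = ∏ p ∈ (Finset.univ : Finset (Finset E ×
        (E → Q ⊕ Fin g))).filter (fun p => gwA o₁ o₂ p.1 p.2),
        MvPolynomial.eval w (gwD o₁ o₂ p.1 p.2) := map_prod _ _ _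
    rw [h2] at hPw
    exact Finset.prod_ne_zero_iff.1 hPw (X, φ)
      (Finset.mem_filter.2 ⟨Finset.mem_univ _, hφ⟩)
  rw [gw_evalD] at h1
  exact gw_indep o₁ o₂ _ _ _ X φ h1 y hy

end Pool.Agent.TWB
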