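import Pool.Agent.TWB.NU

/-!
HALL.  Hall's condition for a set of arc edges which misses an end edge of some arc.

Proof.  For `e ∈ X` let `N e : Finset (Q ⊕ Fin g)` be the set of `inl q` with `o (hd e) = some q` or
`o (tl e) = some q`, and all `inr s`.  By Hall's theorem
(`Finset.all_card_le_biUnion_card_iff_exists_injective` for the index type `X`) it suffices that
`#Y ≤ #(Y.biUnion N)` for every nonempty `Y ⊆ X`; the function on `X` is extended to all of `Vx k` by a
value taken at an element of the nonempty `X`.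
Let `VY = Y.image hd ∪ Y.image tl`.  `hd` and `tl` are injective (`two_inj`), so
`#VY = 2 #Y - #I`, `I = Y.image hd ∩ Y.image tl`.  If `v = hd e = tl e'`, `e, e' ∈ Y`, then
`e = ⟨i, p i + t⟩`, `e' = ⟨i, p i + t'⟩` (same `i`), `t, t' ≤ k i`, and by `two_cross` `t = 0`,
`t' = k i`; so both end edges of circuit `i` are in `Y ⊆ X`, hence `i ≠ i₀`, and `v = ⟨i, 2 p i⟩`.  So
`#I ≤ card ι - 1`.
Let `R = {q | ∃ v ∈ VY, o v = some q}`.  Each `q` is `o v` for at most two `v` (`ho2`), and `o v = none`
only for fixed points (`ho1`): `#VY ≤ 2 #R + f`, `f` the number of fixed points.  `Y.biUnion N` is the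
disjoint union of `R` (via `inl`) and all of `Fin g` (via `inr`), `#(Y.biUnion N) = #R + g`.
So `2 #(Y.biUnion N) ≥ #VY - f + 2 g ≥ 2 #Y - (card ι - 1) - f + 2 g = 2 #Y - 1` by `hg`, hence
`#(Y.biUnion N) ≥ #Y`.
-/

set_option autoImplicit false

namespace Pool.Agent.TWB

theorem hall_hd_inj {ι : Type*} {k : ι → ℕ} {e e' : Vx k} (h : hd e = hd e') : e = e' := by
  obtain ⟨i, x⟩ := e
  obtain ⟨j, y⟩ := e'
  unfold hd at h
  have h1 : i = j := congrArg Sigma.fst h
  subst h1
  have h2 : 2 * x = 2 * y := by simpa using h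
  rw [two_inj _ _ _ h2]

theorem hall_tl_inj {ι : Type*} {k : ι → ℕ} {e e' : Vx k} (h : tl e = tl e') : e = e' := by
  obtain ⟨i, x⟩ := e
  obtain ⟨j, y⟩ := e'
  unfold tl at h
  have h1 : i = j := congrArg Sigma.fst h
  subst h1
  have h2 : 2 * x = 2 * y := by simpa using h
  rw [two_inj _ _ _ h2]

theorem hall_count {ι : Type*} [Fintype ι] [DecidableEq ι] (k : ι → ℕ)
    (τ : Vx k → Vx k) {Q : Type*} [Fintype Q] [DecidableEq Q]
    (o : Vx k → Option Q) (ho1 : ∀ v, o v = none ↔ τ v = v)
    (ho2 : ∀ v w, τ v ≠ v → (o w = o v ↔ w = v ∨ w = τ v))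
    (g : ℕ)
    (hg : Fintype.card ι + (Finset.univ.filter (fun v : Vx k => τ v = v)).card = 2 * (g + 1))
    (p : ∀ i, ZMod (2 * k i + 1)) (X : Finset (Vx k))
    (hX : ∀ e ∈ X, ∃ t : ℕ, t ≤ k e.1 ∧ e.2 = p e.1 + (t : ZMod (2 * k e.1 + 1)))
    (i₀ : ι)
    (hi₀ : (⟨i₀, p i₀⟩ : Vx k) ∉ X ∨ (⟨i₀, p i₀ + (k i₀ : ZMod (2 * k i₀ + 1))⟩ : Vx k) ∉ X)
    (Y : Finset (Vx k)) (hYX : Y ⊆ X) :
    Y.card ≤ (Finset.univ.filter
      (fun q : Q => ∃ e ∈ Y, o (hd e) = some q ∨ o (tl e) = some q)).card + g := by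
  classical
  set R : Finset Q := Finset.univ.filter
    (fun q : Q => ∃ e ∈ Y, o (hd e) = some q ∨ o (tl e) = some q) with hR
  set A : Finset (Vx k) := Y.image hd with hA
  set B : Finset (Vx k) := Y.image tl with hB
  have cA : A.card = Y.card :=
    Finset.card_image_of_injective Y (fun e e' h => hall_hd_inj h)
  have cB : B.card = Y.card :=
    Finset.card_image_of_injective Y (fun e e' h => hall_tl_inj h)
  have hui : (A ∪ B).card + (A ∩ B).card = A.card + B.card := Finset.card_union_add_card_inter A B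
  -- the intersection
  have hI : (A ∩ B).card ≤ Fintype.card ι - 1 := by
    have hsub : A ∩ B ⊆ (Finset.univ.erase i₀).image (fun i => (⟨i, 2 * p i⟩ : Vx k)) := by
      intro v hv
      rw [Finset.mem_inter, hA, hB, Finset.mem_image, Finset.mem_image] at hv
      obtain ⟨⟨e, heY, he⟩, ⟨e', heY', he'⟩⟩ := hv
      obtain ⟨i, x⟩ := e
      obtain ⟨j, y⟩ := e'
      have hij : i = j := by
        have h1 := congrArg Sigma.fst (he.trans he'.symm)
        exact h1
      subst hij
      obtain ⟨t, ht, hx⟩ := hX _ (hYX heY)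
      obtain ⟨t', ht', hy⟩ := hX _ (hYX heY')
      simp only at ht hx ht' hy
      have h2 : 2 * x = 2 * y + 1 := by
        have h3 : hd (⟨i, x⟩ : Vx k) = tl ⟨i, y⟩ := he.trans he'.symm
        unfold hd tl at h3
        simpa using h3
      rw [hx, hy] at h2
      obtain ⟨ht0, htk⟩ := two_cross (k i) (p i) t t' ht ht' h2
      subst ht0
      subst htk
      have hx' : x = p i := by rw [hx]; simp
      rw [Finset.mem_image]
      refine ⟨i, ?_, ?_⟩
      · rw [Finset.mem_erase]
        refine ⟨?_, Finset.mem_univ _⟩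
        intro hi
        subst hi
        rcases hi₀ with h4 | h4
        · apply h4
          rw [← hx']
          exact hYX heY
        · apply h4
          rw [← hy]
          exact hYX heY'
      · rw [← hx']
        exact he
    refine (Finset.card_le_card hsub).trans (Finset.card_image_le.trans ?_)
    rw [Finset.card_erase_of_mem (Finset.mem_univ _), Finset.card_univ]
  -- the union
  have hU : (A ∪ B).card ≤ R.card * 2 + (Finset.univ.filter (fun v : Vx k => τ v = v)).card := by
    have hsub : A ∪ B ⊆ (R.biUnion (fun q => Finset.univ.filter (fun v : Vx k => o v = some q))) ∪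
        (Finset.univ.filter (fun v : Vx k => τ v = v)) := by
      intro v hv
      rw [Finset.mem_union]
      by_cases hov : o v = none
      · right
        rw [Finset.mem_filter]
        exact ⟨Finset.mem_univ _, (ho1 v).1 hov⟩
      · left
        obtain ⟨q, hq⟩ := Option.ne_none_iff_exists'.1 hov
        rw [Finset.mem_biUnion]
        refine ⟨q, ?_, ?_⟩
        · rw [hR, Finset.mem_filter]
          refine ⟨Finset.mem_univ _, ?_⟩
          rw [Finset.mem_union, hA, hB, Finset.mem_image, Finset.mem_image] at hv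
          rcases hv with ⟨e, he, hev⟩ | ⟨e, he, hev⟩
          · exact ⟨e, he, Or.inl (by rw [hev]; exact hq)⟩
          · exact ⟨e, he, Or.inr (by rw [hev]; exact hq)⟩
        · rw [Finset.mem_filter]
          exact ⟨Finset.mem_univ _, hq⟩
    refine (Finset.card_le_card hsub).trans ((Finset.card_union_le _ _).trans ?_)
    apply Nat.add_le_add_right
    apply Finset.card_biUnion_le_card_mul
    intro q _
    by_cases hne : (Finset.univ.filter (fun v : Vx k => o v = some q)).Nonempty
    · obtain ⟨v, hv⟩ := hne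
      rw [Finset.mem_filter] at hv
      have hτv : τ v ≠ v := by
        intro h
        rw [(ho1 v).2 h] at hv
        exact absurd hv.2 (by simp)
      have hs2 : Finset.univ.filter (fun v : Vx k => o v = some q) ⊆ {v, τ v} := by
        intro w hw
        rw [Finset.mem_filter] at hw
        have h5 : o w = o v := hw.2.trans hv.2.symm
        rcases (ho2 v w hτv).1 h5 with h6 | h6
        · rw [h6]; simp
        · rw [h6]; simp
      exact (Finset.card_le_card hs2).trans Finset.card_le_two
    · rw [Finset.not_nonempty_iff_eq_empty] at hne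
      rw [hne]
      simp
  have hι : 1 ≤ Fintype.card ι := Fintype.card_pos_iff.2 ⟨i₀⟩
  omega

theorem HALL {ι : Type*} [Fintype ι] [DecidableEq ι] (k : ι → ℕ) (hk : ∀ i, 1 ≤ k i)
    (τ : Vx k → Vx k) (hτ : ∀ v, τ (τ v) = v) {Q : Type*} [Fintype Q] [DecidableEq Q]
    (o : Vx k → Option Q) (ho1 : ∀ v, o v = none ↔ τ v = v)
    (ho2 : ∀ v w, τ v ≠ v → (o w = o v ↔ w = v ∨ w = τ v))
    (g : ℕ)
    (hg : Fintype.card ι + (Finset.univ.filter (fun v : Vx k => τ v = v)).card = 2 * (g + 1))
    (p : ∀ i, ZMod (2 * k i + 1)) (X : Finset (Vx k)) (hXne : X.Nonempty)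
    (hX : ∀ e ∈ X, ∃ t : ℕ, t ≤ k e.1 ∧ e.2 = p e.1 + (t : ZMod (2 * k e.1 + 1)))
    (i₀ : ι)
    (hi₀ : (⟨i₀, p i₀⟩ : Vx k) ∉ X ∨ (⟨i₀, p i₀ + (k i₀ : ZMod (2 * k i₀ + 1))⟩ : Vx k) ∉ X) :
    ∃ φ : Vx k → Q ⊕ Fin g, Set.InjOn φ (X : Set (Vx k)) ∧
      ∀ e ∈ X, ∀ q, φ e = Sum.inl q → o (hd e) = some q ∨ o (tl e) = some q := by
  classical
  set t : {e // e ∈ X} → Finset (Q ⊕ Fin g) := fun e =>
    (Finset.univ.filter (fun q : Q => o (hd e.1) = some q ∨ o (tl e.1) = some q)).disjSum
      Finset.univ with ht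
  have hall : ∀ s : Finset {e // e ∈ X}, s.card ≤ (s.biUnion t).card := by
    intro s
    rcases s.eq_empty_or_nonempty with rfl | hs
    · simp
    · have h1 := hall_count k τ o ho1 ho2 g hg p X hX i₀ hi₀ (s.map (Function.Embedding.subtype _))
        (fun e he => by
          rw [Finset.mem_map] at he
          obtain ⟨e', _, rfl⟩ := he
          exact e'.2)
      rw [Finset.card_map] at h1
      refine h1.trans ?_
      have h2 : (Finset.univ.filter (fun q : Q => ∃ e ∈ s.map (Function.Embedding.subtype _),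
          o (hd e) = some q ∨ o (tl e) = some q)).disjSum (Finset.univ : Finset (Fin g)) ⊆
          s.biUnion t := by
        intro x hx
        rw [Finset.mem_biUnion]
        rw [Finset.mem_disjSum] at hx
        rcases hx with ⟨q, hq, rfl⟩ | ⟨j, _, rfl⟩
        · rw [Finset.mem_filter] at hq
          obtain ⟨_, e, he, hoe⟩ := hq
          rw [Finset.mem_map] at he
          obtain ⟨e', he', rfl⟩ := he
          refine ⟨e', he', ?_⟩
          rw [ht, Finset.inl_mem_disjSum, Finset.mem_filter]
          exact ⟨Finset.mem_univ _, hoe⟩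
        · obtain ⟨e', he'⟩ := hs
          refine ⟨e', he', ?_⟩
          rw [ht, Finset.inr_mem_disjSum]
          exact Finset.mem_univ _
      have h3 := Finset.card_le_card h2
      rw [Finset.card_disjSum, Finset.card_univ, Fintype.card_fin] at h3
      exact h3
  obtain ⟨f, hf, hft⟩ := (Finset.all_card_le_biUnion_card_iff_exists_injective t).1 hall
  obtain ⟨e0, he0⟩ := hXne
  refine ⟨fun e => if h : e ∈ X then f ⟨e, h⟩ else f ⟨e0, he0⟩, ?_, ?_⟩
  · intro e he e' he' h
    rw [Finset.mem_coe] at he he'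
    simp only [he, he', dite_true] at h
    exact congrArg Subtype.val (hf h)
  · intro e he q hq
    simp only [he, dite_true] at hq
    have h1 := hft ⟨e, he⟩
    rw [hq, ht, Finset.inl_mem_disjSum, Finset.mem_filter] at h1
    exact h1.2

end Pool.Agent.TWB
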