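import Pool.Agent.TWB.Defs

/-!
ROWS.  The set of 2-element orbits of an involution.

Proof.  `Q = {s : Finset H // ∃ v, τ v ≠ v ∧ s = {v, τ v}}` (a `Fintype` by classical choice),
`o v = none` if `τ v = v`, otherwise `some ⟨{v, τ v}, _⟩`.  For `τ v ≠ v`: `o w = o v` iff
`τ w ≠ w` and `{w, τ w} = {v, τ v}` iff `w = v ∨ w = τ v` (if `w = v` or `w = τ v` then
`τ w ≠ w` and the sets agree; conversely `w ∈ {v, τ v}`).
Count: the non-fixed points are the disjoint union over `q ∈ Q` of the sets `q` with 2 elements each:
`card {v | τ v ≠ v} = Σ_{q} card {v | o v = some q} = 2 * card Q` (`Finset.card_eq_sum_card_fiberwise`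
or `Finset.sum_card..`).
-/

set_option autoImplicit false

namespace Pool.Agent.TWB

universe uH

theorem ROWS {H : Type uH} [Fintype H] [DecidableEq H] (τ : H → H) (hτ : ∀ v, τ (τ v) = v) :
    ∃ (Q : Type uH) (_ : Fintype Q) (_ : DecidableEq Q) (o : H → Option Q),
      (∀ v, o v = none ↔ τ v = v) ∧
      (∀ v w, τ v ≠ v → (o w = o v ↔ w = v ∨ w = τ v)) ∧
      2 * Fintype.card Q + (Finset.univ.filter (fun v => τ v = v)).card = Fintype.card H := by
  classical
  let Q : Type uH := {s : Finset H // ∃ v, τ v ≠ v ∧ s = {v, τ v}}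
  let o : H → Option Q := fun v => if h : τ v = v then none else some ⟨{v, τ v}, v, h, rfl⟩
  have ho0 : ∀ v, τ v = v → o v = none := fun v h => dif_pos h
  have ho1 : ∀ v (h : τ v ≠ v), o v = some ⟨{v, τ v}, v, h, rfl⟩ := fun v h => dif_neg h
  have h1 : ∀ v, o v = none ↔ τ v = v := by
    intro v
    constructor
    · intro h
      by_contra h'
      rw [ho1 v h'] at h
      exact Option.some_ne_none _ h
    · exact ho0 v
  have h2 : ∀ v w, τ v ≠ v → (o w = o v ↔ w = v ∨ w = τ v) := by
    intro v w hv
    constructor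
    · intro h
      have hw : τ w ≠ w := by
        intro h'
        rw [ho0 w h', ho1 v hv] at h
        exact Option.some_ne_none _ h.symm
      rw [ho1 v hv, ho1 w hw, Option.some.injEq, Subtype.mk.injEq] at h
      have h3 : w ∈ ({v, τ v} : Finset H) := by
        rw [← h]
        exact Finset.mem_insert_self _ _
      rw [Finset.mem_insert, Finset.mem_singleton] at h3
      exact h3
    · rintro (rfl | rfl)
      · rfl
      · have hw : τ (τ v) ≠ τ v := by
          rw [hτ v]
          exact fun h => hv h.symm
        rw [ho1 v hv, ho1 _ hw, Option.some.injEq, Subtype.mk.injEq, hτ v]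
        exact Finset.pair_comm _ _
  refine ⟨Q, inferInstance, inferInstance, o, h1, h2, ?_⟩
  have h3 : Fintype.card H =
      ∑ b : Option Q, (Finset.univ.filter (fun v : H => o v = b)).card := by
    rw [← Finset.card_univ]
    exact Finset.card_eq_sum_card_fiberwise (fun _ _ => Finset.mem_univ _)
  have h4 : ∀ q : Q, (Finset.univ.filter (fun v : H => o v = some q)).card = 2 := by
    rintro ⟨s, v, hv, rfl⟩
    have h5 : Finset.univ.filter (fun w : H => o w = some ⟨{v, τ v}, v, hv, rfl⟩) =
        {v, τ v} := by
      ext w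
      rw [Finset.mem_filter, Finset.mem_insert, Finset.mem_singleton, ← h2 v w hv, ho1 v hv]
      exact ⟨fun h => h.2, fun h => ⟨Finset.mem_univ _, h⟩⟩
    rw [h5]
    exact Finset.card_pair (fun h => hv h.symm)
  rw [h3, Fintype.sum_option, Finset.sum_congr rfl (fun q _ => h4 q), Finset.sum_const,
    Finset.card_univ, smul_eq_mul]
  have h6 : Finset.univ.filter (fun v : H => o v = none) =
      Finset.univ.filter (fun v : H => τ v = v) := by
    ext w
    simp only [Finset.mem_filter, Finset.mem_univ, true_and]
    exact h1 w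
  rw [h6]
  ring

end Pool.Agent.TWB
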