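import Pool.Agent.TWB.BUA
import Pool.Agent.TWB.ROWS
import Pool.Agent.TWB.GW
import Pool.Agent.TWB.HALL
import Pool.Agent.TWB.COL

/-!
T2.  If all `k i` are odd then `Solv k`.

Proof.  `ι` empty: `Vx k` is empty, everything trivial.  Let `ι` be nonempty, `τ` an involution.
`ROWS` gives `Q`, `o`, `2 card Q + f = card (Vx k) = Σ (2 k i + 1) = 2 D - r` with
`D = Σ (k i + 1)`, `r = card ι ≥ 1`, `f` the number of fixed points.  So `r + f = 2 (D - card Q)`,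
in particular `card Q < D`; put `g = D - card Q - 1`: `r + f = 2 (g + 1)` and
`card (Q ⊕ Fin g) + 1 = D`.
`GW` with `E = Vx k`, `o₁ e = o (hd e)`, `o₂ e = o (tl e)` gives `a`, `b`, `γ`.  `BUA` with
`ρ = Q ⊕ Fin g`, `V = vec o₁ o₂ a b γ` gives `p`, `s`, `z`.
Ends positive: suppose `z i₀ 0 = 0` or `z i₀ (k i₀) = 0`.  Let `X` be the finset of the `e` such that
there is `t ≤ k e.1` with `e.2 = p e.1 + t` and `0 < z e.1 t` (`t` is unique by `add_inj`).  `X` is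
nonempty (some `z i t ≠ 0`, `t ≤ k i`).  `⟨i₀, p i₀⟩ ∉ X` resp. `⟨i₀, p i₀ + k i₀⟩ ∉ X` by uniqueness
of `t`.  `HALL` and `GW`: with `y e = Σ_{t < k e.1 + 1} (if e.2 = p e.1 + t then
sg (s e.1 t) * z e.1 t else 0)` the relation of `BUA` says `Σ_{e∈X} y e * vec e r = 0` for all `r`
(regroup the sum over `(i, t)` by `e = ⟨i, p i + t⟩`, terms with `z i t = 0` vanish), so `y e = 0` on
`X`, but `y e = ± z i t ≠ 0` for `e = ⟨i, p i + t⟩ ∈ X`: contradiction.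
So `0 < z i 0` and `0 < z i (k i)` for all `i`; `COL` (with the rows `Sum.inl q`) gives the
colouring.  `hd ⟨i, j⟩ = ⟨i, 2 * j⟩`, `tl ⟨i, j⟩ = ⟨i, 2 * j + 1⟩` by definition.
-/

set_option autoImplicit false

namespace Pool.Agent.TWB

private theorem t2_sg_ne (b : Bool) : sg b ≠ 0 := by
  unfold sg
  split_ifs <;> norm_num

private theorem t2_ends {ι : Type*} [Fintype ι] [DecidableEq ι] (k : ι → ℕ) (hk : ∀ i, 1 ≤ k i)
    (τ : Vx k → Vx k) (hτ : ∀ v, τ (τ v) = v) {Q : Type*} [Fintype Q] [DecidableEq Q]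
    (o : Vx k → Option Q) (ho1 : ∀ v, o v = none ↔ τ v = v)
    (ho2 : ∀ v w, τ v ≠ v → (o w = o v ↔ w = v ∨ w = τ v))
    (g : ℕ)
    (hg : Fintype.card ι + (Finset.univ.filter (fun v : Vx k => τ v = v)).card = 2 * (g + 1))
    (W : Vx k → Q ⊕ Fin g → ℝ)
    (hGW : ∀ X : Finset (Vx k),
        (∃ φ : Vx k → Q ⊕ Fin g, Set.InjOn φ (X : Set (Vx k)) ∧
          ∀ e ∈ X, ∀ q, φ e = Sum.inl q → o (hd e) = some q ∨ o (tl e) = some q) →
        ∀ y : Vx k → ℝ, (∀ r, ∑ e ∈ X, y e * W e r = 0) → ∀ e ∈ X, y e = 0)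
    (p : ∀ i, ZMod (2 * k i + 1)) (s : ι → ℕ → Bool) (z : ι → ℕ → ℝ) (hz : ∀ i t, 0 ≤ z i t)
    (hzne : ∃ i, ∃ t ≤ k i, z i t ≠ 0)
    (hrel : ∀ r : Q ⊕ Fin g, ∑ i, ∑ t ∈ Finset.range (k i + 1),
      sg (s i t) * z i t * W ⟨i, p i + (t : ZMod (2 * k i + 1))⟩ r = 0)
    (i₀ : ι) : 0 < z i₀ 0 ∧ 0 < z i₀ (k i₀) := by
  classical
  by_contra hcon
  set X : Finset (Vx k) := Finset.univ.filter (fun e : Vx k => ∃ t : ℕ, t ≤ k e.1 ∧
    e.2 = p e.1 + (t : ZMod (2 * k e.1 + 1)) ∧ 0 < z e.1 t) with hX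
  set y : Vx k → ℝ := fun e => ∑ t ∈ Finset.range (k e.1 + 1),
    (if e.2 = p e.1 + (t : ZMod (2 * k e.1 + 1)) then sg (s e.1 t) * z e.1 t else 0) with hy
  have hmem : ∀ e : Vx k, e ∈ X ↔ ∃ t : ℕ, t ≤ k e.1 ∧
    e.2 = p e.1 + (t : ZMod (2 * k e.1 + 1)) ∧ 0 < z e.1 t := by
    intro e
    rw [hX, Finset.mem_filter]
    exact ⟨fun h => h.2, fun h => ⟨Finset.mem_univ _, h⟩⟩
  have hmem' : ∀ (i : ι) (t : ℕ), t ≤ k i →
      ((⟨i, p i + (t : ZMod (2 * k i + 1))⟩ : Vx k) ∈ X ↔ 0 < z i t) := by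
    intro i t ht
    rw [hmem]
    constructor
    · rintro ⟨t', ht', h1, h2⟩
      have := add_inj (k i) (p i) t t' ht ht' h1
      subst this
      exact h2
    · intro h
      exact ⟨t, ht, rfl, h⟩
  have hyv : ∀ (i : ι) (t : ℕ), t ≤ k i →
      y ⟨i, p i + (t : ZMod (2 * k i + 1))⟩ = sg (s i t) * z i t := by
    intro i t ht
    rw [hy]
    dsimp only
    rw [Finset.sum_eq_single t]
    · rw [if_pos rfl]
    · intro t' ht' hne
      rw [if_neg]
      intro h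
      exact hne (add_inj (k i) (p i) t t' ht (Nat.lt_succ_iff.1 (Finset.mem_range.1 ht')) h).symm
    · intro h
      exact absurd (Finset.mem_range.2 (Nat.lt_succ_of_le ht)) h
  have hy0 : ∀ e : Vx k, e ∉ X → y e = 0 := by
    intro e he
    rw [hy]
    dsimp only
    refine Finset.sum_eq_zero fun t ht => ?_
    split_ifs with h
    · have ht' : t ≤ k e.1 := Nat.lt_succ_iff.1 (Finset.mem_range.1 ht)
      have : ¬ 0 < z e.1 t := fun hpos => he ((hmem e).2 ⟨t, ht', h, hpos⟩)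
      have h0 : z e.1 t = 0 := le_antisymm (not_lt.1 this) (hz _ _)
      rw [h0, mul_zero]
    · rfl
  have hXne : X.Nonempty := by
    obtain ⟨i, t, ht, h⟩ := hzne
    exact ⟨⟨i, p i + (t : ZMod (2 * k i + 1))⟩,
      (hmem' i t ht).2 (lt_of_le_of_ne (hz _ _) (Ne.symm h))⟩
  have hi₀ : (⟨i₀, p i₀⟩ : Vx k) ∉ X ∨
      (⟨i₀, p i₀ + (k i₀ : ZMod (2 * k i₀ + 1))⟩ : Vx k) ∉ X := by
    by_cases h0 : 0 < z i₀ 0
    · right
      intro h
      exact hcon ⟨h0, (hmem' i₀ (k i₀) le_rfl).1 h⟩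
    · left
      intro h
      apply h0
      apply (hmem' i₀ 0 (Nat.zero_le _)).1
      have : p i₀ + ((0 : ℕ) : ZMod (2 * k i₀ + 1)) = p i₀ := by
        rw [Nat.cast_zero, add_zero]
      rw [this]
      exact h
  have hall := HALL k hk τ hτ o ho1 ho2 g hg p X hXne (fun e he => by
    obtain ⟨t, h1, h2, _⟩ := (hmem e).1 he
    exact ⟨t, h1, h2⟩) i₀ hi₀
  have hzero := hGW X hall y (fun r => by
    have h1 : ∑ e ∈ X, y e * W e r = ∑ e : Vx k, y e * W e r := by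
      refine Finset.sum_subset (Finset.subset_univ _) fun e _ he => ?_
      rw [hy0 e he, zero_mul]
    rw [h1, Fintype.sum_sigma]
    refine Eq.trans ?_ (hrel r)
    refine Finset.sum_congr rfl fun i _ => ?_
    have h2 : ∀ j : ZMod (2 * k i + 1), y ⟨i, j⟩ * W ⟨i, j⟩ r =
        ∑ t ∈ Finset.range (k i + 1), (if j = p i + (t : ZMod (2 * k i + 1)) then
          sg (s i t) * z i t * W ⟨i, j⟩ r else 0) := by
      intro j
      rw [hy]
      dsimp only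
      rw [Finset.sum_mul]
      refine Finset.sum_congr rfl fun t _ => ?_
      rw [ite_mul, zero_mul]
    rw [Finset.sum_congr rfl (fun j _ => h2 j), Finset.sum_comm]
    refine Finset.sum_congr rfl fun t _ => ?_
    rw [Finset.sum_ite_eq' Finset.univ]
    rw [if_pos (Finset.mem_univ _)])
  obtain ⟨i, t, ht, h⟩ := hzne
  have h1 := hzero ⟨i, p i + (t : ZMod (2 * k i + 1))⟩
    ((hmem' i t ht).2 (lt_of_le_of_ne (hz _ _) (Ne.symm h)))
  rw [hyv i t ht] at h1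
  exact (mul_ne_zero (t2_sg_ne _) h) h1

theorem T2 {ι : Type*} [Fintype ι] [DecidableEq ι] (k : ι → ℕ) (hk : ∀ i, k i % 2 = 1) :
    Solv k := by
  intro τ hτ
  rcases isEmpty_or_nonempty ι with hι | hι
  · exact ⟨fun _ => 0, fun _ => true, fun v => isEmptyElim v.1, fun i => isEmptyElim i⟩
  obtain ⟨Q, hQ1, hQ2, o, ho1, ho2, hcard⟩ := ROWS τ hτ
  have hk1 : ∀ i, 1 ≤ k i := by
    intro i
    have := hk i
    omega
  have hcV : Fintype.card (Vx k) = ∑ i, (2 * k i + 1) := by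
    rw [Fintype.card_sigma]
    exact Finset.sum_congr rfl fun i _ => ZMod.card _
  have hsum : ∑ i, (2 * k i + 1) + Fintype.card ι = 2 * ∑ i, (k i + 1) := by
    rw [Finset.mul_sum, ← Finset.card_univ, Finset.card_eq_sum_ones, ← Finset.sum_add_distrib]
    exact Finset.sum_congr rfl fun i _ => by ring
  have hr : 1 ≤ Fintype.card ι := Fintype.card_pos
  set f := (Finset.univ.filter (fun v : Vx k => τ v = v)).card with hf
  obtain ⟨g, hg⟩ : ∃ g, g + 1 + Fintype.card Q = ∑ i, (k i + 1) := by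
    refine ⟨∑ i, (k i + 1) - Fintype.card Q - 1, ?_⟩
    omega
  have hg2 : Fintype.card ι + f = 2 * (g + 1) := by omega
  have hρ : Fintype.card (Q ⊕ Fin g) + 1 = ∑ i, (k i + 1) := by
    rw [Fintype.card_sum, Fintype.card_fin]
    omega
  obtain ⟨a, b, γ, ha, hb, hGW⟩ := GW (E := Vx k) (Q := Q) g (fun e => o (hd e)) (fun e => o (tl e))
  obtain ⟨p, s, z, hz, hzne, hs, hrel⟩ := BUA k hk hρ
    (vec (fun e : Vx k => o (hd e)) (fun e => o (tl e)) a b γ)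
  have hz0 : ∀ i, 0 < z i 0 ∧ 0 < z i (k i) := fun i₀ =>
    t2_ends k hk1 τ hτ o ho1 ho2 g hg2 _ hGW p s z hz hzne hrel i₀
  obtain ⟨c, hc1, hc2⟩ := COL k hk1 τ hτ o ho1 ho2 a b ha hb p s hs z hz hz0
    (fun q => hrel (Sum.inl q))
  exact ⟨p, c, hc1, fun i t ht => hc2 i t ht⟩

end Pool.Agent.TWB
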