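import Pool.Agent.TWB.T1
import Pool.Agent.TWB.T2
import Pool.Agent.TWB.BLOCK
import Pool.Agent.TWB.CYCP

/-!
GSOLV.  From abstract solvability to the hard circuits of a 2-regular graph `F`.

Proof.  `ι = {K : F.ConnectedComponent // hard K}` (finite, classical `Fintype`, `DecidableEq`),
`k K = K.supp.ncard / 2`, so `K.supp.ncard = 2 * k K + 1` (`hodd`), and `1 ≤ k K` (a vertex of `K` and
its two neighbours are in `K.supp`, so `3 ≤ ncard`).  `CYCP` gives `φ K : ZMod (2 * k K + 1) → V`.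
`Φ : Vx k → V`, `Φ ⟨K, j⟩ = φ K j` is injective (different components are disjoint) and its range is
`{v | hard (F.connectedComponentMk v)}`; `F.connectedComponentMk (Φ ⟨K, j⟩) = K`.  Let
`T : Vx k → Vx k` be the involution with `Φ (T e) = τ (Φ e)` (exists by `hτh`, unique by injectivity).
`π' : ι → P`, `π' K = π (Φ ⟨K, 0⟩)`; `π` is constant on every component of `F` (`hπF`, induction on
walks), so `π' (T e).1 = π (τ (Φ e)) = π (Φ e) = π' e.1`.
For `x : P` the fibre `{K : ι // π' K = x}` satisfies `Solv`: if it is a subsingleton use `T1`.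
Otherwise for each `K` in it there is `K' ≠ K` in it, and `hcond` gives `K.supp.ncard % 4 = 3`, so
`k K % 2 = 1`; use `T2`.  `BLOCK` gives `p`, `c'`.
Define for `v = Φ e` (hard): `c v = c' e`, `ν v = Φ ⟨e.1, nuZ (2 * p e.1 + 1) e.2⟩`,
`r v = Φ ⟨e.1, e.2 - 1⟩`; for the other `v`: `c v = true`, `ν v = v`, `r v = v`.
* `ν (ν v) = v`: `nuZ_nuZ`.  `ν v ≠ v`: then `e.2 ≠ 2 p + 1` (`nuZ_self`), adjacent by `nuZ_adj`,
  colours differ by `nuZ_cover`, `nuZ_edge`, `nuZ_nuZ` and the property of `c'` for `1 ≤ t ≤ k`.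
* `ν v = v`, hard: `e.2 = 2 p + 1` (`nuZ_ne`, `2 k + 1 > 1`), `r v = Φ ⟨e.1, 2 p⟩`, adjacent, colours
  differ (`t = 0`).  In particular two such vertices of the same component are equal.
* `τ v ≠ v`, hard: `T e ≠ e`, `c (τ v) = c' (T e) ≠ c' e`.
-/

set_option autoImplicit false

namespace Pool.Agent.TWB

open SimpleGraph

theorem GSOLV {V : Type*} [Finite V] (F : SimpleGraph V)
    (hF : ∀ v, (F.neighborSet v).ncard = 2)
    {P : Type*} (π : V → P) (hπF : ∀ v w, F.Adj v w → π v = π w)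
    (hard : F.ConnectedComponent → Prop) (hodd : ∀ K, hard K → Odd K.supp.ncard)
    (hcond : ∀ K K', hard K → hard K' → K ≠ K' →
      (∃ u ∈ K.supp, ∃ w ∈ K'.supp, π u = π w) →
      K.supp.ncard % 4 = 3 ∧ K'.supp.ncard % 4 = 3)
    (τ : V → V) (hτ : ∀ v, τ (τ v) = v)
    (hτh : ∀ v, hard (F.connectedComponentMk v) → hard (F.connectedComponentMk (τ v)))
    (hτπ : ∀ v, π (τ v) = π v) :
    ∃ (ν r : V → V) (c : V → Bool), (∀ v, ν (ν v) = v) ∧
      (∀ v, F.connectedComponentMk (ν v) = F.connectedComponentMk v) ∧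
      (∀ v, ¬ hard (F.connectedComponentMk v) → ν v = v) ∧
      (∀ v, ν v ≠ v → F.Adj v (ν v) ∧ c (ν v) ≠ c v) ∧
      (∀ v, hard (F.connectedComponentMk v) → ν v = v → F.Adj v (r v) ∧ c (r v) ≠ c v) ∧
      (∀ v w, hard (F.connectedComponentMk v) →
        F.connectedComponentMk v = F.connectedComponentMk w → ν v = v → ν w = w → v = w) ∧
      (∀ v, hard (F.connectedComponentMk v) → τ v ≠ v → c (τ v) ≠ c v) := by
  classical
  have hfC : Finite F.ConnectedComponent := by
    unfold SimpleGraph.ConnectedComponent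
    infer_instance
  set k : {K : F.ConnectedComponent // hard K} → ℕ := fun K => K.1.supp.ncard / 2 with hk
  have hkn : ∀ K : {K : F.ConnectedComponent // hard K}, K.1.supp.ncard = 2 * k K + 1 := by
    intro K
    have := hodd K.1 K.2
    rw [Nat.odd_iff] at this
    simp only [hk]
    omega
  have hk1 : ∀ K : {K : F.ConnectedComponent // hard K}, 1 ≤ k K := by
    intro K
    obtain ⟨v, hv⟩ := K.1.nonempty_supp
    have hsub : F.neighborSet v ⊆ K.1.supp := by
      intro w hw
      rw [SimpleGraph.ConnectedComponent.mem_supp_iff] at hv ⊢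
      rw [← hv]
      exact (SimpleGraph.ConnectedComponent.connectedComponentMk_eq_of_adj hw).symm
    have h1 := Set.ncard_le_ncard hsub (Set.toFinite _)
    rw [hF v, hkn K] at h1
    omega
  choose φ hφinj hφmem hφadj using
    fun K : {K : F.ConnectedComponent // hard K} => CYCP F hF K.1 (k K) (hkn K)
  set Φ : Vx k → V := fun e => φ e.1 e.2 with hΦ
  have hΦc : ∀ e, F.connectedComponentMk (Φ e) = e.1.1 := fun e =>
    (SimpleGraph.ConnectedComponent.mem_supp_iff _ _).1 ((hφmem e.1 _).2 ⟨e.2, rfl⟩)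
  have hΦinj : Function.Injective Φ := by
    rintro ⟨K, j⟩ ⟨K', j'⟩ h
    have h1 : K = K' := by
      apply Subtype.ext
      have h2 := hΦc ⟨K, j⟩
      rw [h, hΦc] at h2
      exact h2.symm
    subst h1
    have h2 := hφinj K h
    subst h2
    rfl
  have hΦsurj : ∀ v, hard (F.connectedComponentMk v) → ∃ e, Φ e = v := by
    intro v hv
    obtain ⟨j, hj⟩ := (hφmem ⟨F.connectedComponentMk v, hv⟩ v).1
      ((SimpleGraph.ConnectedComponent.mem_supp_iff _ _).2 rfl)
    exact ⟨⟨_, j⟩, hj⟩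
  have hΦh : ∀ e, hard (F.connectedComponentMk (Φ e)) := fun e => by
    rw [hΦc]
    exact e.1.2
  choose T hT using fun e : Vx k => hΦsurj (τ (Φ e)) (hτh _ (hΦh e))
  have hTT : ∀ e, T (T e) = e := by
    intro e
    apply hΦinj
    rw [hT, hT, hτ]
  have hπr : ∀ v w, F.Reachable v w → π v = π w := by
    rintro v w ⟨q⟩
    induction q with
    | nil => rfl
    | cons h _ ih => exact (hπF _ _ h).trans ih
  have hπc : ∀ v w, F.connectedComponentMk v = F.connectedComponentMk w → π v = π w := fun v w h =>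
    hπr v w (SimpleGraph.ConnectedComponent.exact h)
  set π' : {K : F.ConnectedComponent // hard K} → P := fun K => π (φ K 0) with hπ'
  have hπe : ∀ e, π (Φ e) = π' e.1 := by
    intro e
    refine hπc _ _ ?_
    rw [hΦc]
    exact (hΦc ⟨e.1, 0⟩).symm
  have hπT : ∀ e, π' (T e).1 = π' e.1 := by
    intro e
    rw [← hπe, ← hπe, hT, hτπ]
  have hS : ∀ x : P, Solv (fun i : {i : {K : F.ConnectedComponent // hard K} // π' i = x} => k i.1) := by
    intro x
    by_cases hs : Subsingleton {i : {K : F.ConnectedComponent // hard K} // π' i = x}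
    · exact T1 _ fun i => hk1 i.1
    · rw [not_subsingleton_iff_nontrivial] at hs
      have : Fintype {i : {K : F.ConnectedComponent // hard K} // π' i = x} := Fintype.ofFinite _
      refine T2 _ fun i => ?_
      obtain ⟨i', hi'⟩ := exists_ne i
      have h1 := (hcond i.1.1 i'.1.1 i.1.2 i'.1.2
        (fun h => hi' (Subtype.ext (Subtype.ext h.symm)))
        ⟨φ i.1 0, (hφmem i.1 _).2 ⟨0, rfl⟩, φ i'.1 0, (hφmem i'.1 _).2 ⟨0, rfl⟩,
          i.2.trans i'.2.symm⟩).1
      rw [hkn i.1] at h1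
      show k i.1 % 2 = 1
      omega
  obtain ⟨p, c', hc1, hc2⟩ := BLOCK k π' hS T hTT hπT
  set c : V → Bool := Function.extend Φ c' (fun _ => true) with hc
  set ν : V → V := Function.extend Φ
    (fun e => Φ ⟨e.1, nuZ (2 * p e.1 + 1) e.2⟩) (fun v => v) with hν
  set r : V → V := Function.extend Φ (fun e => Φ ⟨e.1, e.2 - 1⟩) (fun v => v) with hr
  have hcΦ : ∀ e, c (Φ e) = c' e := fun e => hΦinj.extend_apply _ _ _
  have hνΦ : ∀ e, ν (Φ e) = Φ ⟨e.1, nuZ (2 * p e.1 + 1) e.2⟩ := fun e => hΦinj.extend_apply _ _ _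
  have hrΦ : ∀ e, r (Φ e) = Φ ⟨e.1, e.2 - 1⟩ := fun e => hΦinj.extend_apply _ _ _
  have hνn : ∀ v, ¬ hard (F.connectedComponentMk v) → ν v = v := by
    intro v hv
    refine Function.extend_apply' _ _ _ ?_
    rintro ⟨e, rfl⟩
    exact hv (hΦh e)
  have hodd' : ∀ K : {K : F.ConnectedComponent // hard K}, (2 * k K + 1) % 2 = 1 := fun K => by omega
  have hfixed : ∀ K j, nuZ (2 * p K + 1) j = j → j = 2 * p K + 1 := by
    intro K j hj
    by_contra hne
    exact nuZ_ne (hodd' K) (by have := hk1 K; omega) _ _ hne hj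
  refine ⟨ν, r, c, fun v => ?_, fun v => ?_, hνn, fun v hv => ?_, fun v hv hvv => ?_,
    fun v w hv hvw hvv hww => ?_, fun v hv hvv => ?_⟩
  · by_cases hv : hard (F.connectedComponentMk v)
    · obtain ⟨e, rfl⟩ := hΦsurj v hv
      rw [hνΦ, hνΦ]
      simp only
      rw [nuZ_nuZ (hodd' e.1)]
    · rw [hνn v hv, hνn v hv]
  · by_cases hv' : hard (F.connectedComponentMk v)
    · obtain ⟨e, rfl⟩ := hΦsurj v hv'
      rw [hνΦ, hΦc, hΦc]
    · rw [hνn v hv']
  · by_cases hv' : hard (F.connectedComponentMk v)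
    · obtain ⟨⟨K, j⟩, rfl⟩ := hΦsurj v hv'
      rw [hνΦ] at hv ⊢
      simp only at hv ⊢
      have hj : j ≠ 2 * p K + 1 := by
        intro h
        apply hv
        rw [h, nuZ_self]
      refine ⟨?_, ?_⟩
      · rcases nuZ_adj (hodd' K) (2 * p K + 1) j hj with h | h
        · rw [h]
          exact hφadj K j
        · rw [h]
          have := hφadj K (j - 1)
          rw [sub_add_cancel] at this
          exact this.symm
      · rw [hcΦ, hcΦ]
        obtain ⟨t, ht1, ht2, ht | ht⟩ := nuZ_cover (k K) (p K) j hj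
        · rw [ht, nuZ_edge (k K) (p K) t ht1 ht2]
          exact (hc2 K t ht2).symm
        · rw [ht, ← nuZ_edge (k K) (p K) t ht1 ht2, nuZ_nuZ (hodd' K), nuZ_edge (k K) (p K) t ht1 ht2]
          exact hc2 K t ht2
    · exact absurd (hνn v hv') hv
  · obtain ⟨⟨K, j⟩, rfl⟩ := hΦsurj v hv
    rw [hνΦ] at hvv
    have h1 := hΦinj hvv
    have h2 : nuZ (2 * p K + 1) j = j := by simpa using h1
    have h3 := hfixed K j h2
    subst h3
    rw [hrΦ, hcΦ, hcΦ]
    refine ⟨?_, ?_⟩
    · have := hφadj K (2 * p K + 1 - 1)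
      rw [sub_add_cancel] at this
      exact this.symm
    · have h4 := hc2 K 0 (Nat.zero_le _)
      rw [Nat.cast_zero, add_zero] at h4
      simp only [add_sub_cancel_right]
      exact h4
  · have hw : hard (F.connectedComponentMk w) := hvw ▸ hv
    obtain ⟨⟨K, j⟩, rfl⟩ := hΦsurj v hv
    obtain ⟨⟨K', j'⟩, rfl⟩ := hΦsurj w hw
    have hKK : K = K' := by
      apply Subtype.ext
      rw [hΦc, hΦc] at hvw
      exact hvw
    subst hKK
    rw [hνΦ] at hvv hww
    have h1 := hΦinj hvv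
    have h2 : nuZ (2 * p K + 1) j = j := by simpa using h1
    have h1' := hΦinj hww
    have h2' : nuZ (2 * p K + 1) j' = j' := by simpa using h1'
    rw [hfixed K j h2, hfixed K j' h2']
  · obtain ⟨e, rfl⟩ := hΦsurj v hv
    rw [← hT, hcΦ, hcΦ]
    refine hc1 e fun h => hvv ?_
    rw [← hT, h]

end Pool.Agent.TWB
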