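import Pool.Agent.TWB.Defs

/-!
LINE.  Elementary lemma on finitely many points of the real line with signs.

Proof.  Let `P = T.filter (0 < b)`, `M = T.filter (b < 0)`, so `T = P ∪ M`.  For `x ∈ T` the
condition `A x : ∀ y ∈ T, y ≠ x → 0 < b y * (s x - s y)` says: `s y < s x` for all `y ∈ P \ {x}`,
and `s x < s y` for all `y ∈ M \ {x}`.  The left side is the number of `x ∈ T` with `A x` mod 2
(`Finset.sum_boole`).
* `M = ∅`: `A x` iff `s x` is the maximum of `s` on `T`; exactly one such `x` (`s` injective).
* `P = ∅`: `A x` iff `s x` is the minimum; exactly one `x`.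
* both nonempty: let `x1` be the point of `P` with maximal `s`, `y1` the point of `M` with minimal
  `s`.  If `A x` and `x ∈ P` then `x = x1` and `s x1 < s y` for all `y ∈ M`, in particular
  `s x1 < s y1`; if `A x` and `x ∈ M` then `x = y1` and `s x1 < s y1`.  If `s x1 < s y1` then both
  `A x1`, `A y1` hold: exactly two.  Otherwise none.  So the number is even, and the right side
  is `0` since both signs occur.
-/

set_option autoImplicit false

namespace Pool.Agent.TWB

open Classical in
theorem LINE {β : Type*} (T : Finset β) (hT : T.Nonempty) (s b : β → ℝ)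
    (hs : Set.InjOn s (T : Set β)) (hb : ∀ x ∈ T, b x ≠ 0) :
    ∑ x ∈ T, (if ∀ y ∈ T, y ≠ x → 0 < b y * (s x - s y) then (1 : ZMod 2) else 0)
      = if (∀ y ∈ T, 0 < b y) ∨ (∀ y ∈ T, b y < 0) then (1 : ZMod 2) else 0 := by
  have hA1 : ∀ x y, 0 < b y → (0 < b y * (s x - s y) ↔ s y < s x) := fun x y h => by
    rw [mul_pos_iff_of_pos_left h, sub_pos]
  have hA2 : ∀ x y, b y < 0 → (0 < b y * (s x - s y) ↔ s x < s y) := by
    intro x y h
    constructor
    · intro h'
      by_contra hc
      have h2 := mul_nonpos_of_nonpos_of_nonneg h.le (sub_nonneg.2 (not_lt.1 hc))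
      exact absurd h' (not_lt.2 h2)
    · intro h'
      exact mul_pos_of_neg_of_neg h (sub_neg.2 h')
  rw [Finset.sum_boole]
  by_cases h1 : ∀ y ∈ T, 0 < b y
  · rw [if_pos (Or.inl h1)]
    obtain ⟨x0, hx0, hmax⟩ := Finset.exists_max_image T s hT
    have hF : (T.filter fun x => ∀ y ∈ T, y ≠ x → 0 < b y * (s x - s y)) = {x0} := by
      ext x
      rw [Finset.mem_filter, Finset.mem_singleton]
      constructor
      · rintro ⟨hx, hA⟩
        by_contra hne
        have h2 := (hA1 x x0 (h1 x0 hx0)).1 (hA x0 hx0 (Ne.symm hne))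
        exact absurd h2 (not_lt.2 (hmax x hx))
      · rintro rfl
        exact ⟨hx0, fun y hy hne => (hA1 x y (h1 y hy)).2
          (lt_of_le_of_ne (hmax y hy) fun e => hne (hs hy hx0 e))⟩
    rw [hF, Finset.card_singleton, Nat.cast_one]
  · by_cases h2 : ∀ y ∈ T, b y < 0
    · rw [if_pos (Or.inr h2)]
      obtain ⟨x0, hx0, hmin⟩ := Finset.exists_min_image T s hT
      have hF : (T.filter fun x => ∀ y ∈ T, y ≠ x → 0 < b y * (s x - s y)) = {x0} := by
        ext x
        rw [Finset.mem_filter, Finset.mem_singleton]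
        constructor
        · rintro ⟨hx, hA⟩
          by_contra hne
          have h3 := (hA2 x x0 (h2 x0 hx0)).1 (hA x0 hx0 (Ne.symm hne))
          exact absurd h3 (not_lt.2 (hmin x hx))
        · rintro rfl
          exact ⟨hx0, fun y hy hne => (hA2 x y (h2 y hy)).2
            (lt_of_le_of_ne (hmin y hy) fun e => hne (hs hx0 hy e).symm)⟩
      rw [hF, Finset.card_singleton, Nat.cast_one]
    · rw [if_neg (not_or.2 ⟨h1, h2⟩)]
      have hPn : (T.filter fun y => 0 < b y).Nonempty := by
        by_contra hne
        apply h2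
        intro y hy
        rcases lt_or_gt_of_ne (hb y hy) with h | h
        · exact h
        · exact absurd ⟨y, Finset.mem_filter.2 ⟨hy, h⟩⟩ hne
      have hMn : (T.filter fun y => b y < 0).Nonempty := by
        by_contra hne
        apply h1
        intro y hy
        rcases lt_or_gt_of_ne (hb y hy) with h | h
        · exact absurd ⟨y, Finset.mem_filter.2 ⟨hy, h⟩⟩ hne
        · exact h
      obtain ⟨x1, hx1, hmax⟩ := Finset.exists_max_image _ s hPn
      obtain ⟨y1, hy1, hmin⟩ := Finset.exists_min_image _ s hMn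
      obtain ⟨hx1T, hx1b⟩ := Finset.mem_filter.1 hx1
      obtain ⟨hy1T, hy1b⟩ := Finset.mem_filter.1 hy1
      have hxy : x1 ≠ y1 := by
        rintro rfl
        exact absurd hx1b (not_lt.2 hy1b.le)
      have hsub : ∀ x ∈ T, (∀ y ∈ T, y ≠ x → 0 < b y * (s x - s y)) →
          (x = x1 ∨ x = y1) ∧ s x1 < s y1 := by
        intro x hx hA
        rcases lt_or_gt_of_ne (hb x hx) with h | h
        · have hxe : x = y1 := by
            by_contra hne
            have h3 := (hA2 x y1 hy1b).1 (hA y1 hy1T (Ne.symm hne))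
            exact absurd h3 (not_lt.2 (hmin x (Finset.mem_filter.2 ⟨hx, h⟩)))
          refine ⟨Or.inr hxe, ?_⟩
          rw [hxe] at hA
          exact (hA1 y1 x1 hx1b).1 (hA x1 hx1T hxy)
        · have hxe : x = x1 := by
            by_contra hne
            have h3 := (hA1 x x1 hx1b).1 (hA x1 hx1T (Ne.symm hne))
            exact absurd h3 (not_lt.2 (hmax x (Finset.mem_filter.2 ⟨hx, h⟩)))
          refine ⟨Or.inl hxe, ?_⟩
          rw [hxe] at hA
          exact (hA2 x1 y1 hy1b).1 (hA y1 hy1T (Ne.symm hxy))
      by_cases hlt : s x1 < s y1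
      · have hF : (T.filter fun x => ∀ y ∈ T, y ≠ x → 0 < b y * (s x - s y)) = {x1, y1} := by
          ext x
          rw [Finset.mem_filter, Finset.mem_insert, Finset.mem_singleton]
          constructor
          · rintro ⟨hx, hA⟩
            exact (hsub x hx hA).1
          · rintro (rfl | rfl)
            · refine ⟨hx1T, fun y hy hne => ?_⟩
              rcases lt_or_gt_of_ne (hb y hy) with h | h
              · exact (hA2 x y h).2 (hlt.trans_le (hmin y (Finset.mem_filter.2 ⟨hy, h⟩)))
              · exact (hA1 x y h).2 (lt_of_le_of_ne (hmax y (Finset.mem_filter.2 ⟨hy, h⟩))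
                  fun e => hne (hs hy hx1T e))
            · refine ⟨hy1T, fun y hy hne => ?_⟩
              rcases lt_or_gt_of_ne (hb y hy) with h | h
              · exact (hA2 x y h).2 (lt_of_le_of_ne (hmin y (Finset.mem_filter.2 ⟨hy, h⟩))
                  fun e => hne (hs hy1T hy e).symm)
              · exact (hA1 x y h).2 ((hmax y (Finset.mem_filter.2 ⟨hy, h⟩)).trans_lt hlt)
        rw [hF, Finset.card_pair hxy]
        rfl
      · have hF : (T.filter fun x => ∀ y ∈ T, y ≠ x → 0 < b y * (s x - s y)) = ∅ := by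
          rw [Finset.filter_eq_empty_iff]
          exact fun x hx hA => hlt (hsub x hx hA).2
        rw [hF, Finset.card_empty, Nat.cast_zero]

end Pool.Agent.TWB
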