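import Pool.Agent.TWB.Defs

/-!
NU.  Elementary facts on the matching `nuZ s` of an odd circuit minus a vertex.  `n = 2 k + 1`.

nuZ_nuZ: let `j = (v - s).val`.  `j = 0`: `v = s`.  `j` odd: `j + 1 ≤ n - 1` (as `n` is odd), so
`(v + 1 - s).val = j + 1`, even and not `0`, so `nuZ s (v + 1) = v + 1 - 1`.  `j` even, `j ≥ 2`:
`(v - 1 - s).val = j - 1` odd.  (Work with `v = s + (j : ZMod n)`, `ZMod.natCast_zmod_val`,
`ZMod.val_cast_of_lt`/`ZMod.val_natCast_of_lt`.)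
nuZ_edge: `2 (p + t) - (2 p + 1) = ((2 t - 1 : ℕ) : ZMod n)` with value `2 t - 1 < n`, odd.
nuZ_cover: `v = s + j`, `s = 2 p + 1`, `1 ≤ j ≤ 2 k`; `j = 2 t - 1`: `v = 2 (p + t)`; `j = 2 t`:
`v = 2 (p + t) + 1`.
two_inj: `2 (k + 1) = 1` in `ZMod (2 k + 1)`.
end_eq: `2 (p + k) + 1 = 2 p` since `2 k + 1 = 0`.
two_cross: if `2 (p + t) = 2 (p + t') + 1` with `t, t' ≤ k` then `2 t = 2 t' + 1` in `ZMod (2 k + 1)`,
so `(2 k + 1) ∣ 2 t - 2 t' - 1` in `ℤ` with `|2 t - 2 t' - 1| ≤ 2 k + 1` (odd, so not `0`), hence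
`2 t - 2 t' - 1 = ± (2 k + 1)`, i.e. `t = 0` and `t' = k` (the value `+ (2 k + 1)` would need
`t - t' = k + 1`).
-/

set_option autoImplicit false

namespace Pool.Agent.TWB

private theorem ex_rep {n : ℕ} [NeZero n] (s v : ZMod n) : ∃ j : ℕ, j < n ∧ v = s + (j : ZMod n) := by
  refine ⟨(v - s).val, ZMod.val_lt _, ?_⟩
  rw [ZMod.natCast_zmod_val]
  ring

private theorem val_rep {n : ℕ} [NeZero n] (s : ZMod n) {j : ℕ} (hj : j < n) :
    (s + (j : ZMod n) - s).val = j := by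
  rw [add_sub_cancel_left, ZMod.val_natCast_of_lt hj]

private theorem nu_odd {n : ℕ} [NeZero n] (s : ZMod n) {j : ℕ} (hj : j < n) (h : j % 2 = 1) :
    nuZ s (s + (j : ZMod n)) = s + ((j + 1 : ℕ) : ZMod n) := by
  unfold nuZ
  rw [val_rep s hj, if_neg (by omega), if_pos h]
  push_cast
  ring

private theorem nu_even {n : ℕ} [NeZero n] (s : ZMod n) {j : ℕ} (hj : j < n) (h0 : j ≠ 0)
    (h : j % 2 = 0) : nuZ s (s + (j : ZMod n)) = s + ((j - 1 : ℕ) : ZMod n) := by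
  unfold nuZ
  rw [val_rep s hj, if_neg h0, if_neg (by omega)]
  rw [Nat.cast_sub (by omega)]
  push_cast
  ring

theorem nuZ_nuZ {n : ℕ} (hn : n % 2 = 1) (s v : ZMod n) : nuZ s (nuZ s v) = v := by
  haveI : NeZero n := ⟨by omega⟩
  obtain ⟨j, hj, rfl⟩ := ex_rep s v
  rcases Nat.eq_zero_or_pos j with h0 | h0
  · subst h0
    have e : nuZ s (s + ((0 : ℕ) : ZMod n)) = s + ((0 : ℕ) : ZMod n) := by
      unfold nuZ
      rw [val_rep s hj, if_pos rfl]
    rw [e, e]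
  rcases Nat.mod_two_eq_zero_or_one j with h | h
  · rw [nu_even s hj (by omega) h, nu_odd s (j := j - 1) (by omega) (by omega)]
    rw [show j - 1 + 1 = j by omega]
  · rw [nu_odd s hj h, nu_even s (j := j + 1) (by omega) (by omega) (by omega)]
    rw [show j + 1 - 1 = j by omega]

theorem nuZ_self {n : ℕ} (s : ZMod n) : nuZ s s = s := by
  unfold nuZ
  rw [sub_self, ZMod.val_zero, if_pos rfl]

theorem nuZ_adj {n : ℕ} (hn : n % 2 = 1) (s v : ZMod n) (hv : v ≠ s) :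
    nuZ s v = v + 1 ∨ nuZ s v = v - 1 := by
  haveI : NeZero n := ⟨by omega⟩
  unfold nuZ
  split_ifs with h1 h2
  · exact absurd (sub_eq_zero.1 ((ZMod.val_eq_zero _).1 h1)) hv
  · exact Or.inl rfl
  · exact Or.inr rfl

theorem nuZ_ne {n : ℕ} (hn : n % 2 = 1) (h1 : 1 < n) (s v : ZMod n) (hv : v ≠ s) :
    nuZ s v ≠ v := by
  haveI : Fact (1 < n) := ⟨h1⟩
  rcases nuZ_adj hn s v hv with h | h
  · rw [h]
    intro h2
    exact one_ne_zero (left_eq_add.1 h2.symm)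
  · rw [h]
    intro h2
    exact one_ne_zero (sub_eq_self.1 h2)

theorem nuZ_edge (k : ℕ) (p : ZMod (2 * k + 1)) (t : ℕ) (h1 : 1 ≤ t) (h2 : t ≤ k) :
    nuZ (2 * p + 1) (2 * (p + (t : ZMod (2 * k + 1)))) = 2 * (p + (t : ZMod (2 * k + 1))) + 1 := by
  have e : 2 * (p + (t : ZMod (2 * k + 1))) = 2 * p + 1 + ((2 * t - 1 : ℕ) : ZMod (2 * k + 1)) := by
    rw [Nat.cast_sub (by omega)]
    push_cast
    ring
  rw [e, nu_odd _ (by omega) (by omega)]
  push_cast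
  ring

theorem nuZ_cover (k : ℕ) (p v : ZMod (2 * k + 1)) (hv : v ≠ 2 * p + 1) :
    ∃ t : ℕ, 1 ≤ t ∧ t ≤ k ∧ (v = 2 * (p + (t : ZMod (2 * k + 1))) ∨
      v = 2 * (p + (t : ZMod (2 * k + 1))) + 1) := by
  obtain ⟨j, hj, hj2⟩ := ex_rep (2 * p + 1) v
  have h0 : j ≠ 0 := by
    rintro rfl
    exact hv (by rw [hj2, Nat.cast_zero, add_zero])
  rcases Nat.mod_two_eq_zero_or_one j with h | h
  · refine ⟨j / 2, by omega, by omega, Or.inr ?_⟩
    have e : j = 2 * (j / 2) := by omega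
    have e2 : (j : ZMod (2 * k + 1)) = 2 * ((j / 2 : ℕ) : ZMod (2 * k + 1)) := by
      conv_lhs => rw [e]
      push_cast
      ring
    rw [hj2, e2]
    ring
  · refine ⟨(j + 1) / 2, by omega, by omega, Or.inl ?_⟩
    have e : j + 1 = 2 * ((j + 1) / 2) := by omega
    have e2 : (j : ZMod (2 * k + 1)) + 1 = 2 * (((j + 1) / 2 : ℕ) : ZMod (2 * k + 1)) := by
      have e3 := congrArg (fun m : ℕ => (m : ZMod (2 * k + 1))) e
      push_cast at e3
      exact_mod_cast e3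
    rw [hj2, mul_add, ← e2]
    ring

private theorem two_mul_inv (k : ℕ) : ((k : ZMod (2 * k + 1)) + 1) * 2 = 1 := by
  have h : (((2 * k + 1 : ℕ)) : ZMod (2 * k + 1)) = 0 := ZMod.natCast_self _
  push_cast at h
  linear_combination h

theorem two_inj (k : ℕ) (x y : ZMod (2 * k + 1)) (h : 2 * x = 2 * y) : x = y := by
  have e := two_mul_inv k
  linear_combination ((k : ZMod (2 * k + 1)) + 1) * h - (x - y) * e

theorem add_inj (k : ℕ) (p : ZMod (2 * k + 1)) (t t' : ℕ) (ht : t ≤ k) (ht' : t' ≤ k)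
    (h : p + (t : ZMod (2 * k + 1)) = p + (t' : ZMod (2 * k + 1))) : t = t' := by
  have h1 := congrArg ZMod.val (add_left_cancel h)
  rwa [ZMod.val_natCast_of_lt (by omega), ZMod.val_natCast_of_lt (by omega)] at h1

theorem end_eq (k : ℕ) (p : ZMod (2 * k + 1)) :
    2 * (p + (k : ZMod (2 * k + 1))) + 1 = 2 * p := by
  have e := two_mul_inv k
  linear_combination e

theorem two_cross (k : ℕ) (p : ZMod (2 * k + 1)) (t t' : ℕ) (ht : t ≤ k) (ht' : t' ≤ k)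
    (h : 2 * (p + (t : ZMod (2 * k + 1))) = 2 * (p + (t' : ZMod (2 * k + 1))) + 1) :
    t = 0 ∧ t' = k := by
  have h1 : ((2 * t : ℕ) : ZMod (2 * k + 1)) = ((2 * t' + 1 : ℕ) : ZMod (2 * k + 1)) := by
    push_cast
    linear_combination h
  rw [ZMod.natCast_eq_natCast_iff'] at h1
  rw [Nat.mod_eq_of_lt (show 2 * t < 2 * k + 1 by omega)] at h1
  rcases Nat.lt_or_ge t' k with h2 | h2
  · rw [Nat.mod_eq_of_lt (show 2 * t' + 1 < 2 * k + 1 by omega)] at h1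
    omega
  · have h3 : t' = k := by omega
    subst h3
    rw [Nat.mod_self] at h1
    exact ⟨by omega, rfl⟩

/-- the matching on all circuits -/
def nuH {ι : Type*} {k : ι → ℕ} (s : ∀ i, ZMod (2 * k i + 1)) (e : Vx k) : Vx k :=
  ⟨e.1, nuZ (s e.1) e.2⟩

theorem nuH_nuH {ι : Type*} {k : ι → ℕ} (s : ∀ i, ZMod (2 * k i + 1)) (e : Vx k) :
    nuH s (nuH s e) = e := by
  obtain ⟨i, v⟩ := e
  change (⟨i, nuZ (s i) (nuZ (s i) v)⟩ : Vx k) = ⟨i, v⟩
  rw [nuZ_nuZ (by omega)]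

end Pool.Agent.TWB
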