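import Pool.Agent.TWB.T3Defs
import Pool.Agent.Helper74.BIS.TWO

/-!
T3W.  The trichotomy for a move `s → up s i` of a cell.

Notation: `x = ⟨i, s i⟩`, `y = ⟨i, s i + 1⟩`, `z = ⟨i, s i + 2⟩`, `e = ⟨j, s j⟩`.  As `k i ≥ 1` these are
four different vertices.  `nuH s y = z`, `nuH s z = y` (`nuZ`: `(y - s).val = 1`, `(z - s).val = 2`;
`2 < 2 k + 1`), `nuH s x = x`, `nuH s e = e`, and `nuH s v ≠ v` for all `v ≠ x, e` (`nuZ_ne`).
`nuH (up s i)` agrees with `nuH s` outside of `x, y, z` and maps `x ↔ y`, `z ↦ z`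
(if `(v - s).val = r ≥ 3` then `(v - (s + 2)).val = r - 2` has the same parity and is not `0`; for
`v = s`: `(s - (s+2)).val = 2 k - 1`, odd, so `x ↦ x + 1 = y`; for `v = s + 1`: value `2 k`, even,
`y ↦ y - 1 = x`).

WW_iff, WWup_iff: clear from this.
W0_xor: `xor` of three Booleans: if `c1 (τ v) ≠ c1 v` etc. for three colourings then the same for the
xor.
SZ: `Σ_v sg (c v) = 0` (pair `v` with `τ v`, `Finset.sum_involution`), and the sum over the vertices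
different from `x, y, z, e` is `0` (pair `v` with `nuH s v`); so the sum over the four is `0`.
W0_ex1..3: apply `TWO` to `τ` and to the involution `ν` equal to `nuH s`, to `nuH (up s i)`, and to the
involution which exchanges `x` and `z`, fixes `y`, and equals `nuH s` elsewhere.

TRI: By SZ for every `c` with `W0` exactly one of the following holds:
  (Y) `c x = c y ≠ c z = c e`,  (Z) `c x = c z ≠ c y = c e`,  (E) `c x = c e ≠ c y = c z`.
`WW k τ s c` iff `W0` and (Y) or (Z); `WW k τ (up s i) c` iff `W0` and (Z) or (E).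
Not all three occur: for `c1, c2, c3` of the three types the xor satisfies `W0` and has equal values at
`x, y, z, e`, against SZ.  At least two occur: by W0_ex1..3 there is a `W0` colouring with `c x ≠ c z`
(Y or E), one with `c y ≠ c z` (Y or Z) and one with `c x ≠ c y` (Z or E).
If two types occur, with representatives `a`, `b`, then `c ↦ xor (xor c a) b` is a bijection between
the `W0` colourings of the two types (values at `x, y, z, e`: adding `a + b` changes the type), so they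
are equally many.
* Z does not occur: `TypeO`; `NW (up s i) = #E = #Y = NW s`; `WW s` = Y: `c x = c y`;
  `WW (up s i)` = E: `c y = c z`; a colouring of type E has `c x = c e`.
* Y does not occur: `NW s = #Z`, `NW (up s i) = #Z + #E = 2 #Z`; `WW s` = Z: `c x ≠ c y`; a
  colouring of type E has `c x = c e`.
* E does not occur: `NW s = #Y + #Z = 2 #Z`, `NW (up s i) = #Z`; `WW (up s i)` = Z: `c y ≠ c z`.
`0 < NW s`: `TWO` for `τ`, `nuH s` (`Set.ncard_pos`, finite).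
-/

set_option autoImplicit false

namespace Pool.Agent.TWB

section nz

private theorem tw_ex_rep {n : ℕ} [NeZero n] (s v : ZMod n) :
    ∃ j : ℕ, j < n ∧ v = s + (j : ZMod n) := by
  refine ⟨(v - s).val, ZMod.val_lt _, ?_⟩
  rw [ZMod.natCast_zmod_val]
  ring

private theorem tw_val_rep {n : ℕ} [NeZero n] (s : ZMod n) {j : ℕ} (hj : j < n) :
    (s + (j : ZMod n) - s).val = j := by
  rw [add_sub_cancel_left, ZMod.val_natCast_of_lt hj]

private theorem tw_odd {n : ℕ} [NeZero n] (s : ZMod n) {j : ℕ} (hj : j < n) (h : j % 2 = 1) :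
    nuZ s (s + (j : ZMod n)) = s + (j : ZMod n) + 1 := by
  unfold nuZ
  rw [tw_val_rep s hj, if_neg (by omega), if_pos h]

private theorem tw_even {n : ℕ} [NeZero n] (s : ZMod n) {j : ℕ} (hj : j < n) (h0 : j ≠ 0)
    (h : j % 2 = 0) : nuZ s (s + (j : ZMod n)) = s + (j : ZMod n) - 1 := by
  unfold nuZ
  rw [tw_val_rep s hj, if_neg h0, if_neg (by omega)]

private theorem tw_s1 {n : ℕ} (h1 : 1 < n) (s : ZMod n) : nuZ s (s + 1) = s + 2 := by
  have : NeZero n := ⟨by omega⟩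
  have h := tw_odd s (j := 1) h1 rfl
  rw [Nat.cast_one] at h
  rw [h, add_assoc, one_add_one_eq_two]

private theorem tw_s2 {n : ℕ} (hn : n % 2 = 1) (h1 : 1 < n) (s : ZMod n) :
    nuZ s (s + 2) = s + 1 := by
  rw [← tw_s1 h1 s, nuZ_nuZ hn]

private theorem tw_u0 {n : ℕ} (hn : n % 2 = 1) (h1 : 1 < n) (s : ZMod n) :
    nuZ (s + 2) s = s + 1 := by
  have : NeZero n := ⟨by omega⟩
  have h := tw_odd (s + 2) (j := n - 2) (by omega) (by omega)
  have e : s + 2 + ((n - 2 : ℕ) : ZMod n) = s := by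
    rw [Nat.cast_sub (by omega), ZMod.natCast_self]
    push_cast
    ring
  rwa [e] at h

private theorem tw_u1 {n : ℕ} (hn : n % 2 = 1) (h1 : 1 < n) (s : ZMod n) :
    nuZ (s + 2) (s + 1) = s := by
  rw [← tw_u0 hn h1 s, nuZ_nuZ hn]

private theorem tw_uo {n : ℕ} (hn : n % 2 = 1) (s v : ZMod n) (h0 : v ≠ s) (h1 : v ≠ s + 1)
    (h2 : v ≠ s + 2) : nuZ (s + 2) v = nuZ s v := by
  have : NeZero n := ⟨by omega⟩
  obtain ⟨j, hj, rfl⟩ := tw_ex_rep s v
  have j0 : j ≠ 0 := by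
    rintro rfl
    exact h0 (by rw [Nat.cast_zero, add_zero])
  have j1 : j ≠ 1 := by
    rintro rfl
    exact h1 (by rw [Nat.cast_one])
  have j2 : j ≠ 2 := by
    rintro rfl
    exact h2 (by rw [Nat.cast_ofNat])
  have e : s + 2 + ((j - 2 : ℕ) : ZMod n) = s + (j : ZMod n) := by
    rw [Nat.cast_sub (by omega)]
    push_cast
    ring
  rcases Nat.mod_two_eq_zero_or_one j with h | h
  · have a1 := tw_even (s + 2) (j := j - 2) (by omega) (by omega) (by omega)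
    rw [e] at a1
    rw [a1, tw_even s hj j0 h]
  · have a1 := tw_odd (s + 2) (j := j - 2) (by omega) (by omega)
    rw [e] at a1
    rw [a1, tw_odd s hj h]

end nz

section nh

variable {ι : Type*} {k : ι → ℕ} (hk : ∀ i, 1 ≤ k i) (s : ∀ i, ZMod (2 * k i + 1)) (i : ι)

private theorem th_x : nuH s ⟨i, s i⟩ = ⟨i, s i⟩ := by
  change (⟨i, nuZ (s i) (s i)⟩ : Vx k) = _
  rw [nuZ_self]

include hk

private theorem th_y : nuH s ⟨i, s i + 1⟩ = ⟨i, s i + 2⟩ := by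
  have := hk i
  change (⟨i, nuZ (s i) (s i + 1)⟩ : Vx k) = _
  rw [tw_s1 (by omega)]

private theorem th_z : nuH s ⟨i, s i + 2⟩ = ⟨i, s i + 1⟩ := by
  have := hk i
  change (⟨i, nuZ (s i) (s i + 2)⟩ : Vx k) = _
  rw [tw_s2 (by omega) (by omega)]

private theorem th_ne (v : Vx k) (h : v ≠ ⟨v.1, s v.1⟩) : nuH s v ≠ v := by
  obtain ⟨l, w⟩ := v
  have := hk l
  intro h2
  change (⟨l, nuZ (s l) w⟩ : Vx k) = ⟨l, w⟩ at h2
  have h3 : nuZ (s l) w = w := eq_of_heq (Sigma.mk.inj_iff.1 h2).2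
  refine nuZ_ne (by omega) (by omega) (s l) w ?_ h3
  rintro rfl
  exact h rfl

private theorem th_ne1 : (s i : ZMod (2 * k i + 1)) ≠ s i + 1 := by
  have h1 := hk i
  have : Fact (1 < 2 * k i + 1) := ⟨by omega⟩
  intro h
  exact one_ne_zero (left_eq_add.1 h)

private theorem th_ne2 : (s i : ZMod (2 * k i + 1)) ≠ s i + 2 := by
  have h1 := hk i
  have : Fact (1 < 2 * k i + 1) := ⟨by omega⟩
  intro h
  have h2 : (2 : ZMod (2 * k i + 1)) = 0 := left_eq_add.1 h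
  exact one_ne_zero (two_inj (k i) 1 0 (by rw [mul_one, mul_zero, h2]))

private theorem th_ne3 : (s i + 1 : ZMod (2 * k i + 1)) ≠ s i + 2 := by
  intro h
  apply th_ne1 hk s i
  have h2 : (1 : ZMod (2 * k i + 1)) = 2 := add_left_cancel h
  have h3 : (1 : ZMod (2 * k i + 1)) = 0 := by
    have h4 : (2 : ZMod (2 * k i + 1)) = 1 + 1 := one_add_one_eq_two.symm
    rw [h4] at h2
    exact left_eq_add.1 h2
  rw [h3, add_zero]

private theorem tv {l : ι} {v w : ZMod (2 * k l + 1)} (h : v ≠ w) :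
    (⟨l, v⟩ : Vx k) ≠ ⟨l, w⟩ := by
  intro h2
  exact h (eq_of_heq (Sigma.mk.inj_iff.1 h2).2)

variable [DecidableEq ι]

private theorem tu_x : nuH (up s i) ⟨i, s i⟩ = ⟨i, s i + 1⟩ := by
  have := hk i
  change (⟨i, nuZ (up s i i) (s i)⟩ : Vx k) = _
  unfold up
  rw [Function.update_self, tw_u0 (by omega) (by omega)]

private theorem tu_y : nuH (up s i) ⟨i, s i + 1⟩ = ⟨i, s i⟩ := by
  have := hk i
  change (⟨i, nuZ (up s i i) (s i + 1)⟩ : Vx k) = _
  unfold up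
  rw [Function.update_self, tw_u1 (by omega) (by omega)]

omit hk in
private theorem tu_z : nuH (up s i) ⟨i, s i + 2⟩ = ⟨i, s i + 2⟩ := by
  change (⟨i, nuZ (up s i i) (s i + 2)⟩ : Vx k) = _
  unfold up
  rw [Function.update_self, nuZ_self]

omit hk in
private theorem tu_o (v : Vx k) (h0 : v ≠ ⟨i, s i⟩) (h1 : v ≠ ⟨i, s i + 1⟩)
    (h2 : v ≠ ⟨i, s i + 2⟩) : nuH (up s i) v = nuH s v := by
  obtain ⟨l, w⟩ := v
  change (⟨l, nuZ (up s i l) w⟩ : Vx k) = ⟨l, nuZ (s l) w⟩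
  unfold up
  by_cases hl : l = i
  · subst hl
    rw [Function.update_self, tw_uo (by omega) (s l) w]
    · rintro rfl; exact h0 rfl
    · rintro rfl; exact h1 rfl
    · rintro rfl; exact h2 rfl
  · rw [Function.update_of_ne hl]

end nh

variable {ι : Type*} [Fintype ι] [DecidableEq ι]

theorem WW_iff (k : ι → ℕ) (hk : ∀ i, 1 ≤ k i) (τ : Vx k → Vx k)
    (s : ∀ i, ZMod (2 * k i + 1)) (i : ι) (c : Vx k → Bool) :
    WW k τ s c ↔ W0 k τ s i c ∧ c ⟨i, s i + 1⟩ ≠ c ⟨i, s i + 2⟩ := by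
  constructor
  · rintro ⟨h1, h2⟩
    refine ⟨⟨h1, fun v hv _ _ => h2 v hv⟩, ?_⟩
    have h3 := h2 ⟨i, s i + 1⟩ (by rw [th_y hk]; exact (tv hk (th_ne3 hk s i)).symm)
    rw [th_y hk] at h3
    exact h3.symm
  · rintro ⟨⟨h1, h2⟩, h3⟩
    refine ⟨h1, fun v hv => ?_⟩
    by_cases hy : v = ⟨i, s i + 1⟩
    · subst hy
      rw [th_y hk]
      exact h3.symm
    · by_cases hz : v = ⟨i, s i + 2⟩
      · subst hz
        rw [th_z hk]
        exact h3
      · exact h2 v hv hy hz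

theorem WWup_iff (k : ι → ℕ) (hk : ∀ i, 1 ≤ k i) (τ : Vx k → Vx k)
    (s : ∀ i, ZMod (2 * k i + 1)) (i : ι) (c : Vx k → Bool) :
    WW k τ (up s i) c ↔ W0 k τ s i c ∧ c ⟨i, s i⟩ ≠ c ⟨i, s i + 1⟩ := by
  constructor
  · rintro ⟨h1, h2⟩
    refine ⟨⟨h1, fun v hv hy hz => ?_⟩, ?_⟩
    · have hx : v ≠ ⟨i, s i⟩ := by
        rintro rfl
        exact hv (th_x s i)
      have e := tu_o s i v hx hy hz
      have h3 := h2 v (by rw [e]; exact hv)
      rwa [e] at h3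
    · have h3 := h2 ⟨i, s i⟩ (by rw [tu_x hk]; exact (tv hk (th_ne1 hk s i)).symm)
      rw [tu_x hk] at h3
      exact h3.symm
  · rintro ⟨⟨h1, h2⟩, h3⟩
    refine ⟨h1, fun v hv => ?_⟩
    by_cases hx : v = ⟨i, s i⟩
    · subst hx
      rw [tu_x hk]
      exact h3.symm
    · by_cases hy : v = ⟨i, s i + 1⟩
      · subst hy
        rw [tu_y hk]
        exact h3
      · by_cases hz : v = ⟨i, s i + 2⟩
        · subst hz
          exact absurd (tu_z s i) hv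
        · rw [tu_o s i v hx hy hz] at hv ⊢
          exact h2 v hv hy hz

private theorem tx (a1 a2 a3 b1 b2 b3 : Bool) (h1 : b1 ≠ a1) (h2 : b2 ≠ a2) (h3 : b3 ≠ a3) :
    xor (xor b1 b2) b3 ≠ xor (xor a1 a2) a3 := by
  revert a1 a2 a3 b1 b2 b3
  decide

theorem W0_xor (k : ι → ℕ) (τ : Vx k → Vx k) (s : ∀ i, ZMod (2 * k i + 1)) (i : ι)
    (c1 c2 c3 : Vx k → Bool) (h1 : W0 k τ s i c1) (h2 : W0 k τ s i c2) (h3 : W0 k τ s i c3) :
    W0 k τ s i (fun v => xor (xor (c1 v) (c2 v)) (c3 v)) :=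
  ⟨fun v => tx _ _ _ _ _ _ (h1.1 v) (h2.1 v) (h3.1 v), fun v hv hy hz =>
    tx _ _ _ _ _ _ (h1.2 v hv hy hz) (h2.2 v hv hy hz) (h3.2 v hv hy hz)⟩

private theorem sg_ne {a b : Bool} (h : a ≠ b) : sg a = -sg b := by
  unfold sg
  cases a <;> cases b <;> simp at h ⊢

private theorem inv_sum {V : Type*} [Fintype V] (τ : V → V) (hτ : ∀ v, τ (τ v) = v) (f : V → ℝ)
    (h : ∀ v, f (τ v) = -f v) : ∑ v, f v = 0 := by
  have h1 : ∑ v, f (τ v) = ∑ v, f v := Equiv.sum_comp (Function.Involutive.toPerm τ hτ) f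
  simp only [h, Finset.sum_neg_distrib] at h1
  linarith

theorem SZ (k : ι → ℕ) (hk : ∀ i, 1 ≤ k i) (τ : Vx k → Vx k) (hτ : ∀ v, τ (τ v) = v)
    (i j : ι) (hij : i ≠ j) (hall : ∀ l, l = i ∨ l = j)
    (s : ∀ i, ZMod (2 * k i + 1)) (c : Vx k → Bool) (hc : W0 k τ s i c) :
    sg (c ⟨i, s i⟩) + sg (c ⟨i, s i + 1⟩) + sg (c ⟨i, s i + 2⟩) + sg (c ⟨j, s j⟩) = 0 := by
  classical
  have hxy := tv hk (th_ne1 hk s i)
  have hxz := tv hk (th_ne2 hk s i)
  have hyz := tv hk (th_ne3 hk s i)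
  have hne : ∀ w, (⟨i, w⟩ : Vx k) ≠ ⟨j, s j⟩ := by
    intro w h
    exact hij (congrArg Sigma.fst h)
  have h1 : ∑ v, sg (c v) = 0 := inv_sum τ hτ _ fun v => sg_ne (hc.1 v)
  obtain ⟨S, hS⟩ : ∃ S : Finset (Vx k), S = {⟨i, s i⟩, ⟨i, s i + 1⟩, ⟨i, s i + 2⟩, ⟨j, s j⟩} :=
    ⟨_, rfl⟩
  have hmem : ∀ v, v ∈ S ↔ v = ⟨i, s i⟩ ∨ v = ⟨i, s i + 1⟩ ∨ v = ⟨i, s i + 2⟩ ∨ v = ⟨j, s j⟩ := by
    intro v
    rw [hS]
    simp only [Finset.mem_insert, Finset.mem_singleton]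
  have hmap : ∀ v, v ∈ S → nuH s v ∈ S := by
    intro v hv
    rw [hmem] at hv ⊢
    rcases hv with rfl | rfl | rfl | rfl
    · left; exact th_x s i
    · right; right; left; exact th_y hk s i
    · right; left; exact th_z hk s i
    · right; right; right; exact th_x s j
  have hmap' : ∀ v, nuH s v ∈ S ↔ v ∈ S := by
    intro v
    refine ⟨fun h => ?_, hmap v⟩
    have h2 := hmap _ h
    rwa [nuH_nuH] at h2
  have h2 : ∑ v, (if v ∈ S then 0 else sg (c v)) = 0 := by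
    refine inv_sum (nuH s) (nuH_nuH s) _ fun v => ?_
    by_cases hv : v ∈ S
    · rw [if_pos hv, if_pos (hmap v hv), neg_zero]
    · rw [if_neg hv, if_neg (fun h => hv ((hmap' v).1 h))]
      rw [hmem] at hv
      push Not at hv
      apply sg_ne
      refine hc.2 v (th_ne hk s v ?_) hv.2.1 hv.2.2.1
      intro h
      rcases hall v.1 with h3 | h3
      · apply hv.1
        rw [h, h3]
      · apply hv.2.2.2
        rw [h, h3]
  have h3 : ∑ v, sg (c v) = ∑ v, (if v ∈ S then sg (c v) else 0) +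
      ∑ v, (if v ∈ S then 0 else sg (c v)) := by
    rw [← Finset.sum_add_distrib]
    refine Finset.sum_congr rfl fun v _ => ?_
    split_ifs
    · rw [add_zero]
    · rw [zero_add]
  rw [h1, h2, add_zero, Finset.sum_ite_mem, Finset.univ_inter, hS,
    Finset.sum_insert (by simp only [Finset.mem_insert, Finset.mem_singleton, not_or]; exact ⟨hxy, hxz, hne _⟩),
    Finset.sum_insert (by simp only [Finset.mem_insert, Finset.mem_singleton, not_or]; exact ⟨hyz, hne _⟩),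
    Finset.sum_insert (by simp only [Finset.mem_singleton]; exact hne _),
    Finset.sum_singleton] at h3
  linarith

theorem W0_ex1 (k : ι → ℕ) (hk : ∀ i, 1 ≤ k i) (τ : Vx k → Vx k) (hτ : ∀ v, τ (τ v) = v)
    (hτ1 : ∀ v, τ v ≠ v) (s : ∀ i, ZMod (2 * k i + 1)) (i : ι) :
    ∃ c, W0 k τ s i c ∧ c ⟨i, s i + 1⟩ ≠ c ⟨i, s i + 2⟩ := by
  obtain ⟨c, h1, h2⟩ := Helper74.BIS.TWO τ (nuH s) hτ (nuH_nuH s)
  exact ⟨c, (WW_iff k hk τ s i c).1 ⟨fun v => h1 v (hτ1 v), h2⟩⟩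

theorem W0_ex2 (k : ι → ℕ) (hk : ∀ i, 1 ≤ k i) (τ : Vx k → Vx k) (hτ : ∀ v, τ (τ v) = v)
    (hτ1 : ∀ v, τ v ≠ v) (s : ∀ i, ZMod (2 * k i + 1)) (i : ι) :
    ∃ c, W0 k τ s i c ∧ c ⟨i, s i⟩ ≠ c ⟨i, s i + 1⟩ := by
  obtain ⟨c, h1, h2⟩ := Helper74.BIS.TWO τ (nuH (up s i)) hτ (nuH_nuH (up s i))
  exact ⟨c, (WWup_iff k hk τ s i c).1 ⟨fun v => h1 v (hτ1 v), h2⟩⟩

theorem W0_ex3 (k : ι → ℕ) (hk : ∀ i, 1 ≤ k i) (τ : Vx k → Vx k) (hτ : ∀ v, τ (τ v) = v)
    (hτ1 : ∀ v, τ v ≠ v) (s : ∀ i, ZMod (2 * k i + 1)) (i : ι) :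
    ∃ c, W0 k τ s i c ∧ c ⟨i, s i⟩ ≠ c ⟨i, s i + 2⟩ := by
  classical
  have hxy := tv hk (th_ne1 hk s i)
  have hxz := tv hk (th_ne2 hk s i)
  have hyz := tv hk (th_ne3 hk s i)
  obtain ⟨ν, hν⟩ : ∃ ν : Vx k → Vx k, ν = fun v => if v = ⟨i, s i⟩ then ⟨i, s i + 2⟩ else
    if v = ⟨i, s i + 2⟩ then ⟨i, s i⟩ else if v = ⟨i, s i + 1⟩ then ⟨i, s i + 1⟩ else nuH s v :=
    ⟨_, rfl⟩
  have e1 : ν ⟨i, s i⟩ = ⟨i, s i + 2⟩ := by
    rw [hν]
    exact if_pos rfl
  have e2 : ν ⟨i, s i + 2⟩ = ⟨i, s i⟩ := by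
    rw [hν]
    change (if _ then _ else if _ then _ else _) = _
    rw [if_neg hxz.symm, if_pos rfl]
  have e3 : ν ⟨i, s i + 1⟩ = ⟨i, s i + 1⟩ := by
    rw [hν]
    change (if _ then _ else if _ then _ else if _ then _ else _) = _
    rw [if_neg hxy.symm, if_neg hyz, if_pos rfl]
  have e4 : ∀ v, v ≠ ⟨i, s i⟩ → v ≠ ⟨i, s i + 1⟩ → v ≠ ⟨i, s i + 2⟩ → ν v = nuH s v := by
    intro v h0 h1 h2
    rw [hν]
    change (if _ then _ else if _ then _ else if _ then _ else _) = _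
    rw [if_neg h0, if_neg h2, if_neg h1]
  have hinv : ∀ v, ν (ν v) = v := by
    intro v
    by_cases h0 : v = ⟨i, s i⟩
    · rw [h0, e1, e2]
    · by_cases h1 : v = ⟨i, s i + 1⟩
      · rw [h1, e3, e3]
      · by_cases h2 : v = ⟨i, s i + 2⟩
        · rw [h2, e2, e1]
        · rw [e4 v h0 h1 h2, e4 _ _ _ _, nuH_nuH]
          · intro h
            apply h0
            rw [← nuH_nuH s v, h, th_x]
          · intro h
            apply h2
            rw [← nuH_nuH s v, h, th_y hk]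
          · intro h
            apply h1
            rw [← nuH_nuH s v, h, th_z hk]
  obtain ⟨c, h1, h2⟩ := Helper74.BIS.TWO τ ν hτ hinv
  refine ⟨c, ⟨fun v => h1 v (hτ1 v), fun v hv hy hz => ?_⟩, ?_⟩
  · have hx : v ≠ ⟨i, s i⟩ := by
      rintro rfl
      exact hv (th_x s i)
    have e := e4 v hx hy hz
    have h3 := h2 v (by rw [e]; exact hv)
    rwa [e] at h3
  · have h3 := h2 ⟨i, s i⟩ (by rw [e1]; exact hxz.symm)
    rw [e1] at h3
    exact h3.symm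

/-- colourings of a given type (`p, q, r`: differences of the values at `y, z, e` to that at `x`) -/
private def Ty (k : ι → ℕ) (τ : Vx k → Vx k) (s : ∀ i, ZMod (2 * k i + 1)) (i j : ι)
    (p q r : Bool) : Set (Vx k → Bool) :=
  {c | W0 k τ s i c ∧ c ⟨i, s i + 1⟩ = xor p (c ⟨i, s i⟩) ∧ c ⟨i, s i + 2⟩ = xor q (c ⟨i, s i⟩) ∧
    c ⟨j, s j⟩ = xor r (c ⟨i, s i⟩)}

private theorem tb (p1 p2 p3 a1 a2 a3 b1 b2 b3 : Bool) (h1 : b1 = xor p1 a1) (h2 : b2 = xor p2 a2)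
    (h3 : b3 = xor p3 a3) :
    xor (xor b1 b2) b3 = xor (xor (xor p1 p2) p3) (xor (xor a1 a2) a3) := by
  subst h1 h2 h3
  revert p1 p2 p3 a1 a2 a3
  decide

private theorem Ty_xor (k : ι → ℕ) (τ : Vx k → Vx k) (s : ∀ i, ZMod (2 * k i + 1)) (i j : ι)
    {p1 q1 r1 p2 q2 r2 p3 q3 r3 : Bool} {c1 c2 c3 : Vx k → Bool}
    (h1 : c1 ∈ Ty k τ s i j p1 q1 r1) (h2 : c2 ∈ Ty k τ s i j p2 q2 r2)
    (h3 : c3 ∈ Ty k τ s i j p3 q3 r3) :
    (fun v => xor (xor (c1 v) (c2 v)) (c3 v)) ∈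
      Ty k τ s i j (xor (xor p1 p2) p3) (xor (xor q1 q2) q3) (xor (xor r1 r2) r3) :=
  ⟨W0_xor k τ s i c1 c2 c3 h1.1 h2.1 h3.1, tb _ _ _ _ _ _ _ _ _ h1.2.1 h2.2.1 h3.2.1,
    tb _ _ _ _ _ _ _ _ _ h1.2.2.1 h2.2.2.1 h3.2.2.1,
    tb _ _ _ _ _ _ _ _ _ h1.2.2.2 h2.2.2.2 h3.2.2.2⟩

private theorem Ty_card (k : ι → ℕ) (τ : Vx k → Vx k) (s : ∀ i, ZMod (2 * k i + 1)) (i j : ι)
    {p1 q1 r1 p2 q2 r2 : Bool} {a b : Vx k → Bool}
    (ha : a ∈ Ty k τ s i j p1 q1 r1) (hb : b ∈ Ty k τ s i j p2 q2 r2) :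
    (Ty k τ s i j p1 q1 r1).ncard = (Ty k τ s i j p2 q2 r2).ncard := by
  have hx : ∀ p q : Bool, xor (xor p p) q = q := by decide
  have hx' : ∀ p q : Bool, xor (xor p q) p = q := by decide
  obtain ⟨f, hf⟩ : ∃ f : (Vx k → Bool) → (Vx k → Bool),
    f = fun c v => xor (xor (c v) (a v)) (b v) := ⟨_, rfl⟩
  have hff : ∀ c, f (f c) = c := by
    intro c
    rw [hf]
    funext v
    have : ∀ x y z : Bool, xor (xor (xor (xor x y) z) y) z = x := by decide
    exact this _ _ _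
  have h1 : ∀ c ∈ Ty k τ s i j p1 q1 r1, f c ∈ Ty k τ s i j p2 q2 r2 := by
    intro c hc
    have h := Ty_xor k τ s i j hc ha hb
    rw [hx, hx, hx] at h
    rw [hf]
    exact h
  have h2 : ∀ c ∈ Ty k τ s i j p2 q2 r2, f c ∈ Ty k τ s i j p1 q1 r1 := by
    intro c hc
    have h := Ty_xor k τ s i j hc ha hb
    rw [hx', hx', hx'] at h
    rw [hf]
    exact h
  have h3 : f '' (Ty k τ s i j p1 q1 r1) = Ty k τ s i j p2 q2 r2 := by
    ext c
    constructor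
    · rintro ⟨c', hc', rfl⟩
      exact h1 c' hc'
    · intro hc
      exact ⟨f c, h2 c hc, hff c⟩
  rw [← h3, Set.ncard_image_of_injective _ (Function.LeftInverse.injective hff)]

private theorem sg4 (a p q r : Bool) (h : sg a + sg (xor p a) + sg (xor q a) + sg (xor r a) = 0) :
    (p = false ∧ q = true ∧ r = true) ∨ (p = true ∧ q = false ∧ r = true) ∨
      (p = true ∧ q = true ∧ r = false) := by
  unfold sg at h
  cases a <;> cases p <;> cases q <;> cases r <;>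
    first | (simp; done) | (exfalso; norm_num at h)

theorem TRI (k : ι → ℕ) (hk : ∀ i, 1 ≤ k i) (τ : Vx k → Vx k) (hτ : ∀ v, τ (τ v) = v)
    (hτ1 : ∀ v, τ v ≠ v) (i j : ι) (hij : i ≠ j) (hall : ∀ l, l = i ∨ l = j)
    (s : ∀ i, ZMod (2 * k i + 1)) :
    0 < NW k τ s ∧
    ((TypeO k τ s i j ∧ NW k τ (up s i) = NW k τ s ∧
        (∀ c, WW k τ s c → c ⟨i, s i⟩ = c ⟨i, s i + 1⟩) ∧
        (∀ c, WW k τ (up s i) c → c ⟨i, s i + 1⟩ = c ⟨i, s i + 2⟩) ∧
        ∃ c, W0 k τ s i c ∧ c ⟨i, s i⟩ = c ⟨j, s j⟩) ∨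
      (NW k τ (up s i) = 2 * NW k τ s ∧
        (∀ c, WW k τ s c → c ⟨i, s i⟩ ≠ c ⟨i, s i + 1⟩) ∧
        ∃ c, W0 k τ s i c ∧ c ⟨i, s i⟩ = c ⟨j, s j⟩) ∨
      (NW k τ s = 2 * NW k τ (up s i) ∧
        ∀ c, WW k τ (up s i) c → c ⟨i, s i + 1⟩ ≠ c ⟨i, s i + 2⟩)) := by
  classical
  -- the three types
  obtain ⟨Y, hY⟩ : ∃ Y, Y = Ty k τ s i j false true true := ⟨_, rfl⟩
  obtain ⟨Z, hZ⟩ : ∃ Z, Z = Ty k τ s i j true false true := ⟨_, rfl⟩
  obtain ⟨E, hE⟩ : ∃ E, E = Ty k τ s i j true true false := ⟨_, rfl⟩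
  have gen : ∀ c, ∀ p q r, c ∈ Ty k τ s i j p q r → (p = false ∧ q = true ∧ r = true) ∨
      (p = true ∧ q = false ∧ r = true) ∨ (p = true ∧ q = true ∧ r = false) := by
    intro c p q r hc
    have h := SZ k hk τ hτ i j hij hall s c hc.1
    rw [hc.2.1, hc.2.2.1, hc.2.2.2] at h
    exact sg4 _ _ _ _ h
  have tri : ∀ c, W0 k τ s i c → c ∈ Y ∨ c ∈ Z ∨ c ∈ E := by
    intro c hc
    have hx : ∀ a b : Bool, b = xor (xor b a) a := by decide
    have hm : c ∈ Ty k τ s i j (xor (c ⟨i, s i + 1⟩) (c ⟨i, s i⟩))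
        (xor (c ⟨i, s i + 2⟩) (c ⟨i, s i⟩)) (xor (c ⟨j, s j⟩) (c ⟨i, s i⟩)) :=
      ⟨hc, hx _ _, hx _ _, hx _ _⟩
    rcases gen c _ _ _ hm with ⟨h1, h2, h3⟩ | ⟨h1, h2, h3⟩ | ⟨h1, h2, h3⟩
    · left; rw [h1, h2, h3] at hm; rw [hY]; exact hm
    · right; left; rw [h1, h2, h3] at hm; rw [hZ]; exact hm
    · right; right; rw [h1, h2, h3] at hm; rw [hE]; exact hm
  -- values
  have vY : ∀ c ∈ Y, W0 k τ s i c ∧ c ⟨i, s i + 1⟩ = c ⟨i, s i⟩ ∧ c ⟨i, s i + 2⟩ = !c ⟨i, s i⟩ ∧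
      c ⟨j, s j⟩ = !c ⟨i, s i⟩ := by
    intro c hc
    rw [hY] at hc
    obtain ⟨h1, h2, h3, h4⟩ := hc
    exact ⟨h1, by rw [h2, Bool.false_xor], by rw [h3, Bool.true_xor], by rw [h4, Bool.true_xor]⟩
  have vZ : ∀ c ∈ Z, W0 k τ s i c ∧ c ⟨i, s i + 1⟩ = !c ⟨i, s i⟩ ∧ c ⟨i, s i + 2⟩ = c ⟨i, s i⟩ ∧
      c ⟨j, s j⟩ = !c ⟨i, s i⟩ := by
    intro c hc
    rw [hZ] at hc
    obtain ⟨h1, h2, h3, h4⟩ := hc
    exact ⟨h1, by rw [h2, Bool.true_xor], by rw [h3, Bool.false_xor], by rw [h4, Bool.true_xor]⟩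
  have vE : ∀ c ∈ E, W0 k τ s i c ∧ c ⟨i, s i + 1⟩ = !c ⟨i, s i⟩ ∧ c ⟨i, s i + 2⟩ = !c ⟨i, s i⟩ ∧
      c ⟨j, s j⟩ = c ⟨i, s i⟩ := by
    intro c hc
    rw [hE] at hc
    obtain ⟨h1, h2, h3, h4⟩ := hc
    exact ⟨h1, by rw [h2, Bool.true_xor], by rw [h3, Bool.true_xor], by rw [h4, Bool.false_xor]⟩
  have nb : ∀ b : Bool, (!b) ≠ b := by decide
  -- the alternating colourings
  have hW : {c | WW k τ s c} = Y ∪ Z := by
    ext c
    change WW k τ s c ↔ c ∈ Y ∨ c ∈ Z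
    rw [WW_iff k hk τ s i]
    constructor
    · rintro ⟨h1, h2⟩
      rcases tri c h1 with h | h | h
      · exact Or.inl h
      · exact Or.inr h
      · exact absurd ((vE c h).2.1.trans (vE c h).2.2.1.symm) h2
    · rintro (h | h)
      · refine ⟨(vY c h).1, ?_⟩
        rw [(vY c h).2.1, (vY c h).2.2.1]
        exact (nb _).symm
      · refine ⟨(vZ c h).1, ?_⟩
        rw [(vZ c h).2.1, (vZ c h).2.2.1]
        exact nb _
  have hU : {c | WW k τ (up s i) c} = Z ∪ E := by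
    ext c
    change WW k τ (up s i) c ↔ c ∈ Z ∨ c ∈ E
    rw [WWup_iff k hk τ s i]
    constructor
    · rintro ⟨h1, h2⟩
      rcases tri c h1 with h | h | h
      · exact absurd (vY c h).2.1.symm h2
      · exact Or.inl h
      · exact Or.inr h
    · rintro (h | h)
      · refine ⟨(vZ c h).1, ?_⟩
        rw [(vZ c h).2.1]
        exact (nb _).symm
      · refine ⟨(vE c h).1, ?_⟩
        rw [(vE c h).2.1]
        exact (nb _).symm
  have mW : ∀ c, WW k τ s c → c ∈ Y ∨ c ∈ Z := fun c hc => by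
    have : c ∈ {c | WW k τ s c} := hc
    rwa [hW] at this
  have mU : ∀ c, WW k τ (up s i) c → c ∈ Z ∨ c ∈ E := fun c hc => by
    have : c ∈ {c | WW k τ (up s i) c} := hc
    rwa [hU] at this
  have dYZ : Disjoint Y Z := by
    rw [Set.disjoint_left]
    intro c h1 h2
    have := (vY c h1).2.1.symm.trans (vZ c h2).2.1
    exact nb _ this.symm
  have dZE : Disjoint Z E := by
    rw [Set.disjoint_left]
    intro c h1 h2
    have := (vZ c h1).2.2.1.symm.trans (vE c h2).2.2.1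
    exact nb _ this.symm
  have nW : NW k τ s = Y.ncard + Z.ncard := by
    unfold NW
    rw [hW, Set.ncard_union_eq dYZ (Set.toFinite _) (Set.toFinite _)]
  have nU : NW k τ (up s i) = Z.ncard + E.ncard := by
    unfold NW
    rw [hU, Set.ncard_union_eq dZE (Set.toFinite _) (Set.toFinite _)]
  obtain ⟨c1, a1, b1⟩ := W0_ex1 k hk τ hτ hτ1 s i
  obtain ⟨c2, a2, b2⟩ := W0_ex2 k hk τ hτ hτ1 s i
  obtain ⟨c3, a3, b3⟩ := W0_ex3 k hk τ hτ hτ1 s i
  have hpos : 0 < NW k τ s := by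
    unfold NW
    rw [Set.ncard_pos (Set.toFinite _)]
    exact ⟨c1, (WW_iff k hk τ s i c1).2 ⟨a1, b1⟩⟩
  refine ⟨hpos, ?_⟩
  -- not all three
  have not3 : ¬ (Y.Nonempty ∧ Z.Nonempty ∧ E.Nonempty) := by
    rintro ⟨⟨a, ha⟩, ⟨b, hb⟩, ⟨c, hc⟩⟩
    rw [hY] at ha
    rw [hZ] at hb
    rw [hE] at hc
    have h := gen _ _ _ _ (Ty_xor k τ s i j ha hb hc)
    revert h
    decide
  by_cases hZe : Z.Nonempty
  · by_cases hYe : Y.Nonempty
    · -- E is empty
      have hEe : E = ∅ := by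
        rw [← Set.not_nonempty_iff_eq_empty]
        exact fun h => not3 ⟨hYe, hZe, h⟩
      right; right
      obtain ⟨a, ha⟩ := hYe
      obtain ⟨b, hb⟩ := hZe
      have hcard : Y.ncard = Z.ncard := by
        rw [hY] at ha ⊢
        rw [hZ] at hb ⊢
        exact Ty_card k τ s i j ha hb
      refine ⟨?_, fun c hc => ?_⟩
      · rw [nW, nU, hEe, Set.ncard_empty, hcard]
        ring
      · rcases mU c hc with h | h
        · rw [(vZ c h).2.1, (vZ c h).2.2.1]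
          exact nb _
        · rw [hEe] at h
          exact absurd h (Set.notMem_empty c)
    · -- Y is empty
      rw [Set.not_nonempty_iff_eq_empty] at hYe
      right; left
      have hEe : E.Nonempty := by
        rcases tri c3 a3 with h | h | h
        · rw [hYe] at h
          exact absurd h (Set.notMem_empty _)
        · exact absurd (vZ c3 h).2.2.1.symm b3
        · exact ⟨c3, h⟩
      obtain ⟨a, ha⟩ := hZe
      obtain ⟨b, hb⟩ := hEe
      have hcard : Z.ncard = E.ncard := by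
        rw [hZ] at ha ⊢
        rw [hE] at hb ⊢
        exact Ty_card k τ s i j ha hb
      refine ⟨?_, fun c hc => ?_, b, (vE b hb).1, (vE b hb).2.2.2.symm⟩
      · rw [nW, nU, hYe, Set.ncard_empty, ← hcard]
        ring
      · rcases mW c hc with h | h
        · rw [hYe] at h
          exact absurd h (Set.notMem_empty c)
        · rw [(vZ c h).2.1]
          exact (nb _).symm
  · rw [Set.not_nonempty_iff_eq_empty] at hZe
    left
    have hYe : Y.Nonempty := by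
      rcases tri c1 a1 with h | h | h
      · exact ⟨c1, h⟩
      · rw [hZe] at h
        exact absurd h (Set.notMem_empty _)
      · exact absurd ((vE c1 h).2.1.trans (vE c1 h).2.2.1.symm) b1
    have hEe : E.Nonempty := by
      rcases tri c2 a2 with h | h | h
      · exact absurd (vY c2 h).2.1.symm b2
      · rw [hZe] at h
        exact absurd h (Set.notMem_empty _)
      · exact ⟨c2, h⟩
    obtain ⟨a, ha⟩ := hYe
    obtain ⟨b, hb⟩ := hEe
    have hcard : Y.ncard = E.ncard := by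
      rw [hY] at ha ⊢
      rw [hE] at hb ⊢
      exact Ty_card k τ s i j ha hb
    refine ⟨fun c hc => ?_, ?_, fun c hc => ?_, fun c hc => ?_, b, (vE b hb).1,
      (vE b hb).2.2.2.symm⟩
    · rcases tri c hc with h | h | h
      · rw [(vY c h).2.1, (vY c h).2.2.1, (vY c h).2.2.2]
        exact ⟨(nb _).symm, (nb _).symm⟩
      · rw [hZe] at h
        exact absurd h (Set.notMem_empty _)
      · rw [(vE c h).2.1, (vE c h).2.2.1, (vE c h).2.2.2]
        exact ⟨(nb _).symm, nb _⟩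
    · rw [nW, nU, hZe, Set.ncard_empty, hcard]
      ring
    · rcases mW c hc with h | h
      · exact (vY c h).2.1.symm
      · rw [hZe] at h
        exact absurd h (Set.notMem_empty _)
    · rcases mU c hc with h | h
      · rw [hZe] at h
        exact absurd h (Set.notMem_empty _)
      · exact (vE c h).2.1.trans (vE c h).2.2.1.symm

end Pool.Agent.TWB
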