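import Pool.Agent.TWB.T3MD
import Pool.Agent.TWB.T3W
import Pool.Agent.TWB.ROWS

/-!
T3M1.  Generic positive weights for which all determinants of cells are different from zero.

Proof.  `ROWS` for `τ`: `Q`, `o : Vx k → Option Q`, `o v ≠ none` for all `v` (`hτ1`),
`o w = o v ↔ w = v ∨ w = τ v`, and `2 card Q = card (Vx k) = (2 k i + 1) + (2 k j + 1)` (`ι = {i, j}`),
so `card Q = k i + k j + 1 = card (JJ k i j)`; let `E : Q ≃ JJ k i j` and `O v : JJ k i j` the value
`E q` with `o v = some q`.  `TWO τ id` gives `c0 : Vx k → Bool` with `c0 (τ v) ≠ c0 v`.  For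
`z : Vx k → ℝ` put `w v c = if O v = c then sg (c0 v) * z v else 0`.  For `z > 0`:
`w (τ v) = - (z (τ v) / z v) * w v` since `O (τ v) = O v`, `sg (c0 (τ v)) = - sg (c0 v)`.
`det (MMat k i j w s)` is a polynomial in the variables `z v` (replace `z v` by `MvPolynomial.X v`).
It is not zero: let `c` be a colouring with `WW k τ s c` (`TWO τ (nuH s)`), evaluate at `z v = 1` if
`c v = c ⟨i, s i⟩` and `z v = 0` otherwise.  The row `inl ()` is `±` the unit vector at
`O ⟨i, s i⟩`.  For `v = ⟨i, s i + 1 + 2 t⟩`, `v' = ⟨i, s i + 2 + 2 t⟩`, `t < k i`: `v' = nuH s v ≠ v`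
(`(v - s).val = 2 t + 1`), so `c v ≠ c v'`, exactly one of the two has the colour of `⟨i, s i⟩` and the
row is `±` the unit vector at `O` of it; the same for circuit `j`.  Let `v_r` be the chosen vertex of
the row `r`.  The `v_r` are different vertices of the same colour in `c`, so no two of them are in
the same orbit of `τ` (`c (τ v) ≠ c v`), so `r ↦ O v_r` is injective, hence bijective on the finite set
`JJ k i j`.  So the matrix has trivial kernel (`mulVec x = 0` gives `x (O v_r) = 0` for all `r`) and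
its determinant is not zero (`Matrix.exists_mulVec_eq_zero_iff`).
The product over all (finitely many) cells `s` of these polynomials is not zero, so by
`MvPolynomial.funext_set` with the infinite sets `Set.Ioi 0` there is a point `z > 0` where it does
not vanish.  (Compare the proof of `GW` in `Pool/Agent/TWB/GW.lean`.)
-/

set_option autoImplicit false

namespace Pool.Agent.TWB

variable {ι : Type*} [Fintype ι] [DecidableEq ι]

namespace T3M1P

/-- the rows over a commutative ring -/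
def rowG {R : Type*} [CommRing R] (k : ι → ℕ) (i j : ι) (w : Vx k → JJ k i j → R)
    (s : ∀ i, ZMod (2 * k i + 1)) : JJ k i j → JJ k i j → R
  | Sum.inl _ => w ⟨i, s i⟩
  | Sum.inr (Sum.inl t) =>
      w ⟨i, s i + 1 + 2 * ((t : ℕ) : ZMod (2 * k i + 1))⟩ +
        w ⟨i, s i + 2 + 2 * ((t : ℕ) : ZMod (2 * k i + 1))⟩
  | Sum.inr (Sum.inr t) =>
      w ⟨j, s j + 1 + 2 * ((t : ℕ) : ZMod (2 * k j + 1))⟩ +
        w ⟨j, s j + 2 + 2 * ((t : ℕ) : ZMod (2 * k j + 1))⟩

omit [Fintype ι] [DecidableEq ι] in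
theorem rowG_real (k : ι → ℕ) (i j : ι) (w : Vx k → JJ k i j → ℝ)
    (s : ∀ i, ZMod (2 * k i + 1)) (r : JJ k i j) : rowG k i j w s r = rowv k i j w s r := by
  rcases r with u | t | t <;> rfl

omit [Fintype ι] [DecidableEq ι] in
theorem map_rowG {R S : Type*} [CommRing R] [CommRing S] (f : R →+* S) (k : ι → ℕ) (i j : ι)
    (w : Vx k → JJ k i j → R) (s : ∀ i, ZMod (2 * k i + 1)) (r c : JJ k i j) :
    f (rowG k i j w s r c) = rowG k i j (fun v c => f (w v c)) s r c := by
  rcases r with u | t | t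
  · rfl
  · exact map_add f _ _
  · exact map_add f _ _

omit [Fintype ι] [DecidableEq ι] in
theorem nuH_pair (k : ι → ℕ) (s : ∀ i, ZMod (2 * k i + 1)) (l : ι) (t : ℕ) (ht : t < k l) :
    nuH s (⟨l, s l + ((2 * t + 1 : ℕ) : ZMod (2 * k l + 1))⟩ : Vx k) =
      ⟨l, s l + ((2 * t + 2 : ℕ) : ZMod (2 * k l + 1))⟩ := by
  unfold nuH nuZ
  dsimp only
  rw [add_sub_cancel_left, ZMod.val_natCast_of_lt (by omega), if_neg (by omega),
    if_pos (by omega)]
  congr 1
  push_cast
  ring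

omit [Fintype ι] [DecidableEq ι] in
theorem vx_inj (k : ι → ℕ) (s : ∀ i, ZMod (2 * k i + 1)) (l l' : ι) (m m' : ℕ)
    (hm : m < 2 * k l + 1) (hm' : m' < 2 * k l' + 1)
    (h : (⟨l, s l + (m : ZMod (2 * k l + 1))⟩ : Vx k) =
      ⟨l', s l' + (m' : ZMod (2 * k l' + 1))⟩) : l = l' ∧ m = m' := by
  obtain rfl : l = l' := congrArg Sigma.fst h
  refine ⟨rfl, ?_⟩
  have h1 : s l + (m : ZMod (2 * k l + 1)) = s l + (m' : ZMod (2 * k l + 1)) :=
    eq_of_heq (Sigma.mk.inj h).2
  have h2 := congrArg ZMod.val (add_left_cancel h1)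
  rwa [ZMod.val_natCast_of_lt hm, ZMod.val_natCast_of_lt hm'] at h2

omit [Fintype ι] [DecidableEq ι] in
theorem nuH_pair_ne (k : ι → ℕ) (s : ∀ i, ZMod (2 * k i + 1)) (l : ι) (t : ℕ) (ht : t < k l) :
    nuH s (⟨l, s l + ((2 * t + 1 : ℕ) : ZMod (2 * k l + 1))⟩ : Vx k) ≠
      ⟨l, s l + ((2 * t + 1 : ℕ) : ZMod (2 * k l + 1))⟩ := by
  rw [nuH_pair k s l t ht]
  intro h
  have := (vx_inj k s l l _ _ (by omega) (by omega) h).2
  omega

/-- the possible vertices of a row -/
def code (k : ι → ℕ) (i j : ι) (r : JJ k i j) (l : ι) (m : ℕ) : Prop :=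
  match r with
  | Sum.inl _ => l = i ∧ m = 0
  | Sum.inr (Sum.inl t) => l = i ∧ (m = 2 * (t : ℕ) + 1 ∨ m = 2 * (t : ℕ) + 2)
  | Sum.inr (Sum.inr t) => l = j ∧ (m = 2 * (t : ℕ) + 1 ∨ m = 2 * (t : ℕ) + 2)

omit [Fintype ι] [DecidableEq ι] in
theorem code_inj (k : ι → ℕ) (i j : ι) (hij : i ≠ j) (r r' : JJ k i j) (l : ι) (m : ℕ)
    (h : code k i j r l m) (h' : code k i j r' l m) : r = r' := by
  rcases r with u | t | t <;> rcases r' with u' | t' | t' <;> simp only [code] at h h'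
  · rfl
  · omega
  · exact absurd (h.1.symm.trans h'.1) hij
  · omega
  · have : (t : ℕ) = t' := by omega
    rw [Fin.ext this]
  · exact absurd (h.1.symm.trans h'.1) hij
  · exact absurd (h'.1.symm.trans h.1) hij
  · exact absurd (h'.1.symm.trans h.1) hij
  · have : (t : ℕ) = t' := by omega
    rw [Fin.ext this]

omit [Fintype ι] [DecidableEq ι] in
open Classical in
/-- the evaluation of a pair -/
theorem pair_row {k : ι → ℕ} {i j : ι} (τ : Vx k → Vx k) (O : Vx k → JJ k i j)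
    (c0 : Vx k → Bool) (s : ∀ i, ZMod (2 * k i + 1)) (c : Vx k → Bool) (hc : WW k τ s c)
    (κ : Bool) (l : ι) (t : ℕ) (ht : t < k l) :
    ∃ m : ℕ, (m = 2 * t + 1 ∨ m = 2 * t + 2) ∧
      c ⟨l, s l + (m : ZMod (2 * k l + 1))⟩ = κ ∧
      ∀ col : JJ k i j,
        (if O ⟨l, s l + 1 + 2 * (t : ZMod (2 * k l + 1))⟩ = col then
          sg (c0 ⟨l, s l + 1 + 2 * (t : ZMod (2 * k l + 1))⟩) *
            (if c ⟨l, s l + 1 + 2 * (t : ZMod (2 * k l + 1))⟩ = κ then 1 else 0) else 0) +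
        (if O ⟨l, s l + 2 + 2 * (t : ZMod (2 * k l + 1))⟩ = col then
          sg (c0 ⟨l, s l + 2 + 2 * (t : ZMod (2 * k l + 1))⟩) *
            (if c ⟨l, s l + 2 + 2 * (t : ZMod (2 * k l + 1))⟩ = κ then 1 else 0) else 0) =
        if O ⟨l, s l + (m : ZMod (2 * k l + 1))⟩ = col then
          sg (c0 ⟨l, s l + (m : ZMod (2 * k l + 1))⟩) else 0 := by
  have e1 : s l + 1 + 2 * (t : ZMod (2 * k l + 1)) =
      s l + ((2 * t + 1 : ℕ) : ZMod (2 * k l + 1)) := by
    push_cast
    ring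
  have e2 : s l + 2 + 2 * (t : ZMod (2 * k l + 1)) =
      s l + ((2 * t + 2 : ℕ) : ZMod (2 * k l + 1)) := by
    push_cast
    ring
  rw [e1, e2]
  have h1 := hc.2 _ (nuH_pair_ne k s l t ht)
  rw [nuH_pair k s l t ht] at h1
  by_cases h2 : c ⟨l, s l + ((2 * t + 1 : ℕ) : ZMod (2 * k l + 1))⟩ = κ
  · have h3 : c ⟨l, s l + ((2 * t + 2 : ℕ) : ZMod (2 * k l + 1))⟩ ≠ κ := by
      rw [← h2]
      exact h1
    refine ⟨2 * t + 1, Or.inl rfl, h2, fun col => ?_⟩
    rw [if_pos h2, if_neg h3, mul_one, mul_zero, ite_self, add_zero]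
  · have h3 : c ⟨l, s l + ((2 * t + 2 : ℕ) : ZMod (2 * k l + 1))⟩ = κ := by
      cases h4 : c ⟨l, s l + ((2 * t + 2 : ℕ) : ZMod (2 * k l + 1))⟩ <;>
        cases h5 : c ⟨l, s l + ((2 * t + 1 : ℕ) : ZMod (2 * k l + 1))⟩ <;>
        cases κ <;> simp_all
    refine ⟨2 * t + 2, Or.inr rfl, h3, fun col => ?_⟩
    rw [if_neg h2, if_pos h3, mul_one, mul_zero, ite_self, zero_add]

omit [Fintype ι] in
open Classical in
/-- a cell has a nonzero determinant at some point -/
theorem det_ne (k : ι → ℕ) (τ : Vx k → Vx k) (i j : ι) (hij : i ≠ j) (O : Vx k → JJ k i j)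
    (hO : ∀ v w, O w = O v → w = v ∨ w = τ v) (c0 : Vx k → Bool)
    (s : ∀ i, ZMod (2 * k i + 1)) (c : Vx k → Bool) (hc : WW k τ s c) :
    (MMat k i j (fun v col => if O v = col then
      sg (c0 v) * (if c v = c ⟨i, s i⟩ then 1 else 0) else 0) s).det ≠ 0 := by
  have hrow : ∀ r : JJ k i j, ∃ (l : ι) (m : ℕ), m < 2 * k l + 1 ∧ code k i j r l m ∧
      c ⟨l, s l + (m : ZMod (2 * k l + 1))⟩ = c ⟨i, s i⟩ ∧
      ∀ col, rowv k i j (fun v col => if O v = col then
        sg (c0 v) * (if c v = c ⟨i, s i⟩ then 1 else 0) else 0) s r col =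
        if O ⟨l, s l + (m : ZMod (2 * k l + 1))⟩ = col then
          sg (c0 ⟨l, s l + (m : ZMod (2 * k l + 1))⟩) else 0 := by
    intro r
    rcases r with u | t | t
    · have e0 : s i + ((0 : ℕ) : ZMod (2 * k i + 1)) = s i := by
        rw [Nat.cast_zero, add_zero]
      refine ⟨i, 0, by omega, ⟨rfl, rfl⟩, by rw [e0], fun col => ?_⟩
      rw [e0]
      simp only [rowv, if_true, mul_one]
    · obtain ⟨m, h1, h2, h3⟩ := pair_row τ O c0 s c hc (c ⟨i, s i⟩) i t t.2
      have ht := t.2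
      exact ⟨i, m, by omega, ⟨rfl, h1⟩, h2, h3⟩
    · obtain ⟨m, h1, h2, h3⟩ := pair_row τ O c0 s c hc (c ⟨i, s i⟩) j t t.2
      have ht := t.2
      exact ⟨j, m, by omega, ⟨rfl, h1⟩, h2, h3⟩
  choose l m hm hcode hcol hr using hrow
  set v : JJ k i j → Vx k := fun r => ⟨l r, s (l r) + (m r : ZMod (2 * k (l r) + 1))⟩ with hv
  have hinj : Function.Injective (fun r => O (v r)) := by
    intro r r' h
    rcases hO _ _ h with h1 | h1
    · obtain ⟨h2, h3⟩ := vx_inj k s _ _ _ _ (hm r) (hm r') h1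
      have h4 := hcode r
      rw [h2, h3] at h4
      exact code_inj k i j hij r r' _ _ h4 (hcode r')
    · exfalso
      apply hc.1 (v r')
      rw [← h1]
      exact (hcol r).trans (hcol r').symm
  have hsur : Function.Surjective (fun r => O (v r)) := Finite.injective_iff_surjective.1 hinj
  intro hdet
  obtain ⟨x, hx0, hx⟩ := Matrix.exists_mulVec_eq_zero_iff.2 hdet
  apply hx0
  funext a
  obtain ⟨r, hra⟩ := hsur a
  have h1 := congrFun hx r
  rw [Matrix.mulVec, dotProduct, Pi.zero_apply] at h1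
  have h2 : ∀ col, MMat k i j (fun v col => if O v = col then
      sg (c0 v) * (if c v = c ⟨i, s i⟩ then 1 else 0) else 0) s r col * x col =
      if O (v r) = col then sg (c0 (v r)) * x col else 0 := by
    intro col
    rw [MMat, Matrix.of_apply, hr r col]
    split_ifs
    · rfl
    · rw [zero_mul]
  rw [Finset.sum_congr rfl fun col _ => h2 col, Finset.sum_ite_eq, if_pos (Finset.mem_univ _),
    mul_eq_zero] at h1
  have h3 : sg (c0 (v r)) ≠ 0 := by
    unfold sg
    split_ifs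
    · exact one_ne_zero
    · exact neg_ne_zero.2 one_ne_zero
  have h4 := h1.resolve_left h3
  change O (v r) = a at hra
  rw [hra] at h4
  exact h4

end T3M1P

open T3M1P Classical in
theorem GENW (k : ι → ℕ) (hk : ∀ i, 1 ≤ k i) (τ : Vx k → Vx k) (hτ : ∀ v, τ (τ v) = v)
    (hτ1 : ∀ v, τ v ≠ v) (i j : ι) (hij : i ≠ j) (hall : ∀ l, l = i ∨ l = j) :
    ∃ w : Vx k → JJ k i j → ℝ,
      (∀ v, ∃ ρ : ℝ, 0 < ρ ∧ ∀ c, w (τ v) c = -ρ * w v c) ∧
      ∀ s : ∀ i, ZMod (2 * k i + 1), (MMat k i j w s).det ≠ 0 := by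
  obtain ⟨Q, hQ1, hQ2, o, ho1, ho2, ho3⟩ := ROWS τ hτ
  have hcard : Fintype.card Q = Fintype.card (JJ k i j) := by
    have h1 : (Finset.univ.filter (fun v => τ v = v)).card = 0 := by
      rw [Finset.card_eq_zero, Finset.filter_eq_empty_iff]
      exact fun v _ => hτ1 v
    have h2 : Fintype.card (Vx k) = (2 * k i + 1) + (2 * k j + 1) := by
      rw [Fintype.card_sigma]
      have h3 : (Finset.univ : Finset ι) = {i, j} := by
        ext l
        simpa using hall l
      rw [h3, Finset.sum_pair hij, ZMod.card, ZMod.card]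
    have h4 : Fintype.card (JJ k i j) = 1 + (k i + k j) := by
      rw [Fintype.card_sum, Fintype.card_sum, Fintype.card_unit, Fintype.card_fin,
        Fintype.card_fin]
    omega
  let E : Q ≃ JJ k i j := Fintype.equivOfCardEq hcard
  have hq : ∀ v, ∃ q : Q, o v = some q := by
    intro v
    have h := fun h => hτ1 v ((ho1 v).1 h)
    exact Option.ne_none_iff_exists'.1 h
  choose q hq using hq
  set O : Vx k → JJ k i j := fun v => E (q v) with hOdef
  have hO : ∀ v w, O w = O v → w = v ∨ w = τ v := by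
    intro v w h
    have h1 : q w = q v := E.injective h
    rw [← ho2 v w (hτ1 v), hq v, hq w, h1]
  have hOτ : ∀ v, O (τ v) = O v := by
    intro v
    have h1 : o (τ v) = o v := (ho2 v (τ v) (hτ1 v)).2 (Or.inr rfl)
    rw [hq, hq v, Option.some.injEq] at h1
    rw [hOdef]
    exact congrArg E h1
  obtain ⟨c0, hc0, -⟩ := Pool.Agent.Helper74.BIS.TWO τ id hτ (fun _ => rfl)
  -- the polynomials
  set wX : Vx k → JJ k i j → MvPolynomial (Vx k) ℝ := fun v col =>
    if O v = col then MvPolynomial.C (sg (c0 v)) * MvPolynomial.X v else 0 with hwX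
  set D : (∀ i, ZMod (2 * k i + 1)) → MvPolynomial (Vx k) ℝ := fun s =>
    Matrix.det (Matrix.of (rowG k i j wX s)) with hD
  have hev : ∀ (z : Vx k → ℝ) (s : ∀ i, ZMod (2 * k i + 1)), MvPolynomial.eval z (D s) =
      (MMat k i j (fun v col => if O v = col then sg (c0 v) * z v else 0) s).det := by
    intro z s
    rw [hD]
    dsimp only
    rw [RingHom.map_det]
    congr 1
    ext r col
    rw [RingHom.mapMatrix_apply, Matrix.map_apply, Matrix.of_apply, map_rowG, rowG_real, MMat,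
      Matrix.of_apply]
    congr 1
    funext v col
    rw [hwX]
    dsimp only
    split_ifs
    · rw [map_mul, MvPolynomial.eval_C, MvPolynomial.eval_X]
    · rw [map_zero]
  have hDne : ∀ s, D s ≠ 0 := by
    intro s h0
    obtain ⟨c, h1, h2⟩ := Pool.Agent.Helper74.BIS.TWO τ (nuH s) hτ (nuH_nuH s)
    have hW : WW k τ s c := ⟨fun v => h1 v (hτ1 v), h2⟩
    have h3 := det_ne k τ i j hij O hO c0 s c hW
    apply h3
    rw [← hev (fun v => if c v = c ⟨i, s i⟩ then 1 else 0) s, h0, map_zero]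
  let P : MvPolynomial (Vx k) ℝ := ∏ s, D s
  have hP : P ≠ 0 := Finset.prod_ne_zero_iff.2 fun s _ => hDne s
  have hex : ∃ z : Vx k → ℝ, (∀ x, 0 < z x) ∧ MvPolynomial.eval z P ≠ 0 := by
    by_contra hc
    apply hP
    refine MvPolynomial.funext_set (fun _ => Set.Ioi (0 : ℝ)) (fun _ => Set.Ioi_infinite 0) ?_
    intro x hx
    rw [map_zero]
    by_contra h
    exact hc ⟨x, fun i => hx i (Set.mem_univ i), h⟩
  obtain ⟨z, hz, hPz⟩ := hex
  refine ⟨fun v col => if O v = col then sg (c0 v) * z v else 0, ?_, ?_⟩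
  · intro v
    refine ⟨z (τ v) / z v, div_pos (hz _) (hz _), fun col => ?_⟩
    have h1 : sg (c0 (τ v)) = -sg (c0 v) := by
      have h2 := hc0 v (hτ1 v)
      unfold sg
      cases h3 : c0 (τ v) <;> cases h4 : c0 v <;> simp_all
    dsimp only
    rw [hOτ v, h1]
    split_ifs
    · have := (hz v).ne'
      field_simp
    · rw [mul_zero]
  · intro s
    have h1 : MvPolynomial.eval z P = ∏ s, MvPolynomial.eval z (D s) := map_prod _ _ _
    rw [h1] at hPz
    have h2 := Finset.prod_ne_zero_iff.1 hPz s (Finset.mem_univ _)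
    rwa [hev] at h2

end Pool.Agent.TWB
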