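import Pool.Agent.TWB.T3W

/-!
T3M2.  Signs of functions that alternate up to positive factors.

Proof.  Let `b` be a colouring with `W0 k τ s l b` (`W0_ex1`).  For `β : Bool` let
`c_β v = true` if `0 < a v`, `false` if `a v < 0`, `xor β (b v)` if `a v = 0`.  Then `W0 k τ s l c_β`:
`a (τ v) = - ρ a v` has the opposite sign of `a v` or both are `0` and then `b (τ v) ≠ b v`; the same
along `nuH s` (except for the edge `{s l + 1, s l + 2}`).  By `hO` `c_β x ≠ c_β z` and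
`c_β y ≠ c_β e`, `x = ⟨l, s l⟩`, `y = ⟨l, s l + 1⟩`, `z = ⟨l, s l + 2⟩`, `e = ⟨l', s l'⟩`.  If
`a x ≠ 0` and `a z = 0` then `c_β x` does not depend on `β` while `c_β z` does: contradiction for one
`β`.  In the same way `a z ≠ 0`, `a x = 0` is impossible, and the same for `y`, `e`.  If `a x`, `a z` are
both not zero they have different signs.
-/

set_option autoImplicit false

namespace Pool.Agent.TWB

variable {ι : Type*} [Fintype ι] [DecidableEq ι]

/-- the colouring given by the signs of `a`, by `xor β (b v)` at the zeros -/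
private noncomputable def cb {V : Type*} (a : V → ℝ) (b : V → Bool) (β : Bool) (v : V) : Bool :=
  if 0 < a v then true else if a v < 0 then false else xor β (b v)

private lemma cb_pos {V : Type*} (a : V → ℝ) (b : V → Bool) (β : Bool) (v : V) (h : 0 < a v) :
    cb a b β v = true := by
  unfold cb
  rw [if_pos h]

private lemma cb_neg {V : Type*} (a : V → ℝ) (b : V → Bool) (β : Bool) (v : V) (h : a v < 0) :
    cb a b β v = false := by
  unfold cb
  rw [if_neg (not_lt.2 h.le), if_pos h]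

private lemma cb_zero {V : Type*} (a : V → ℝ) (b : V → Bool) (β : Bool) (v : V) (h : a v = 0) :
    cb a b β v = xor β (b v) := by
  unfold cb
  rw [if_neg (by rw [h]; exact lt_irrefl _), if_neg (by rw [h]; exact lt_irrefl _)]

private lemma cb_opp {V : Type*} (a : V → ℝ) (b : V → Bool) (β : Bool) (u v : V) (ρ : ℝ)
    (hρ : 0 < ρ) (h : a u = -ρ * a v) (hb : b u ≠ b v) : cb a b β u ≠ cb a b β v := by
  rcases lt_trichotomy (a v) 0 with h1 | h1 | h1
  · have h2 : 0 < a u := by rw [h]; nlinarith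
    rw [cb_pos a b β u h2, cb_neg a b β v h1]
    decide
  · have h2 : a u = 0 := by rw [h, h1]; ring
    rw [cb_zero a b β u h2, cb_zero a b β v h1]
    intro h3
    apply hb
    cases β <;> simpa using h3
  · have h2 : a u < 0 := by rw [h]; nlinarith
    rw [cb_neg a b β u h2, cb_pos a b β v h1]
    decide

/-- if the colourings differ for both `β` then both values are zero or none is -/
private lemma cb_iff {V : Type*} (a : V → ℝ) (b : V → Bool) (u v : V)
    (h : ∀ β, cb a b β u ≠ cb a b β v) (hu : a u = 0) : a v = 0 := by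
  by_contra hv
  have e1 := cb_zero a b true u hu
  have e2 := cb_zero a b false u hu
  have h1 := h true
  have h2 := h false
  rw [e1] at h1
  rw [e2] at h2
  rcases lt_or_gt_of_ne hv with h3 | h3
  · rw [cb_neg a b _ v h3] at h1 h2
    cases hb : b u <;> rw [hb] at h1 h2 <;> simp at h1 h2
  · rw [cb_pos a b _ v h3] at h1 h2
    cases hb : b u <;> rw [hb] at h1 h2 <;> simp at h1 h2

theorem SIGNF (k : ι → ℕ) (hk : ∀ i, 1 ≤ k i) (τ : Vx k → Vx k) (hτ : ∀ v, τ (τ v) = v)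
    (hτ1 : ∀ v, τ v ≠ v) (s : ∀ i, ZMod (2 * k i + 1)) (l l' : ι) (a : Vx k → ℝ)
    (ha1 : ∀ v, ∃ ρ : ℝ, 0 < ρ ∧ a (τ v) = -ρ * a v)
    (ha2 : ∀ v, nuH s v ≠ v → v ≠ ⟨l, s l + 1⟩ → v ≠ ⟨l, s l + 2⟩ → a (nuH s v) = -a v)
    (hO : TypeO k τ s l l') :
    (a ⟨l, s l⟩ = 0 ↔ a ⟨l, s l + 2⟩ = 0) ∧ a ⟨l, s l⟩ * a ⟨l, s l + 2⟩ ≤ 0 ∧
      (a ⟨l, s l + 1⟩ = 0 ↔ a ⟨l', s l'⟩ = 0) := by
  obtain ⟨b, hb, -⟩ := W0_ex1 k hk τ hτ hτ1 s l
  have hW : ∀ β, W0 k τ s l (cb a b β) := by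
    intro β
    refine ⟨fun v => ?_, fun v h1 h2 h3 => ?_⟩
    · obtain ⟨ρ, hρ, h⟩ := ha1 v
      exact cb_opp a b β (τ v) v ρ hρ h (hb.1 v)
    · have h := ha2 v h1 h2 h3
      exact cb_opp a b β (nuH s v) v 1 one_pos (by rw [h]; ring) (hb.2 v h1 h2 h3)
  have h1 : ∀ β, cb a b β ⟨l, s l⟩ ≠ cb a b β ⟨l, s l + 2⟩ := fun β => (hO _ (hW β)).1
  have h2 : ∀ β, cb a b β ⟨l, s l + 1⟩ ≠ cb a b β ⟨l', s l'⟩ := fun β => (hO _ (hW β)).2
  refine ⟨⟨cb_iff a b _ _ h1, cb_iff a b _ _ (fun β => (h1 β).symm)⟩, ?_,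
    ⟨cb_iff a b _ _ h2, cb_iff a b _ _ (fun β => (h2 β).symm)⟩⟩
  have h3 := h1 true
  rcases lt_trichotomy (a ⟨l, s l⟩) 0 with h4 | h4 | h4
  · rcases lt_or_ge (a ⟨l, s l + 2⟩) 0 with h5 | h5
    · rw [cb_neg a b _ _ h4, cb_neg a b _ _ h5] at h3
      exact absurd rfl h3
    · exact mul_nonpos_of_nonpos_of_nonneg h4.le h5
  · rw [h4, zero_mul]
  · rcases lt_or_ge 0 (a ⟨l, s l + 2⟩) with h5 | h5
    · rw [cb_pos a b _ _ h4, cb_pos a b _ _ h5] at h3
      exact absurd rfl h3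
    · exact mul_nonpos_of_nonneg_of_nonpos h4.le h5

end Pool.Agent.TWB
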