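import Pool.Agent.TWB.T3MD
import Pool.Agent.TWB.T3M2

/-!
T3M3.  The sign of the determinant of a cell under a move of type O.

MOVE1.  `x = ⟨i, s i⟩`, `y = ⟨i, s i + 1⟩`, `z = ⟨i, s i + 2⟩`, `k i = κ + 1`, `A = MMat k i j w s`.  For
row vectors `p`, `q` let `[p, q]` be the determinant of `A` with the row `inl ()` replaced by `p` and the
row `inr (inl 0)` replaced by `q` (`Matrix.updateRow` twice).  `det A = [w x, w y + w z]`.
The matrix of `up s i` has the row `inl () = w z`, the rows `inr (inl t)`, `t < κ`, equal to the rows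
`inr (inl (t + 1))` of `A` and the row `inr (inl κ) = w x + w y`
(`s i + 3 + 2 κ = s i`, `s i + 4 + 2 κ = s i + 1` as `2 κ + 3 = 0` in `ZMod (2 k i + 1)`), and the
rows `inr (inr t)` of `A`.  So it is the matrix with determinant `[w z, w x + w y]` with rows permuted
by `finRotate (κ + 1)` on `Fin (κ + 1)` (`sign_finRotate`: sign `(-1)^κ`, `Matrix.det_permute'`,
`Equiv.Perm.sign_sumCongr`): `det (MMat (up s i)) = (-1)^κ [w z, w x + w y]`.
For fixed `q` the function `a v = [w v, q]` satisfies the hypotheses of `SIGNF` (`l = i`, `l' = j`):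
`ha1` by linearity in the row (`Matrix.det_updateRow_smul`), `ha2`: for a vertex `v ≠ x, y, z, ⟨j, s j⟩`
`w v + w (nuH s v)` is one of the rows of `A` other than `inl ()`, `inr (inl 0)` (write
`v = s i + 1 + 2 t` or `s i + 2 + 2 t`, `nuZ_cover` with `2 p + 1 = s i`), so
`a v + a (nuH s v) = [w v + w (nuH s v), q] = 0` (two equal rows).
With `q = w z`: `a z = 0`, so `a x = 0`: `[w x, w z] = 0`, and `[w z, w x] = - [w x, w z] = 0`.
With `q = w y`: `a x * a z ≤ 0`.  `det A = [w x, w y] + [w x, w z] = a x` and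
`[w z, w x + w y] = [w z, w x] + [w z, w y] = a z`.  As both determinants are not `0`,
`det A * [w z, w x + w y] < 0` and `(-1)^(κ+1) * det A * (-1)^κ * [w z, w x + w y] > 0`.

MOVE2.  `x = ⟨j, s j⟩`, `y = ⟨j, s j + 1⟩`, `z = ⟨j, s j + 2⟩`, `e = ⟨i, s i⟩`, `k j = κ + 1`.  Let `a v` be
the determinant of `A` with the row `inr (inr 0)` replaced by `w v`.  As before
`det (MMat (up s j)) = (-1)^κ * (a x + a y)` and `det A = a y + a z`, `SIGNF` (`l = j`, `l' = i`) applies to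
`a`, and `a e = 0` (equal to the row `inl ()`), so `a y = 0`, `det A = a z`,
`det (MMat (up s j)) = (-1)^κ a x`, `a x * a z ≤ 0`; both determinants are not `0`.
-/

set_option autoImplicit false

namespace Pool.Agent.TWB

variable {ι : Type*} [Fintype ι] [DecidableEq ι]

private theorem m3_rot {n : ℕ} (t : Fin n) :
    ((finRotate n t : Fin n) : ℕ) = if (t : ℕ) + 1 = n then 0 else (t : ℕ) + 1 := by
  cases n with
  | zero => exact t.elim0
  | succ n =>
    rw [coe_finRotate]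
    by_cases h : t = Fin.last n
    · rw [if_pos h, if_pos (by rw [h, Fin.val_last])]
    · rw [if_neg h, if_neg]
      intro h'
      exact h (Fin.ext (by rw [Fin.val_last]; omega))

private theorem m3_sign {n κ : ℕ} (h : n = κ + 1) :
    Equiv.Perm.sign (finRotate n) = (-1) ^ κ := by
  subst h
  have h := sign_finRotate (κ + 1)
  rwa [Nat.add_sub_cancel] at h

private theorem m3_nu {K : ℕ} (s u : ZMod (2 * K + 1)) (h : nuZ s u ≠ u) :
    ∃ t : ℕ, t < K ∧
      ((u = s + 1 + 2 * (t : ZMod (2 * K + 1)) ∧ nuZ s u = s + 2 + 2 * (t : ZMod (2 * K + 1))) ∨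
      (u = s + 2 + 2 * (t : ZMod (2 * K + 1)) ∧
        nuZ s u = s + 1 + 2 * (t : ZMod (2 * K + 1)))) := by
  obtain ⟨r, hr⟩ : ∃ r, r = (u - s).val := ⟨_, rfl⟩
  have hu : u = s + (r : ZMod (2 * K + 1)) := by
    rw [hr, ZMod.natCast_zmod_val]
    ring
  have hlt : r < 2 * K + 1 := by
    rw [hr]
    exact ZMod.val_lt _
  have hn : nuZ s u = if r = 0 then u else if r % 2 = 1 then u + 1 else u - 1 := by
    unfold nuZ
    rw [← hr]
  rw [hn] at h ⊢
  by_cases h0 : r = 0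
  · rw [if_pos h0] at h
    exact absurd rfl h
  · rcases Nat.mod_two_eq_zero_or_one r with h1 | h1
    · obtain ⟨t, ht⟩ : ∃ t, r = 2 + 2 * t := ⟨r / 2 - 1, by omega⟩
      have e : (r : ZMod (2 * K + 1)) = 2 + 2 * (t : ZMod (2 * K + 1)) := by
        rw [ht]
        push_cast
        ring
      rw [if_neg h0, if_neg (by omega)]
      refine ⟨t, by omega, Or.inr ⟨?_, ?_⟩⟩
      · rw [hu, e]
        ring
      · rw [hu, e]
        ring
    · obtain ⟨t, ht⟩ : ∃ t, r = 1 + 2 * t := ⟨r / 2, by omega⟩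
      have e : (r : ZMod (2 * K + 1)) = 1 + 2 * (t : ZMod (2 * K + 1)) := by
        rw [ht]
        push_cast
        ring
      rw [if_neg h0, if_pos h1]
      refine ⟨t, by omega, Or.inl ⟨?_, ?_⟩⟩
      · rw [hu, e]
        ring
      · rw [hu, e]
        ring

omit [Fintype ι] [DecidableEq ι] in
private theorem m3_row (k : ι → ℕ) (i j : ι) (hall : ∀ l, l = i ∨ l = j)
    (w : Vx k → JJ k i j → ℝ) (s : ∀ i, ZMod (2 * k i + 1)) (v : Vx k) (hv : nuH s v ≠ v) :
    (∃ t : Fin (k i), rowv k i j w s (Sum.inr (Sum.inl t)) = w v + w (nuH s v) ∧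
      ((t : ℕ) = 0 → v = ⟨i, s i + 1⟩ ∨ v = ⟨i, s i + 2⟩)) ∨
    (∃ t : Fin (k j), rowv k i j w s (Sum.inr (Sum.inr t)) = w v + w (nuH s v) ∧
      ((t : ℕ) = 0 → v = ⟨j, s j + 1⟩ ∨ v = ⟨j, s j + 2⟩)) := by
  obtain ⟨l, u⟩ := v
  have hv' : nuZ (s l) u ≠ u := by
    intro h
    apply hv
    change (⟨l, nuZ (s l) u⟩ : Vx k) = ⟨l, u⟩
    rw [h]
  obtain ⟨t, ht, hh⟩ := m3_nu (s l) u hv'
  rcases hall l with rfl | rfl
  · left
    refine ⟨⟨t, ht⟩, ?_, ?_⟩
    · change w ⟨l, s l + 1 + 2 * (t : ZMod (2 * k l + 1))⟩ +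
        w ⟨l, s l + 2 + 2 * (t : ZMod (2 * k l + 1))⟩ = w ⟨l, u⟩ + w ⟨l, nuZ (s l) u⟩
      rcases hh with ⟨h1, h2⟩ | ⟨h1, h2⟩
      · rw [h2, ← h1]
      · rw [h2, ← h1, add_comm]
    · intro h0
      have h0' : t = 0 := h0
      subst h0'
      rw [Nat.cast_zero, mul_zero, add_zero, add_zero] at hh
      rcases hh with ⟨h1, _⟩ | ⟨h1, _⟩
      · left
        rw [h1]
      · right
        rw [h1]
  · right
    refine ⟨⟨t, ht⟩, ?_, ?_⟩
    · change w ⟨l, s l + 1 + 2 * (t : ZMod (2 * k l + 1))⟩ +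
        w ⟨l, s l + 2 + 2 * (t : ZMod (2 * k l + 1))⟩ = w ⟨l, u⟩ + w ⟨l, nuZ (s l) u⟩
      rcases hh with ⟨h1, h2⟩ | ⟨h1, h2⟩
      · rw [h2, ← h1]
      · rw [h2, ← h1, add_comm]
    · intro h0
      have h0' : t = 0 := h0
      subst h0'
      rw [Nat.cast_zero, mul_zero, add_zero, add_zero] at hh
      rcases hh with ⟨h1, _⟩ | ⟨h1, _⟩
      · left
        rw [h1]
      · right
        rw [h1]

/-- the determinant as a function of the rows -/
private noncomputable def m3D {J : Type} [Fintype J] [DecidableEq J] (R : J → J → ℝ) : ℝ :=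
  Matrix.detRowAlternating R

private theorem m3D_add {J : Type} [Fintype J] [DecidableEq J] (R : J → J → ℝ) (ρ : J)
    (p q : J → ℝ) : m3D (Function.update R ρ (p + q)) =
      m3D (Function.update R ρ p) + m3D (Function.update R ρ q) :=
  Matrix.detRowAlternating.map_update_add R ρ p q

private theorem m3D_smul {J : Type} [Fintype J] [DecidableEq J] (R : J → J → ℝ) (ρ : J)
    (c : ℝ) (p : J → ℝ) : m3D (Function.update R ρ (c • p)) =
      c * m3D (Function.update R ρ p) :=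
  Matrix.detRowAlternating.map_update_smul R ρ c p

private theorem m3D_eq {J : Type} [Fintype J] [DecidableEq J] (R : J → J → ℝ) {ρ σ : J}
    (h : ρ ≠ σ) (hR : R ρ = R σ) : m3D R = 0 :=
  Matrix.detRowAlternating.map_eq_zero_of_eq R hR h

private theorem m3D_perm {J : Type} [Fintype J] [DecidableEq J] (R : J → J → ℝ)
    (π : Equiv.Perm J) : m3D (fun ρ => R (π ρ)) = ((Equiv.Perm.sign π : ℤ) : ℝ) * m3D R := by
  have h := Matrix.detRowAlternating.map_perm R π
  rw [Units.smul_def, zsmul_eq_mul] at h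
  exact h

private theorem m3_signf (k : ι → ℕ) (hk : ∀ i, 1 ≤ k i) (τ : Vx k → Vx k)
    (hτ : ∀ v, τ (τ v) = v) (hτ1 : ∀ v, τ v ≠ v) (s : ∀ i, ZMod (2 * k i + 1)) (l l' : ι)
    {J : Type} [Fintype J] [DecidableEq J] (w : Vx k → J → ℝ)
    (hw : ∀ v, ∃ ρ : ℝ, 0 < ρ ∧ ∀ c, w (τ v) c = -ρ * w v c) (R : J → J → ℝ) (ρ₀ : J)
    (hrow : ∀ v, nuH s v ≠ v → v ≠ ⟨l, s l + 1⟩ → v ≠ ⟨l, s l + 2⟩ →
      ∃ ρ, ρ ≠ ρ₀ ∧ R ρ = w v + w (nuH s v)) (hO : TypeO k τ s l l') :
    (m3D (Function.update R ρ₀ (w ⟨l, s l⟩)) = 0 ↔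
      m3D (Function.update R ρ₀ (w ⟨l, s l + 2⟩)) = 0) ∧
    m3D (Function.update R ρ₀ (w ⟨l, s l⟩)) * m3D (Function.update R ρ₀ (w ⟨l, s l + 2⟩)) ≤ 0 ∧
    (m3D (Function.update R ρ₀ (w ⟨l, s l + 1⟩)) = 0 ↔
      m3D (Function.update R ρ₀ (w ⟨l', s l'⟩)) = 0) := by
  refine SIGNF k hk τ hτ hτ1 s l l' (fun v => m3D (Function.update R ρ₀ (w v))) ?_ ?_ hO
  · intro v
    obtain ⟨ρ, h1, h2⟩ := hw v
    refine ⟨ρ, h1, ?_⟩
    have h3 : w (τ v) = (-ρ) • w v := by
      funext c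
      rw [Pi.smul_apply, smul_eq_mul]
      exact h2 c
    change m3D (Function.update R ρ₀ (w (τ v))) = -ρ * m3D (Function.update R ρ₀ (w v))
    rw [h3, m3D_smul]
  · intro v h1 h2 h3
    obtain ⟨ρ, h4, h5⟩ := hrow v h1 h2 h3
    have h6 : m3D (Function.update R ρ₀ (w v + w (nuH s v))) = 0 := by
      refine m3D_eq _ h4 ?_
      rw [Function.update_of_ne h4, Function.update_self]
      exact h5
    rw [m3D_add] at h6
    linarith

private theorem m3_fin {a x z d : ℝ} {κ n : ℕ} (hn : n = κ + 1) (ha : a = x)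
    (hd : d = (-1) ^ κ * z) (h : x * z ≤ 0) (ha0 : a ≠ 0) (hd0 : d ≠ 0) :
    0 < (-1 : ℝ) ^ n * a * d := by
  have hz0 : z ≠ 0 := by
    intro h0
    rw [h0, mul_zero] at hd
    exact hd0 hd
  have h1 : x * z < 0 := by
    refine lt_of_le_of_ne h (mul_ne_zero ?_ hz0)
    rw [← ha]
    exact ha0
  have h2 : ((-1 : ℝ) ^ κ) * (-1) ^ κ = 1 := by
    rw [← mul_pow]
    norm_num
  have h3 : (-1 : ℝ) ^ n * a * d = -(x * z) := by
    rw [hn, ha, hd, pow_succ]
    calc (-1 : ℝ) ^ κ * -1 * x * ((-1) ^ κ * z) = ((-1 : ℝ) ^ κ * (-1) ^ κ) * (-(x * z)) := by ring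
      _ = -(x * z) := by rw [h2, one_mul]
  rw [h3]
  linarith

theorem MOVE1 (k : ι → ℕ) (hk : ∀ i, 1 ≤ k i) (τ : Vx k → Vx k) (hτ : ∀ v, τ (τ v) = v)
    (hτ1 : ∀ v, τ v ≠ v) (i j : ι) (hij : i ≠ j) (hall : ∀ l, l = i ∨ l = j)
    (w : Vx k → JJ k i j → ℝ)
    (hw : ∀ v, ∃ ρ : ℝ, 0 < ρ ∧ ∀ c, w (τ v) c = -ρ * w v c)
    (s : ∀ i, ZMod (2 * k i + 1)) (hD : (MMat k i j w s).det ≠ 0)
    (hD' : (MMat k i j w (up s i)).det ≠ 0) (hO : TypeO k τ s i j) :
    0 < (-1 : ℝ) ^ (k i) * (MMat k i j w s).det * (MMat k i j w (up s i)).det := by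
  obtain ⟨κ, hκ⟩ : ∃ κ, k i = κ + 1 := ⟨k i - 1, by have := hk i; omega⟩
  have ht0 : 0 < k i := by omega
  set t0 : Fin (k i) := ⟨0, ht0⟩ with ht0'
  set ρ0 : JJ k i j := Sum.inl () with hρ0
  set ρ1 : JJ k i j := Sum.inr (Sum.inl t0) with hρ1
  have h01 : ρ0 ≠ ρ1 := Sum.inl_ne_inr
  set R := rowv k i j w s with hR
  have r1 : R ρ1 = w ⟨i, s i + 1⟩ + w ⟨i, s i + 2⟩ := by
    change w ⟨i, s i + 1 + 2 * ((0 : ℕ) : ZMod (2 * k i + 1))⟩ +
      w ⟨i, s i + 2 + 2 * ((0 : ℕ) : ZMod (2 * k i + 1))⟩ = _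
    rw [Nat.cast_zero, mul_zero, add_zero, add_zero]
  have r0 : R ρ0 = w ⟨i, s i⟩ := rfl
  -- the signs
  have key : ∀ q : JJ k i j → ℝ, _ := fun q =>
    m3_signf k hk τ hτ hτ1 s i j w hw (Function.update R ρ1 q) ρ0 (by
      intro v h1 h2 h3
      rcases m3_row k i j hall w s v h1 with ⟨t, h4, h5⟩ | ⟨t, h4, h5⟩
      · have ht : t ≠ t0 := by
          intro h
          rcases h5 (by rw [h]) with h6 | h6
          · exact h2 h6
          · exact h3 h6
        refine ⟨Sum.inr (Sum.inl t), Sum.inr_ne_inl, ?_⟩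
        rw [Function.update_of_ne, hR, h4]
        intro h
        exact ht (Sum.inl_injective (Sum.inr_injective h))
      · refine ⟨Sum.inr (Sum.inr t), Sum.inr_ne_inl, ?_⟩
        rw [Function.update_of_ne, hR, h4]
        intro h
        exact Sum.inr_ne_inl (Sum.inr_injective h)) hO
  have add2 : ∀ p q q' : JJ k i j → ℝ,
      m3D (Function.update (Function.update R ρ1 (q + q')) ρ0 p) =
        m3D (Function.update (Function.update R ρ1 q) ρ0 p) +
          m3D (Function.update (Function.update R ρ1 q') ρ0 p) := by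
    intro p q q'
    rw [Function.update_comm h01.symm, Function.update_comm h01.symm,
      Function.update_comm h01.symm]
    exact m3D_add _ _ _ _
  have alt : ∀ p : JJ k i j → ℝ, m3D (Function.update (Function.update R ρ1 p) ρ0 p) = 0 := by
    intro p
    refine m3D_eq _ h01 ?_
    rw [Function.update_self, Function.update_of_ne h01.symm, Function.update_self]
  have anti : ∀ p q : JJ k i j → ℝ, m3D (Function.update (Function.update R ρ1 p) ρ0 q) =
      - m3D (Function.update (Function.update R ρ1 q) ρ0 p) := by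
    intro p q
    have h1 := alt (p + q)
    rw [m3D_add, add2, add2, alt, alt] at h1
    linarith
  have e1 : (MMat k i j w s).det =
      m3D (Function.update (Function.update R ρ1 (w ⟨i, s i + 1⟩ + w ⟨i, s i + 2⟩)) ρ0
        (w ⟨i, s i⟩)) := by
    rw [← r1, Function.update_eq_self, ← r0, Function.update_eq_self]
    rfl
  have e2 : (MMat k i j w (up s i)).det = (-1) ^ κ *
      m3D (Function.update (Function.update R ρ1 (w ⟨i, s i⟩ + w ⟨i, s i + 1⟩)) ρ0
        (w ⟨i, s i + 2⟩)) := by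
    have h1 := m3D_perm (Function.update (Function.update R ρ1 (w ⟨i, s i⟩ + w ⟨i, s i + 1⟩)) ρ0
        (w ⟨i, s i + 2⟩)) (Equiv.Perm.sumCongr (1 : Equiv.Perm Unit)
          (Equiv.Perm.sumCongr (finRotate (k i)) (1 : Equiv.Perm (Fin (k j)))))
    rw [Equiv.Perm.sign_sumCongr, Equiv.Perm.sign_sumCongr, m3_sign hκ, Equiv.Perm.sign_one,
      Equiv.Perm.sign_one, one_mul, mul_one] at h1
    push_cast at h1
    rw [← h1]
    change m3D (rowv k i j w (up s i)) = _
    congr 1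
    funext ρ
    have hup : up s i i = s i + 2 := Function.update_self _ _ _
    have hupj : up s i j = s j := Function.update_of_ne (Ne.symm hij) _ _
    rcases ρ with u | t | t
    · change w ⟨i, up s i i⟩ = Function.update (Function.update R ρ1 _) ρ0 _ ρ0
      rw [Function.update_self, hup]
    · change w ⟨i, up s i i + 1 + 2 * ((t : ℕ) : ZMod (2 * k i + 1))⟩ +
        w ⟨i, up s i i + 2 + 2 * ((t : ℕ) : ZMod (2 * k i + 1))⟩ =
          Function.update (Function.update R ρ1 _) ρ0 _ (Sum.inr (Sum.inl (finRotate (k i) t)))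
      rw [Function.update_of_ne Sum.inr_ne_inl, hup]
      have hrot := m3_rot t
      by_cases ht : (t : ℕ) + 1 = k i
      · rw [if_pos ht] at hrot
        have h2 : finRotate (k i) t = t0 := Fin.ext hrot
        rw [h2, Function.update_self]
        have h3 : (2 : ZMod (2 * k i + 1)) * (((t : ℕ) : ZMod (2 * k i + 1)) + 1) + 1 = 0 := by
          have h4 : (((2 * k i + 1 : ℕ)) : ZMod (2 * k i + 1)) = 0 := ZMod.natCast_self _
          rw [← h4]
          have h5 : ((((t : ℕ) + 1 : ℕ)) : ZMod (2 * k i + 1)) = ((k i : ℕ) : ZMod (2 * k i + 1)) := by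
            rw [ht]
          push_cast at h5 ⊢
          rw [h5]
        have h4 : s i + 2 + 1 + 2 * ((t : ℕ) : ZMod (2 * k i + 1)) = s i := by
          linear_combination h3
        have h5 : s i + 2 + 2 + 2 * ((t : ℕ) : ZMod (2 * k i + 1)) = s i + 1 := by
          linear_combination h3
        rw [h4, h5]
      · rw [if_neg ht] at hrot
        have h2 : finRotate (k i) t ≠ t0 := by
          intro h
          rw [h] at hrot
          have : (0 : ℕ) = (t : ℕ) + 1 := hrot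
          omega
        rw [Function.update_of_ne (fun h => h2 (Sum.inl_injective (Sum.inr_injective h)))]
        change _ = w ⟨i, s i + 1 + 2 * (((finRotate (k i) t : Fin (k i)) : ℕ) :
            ZMod (2 * k i + 1))⟩ +
          w ⟨i, s i + 2 + 2 * (((finRotate (k i) t : Fin (k i)) : ℕ) : ZMod (2 * k i + 1))⟩
        rw [hrot]
        have h4 : s i + 2 + 1 + 2 * ((t : ℕ) : ZMod (2 * k i + 1)) =
            s i + 1 + 2 * (((t : ℕ) + 1 : ℕ) : ZMod (2 * k i + 1)) := by
          push_cast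
          ring
        have h5 : s i + 2 + 2 + 2 * ((t : ℕ) : ZMod (2 * k i + 1)) =
            s i + 2 + 2 * (((t : ℕ) + 1 : ℕ) : ZMod (2 * k i + 1)) := by
          push_cast
          ring
        rw [h4, h5]
    · change w ⟨j, up s i j + 1 + 2 * ((t : ℕ) : ZMod (2 * k j + 1))⟩ +
        w ⟨j, up s i j + 2 + 2 * ((t : ℕ) : ZMod (2 * k j + 1))⟩ =
          Function.update (Function.update R ρ1 _) ρ0 _ (Sum.inr (Sum.inr t))
      rw [Function.update_of_ne Sum.inr_ne_inl, hupj, Function.update_of_ne]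
      · rfl
      · intro h
        exact Sum.inr_ne_inl (Sum.inr_injective h)
  -- `[w x, w z] = 0`
  have z1 : m3D (Function.update (Function.update R ρ1 (w ⟨i, s i + 2⟩)) ρ0 (w ⟨i, s i⟩)) = 0 :=
    (key (w ⟨i, s i + 2⟩)).1.2 (alt _)
  have z2 := (key (w ⟨i, s i + 1⟩)).2.1
  rw [add2, z1, add_zero] at e1
  rw [add2, anti (w ⟨i, s i⟩) (w ⟨i, s i + 2⟩), z1, neg_zero, zero_add] at e2
  exact m3_fin hκ e1 e2 z2 hD hD'

theorem MOVE2 (k : ι → ℕ) (hk : ∀ i, 1 ≤ k i) (τ : Vx k → Vx k) (hτ : ∀ v, τ (τ v) = v)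
    (hτ1 : ∀ v, τ v ≠ v) (i j : ι) (hij : i ≠ j) (hall : ∀ l, l = i ∨ l = j)
    (w : Vx k → JJ k i j → ℝ)
    (hw : ∀ v, ∃ ρ : ℝ, 0 < ρ ∧ ∀ c, w (τ v) c = -ρ * w v c)
    (s : ∀ i, ZMod (2 * k i + 1)) (hD : (MMat k i j w s).det ≠ 0)
    (hD' : (MMat k i j w (up s j)).det ≠ 0) (hO : TypeO k τ s j i) :
    0 < (-1 : ℝ) ^ (k j) * (MMat k i j w s).det * (MMat k i j w (up s j)).det := by
  obtain ⟨κ, hκ⟩ : ∃ κ, k j = κ + 1 := ⟨k j - 1, by have := hk j; omega⟩
  have ht0 : 0 < k j := by omega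
  set t0 : Fin (k j) := ⟨0, ht0⟩ with ht0'
  set ρ1 : JJ k i j := Sum.inr (Sum.inr t0) with hρ1
  set R := rowv k i j w s with hR
  have r1 : R ρ1 = w ⟨j, s j + 1⟩ + w ⟨j, s j + 2⟩ := by
    change w ⟨j, s j + 1 + 2 * ((0 : ℕ) : ZMod (2 * k j + 1))⟩ +
      w ⟨j, s j + 2 + 2 * ((0 : ℕ) : ZMod (2 * k j + 1))⟩ = _
    rw [Nat.cast_zero, mul_zero, add_zero, add_zero]
  -- the signs
  have key := m3_signf k hk τ hτ hτ1 s j i w hw R ρ1 (by
      intro v h1 h2 h3
      rcases m3_row k i j hall w s v h1 with ⟨t, h4, h5⟩ | ⟨t, h4, h5⟩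
      · refine ⟨Sum.inr (Sum.inl t), ?_, h4⟩
        intro h
        exact Sum.inl_ne_inr (Sum.inr_injective h)
      · refine ⟨Sum.inr (Sum.inr t), ?_, h4⟩
        intro h
        have h6 : t = t0 := Sum.inr_injective (Sum.inr_injective h)
        rcases h5 (by rw [h6]) with h7 | h7
        · exact h2 h7
        · exact h3 h7) hO
  have e1 : (MMat k i j w s).det =
      m3D (Function.update R ρ1 (w ⟨j, s j + 1⟩ + w ⟨j, s j + 2⟩)) := by
    rw [← r1, Function.update_eq_self]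
    rfl
  have e2 : (MMat k i j w (up s j)).det = (-1) ^ κ *
      m3D (Function.update R ρ1 (w ⟨j, s j⟩ + w ⟨j, s j + 1⟩)) := by
    have h1 := m3D_perm (Function.update R ρ1 (w ⟨j, s j⟩ + w ⟨j, s j + 1⟩))
        (Equiv.Perm.sumCongr (1 : Equiv.Perm Unit)
          (Equiv.Perm.sumCongr (1 : Equiv.Perm (Fin (k i))) (finRotate (k j))))
    rw [Equiv.Perm.sign_sumCongr, Equiv.Perm.sign_sumCongr, m3_sign hκ, Equiv.Perm.sign_one,
      Equiv.Perm.sign_one, one_mul, one_mul] at h1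
    push_cast at h1
    rw [← h1]
    change m3D (rowv k i j w (up s j)) = _
    congr 1
    funext ρ
    have hup : up s j j = s j + 2 := Function.update_self _ _ _
    have hupi : up s j i = s i := Function.update_of_ne hij _ _
    rcases ρ with u | t | t
    · change w ⟨i, up s j i⟩ = Function.update R ρ1 _ (Sum.inl _)
      rw [Function.update_of_ne Sum.inl_ne_inr, hupi]
      rfl
    · change w ⟨i, up s j i + 1 + 2 * ((t : ℕ) : ZMod (2 * k i + 1))⟩ +
        w ⟨i, up s j i + 2 + 2 * ((t : ℕ) : ZMod (2 * k i + 1))⟩ =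
          Function.update R ρ1 _ (Sum.inr (Sum.inl t))
      rw [hupi, Function.update_of_ne]
      · rfl
      · intro h
        exact Sum.inl_ne_inr (Sum.inr_injective h)
    · change w ⟨j, up s j j + 1 + 2 * ((t : ℕ) : ZMod (2 * k j + 1))⟩ +
        w ⟨j, up s j j + 2 + 2 * ((t : ℕ) : ZMod (2 * k j + 1))⟩ =
          Function.update R ρ1 _ (Sum.inr (Sum.inr (finRotate (k j) t)))
      rw [hup]
      have hrot := m3_rot t
      by_cases ht : (t : ℕ) + 1 = k j
      · rw [if_pos ht] at hrot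
        have h2 : finRotate (k j) t = t0 := Fin.ext hrot
        rw [h2, Function.update_self]
        have h3 : (2 : ZMod (2 * k j + 1)) * (((t : ℕ) : ZMod (2 * k j + 1)) + 1) + 1 = 0 := by
          have h4 : (((2 * k j + 1 : ℕ)) : ZMod (2 * k j + 1)) = 0 := ZMod.natCast_self _
          rw [← h4]
          have h5 : ((((t : ℕ) + 1 : ℕ)) : ZMod (2 * k j + 1)) = ((k j : ℕ) : ZMod (2 * k j + 1)) := by
            rw [ht]
          push_cast at h5 ⊢
          rw [h5]
        have h4 : s j + 2 + 1 + 2 * ((t : ℕ) : ZMod (2 * k j + 1)) = s j := by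
          linear_combination h3
        have h5 : s j + 2 + 2 + 2 * ((t : ℕ) : ZMod (2 * k j + 1)) = s j + 1 := by
          linear_combination h3
        rw [h4, h5]
      · rw [if_neg ht] at hrot
        have h2 : finRotate (k j) t ≠ t0 := by
          intro h
          rw [h] at hrot
          have : (0 : ℕ) = (t : ℕ) + 1 := hrot
          omega
        rw [Function.update_of_ne (fun h => h2 (Sum.inr_injective (Sum.inr_injective h)))]
        change _ = w ⟨j, s j + 1 + 2 * (((finRotate (k j) t : Fin (k j)) : ℕ) :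
            ZMod (2 * k j + 1))⟩ +
          w ⟨j, s j + 2 + 2 * (((finRotate (k j) t : Fin (k j)) : ℕ) : ZMod (2 * k j + 1))⟩
        rw [hrot]
        have h4 : s j + 2 + 1 + 2 * ((t : ℕ) : ZMod (2 * k j + 1)) =
            s j + 1 + 2 * (((t : ℕ) + 1 : ℕ) : ZMod (2 * k j + 1)) := by
          push_cast
          ring
        have h5 : s j + 2 + 2 + 2 * ((t : ℕ) : ZMod (2 * k j + 1)) =
            s j + 2 + 2 * (((t : ℕ) + 1 : ℕ) : ZMod (2 * k j + 1)) := by
          push_cast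
          ring
        rw [h4, h5]
  have z0 : m3D (Function.update R ρ1 (w ⟨i, s i⟩)) = 0 := by
    refine m3D_eq (ρ := ρ1) (σ := Sum.inl ()) _ Sum.inr_ne_inl ?_
    rw [Function.update_self, Function.update_of_ne Sum.inl_ne_inr]
    rfl
  have z1 := key.2.2.2 z0
  rw [m3D_add, z1, zero_add] at e1
  rw [m3D_add, z1, add_zero] at e2
  have z2 := key.2.1
  rw [mul_comm] at z2
  exact m3_fin hκ e1 e2 z2 hD hD'

end Pool.Agent.TWB
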