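import Mathlib

/-!
T3T.  The torus lemma.

Proof.  Call `(a, b, L)`, `L ≥ 1`, a flip pair if `M a b`, `M (a + 2 L) b` and
`(-1)^(k₁ * L) * f a b * f (a + 2 L) b < 0`.  For `M a b` the triple `(a, b, 2 k₁ + 1)` is a flip pair:
`2 (2 k₁ + 1) = 0`, `(-1)^(k₁ (2 k₁ + 1)) = -1` (`k₁` odd), `f a b ≠ 0`.  So flip pairs exist
(`h4`); let `L` be the least length of a flip pair (over all `a`, `b`; `Nat.find`), `(a, b, L)` a flip
pair.  `L ≠ 1` by `hh`.  For `0 < l < L` not `M (a + 2 l) b`: otherwise the product of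
`(-1)^(k₁ l) f a b f (a + 2 l) b` and `(-1)^(k₁ (L - l)) f (a + 2 l) b f (a + 2 L) b` is
`(f (a + 2 l) b)^2 * ((-1)^(k₁ L) f a b f (a + 2 L) b) < 0`, so one of them is negative and
`(a, b, l)` or `(a + 2 l, b, L - l)` is a shorter flip pair.  In particular `¬ M (a + 2) b` and
`¬ M (a + 2 L - 2) b`, so by `h3`, `h3'`: `M a (b + 2)` and `M (a + 2 L) (b + 2)`.  By `hv` at `a` and
at `a + 2 L`: `(-1)^k₂ f a b f a (b + 2) > 0` and the same at `a + 2 L`; multiply: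
`f a b * f (a + 2 L) b` and `f a (b + 2) * f (a + 2 L) (b + 2)` have the same sign.  So
`(a, b + 2, L)` is a flip pair (again of the least length).  By induction `(a, b + 2 t, L)` is a flip
pair for all `t : ℕ`, in particular `M a (b + 2 t)`; every element of `ZMod (2 k₂ + 1)` is
`b + 2 t` (`2 (k₂ + 1) = 1`).  This contradicts `h5 a`.
-/

set_option autoImplicit false

namespace Pool.Agent.TWB

theorem TOR (k₁ k₂ : ℕ) (h1 : k₁ % 2 = 1)
    (M : ZMod (2 * k₁ + 1) → ZMod (2 * k₂ + 1) → Prop)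
    (f : ZMod (2 * k₁ + 1) → ZMod (2 * k₂ + 1) → ℝ)
    (hf : ∀ a b, f a b ≠ 0)
    (hh : ∀ a b, M a b → M (a + 2) b → 0 < (-1 : ℝ) ^ k₁ * f a b * f (a + 2) b)
    (hv : ∀ a b, M a b → M a (b + 2) → 0 < (-1 : ℝ) ^ k₂ * f a b * f a (b + 2))
    (h3 : ∀ a b, M a b → ¬ M (a + 2) b → M a (b + 2))
    (h3' : ∀ a b, M a b → ¬ M (a - 2) b → M a (b + 2))
    (h4 : ∃ a b, M a b) (h5 : ∀ a, ∃ b, ¬ M a b) : False := by
  classical
  set FP : ZMod (2 * k₁ + 1) → ZMod (2 * k₂ + 1) → ℕ → Prop := fun a b L =>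
    1 ≤ L ∧ M a b ∧ M (a + 2 * (L : ZMod (2 * k₁ + 1))) b ∧
      (-1 : ℝ) ^ (k₁ * L) * f a b * f (a + 2 * (L : ZMod (2 * k₁ + 1))) b < 0 with hFP
  have hex : ∃ L, ∃ a b, FP a b L := by
    obtain ⟨a, b, hab⟩ := h4
    have e1 : a + 2 * ((2 * k₁ + 1 : ℕ) : ZMod (2 * k₁ + 1)) = a := by
      rw [ZMod.natCast_self, mul_zero, add_zero]
    have e2 : (-1 : ℝ) ^ (k₁ * (2 * k₁ + 1)) = -1 := by
      refine Odd.neg_one_pow ?_
      exact (Nat.odd_iff.2 h1).mul ⟨k₁, rfl⟩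
    refine ⟨2 * k₁ + 1, a, b, by omega, hab, ?_, ?_⟩
    · rw [e1]
      exact hab
    · rw [e1, e2]
      have e3 : 0 < f a b * f a b := mul_self_pos.2 (hf a b)
      linarith
  obtain ⟨a, b, hL1, hMa, hMb, hneg⟩ := Nat.find_spec hex
  set L := Nat.find hex with hL
  have hmin : ∀ l, l < L → ∀ a b, ¬ FP a b l := fun l hl a b h =>
    Nat.find_min hex hl ⟨a, b, h⟩
  have hL2 : 2 ≤ L := by
    rcases Nat.lt_or_ge 1 L with h | h
    · exact h
    · exfalso
      have h2 : L = 1 := le_antisymm h hL1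
      rw [h2, Nat.cast_one, mul_one] at hMb hneg
      rw [mul_one] at hneg
      exact absurd (hh a b hMa hMb) (not_lt.2 hneg.le)
  -- one step
  have step : ∀ b, FP a b L → FP a (b + 2) L := by
    rintro b ⟨-, hMa, hMb, hneg⟩
    have hmid : ∀ l, 1 ≤ l → l < L → ¬ M (a + 2 * (l : ZMod (2 * k₁ + 1))) b := by
      intro l hl1 hl2 hM
      have e1 : a + 2 * (l : ZMod (2 * k₁ + 1)) + 2 * ((L - l : ℕ) : ZMod (2 * k₁ + 1)) =
          a + 2 * (L : ZMod (2 * k₁ + 1)) := by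
        rw [Nat.cast_sub hl2.le]
        ring
      have e2 : (-1 : ℝ) ^ (k₁ * l) * (-1 : ℝ) ^ (k₁ * (L - l)) = (-1 : ℝ) ^ (k₁ * L) := by
        rw [← pow_add, ← mul_add, Nat.add_sub_cancel' hl2.le]
      have hm1 := hmin l hl2 a b
      have hm2 := hmin (L - l) (by omega) (a + 2 * (l : ZMod (2 * k₁ + 1))) b
      have n1 : 0 ≤ (-1 : ℝ) ^ (k₁ * l) * f a b * f (a + 2 * (l : ZMod (2 * k₁ + 1))) b := by
        by_contra hc
        exact hm1 ⟨hl1, hMa, hM, not_le.1 hc⟩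
      have n2 : 0 ≤ (-1 : ℝ) ^ (k₁ * (L - l)) * f (a + 2 * (l : ZMod (2 * k₁ + 1))) b *
          f (a + 2 * (L : ZMod (2 * k₁ + 1))) b := by
        by_contra hc
        refine hm2 ⟨by omega, hM, ?_, ?_⟩
        · rw [e1]
          exact hMb
        · rw [e1]
          exact not_le.1 hc
      have n3 := mul_nonneg n1 n2
      have e3 : (-1 : ℝ) ^ (k₁ * l) * f a b * f (a + 2 * (l : ZMod (2 * k₁ + 1))) b *
          ((-1 : ℝ) ^ (k₁ * (L - l)) * f (a + 2 * (l : ZMod (2 * k₁ + 1))) b *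
          f (a + 2 * (L : ZMod (2 * k₁ + 1))) b) =
          (f (a + 2 * (l : ZMod (2 * k₁ + 1))) b * f (a + 2 * (l : ZMod (2 * k₁ + 1))) b) *
          ((-1 : ℝ) ^ (k₁ * L) * f a b * f (a + 2 * (L : ZMod (2 * k₁ + 1))) b) := by
        rw [← e2]
        ring
      rw [e3] at n3
      have n4 : 0 < f (a + 2 * (l : ZMod (2 * k₁ + 1))) b *
          f (a + 2 * (l : ZMod (2 * k₁ + 1))) b := mul_self_pos.2 (hf _ _)
      exact absurd n3 (not_le.2 (mul_neg_of_pos_of_neg n4 hneg))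
    have m1 : ¬ M (a + 2) b := by
      have := hmid 1 le_rfl (by omega)
      rwa [Nat.cast_one, mul_one] at this
    have m2 : ¬ M (a + 2 * (L : ZMod (2 * k₁ + 1)) - 2) b := by
      have h := hmid (L - 1) (by omega) (by omega)
      rw [Nat.cast_sub hL1, Nat.cast_one] at h
      have e1 : a + 2 * ((L : ZMod (2 * k₁ + 1)) - 1) = a + 2 * (L : ZMod (2 * k₁ + 1)) - 2 := by
        ring
      rwa [e1] at h
    have p1 := h3 a b hMa m1
    have p2 := h3' _ b hMb m2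
    have q1 := hv a b hMa p1
    have q2 := hv _ b hMb p2
    refine ⟨hL1, p1, p2, ?_⟩
    have q3 := mul_pos q1 q2
    have s2 : (-1 : ℝ) ^ k₂ * (-1 : ℝ) ^ k₂ = 1 := by
      rw [← mul_pow]
      norm_num
    have s1 : (-1 : ℝ) ^ (k₁ * L) * (-1 : ℝ) ^ (k₁ * L) = 1 := by
      rw [← mul_pow]
      norm_num
    set x := f a b with hx
    set y := f (a + 2 * (L : ZMod (2 * k₁ + 1))) b with hy
    set x' := f a (b + 2) with hx'
    set y' := f (a + 2 * (L : ZMod (2 * k₁ + 1))) (b + 2) with hy'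
    set u := (-1 : ℝ) ^ (k₁ * L) with hu
    set w := (-1 : ℝ) ^ k₂ with hw
    have q4 : 0 < (u * x * y) * (u * x' * y') := by
      have e1 : (u * x * y) * (u * x' * y') = (u * u) * (x * y * (x' * y')) := by ring
      have e2 : w * x * x' * (w * y * y') = (w * w) * (x * y * (x' * y')) := by ring
      rw [e1, s1]
      rw [e2, s2] at q3
      exact q3
    exact neg_of_mul_pos_right q4 hneg.le
  have hall : ∀ t : ℕ, FP a (b + 2 * (t : ZMod (2 * k₂ + 1))) L := by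
    intro t
    induction t with
    | zero =>
      rw [Nat.cast_zero, mul_zero, add_zero]
      exact ⟨hL1, hMa, hMb, hneg⟩
    | succ t ih =>
      have e1 : b + 2 * ((t + 1 : ℕ) : ZMod (2 * k₂ + 1)) =
          b + 2 * (t : ZMod (2 * k₂ + 1)) + 2 := by
        push_cast
        ring
      rw [e1]
      exact step _ ih
  obtain ⟨c, hc⟩ := h5 a
  apply hc
  have h2 := (hall ((c - b) * ((k₂ : ZMod (2 * k₂ + 1)) + 1)).val).2.1
  rw [ZMod.natCast_zmod_val] at h2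
  have e1 : b + 2 * ((c - b) * ((k₂ : ZMod (2 * k₂ + 1)) + 1)) = c := by
    have e2 : ((2 * k₂ + 1 : ℕ) : ZMod (2 * k₂ + 1)) = 0 := ZMod.natCast_self _
    push_cast at e2
    have e3 : b + 2 * ((c - b) * ((k₂ : ZMod (2 * k₂ + 1)) + 1)) =
        c + (c - b) * (2 * (k₂ : ZMod (2 * k₂ + 1)) + 1) := by ring
    rw [e3, e2, mul_zero, add_zero]
  rw [e1] at h2
  exact h2

end Pool.Agent.TWB
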