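import Pool.Agent.TWB.T3S
import Pool.Agent.TWB.T3T
import Pool.Agent.TWB.T3M1
import Pool.Agent.TWB.T3M3

/-!
T3C.  Two circuits, `τ` without fixed points, `k i` odd: there is a solution.

GOODCELL: let `c` be a colouring with `WW k τ s c` such that for every circuit `l`
`c ⟨l, s l⟩ ≠ c ⟨l, s l + 1⟩` or `c ⟨l, s l⟩ ≠ c ⟨l, s l - 1⟩`.  In the second case let
`p l = (k l + 1) (s l - 1)`, so `2 p l + 1 = s l` (`2 (k l + 1) = 1`): the edges
`{2 (p + t), 2 (p + t) + 1}`, `1 ≤ t ≤ k l`, are the pairs of `nuH s` (`nuZ_edge`; the two ends are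
different because `2 (p+t) + 1 - 2 (p+t) = 1 ≠ 0`), and for `t = 0` it is `{s l - 1, s l}`.  In the first
case let `p l = (k l + 1) (s l + 1)`, `2 p l = s l + 1`: for `t < k l` the edge
`{s l + 1 + 2 t, s l + 2 + 2 t}` is a pair of `nuH s` (`nuZ_edge` for `p' = (k l + 1) (s l - 1)`,
`p' + (t + 1) = p + t`), and for `t = k l` it is `{s l, s l + 1}` (`2 (p + k l) + 1 = 2 p`, `end_eq`).

T3core: suppose there is no solution, so by GOODCELL: (NG) for every `s`, `c` with `WW k τ s c` there is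
`l` with `c ⟨l, s l⟩ = c ⟨l, s l + 1⟩ = c ⟨l, s l - 1⟩`.
`GENW` gives `w`; let `D s = det (MMat k i j w s)`.  Let
`S a b = Function.update (Function.update (fun _ => 0) i a) j b` (all `s` are of this form),
`M a b = Mn k τ (S a b)`, `f a b = D (S a b)`.  `up (S a b) i = S (a + 2) b`,
`up (S a b) j = S a (b + 2)`, `dn (S a b) i = S (a - 2) b`.  Apply `TOR (k i) (k j)`:
* `hh`: `STEP_up` for `(i, j)`: since `M (a + 2) b`, the first alternative holds, so `TypeO`, `MOVE1`.
* `hv`: `STEP_up` for `(j, i)`, `MOVE2`.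
* `h3`: `M a b`, `¬ M (a + 2) b`: by `STEP_up` for `(i, j)` `c ⟨i, s i⟩ ≠ c ⟨i, s i + 1⟩` for all `c` with
  `WW`; such a `c` exists (`NW > 0`, `TRI`); (NG) gives `c ⟨j, s j⟩ = c ⟨j, s j + 1⟩` for it, so in
  `STEP_up` for `(j, i)` the second alternative is impossible and `M a (b + 2)`.
* `h3'`: the same with `STEP_dn` for `(i, j)`.
* `h4`: `MN_ex`.  `h5`: `COLM` for `(i, j)`: `Function.update (S a 0) j b = S a b`.
-/

set_option autoImplicit false

namespace Pool.Agent.TWB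

variable {ι : Type*} [Fintype ι] [DecidableEq ι]

private theorem inv2 (K : ℕ) : ((K : ZMod (2 * K + 1)) + 1) * 2 = 1 := by
  have h : (((2 * K + 1 : ℕ)) : ZMod (2 * K + 1)) = 0 := ZMod.natCast_self _
  push_cast at h
  linear_combination h

omit [Fintype ι] [DecidableEq ι] in
private theorem gc_edge (k : ι → ℕ) (hk : ∀ i, 1 ≤ k i) (τ : Vx k → Vx k)
    (s : ∀ i, ZMod (2 * k i + 1)) (c : Vx k → Bool) (hc : WW k τ s c) (l : ι)
    (p : ZMod (2 * k l + 1)) (hp : 2 * p + 1 = s l) (t : ℕ) (h1 : 1 ≤ t) (h2 : t ≤ k l) :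
    c ⟨l, 2 * (p + (t : ZMod (2 * k l + 1)))⟩ ≠
      c ⟨l, 2 * (p + (t : ZMod (2 * k l + 1))) + 1⟩ := by
  have hkl := hk l
  haveI : Fact (1 < 2 * k l + 1) := ⟨by omega⟩
  have h3 := nuZ_edge (k l) p t h1 h2
  rw [hp] at h3
  have h4 : nuH s (⟨l, 2 * (p + (t : ZMod (2 * k l + 1)))⟩ : Vx k) =
      ⟨l, 2 * (p + (t : ZMod (2 * k l + 1))) + 1⟩ := by
    unfold nuH
    simp only [h3]
  have h5 : nuH s (⟨l, 2 * (p + (t : ZMod (2 * k l + 1)))⟩ : Vx k) ≠
      ⟨l, 2 * (p + (t : ZMod (2 * k l + 1)))⟩ := by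
    rw [h4]
    intro he
    have h6 : 2 * (p + (t : ZMod (2 * k l + 1))) + 1 = 2 * (p + (t : ZMod (2 * k l + 1))) := by
      have := (Sigma.mk.inj_iff.1 he).2
      exact eq_of_heq this
    exact one_ne_zero (left_eq_add.1 h6.symm)
  have h7 := hc.2 _ h5
  rw [h4] at h7
  exact h7.symm

theorem GOODCELL (k : ι → ℕ) (hk : ∀ i, 1 ≤ k i) (τ : Vx k → Vx k)
    (s : ∀ i, ZMod (2 * k i + 1)) (c : Vx k → Bool) (hc : WW k τ s c)
    (hg : ∀ l, c ⟨l, s l⟩ ≠ c ⟨l, s l + 1⟩ ∨ c ⟨l, s l⟩ ≠ c ⟨l, s l - 1⟩) :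
    ∃ p : ∀ i, ZMod (2 * k i + 1), ∀ (l : ι) (t : ℕ), t ≤ k l →
      c ⟨l, 2 * (p l + (t : ZMod (2 * k l + 1)))⟩
        ≠ c ⟨l, 2 * (p l + (t : ZMod (2 * k l + 1))) + 1⟩ := by
  have main : ∀ l, ∃ p : ZMod (2 * k l + 1), ∀ t : ℕ, t ≤ k l →
      c ⟨l, 2 * (p + (t : ZMod (2 * k l + 1)))⟩
        ≠ c ⟨l, 2 * (p + (t : ZMod (2 * k l + 1))) + 1⟩ := by
    intro l
    have hi := inv2 (k l)
    rcases hg l with h | h
    · refine ⟨((k l : ZMod (2 * k l + 1)) + 1) * (s l + 1), fun t ht => ?_⟩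
      rcases Nat.lt_or_ge t (k l) with h1 | h1
      · have h2 := gc_edge k hk τ s c hc l (((k l : ZMod (2 * k l + 1)) + 1) * (s l - 1))
          (by linear_combination (s l - 1) * hi) (t + 1) (by omega) (by omega)
        have e : ((k l : ZMod (2 * k l + 1)) + 1) * (s l - 1) + ((t + 1 : ℕ) : ZMod (2 * k l + 1)) =
            ((k l : ZMod (2 * k l + 1)) + 1) * (s l + 1) + (t : ZMod (2 * k l + 1)) := by
          push_cast
          linear_combination -hi
        rw [e] at h2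
        exact h2
      · have h3 : t = k l := by omega
        rw [h3]
        have h4 := end_eq (k l) (((k l : ZMod (2 * k l + 1)) + 1) * (s l + 1))
        have h5 : 2 * (((k l : ZMod (2 * k l + 1)) + 1) * (s l + 1)) = s l + 1 := by
          linear_combination (s l + 1) * hi
        have h6 : 2 * (((k l : ZMod (2 * k l + 1)) + 1) * (s l + 1) + (k l : ZMod (2 * k l + 1))) =
            s l := by
          linear_combination h4 + h5
        rw [h6]
        exact h
    · refine ⟨((k l : ZMod (2 * k l + 1)) + 1) * (s l - 1), fun t ht => ?_⟩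
      rcases Nat.eq_zero_or_pos t with h1 | h1
      · subst h1
        have h6 : 2 * (((k l : ZMod (2 * k l + 1)) + 1) * (s l - 1) + ((0 : ℕ) : ZMod (2 * k l + 1)))
            = s l - 1 := by
          push_cast
          linear_combination (s l - 1) * hi
        rw [h6, sub_add_cancel]
        exact h.symm
      · exact gc_edge k hk τ s c hc l _ (by linear_combination (s l - 1) * hi) t h1 ht
  choose p hp using main
  exact ⟨p, hp⟩

/-- the cell with coordinates `a`, `b` -/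
private def SS (k : ι → ℕ) (i j : ι) (a : ZMod (2 * k i + 1)) (b : ZMod (2 * k j + 1)) :
    ∀ l, ZMod (2 * k l + 1) :=
  Function.update (Function.update (fun _ => 0) i a) j b

omit [Fintype ι] in
private theorem SS_i (k : ι → ℕ) (i j : ι) (hij : i ≠ j) (a : ZMod (2 * k i + 1))
    (b : ZMod (2 * k j + 1)) : SS k i j a b i = a := by
  unfold SS
  rw [Function.update_of_ne hij, Function.update_self]

omit [Fintype ι] in
private theorem SS_j (k : ι → ℕ) (i j : ι) (a : ZMod (2 * k i + 1))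
    (b : ZMod (2 * k j + 1)) : SS k i j a b j = b := by
  unfold SS
  rw [Function.update_self]

omit [Fintype ι] in
private theorem SS_eq (k : ι → ℕ) (i j : ι) (hij : i ≠ j) (hall : ∀ l, l = i ∨ l = j)
    (s : ∀ l, ZMod (2 * k l + 1)) : SS k i j (s i) (s j) = s := by
  funext l
  rcases hall l with h | h
  · subst h
    exact SS_i k l j hij _ _
  · subst h
    exact SS_j k i l _ _

omit [Fintype ι] in
private theorem up_i (k : ι → ℕ) (i j : ι) (hij : i ≠ j) (hall : ∀ l, l = i ∨ l = j)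
    (a : ZMod (2 * k i + 1)) (b : ZMod (2 * k j + 1)) :
    up (SS k i j a b) i = SS k i j (a + 2) b := by
  rw [← SS_eq k i j hij hall (up (SS k i j a b) i)]
  congr 1
  · unfold up
    rw [Function.update_self, SS_i k i j hij]
  · unfold up
    rw [Function.update_of_ne hij.symm, SS_j]

omit [Fintype ι] in
private theorem up_j (k : ι → ℕ) (i j : ι) (hij : i ≠ j) (hall : ∀ l, l = i ∨ l = j)
    (a : ZMod (2 * k i + 1)) (b : ZMod (2 * k j + 1)) :
    up (SS k i j a b) j = SS k i j a (b + 2) := by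
  rw [← SS_eq k i j hij hall (up (SS k i j a b) j)]
  congr 1
  · unfold up
    rw [Function.update_of_ne hij, SS_i k i j hij]
  · unfold up
    rw [Function.update_self, SS_j]

omit [Fintype ι] in
private theorem dn_i (k : ι → ℕ) (i j : ι) (hij : i ≠ j) (hall : ∀ l, l = i ∨ l = j)
    (a : ZMod (2 * k i + 1)) (b : ZMod (2 * k j + 1)) :
    dn (SS k i j a b) i = SS k i j (a - 2) b := by
  rw [← SS_eq k i j hij hall (dn (SS k i j a b) i)]
  congr 1
  · unfold dn
    rw [Function.update_self, SS_i k i j hij]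
  · unfold dn
    rw [Function.update_of_ne hij.symm, SS_j]

theorem T3core (k : ι → ℕ) (hk : ∀ i, 1 ≤ k i) (τ : Vx k → Vx k) (hτ : ∀ v, τ (τ v) = v)
    (hτ1 : ∀ v, τ v ≠ v) (i j : ι) (hij : i ≠ j) (hall : ∀ l, l = i ∨ l = j)
    (hki : k i % 2 = 1) :
    ∃ (p : ∀ i, ZMod (2 * k i + 1)) (c : Vx k → Bool), (∀ v, τ v ≠ v → c (τ v) ≠ c v) ∧
      ∀ (l : ι) (t : ℕ), t ≤ k l →
        c ⟨l, 2 * (p l + (t : ZMod (2 * k l + 1)))⟩
          ≠ c ⟨l, 2 * (p l + (t : ZMod (2 * k l + 1))) + 1⟩ := by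
  by_contra hno
  have NG : ∀ (s : ∀ l, ZMod (2 * k l + 1)) (c : Vx k → Bool), WW k τ s c →
      ∃ l, c ⟨l, s l⟩ = c ⟨l, s l + 1⟩ ∧ c ⟨l, s l⟩ = c ⟨l, s l - 1⟩ := by
    intro s c hc
    by_contra hcon
    push Not at hcon
    obtain ⟨p, hp⟩ := GOODCELL k hk τ s c hc (fun l => by
      by_cases h : c ⟨l, s l⟩ = c ⟨l, s l + 1⟩
      · exact Or.inr (hcon l h)
      · exact Or.inl h)
    exact hno ⟨p, c, fun v _ => hc.1 v, hp⟩
  have hex : ∀ s : ∀ l, ZMod (2 * k l + 1), ∃ c, WW k τ s c := by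
    intro s
    have h := (TRI k hk τ hτ hτ1 i j hij hall s).1
    unfold NW at h
    exact Set.nonempty_of_ncard_ne_zero h.ne'
  have hall' : ∀ l, l = j ∨ l = i := fun l => (hall l).symm
  obtain ⟨w, hw, hD⟩ := GENW k hk τ hτ hτ1 i j hij hall
  -- one step in the direction `j`
  have key : ∀ s : ∀ l, ZMod (2 * k l + 1), Mn k τ s →
      (∀ c, WW k τ s c → c ⟨i, s i⟩ ≠ c ⟨i, s i + 1⟩ ∨ c ⟨i, s i⟩ ≠ c ⟨i, s i - 1⟩) →
      Mn k τ (up s j) := by
    intro s hM hc
    rcases STEP_up k hk τ hτ hτ1 j i hij.symm hall' s hM with h | h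
    · exact h.1
    · obtain ⟨c, hcc⟩ := hex s
      obtain ⟨l, h1, h2⟩ := NG s c hcc
      rcases hall l with hl | hl
      · subst hl
        rcases hc c hcc with h3 | h3
        · exact absurd h1 h3
        · exact absurd h2 h3
      · subst hl
        exact absurd h1 (h.2 c hcc)
  refine TOR (k i) (k j) hki (fun a b => Mn k τ (SS k i j a b))
    (fun a b => (MMat k i j w (SS k i j a b)).det) (fun a b => hD _) ?_ ?_ ?_ ?_ ?_ ?_
  · intro a b h1 h2
    rw [← up_i k i j hij hall] at h2 ⊢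
    rcases STEP_up k hk τ hτ hτ1 i j hij hall _ h1 with h | h
    · exact MOVE1 k hk τ hτ hτ1 i j hij hall w hw _ (hD _) (hD _) h.2.1
    · exact absurd h2 h.1
  · intro a b h1 h2
    rw [← up_j k i j hij hall] at h2 ⊢
    rcases STEP_up k hk τ hτ hτ1 j i hij.symm hall' _ h1 with h | h
    · exact MOVE2 k hk τ hτ hτ1 i j hij hall w hw _ (hD _) (hD _) h.2.1
    · exact absurd h2 h.1
  · intro a b h1 h2
    rw [← up_i k i j hij hall] at h2
    rw [← up_j k i j hij hall]
    refine key _ h1 (fun c hc => Or.inl ?_)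
    rcases STEP_up k hk τ hτ hτ1 i j hij hall _ h1 with h | h
    · exact absurd h.1 h2
    · exact h.2 c hc
  · intro a b h1 h2
    rw [← dn_i k i j hij hall] at h2
    rw [← up_j k i j hij hall]
    refine key _ h1 (fun c hc => Or.inr ?_)
    rcases STEP_dn k hk τ hτ hτ1 i j hij hall _ h1 with h | h
    · exact absurd h.1 h2
    · exact h.2 c hc
  · obtain ⟨s, hs⟩ := MN_ex k τ
    exact ⟨s i, s j, by rw [SS_eq k i j hij hall]; exact hs⟩
  · intro a
    obtain ⟨b, hb⟩ := COLM k hk τ hτ hτ1 i j hij hall (SS k i j a 0)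
    refine ⟨b, ?_⟩
    have e : Function.update (SS k i j a 0) j b = SS k i j a b := by
      unfold SS
      rw [Function.update_idem]
    rw [e] at hb
    exact hb

end Pool.Agent.TWB
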