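import Pool.Agent.TWB.T1
import Pool.Agent.TWB.T2
import Pool.Agent.TWB.T3C
import Pool.Agent.TWB.FIXP

/-!
SOL3.  At most three circuits, at most one `k i` even: `Solv k`.

Proof.  SOL2 (at most two circuits): at most one circuit: `T1`.  Exactly two circuits `i ≠ j`
(`Fintype.card ι = 2`, `Fintype.card_eq_two_iff` or similar): by `hev` one of `k i`, `k j` is odd, say
`k i` (symmetric).  Let `τ` be an involution.  If `τ` has no fixed point use `T3core`.  If
`τ ⟨l, a⟩ = ⟨l, a⟩` use `FIXP` for circuit `l`: the type `{i // i ≠ l}` is a subsingleton, `T1`.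
SOL3: if `Fintype.card ι ≤ 2`: SOL2.  Otherwise `Fintype.card ι = 3`: the number of vertices is
`Σ (2 k i + 1)`, odd, so every involution `τ` has a fixed point `⟨l, a⟩` (see the proof of `T1`);
`FIXP` for circuit `l` with SOL2 for the type `{i // i ≠ l}` of cardinality `2`.
-/

set_option autoImplicit false

namespace Pool.Agent.TWB

private theorem sol2_pair {ι : Type*} [Fintype ι] [DecidableEq ι] (k : ι → ℕ) (hk : ∀ i, 1 ≤ k i)
    (i j : ι) (hij : i ≠ j) (hall : ∀ l, l = i ∨ l = j) (hki : k i % 2 = 1) : Solv k := by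
  intro τ hτ
  by_cases hfix : ∃ v, τ v = v
  · obtain ⟨⟨l, a⟩, hq⟩ := hfix
    have : Subsingleton {i : ι // i ≠ l} := by
      refine ⟨fun x y => ?_⟩
      obtain ⟨x, hx⟩ := x
      obtain ⟨y, hy⟩ := y
      apply Subtype.ext
      show x = y
      rcases hall l with rfl | rfl
      · rcases hall x with h1 | h1
        · exact absurd h1 hx
        · rcases hall y with h2 | h2
          · exact absurd h2 hy
          · rw [h1, h2]
      · rcases hall x with h1 | h1
        · rcases hall y with h2 | h2
          · rw [h1, h2]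
          · exact absurd h2 hy
        · exact absurd h1 hx
    exact FIXP k hk l (T1 _ (fun i => hk i.1)) τ hτ a hq
  · push Not at hfix
    exact T3core k hk τ hτ hfix i j hij hall hki

theorem SOL2 {ι : Type*} [Fintype ι] [DecidableEq ι] (k : ι → ℕ) (hk : ∀ i, 1 ≤ k i)
    (hc : Fintype.card ι ≤ 2) (hev : ∀ i i', k i % 2 = 0 → k i' % 2 = 0 → i = i') : Solv k := by
  rcases Nat.lt_or_ge 1 (Fintype.card ι) with h1 | h1
  · have h2 : (Finset.univ : Finset ι).card = 2 := by
      rw [Finset.card_univ]; omega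
    obtain ⟨x, y, hxy, hu⟩ := Finset.card_eq_two.1 h2
    have hall : ∀ l, l = x ∨ l = y := by
      intro l
      have : l ∈ (Finset.univ : Finset ι) := Finset.mem_univ l
      rw [hu] at this
      simpa using this
    rcases Nat.mod_two_eq_zero_or_one (k x) with hx | hx
    · rcases Nat.mod_two_eq_zero_or_one (k y) with hy | hy
      · exact absurd (hev x y hx hy) hxy
      · exact sol2_pair k hk y x hxy.symm (fun l => (hall l).symm) hy
    · exact sol2_pair k hk x y hxy hall hx
  · have : Subsingleton ι := Fintype.card_le_one_iff_subsingleton.1 h1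
    exact T1 k hk

theorem SOL3 {ι : Type*} [Fintype ι] [DecidableEq ι] (k : ι → ℕ) (hk : ∀ i, 1 ≤ k i)
    (hc : Fintype.card ι ≤ 3) (hev : ∀ i i', k i % 2 = 0 → k i' % 2 = 0 → i = i') : Solv k := by
  rcases Nat.lt_or_ge 2 (Fintype.card ι) with h1 | h1
  · have h3 : Fintype.card ι = 3 := by omega
    intro τ hτ
    have hcard : Fintype.card (Vx k) = 2 * (∑ i, k i) + 3 := by
      rw [Fintype.card_sigma]
      simp only [ZMod.card]
      rw [Finset.sum_add_distrib, Finset.sum_const, Finset.card_univ, h3, ← Finset.mul_sum]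
      simp
    obtain ⟨⟨l, a⟩, hfix⟩ := Equiv.Perm.exists_fixed_point_of_prime (p := 2) (n := 1)
      (α := Vx k) (σ := ⟨τ, τ, hτ, hτ⟩) (by rw [hcard]; omega) (by
        rw [pow_one, sq]
        ext1 v
        exact hτ v)
    have hfix' : τ ⟨l, a⟩ = ⟨l, a⟩ := hfix
    refine FIXP k hk l ?_ τ hτ a hfix'
    refine SOL2 _ (fun i => hk i.1) ?_ ?_
    · rw [Fintype.card_subtype_compl, Fintype.card_subtype_eq, h3]
    · intro i i' h h'
      exact Subtype.ext (hev _ _ h h')
  · exact SOL2 k hk h1 hev

end Pool.Agent.TWB
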