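import Pool.Agent.TWB.Defs

/-!
SPN.  Linear algebra of squarefree monomials over the field with two elements.

Sp_mul: `Submodule.span_induction` in both arguments (bilinear); on generators
`mon T * mon T' = mon (T ∪ T')` since `T`, `T'` are disjoint (`Finset.prod_union`).
ext_lin: `mon T = monomial (∑_{x∈T} single x 1) 1` (exponent = indicator of `T`, support `T`), so
`L = (MvPolynomial.basisMonomials σ (ZMod 2)).constr (ZMod 2) (fun m => f m.support)` works
(`Module.Basis.constr_basis`).
dd_mon: induction on `T` (`Finset.induction_on`), `dd` is a derivation with `dd (X x) = 1`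
(`MvPolynomial.mkDerivation_X`): `dd (X a * mon T) = X a * dd (mon T) + mon T`, and
`(insert a T).erase x = insert a (T.erase x)` for `x ∈ T`, `(insert a T).erase a = T`.
gg_mon: `gg` is a ring homomorphism with `gg (X x) = X (x.1, !x.2)`, `Finset.prod_image` (the flip is
injective).
gg_gg: `MvPolynomial.rename_rename` and flip ∘ flip = id.
dd_gg: both sides are additive and satisfy the Leibniz rule along `gg`; use
`MvPolynomial.induction_on`: for constants both sides are `0` (`dd (C a) = 0`), for `p * X x`: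
`dd (gg p * gg (X x)) = gg p * 1 + gg (X x) * dd (gg p)`.
Sp_mono, Sp_exists, Sp_congr: span induction.
-/

set_option autoImplicit false

namespace Pool.Agent.TWB

theorem Sp_mono {σ : Type*} {P Q : Finset σ → Prop} (h : ∀ T, P T → Q T)
    {a : MvPolynomial σ (ZMod 2)} (ha : a ∈ Sp P) : a ∈ Sp Q := by
  refine Submodule.span_mono ?_ ha
  rintro m ⟨T, hT, rfl⟩
  exact ⟨T, h T hT, rfl⟩

theorem mon_mem {σ : Type*} {P : Finset σ → Prop} {T : Finset σ} (h : P T) : mon T ∈ Sp P := by
  exact Submodule.subset_span ⟨T, h, rfl⟩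

theorem Sp_mul {σ : Type*} [DecidableEq σ] {P Q : Finset σ → Prop}
    (hPQ : ∀ T T', P T → Q T' → Disjoint T T') {a b : MvPolynomial σ (ZMod 2)}
    (ha : a ∈ Sp P) (hb : b ∈ Sp Q) :
    a * b ∈ Sp (fun U => ∃ T T', P T ∧ Q T' ∧ U = T ∪ T') := by
  have h1 : a * b ∈ Sp P * Sp Q := Submodule.mul_mem_mul ha hb
  unfold Sp at h1
  rw [Submodule.span_mul_span] at h1
  refine Submodule.span_mono ?_ h1
  rintro m ⟨m1, ⟨T, hT, rfl⟩, m2, ⟨T', hT', rfl⟩, rfl⟩
  refine ⟨T ∪ T', ⟨T, T', hT, hT', rfl⟩, ?_⟩
  show mon T * mon T' = mon (T ∪ T')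
  unfold mon
  rw [Finset.prod_union (hPQ T T' hT hT')]

theorem ext_lin {σ : Type*} (f : Finset σ → ZMod 2) :
    ∃ L : MvPolynomial σ (ZMod 2) →ₗ[ZMod 2] ZMod 2, ∀ T, L (mon T) = f T := by
  refine ⟨(MvPolynomial.basisMonomials σ (ZMod 2)).constr (ZMod 2) (fun m => f m.support),
    fun T => ?_⟩
  have h1 : (mon T : MvPolynomial σ (ZMod 2))
      = MvPolynomial.basisMonomials σ (ZMod 2) (∑ x ∈ T, Finsupp.single x 1) := by
    rw [MvPolynomial.coe_basisMonomials]
    show mon T = MvPolynomial.monomial (∑ x ∈ T, Finsupp.single x 1) 1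
    rw [MvPolynomial.monomial_sum_one]
    rfl
  rw [h1, Module.Basis.constr_basis]
  congr 1
  ext y
  rw [Finsupp.mem_support_iff, Finsupp.finsetSum_apply]
  classical
  simp only [Finsupp.single_apply]
  simp

/-- two linear maps to the field which agree on the monomials of the sets with `P` agree on
`Sp P` -/
theorem Sp_congr {σ : Type*} {P : Finset σ → Prop}
    {M : Type*} [AddCommGroup M] [Module (ZMod 2) M]
    (L L' : MvPolynomial σ (ZMod 2) →ₗ[ZMod 2] M) (h : ∀ T, P T → L (mon T) = L' (mon T))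
    {a : MvPolynomial σ (ZMod 2)} (ha : a ∈ Sp P) : L a = L' a := by
  refine LinearMap.eqOn_span (s := {m | ∃ T, P T ∧ m = mon T}) ?_ ha
  rintro m ⟨T, hT, rfl⟩
  exact h T hT

theorem Sp_exists {σ : Type*} {P : Finset σ → Prop}
    (L : MvPolynomial σ (ZMod 2) →ₗ[ZMod 2] ZMod 2)
    {a : MvPolynomial σ (ZMod 2)} (ha : a ∈ Sp P) (hL : L a ≠ 0) :
    ∃ T, P T ∧ L (mon T) ≠ 0 := by
  by_contra hc
  push Not at hc
  apply hL
  have h1 := Sp_congr L 0 (fun T hT => by rw [hc T hT, LinearMap.zero_apply]) ha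
  rw [h1, LinearMap.zero_apply]

theorem dd_mon {σ : Type*} [DecidableEq σ] (T : Finset σ) :
    dd (mon T) = ∑ x ∈ T, mon (T.erase x) := by
  induction T using Finset.induction_on with
  | empty => simp [mon]
  | insert a T ha ih =>
    have h1 : (mon (insert a T) : MvPolynomial σ (ZMod 2)) = MvPolynomial.X a * mon T := by
      unfold mon
      rw [Finset.prod_insert ha]
    have h2 : (dd (MvPolynomial.X a) : MvPolynomial σ (ZMod 2)) = 1 := by
      unfold dd
      rw [MvPolynomial.mkDerivation_X]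
    rw [h1, Derivation.leibniz, h2, ih, Finset.sum_insert ha, Finset.erase_insert ha]
    rw [smul_eq_mul, smul_eq_mul, mul_one, Finset.mul_sum, add_comm]
    congr 1
    refine Finset.sum_congr rfl fun x hx => ?_
    have hxa : a ≠ x := by
      rintro rfl
      exact ha hx
    have h3 : (insert a T).erase x = insert a (T.erase x) := Finset.erase_insert_of_ne hxa
    rw [h3]
    unfold mon
    rw [Finset.prod_insert (fun h => ha (Finset.mem_of_mem_erase h))]

theorem gg_mon {α : Type*} [DecidableEq α] (T : Finset (α × Bool)) :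
    gg (mon T) = mon (T.image (fun x => (x.1, !x.2))) := by
  unfold mon gg
  rw [map_prod, Finset.prod_image]
  · refine Finset.prod_congr rfl fun x _ => ?_
    rw [MvPolynomial.rename_X]
  · rintro ⟨x1, x2⟩ _ ⟨y1, y2⟩ _ hxy
    simp only [Prod.mk.injEq, Bool.not_inj_iff] at hxy
    exact Prod.ext hxy.1 hxy.2

theorem gg_gg {α : Type*} (a : MvPolynomial (α × Bool) (ZMod 2)) : gg (gg a) = a := by
  unfold gg
  rw [MvPolynomial.rename_rename]
  have h1 : ((fun x : α × Bool => (x.1, !x.2)) ∘ fun x : α × Bool => (x.1, !x.2)) = id := by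
    funext x
    simp
  rw [h1, MvPolynomial.rename_id]
  rfl

theorem dd_gg {α : Type*} (a : MvPolynomial (α × Bool) (ZMod 2)) : dd (gg a) = gg (dd a) := by
  induction a using MvPolynomial.induction_on with
  | C r =>
    have h1 : gg (MvPolynomial.C r : MvPolynomial (α × Bool) (ZMod 2)) = MvPolynomial.C r := by
      unfold gg
      rw [MvPolynomial.rename_C]
    have h2 : (dd (MvPolynomial.C r) : MvPolynomial (α × Bool) (ZMod 2)) = 0 := by
      have := Derivation.map_algebraMap (dd (σ := α × Bool)) r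
      rwa [MvPolynomial.algebraMap_eq] at this
    rw [h1, h2, map_zero]
  | add p q hp hq => rw [map_add, map_add, map_add, map_add, hp, hq]
  | mul_X p x hp =>
    have h2 : ∀ y : α × Bool, (dd (MvPolynomial.X y) : MvPolynomial (α × Bool) (ZMod 2)) = 1 := by
      intro y
      unfold dd
      rw [MvPolynomial.mkDerivation_X]
    have h3 : gg (MvPolynomial.X x : MvPolynomial (α × Bool) (ZMod 2))
        = MvPolynomial.X (x.1, !x.2) := by
      unfold gg
      rw [MvPolynomial.rename_X]
    rw [map_mul, h3, Derivation.leibniz, Derivation.leibniz, h2, h2, hp]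
    simp only [smul_eq_mul, mul_one, map_add, map_mul, h3]

/-- the image of a span under the antipodal map -/
theorem gg_mem {α : Type*} [DecidableEq α] {P : Finset (α × Bool) → Prop}
    {a : MvPolynomial (α × Bool) (ZMod 2)} (ha : a ∈ Sp P) :
    gg a ∈ Sp (fun T => ∃ T', P T' ∧ T = T'.image (fun x => (x.1, !x.2))) := by
  have h1 : Sp P ≤ (Sp (fun T => ∃ T', P T' ∧ T = T'.image
      (fun x : α × Bool => (x.1, !x.2)))).comap (gg (α := α)).toLinearMap := by
    unfold Sp
    rw [Submodule.span_le]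
    rintro m ⟨T, hT, rfl⟩
    rw [SetLike.mem_coe, Submodule.mem_comap, AlgHom.toLinearMap_apply, gg_mon]
    exact Submodule.subset_span ⟨_, ⟨T, hT, rfl⟩, rfl⟩
  exact h1 ha

end Pool.Agent.TWB
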