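import Pool.Agent.TWB.NU
import Pool.Agent.Helper74.BIS.TWO

/-!
T1.  At most one circuit: `Solv k`.

Proof.  `ι` empty: trivial.  Otherwise let `i₀` be the only element.  `Vx k` has
`2 k i₀ + 1` elements (odd), so the involution `τ` has a fixed point (e.g.
`Finset.sum_involution` with `ZMod 2`, or `Equiv.Perm` / `Function.Involutive.card_fixedPoints..`,
`Finset.card_involution..`): `q₀ = ⟨i₀, x⟩`.  As 2 is invertible (`2 (k + 1) = 1`) let
`p i₀ = (k + 1) (x - 1)`, so `2 p + 1 = x`.  `TWO τ (nuH (fun i => 2 p i + 1))` gives `c0`; let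
`c = Function.update c0 q₀ (!(c0 ⟨i₀, 2 p⟩))` (`2 p = x - 1 ≠ x` as `2 k + 1 > 1`).
* `τ v ≠ v`: then `v ≠ q₀` and `τ v ≠ q₀`, `c = c0` at both.
* edge `t = 0`: `c ⟨i₀, 2 p⟩ = c0 ⟨i₀, 2 p⟩ ≠ c ⟨i₀, 2 p + 1⟩`.
* edge `1 ≤ t ≤ k`: both ends are different from `x = 2 p + 1` (`two_inj`: `2 (p+t) + 1 = 2 p + 1`
  would give `t = 0`; `2 (p + t) = 2 p + 1` is excluded by `nuZ_edge`: `nuZ x (2 (p+t)) = 2 (p+t) + 1`
  is different from `2 (p + t)` (as `1 ≠ 0` in `ZMod n`, `n ≥ 3`) but `nuZ x x = x`), and `nuH` maps the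
  first to the second end (`nuZ_edge`), so `c0` separates them.
-/

set_option autoImplicit false

namespace Pool.Agent.TWB

theorem T1 {ι : Type*} [Subsingleton ι] (k : ι → ℕ) (hk : ∀ i, 1 ≤ k i) : Solv k := by
  classical
  intro τ hτ
  rcases isEmpty_or_nonempty ι with hE | ⟨⟨j₀⟩⟩
  · exact ⟨fun i => isEmptyElim i, fun _ => true, fun v => isEmptyElim v.1, fun i => isEmptyElim i⟩
  letI : Unique ι := ⟨⟨j₀⟩, fun _ => Subsingleton.elim _ _⟩
  have hcard : Fintype.card (Vx k) = 2 * k default + 1 := by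
    rw [Fintype.card_sigma, Fintype.sum_unique, ZMod.card]
  obtain ⟨⟨i₀, x⟩, hfix⟩ := Equiv.Perm.exists_fixed_point_of_prime (p := 2) (n := 1)
    (α := Vx k) (σ := ⟨τ, τ, hτ, hτ⟩) (by rw [hcard]; omega) (by
      rw [pow_one, sq]
      ext1 v
      exact hτ v)
  have hfix' : τ ⟨i₀, x⟩ = ⟨i₀, x⟩ := hfix
  set p₀ : ZMod (2 * k i₀ + 1) := ((k i₀ : ZMod (2 * k i₀ + 1)) + 1) * (x - 1) with hp₀
  have h0 : (2 : ZMod (2 * k i₀ + 1)) * (k i₀ : ZMod (2 * k i₀ + 1)) + 1 = 0 := by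
    have := ZMod.natCast_self (2 * k i₀ + 1)
    push_cast at this
    exact this
  have hx : 2 * p₀ + 1 = x := by
    rw [hp₀]
    linear_combination (x - 1) * h0
  set p : ∀ i, ZMod (2 * k i + 1) := fun i => (Subsingleton.elim i₀ i) ▸ p₀ with hp
  have hpi : p i₀ = p₀ := rfl
  obtain ⟨c0, hc1, hc2⟩ := Pool.Agent.Helper74.BIS.TWO τ (nuH (fun i => 2 * p i + 1)) hτ (nuH_nuH _)
  have hone : (1 : ZMod (2 * k i₀ + 1)) ≠ 0 := by
    haveI : Fact (1 < 2 * k i₀ + 1) := ⟨by have := hk i₀; omega⟩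
    exact one_ne_zero
  have hinj : ∀ a b : ZMod (2 * k i₀ + 1), (⟨i₀, a⟩ : Vx k) = ⟨i₀, b⟩ → a = b := by
    intro a b hab
    simpa using hab
  refine ⟨p, Function.update c0 ⟨i₀, x⟩ (!(c0 ⟨i₀, 2 * p₀⟩)), fun v hv => ?_, fun i t ht => ?_⟩
  · have h1 : v ≠ ⟨i₀, x⟩ := by
      rintro rfl
      exact hv hfix'
    have h2 : τ v ≠ ⟨i₀, x⟩ := by
      intro h3
      apply h1
      rw [← hτ v, h3, hfix']
    rw [Function.update_of_ne h1, Function.update_of_ne h2]
    exact hc1 v hv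
  · obtain rfl : i = i₀ := Subsingleton.elim _ _
    rw [hpi]
    rcases Nat.eq_zero_or_pos t with rfl | htp
    · have e1 : (p₀ : ZMod (2 * k i + 1)) + ((0 : ℕ) : ZMod (2 * k i + 1)) = p₀ := by
        rw [Nat.cast_zero, add_zero]
      rw [e1, hx, Function.update_self, Function.update_of_ne]
      · cases c0 ⟨i, 2 * p₀⟩ <;> simp
      · intro h3
        have h4 := hinj _ _ h3
        apply hone
        have h5 : 2 * p₀ + 1 = 2 * p₀ := by rw [hx, h4]
        simpa using h5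
    · have h3 := nuZ_edge (k i) p₀ t htp ht
      set a : ZMod (2 * k i + 1) := 2 * (p₀ + (t : ZMod (2 * k i + 1))) with ha
      have h4 : nuH (fun i => 2 * p i + 1) (⟨i, a⟩ : Vx k) = ⟨i, a + 1⟩ := by
        unfold nuH
        simp only
        rw [hpi, h3]
      have h5 : (⟨i, a + 1⟩ : Vx k) ≠ ⟨i, a⟩ := by
        intro h6
        have := hinj _ _ h6
        apply hone
        simpa using this
      have h6 := hc2 ⟨i, a⟩ (by rw [h4]; exact h5)
      rw [h4] at h6
      rw [Function.update_of_ne, Function.update_of_ne]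
      · exact h6.symm
      · intro h7
        have h8 := hinj _ _ h7
        have h9 : 2 * (p₀ + (t : ZMod (2 * k i + 1))) = 2 * p₀ := by
          have h10 : a + 1 = 2 * p₀ + 1 := by rw [h8, hx]
          exact add_right_cancel h10
        have h11 := two_inj (k i) _ _ h9
        have h12 := add_inj (k i) p₀ t 0 ht (Nat.zero_le _) (by rw [Nat.cast_zero, add_zero]; exact h11)
        omega
      · intro h7
        have h8 := hinj _ _ h7
        rw [hx, h8, nuZ_self] at h3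
        apply hone
        have h9 : x + 1 = x := h3.symm
        simpa using h9

end Pool.Agent.TWB
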