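import Pool.Agent.TWB.NU

/-!
T3Defs.  Definitions for two circuits `i ≠ j` (all of `ι`), `τ` an involution without fixed points.

A cell is a pair `s = (s i, s j)`.  `WW k τ s c`: the colouring `c` alternates along `τ` and along the
matching `nuH s` of the circuits minus the vertices `s i`, `s j`.  `W0 k τ s l c`: the same without
the condition for the edge `{s l + 1, s l + 2}` of circuit `l`.  `Mn`: the number of such colourings
is minimal.
-/

set_option autoImplicit false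

namespace Pool.Agent.TWB

variable {ι : Type*}

def WW (k : ι → ℕ) (τ : Vx k → Vx k) (s : ∀ i, ZMod (2 * k i + 1)) (c : Vx k → Bool) : Prop :=
  (∀ v, c (τ v) ≠ c v) ∧ ∀ v, nuH s v ≠ v → c (nuH s v) ≠ c v

def W0 (k : ι → ℕ) (τ : Vx k → Vx k) (s : ∀ i, ZMod (2 * k i + 1)) (l : ι)
    (c : Vx k → Bool) : Prop :=
  (∀ v, c (τ v) ≠ c v) ∧
    ∀ v, nuH s v ≠ v → v ≠ ⟨l, s l + 1⟩ → v ≠ ⟨l, s l + 2⟩ → c (nuH s v) ≠ c v

/-- number of alternating colourings of the cell `s` -/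
noncomputable def NW (k : ι → ℕ) (τ : Vx k → Vx k) (s : ∀ i, ZMod (2 * k i + 1)) : ℕ :=
  {c : Vx k → Bool | WW k τ s c}.ncard

/-- minimal cell -/
def Mn (k : ι → ℕ) (τ : Vx k → Vx k) (s : ∀ i, ZMod (2 * k i + 1)) : Prop :=
  ∀ s', NW k τ s ≤ NW k τ s'

/-- the move of the coordinate `l` by `2` -/
def up [DecidableEq ι] {k : ι → ℕ} (s : ∀ i, ZMod (2 * k i + 1)) (l : ι) :
    ∀ i, ZMod (2 * k i + 1) := Function.update s l (s l + 2)

/-- the move of the coordinate `l` by `-2` -/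
def dn [DecidableEq ι] {k : ι → ℕ} (s : ∀ i, ZMod (2 * k i + 1)) (l : ι) :
    ∀ i, ZMod (2 * k i + 1) := Function.update s l (s l - 2)

/-- the move of `l` from `s` to `up s l` is of type O (`l'` is the other circuit) -/
def TypeO (k : ι → ℕ) (τ : Vx k → Vx k) (s : ∀ i, ZMod (2 * k i + 1)) (l l' : ι) : Prop :=
  ∀ c, W0 k τ s l c →
    c ⟨l, s l⟩ ≠ c ⟨l, s l + 2⟩ ∧ c ⟨l, s l + 1⟩ ≠ c ⟨l', s l'⟩

end Pool.Agent.TWB
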