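import Pool.Agent.TWB.T3Defs

/-!
T3MD.  Definition of the determinant of a cell (two circuits `i`, `j`).
-/

set_option autoImplicit false

namespace Pool.Agent.TWB

variable {ι : Type*}

/-- index set of rows and columns -/
abbrev JJ (k : ι → ℕ) (i j : ι) : Type := Unit ⊕ (Fin (k i) ⊕ Fin (k j))

/-- the rows: the vector of `s i`, and the sums of the vectors of the ends of the edges of the
matchings of both circuits, in cyclic order -/
def rowv (k : ι → ℕ) (i j : ι) (w : Vx k → JJ k i j → ℝ) (s : ∀ i, ZMod (2 * k i + 1)) :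
    JJ k i j → JJ k i j → ℝ
  | Sum.inl _ => w ⟨i, s i⟩
  | Sum.inr (Sum.inl t) =>
      w ⟨i, s i + 1 + 2 * ((t : ℕ) : ZMod (2 * k i + 1))⟩ +
        w ⟨i, s i + 2 + 2 * ((t : ℕ) : ZMod (2 * k i + 1))⟩
  | Sum.inr (Sum.inr t) =>
      w ⟨j, s j + 1 + 2 * ((t : ℕ) : ZMod (2 * k j + 1))⟩ +
        w ⟨j, s j + 2 + 2 * ((t : ℕ) : ZMod (2 * k j + 1))⟩

/-- the matrix of a cell -/
def MMat (k : ι → ℕ) (i j : ι) (w : Vx k → JJ k i j → ℝ) (s : ∀ i, ZMod (2 * k i + 1)) :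
    Matrix (JJ k i j) (JJ k i j) ℝ := Matrix.of (rowv k i j w s)

end Pool.Agent.TWB
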