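import Pool.Agent.TWB.T3W

/-!
T3S.  Steps from a minimal cell, and non-minimal cells in every column.

MN_ex: the set of cells is finite and nonempty.
STEP_up: by `TRI` for `s`, `i`: third alternative: `NW (up s i) < NW s` (as `NW (up s i) > 0`, `TRI` for
`up s i`), against `Mn`.  First: `NW (up s i) = NW s`, so `Mn (up s i)`.  Second:
`NW (up s i) = 2 * NW s > NW s`, so `¬ Mn (up s i)`.
STEP_dn: by `TRI` for `t = dn s i`, `up t i = s` (`t i + 2 = s i`, `t i + 1 = s i - 1`).  Second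
alternative: `NW s = 2 * NW t > NW t`, against `Mn s`.  First: `NW s = NW t`, so `Mn t`, and
`c ⟨i, t i + 1⟩ = c ⟨i, t i + 2⟩`.  Third: `NW t = 2 * NW s > NW s`, so `¬ Mn t`, and `≠`.

PATHEND: let `ρ = n ∘ m`, a permutation of the finite set `V`, `v_{2a} = ρ^a u`,
`v_{2a+1} = m (v_{2a})`.  If `n (v_{2a+1}) ≠ v_{2a+1}` for all `a`, take the least `p ≥ 1` with
`ρ^p u = u` (periodic point of a permutation of a finite set): `n (v_{2p-1}) = v_{2p} = u`, so
`v_{2p-1} = n u = u`, so `n (v_{2p-1}) = v_{2p-1}`, contradiction.  Let `a` be the least number with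
`n (v_{2a+1}) = v_{2a+1}`, `w = v_{2a+1}`.  For an alternating `c`: `c (v_{b}) = c u` for `b` even and
`≠ c u` for `b` odd, `b ≤ 2a+1` (induction; every step goes to a different vertex).  In particular
`c w ≠ c u`; and `w ≠ u` because a colouring alternating along `m` and `n` exists (`TWO`).

COLM: apply `PATHEND` to `m = τ`, `n v = if v.1 = i then nuH s v else v`, `u = ⟨i, s i⟩`.  The fixed
points of `n` on circuit `i` are only `⟨i, s i⟩` (`nuZ_ne`), so `w = ⟨j, b⟩`.  Let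
`t = Function.update s j b` (`t i = s i`, `t j = b`).  Every `c` with `W0 k τ t j c` alternates along
`τ` and `n` (on circuit `i` `nuH t = nuH s`, and the omitted edge is on circuit `j`), so
`c ⟨j, b⟩ ≠ c ⟨i, s i⟩`.  In `TRI` for `t` with the roles `(j, i)` the first two alternatives contain a
`W0` colouring with `c ⟨j, t j⟩ = c ⟨i, t i⟩`, impossible.  So `NW t = 2 * NW (up t j)`, and
`NW (up t j) > 0` (`TRI` for `up t j`), hence `NW (up t j) < NW t` and `¬ Mn t`.
-/

set_option autoImplicit false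

namespace Pool.Agent.TWB

variable {ι : Type*} [Fintype ι] [DecidableEq ι]

theorem MN_ex (k : ι → ℕ) (τ : Vx k → Vx k) : ∃ s : ∀ i, ZMod (2 * k i + 1), Mn k τ s := by
  haveI : Nonempty (∀ i, ZMod (2 * k i + 1)) := ⟨fun _ => 0⟩
  obtain ⟨s, hs⟩ := Nat.sInf_mem (Set.range_nonempty (fun s : ∀ i, ZMod (2 * k i + 1) => NW k τ s))
  refine ⟨s, fun s' => ?_⟩
  have h1 : NW k τ s = sInf (Set.range (fun s : ∀ i, ZMod (2 * k i + 1) => NW k τ s)) := hs
  rw [h1]
  exact Nat.sInf_le ⟨s', rfl⟩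

theorem STEP_up (k : ι → ℕ) (hk : ∀ i, 1 ≤ k i) (τ : Vx k → Vx k) (hτ : ∀ v, τ (τ v) = v)
    (hτ1 : ∀ v, τ v ≠ v) (i j : ι) (hij : i ≠ j) (hall : ∀ l, l = i ∨ l = j)
    (s : ∀ i, ZMod (2 * k i + 1)) (hM : Mn k τ s) :
    (Mn k τ (up s i) ∧ TypeO k τ s i j ∧
        ∀ c, WW k τ s c → c ⟨i, s i⟩ = c ⟨i, s i + 1⟩) ∨
      (¬ Mn k τ (up s i) ∧ ∀ c, WW k τ s c → c ⟨i, s i⟩ ≠ c ⟨i, s i + 1⟩) := by
  have h1 := TRI k hk τ hτ hτ1 i j hij hall s
  have h2 := (TRI k hk τ hτ hτ1 i j hij hall (up s i)).1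
  obtain ⟨hpos, h | h | h⟩ := h1
  · refine Or.inl ⟨fun s' => ?_, h.1, h.2.2.1⟩
    rw [h.2.1]
    exact hM s'
  · refine Or.inr ⟨fun hN => ?_, h.2.1⟩
    have h3 := hN s
    omega
  · exfalso
    have h3 := hM (up s i)
    omega

private theorem up_dn {k : ι → ℕ} (s : ∀ i, ZMod (2 * k i + 1)) (i : ι) : up (dn s i) i = s := by
  unfold up dn
  rw [Function.update_idem, Function.update_self]
  have e : s i - 2 + 2 = s i := by ring
  rw [e, Function.update_eq_self]

theorem STEP_dn (k : ι → ℕ) (hk : ∀ i, 1 ≤ k i) (τ : Vx k → Vx k) (hτ : ∀ v, τ (τ v) = v)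
    (hτ1 : ∀ v, τ v ≠ v) (i j : ι) (hij : i ≠ j) (hall : ∀ l, l = i ∨ l = j)
    (s : ∀ i, ZMod (2 * k i + 1)) (hM : Mn k τ s) :
    (Mn k τ (dn s i) ∧ ∀ c, WW k τ s c → c ⟨i, s i⟩ = c ⟨i, s i - 1⟩) ∨
      (¬ Mn k τ (dn s i) ∧ ∀ c, WW k τ s c → c ⟨i, s i⟩ ≠ c ⟨i, s i - 1⟩) := by
  have h0 := (TRI k hk τ hτ hτ1 i j hij hall s).1
  have h1 := TRI k hk τ hτ hτ1 i j hij hall (dn s i)
  rw [up_dn] at h1
  have e0 : dn s i i = s i - 2 := Function.update_self _ _ _
  have e1 : dn s i i + 1 = s i - 1 := by rw [e0]; ring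
  have e2 : dn s i i + 2 = s i := by rw [e0]; ring
  rw [e1, e2] at h1
  obtain ⟨hpos, h | h | h⟩ := h1
  · refine Or.inl ⟨fun s' => ?_, fun c hc => (h.2.2.2.1 c hc).symm⟩
    rw [← h.2.1]
    exact hM s'
  · exfalso
    have h3 := hM (dn s i)
    omega
  · refine Or.inr ⟨fun hN => ?_, fun c hc => (h.2 c hc).symm⟩
    have h3 := hN s
    omega

private theorem bool_ne3 (a b c : Bool) (h1 : b ≠ a) (h2 : c ≠ b) : c = a := by
  cases a <;> cases b <;> cases c <;> simp_all

theorem PATHEND {V : Type*} [Finite V] (m n : V → V) (hm : ∀ v, m (m v) = v)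
    (hn : ∀ v, n (n v) = v) (hm1 : ∀ v, m v ≠ v) (u : V) (hu : n u = u) :
    ∃ w, n w = w ∧ w ≠ u ∧ ∀ c : V → Bool, (∀ v, c (m v) ≠ c v) →
      (∀ v, n v ≠ v → c (n v) ≠ c v) → c w ≠ c u := by
  classical
  let ρ : Equiv.Perm V := ⟨fun v => n (m v), fun v => m (n v), fun v => by simp only [hn, hm],
    fun v => by simp only [hn, hm]⟩
  have hex : ∃ a : ℕ, n (m ((ρ ^ a) u)) = m ((ρ ^ a) u) := by
    obtain ⟨p, hp0, hp⟩ := isOfFinOrder_iff_pow_eq_one.1 (isOfFinOrder_of_finite ρ)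
    refine ⟨p - 1, ?_⟩
    have h1 : n (m ((ρ ^ (p - 1)) u)) = u := by
      have h2 : (ρ * ρ ^ (p - 1)) u = u := by
        rw [← pow_succ', show p - 1 + 1 = p by omega, hp]
        rfl
      exact h2
    have h3 : m ((ρ ^ (p - 1)) u) = u := by
      have h4 := congrArg n h1
      rw [hn, hu] at h4
      exact h4
    rw [h3, hu]
  have key : ∀ c : V → Bool, (∀ v, c (m v) ≠ c v) → (∀ v, n v ≠ v → c (n v) ≠ c v) →
      c (m ((ρ ^ Nat.find hex) u)) ≠ c u := by
    intro c h1 h2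
    have h3 : ∀ a : ℕ, a ≤ Nat.find hex → c ((ρ ^ a) u) = c u := by
      intro a
      induction a with
      | zero => intro _; rfl
      | succ a ih =>
        intro ha
        have h4 := ih (by omega)
        have h5 : n (m ((ρ ^ a) u)) ≠ m ((ρ ^ a) u) := Nat.find_min hex (by omega)
        have h6 : (ρ ^ (a + 1)) u = n (m ((ρ ^ a) u)) := by
          rw [pow_succ']
          rfl
        rw [h6, ← h4]
        exact bool_ne3 _ _ _ (h1 _) (h2 _ h5)
    intro h4
    apply h1 ((ρ ^ Nat.find hex) u)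
    rw [h4, h3 _ le_rfl]
  refine ⟨m ((ρ ^ Nat.find hex) u), Nat.find_spec hex, ?_, key⟩
  intro h
  obtain ⟨c, hc1, hc2⟩ := Helper74.BIS.TWO m n hm hn
  exact key c (fun v => hc1 v (hm1 v)) hc2 (by rw [h])

theorem COLM (k : ι → ℕ) (hk : ∀ i, 1 ≤ k i) (τ : Vx k → Vx k) (hτ : ∀ v, τ (τ v) = v)
    (hτ1 : ∀ v, τ v ≠ v) (i j : ι) (hij : i ≠ j) (hall : ∀ l, l = i ∨ l = j)
    (s : ∀ i, ZMod (2 * k i + 1)) :
    ∃ b : ZMod (2 * k j + 1), ¬ Mn k τ (Function.update s j b) := by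
  haveI : ∀ l : ι, NeZero (2 * k l + 1) := fun l => ⟨by omega⟩
  haveI : Finite (Vx k) := inferInstance
  have hn : ∀ v : Vx k, (if (if v.1 = i then nuH s v else v).1 = i then
      nuH s (if v.1 = i then nuH s v else v) else (if v.1 = i then nuH s v else v)) = v := by
    intro v
    by_cases h : v.1 = i
    · have h2 : (nuH s v).1 = i := h
      rw [if_pos h, if_pos h2, nuH_nuH]
    · rw [if_neg h, if_neg h]
  have hu : (if (⟨i, s i⟩ : Vx k).1 = i then nuH s ⟨i, s i⟩ else (⟨i, s i⟩ : Vx k)) = ⟨i, s i⟩ := by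
    rw [if_pos rfl]
    change (⟨i, nuZ (s i) (s i)⟩ : Vx k) = ⟨i, s i⟩
    rw [nuZ_self]
  obtain ⟨w, hw1, hw2, hw3⟩ := PATHEND τ (fun v => if v.1 = i then nuH s v else v) hτ hn hτ1
    ⟨i, s i⟩ hu
  obtain ⟨l, b⟩ := w
  have hl : l ≠ i := by
    rintro rfl
    have h1 : (if (⟨l, b⟩ : Vx k).1 = l then nuH s ⟨l, b⟩ else (⟨l, b⟩ : Vx k)) = ⟨l, b⟩ := hw1
    rw [if_pos rfl] at h1
    have h2 : (⟨l, nuZ (s l) b⟩ : Vx k) = ⟨l, b⟩ := h1
    have h3 : nuZ (s l) b = b := by simpa using h2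
    by_cases h4 : b = s l
    · apply hw2
      rw [h4]
    · have h5 := hk l
      exact nuZ_ne (by omega) (by omega) _ _ h4 h3
  obtain rfl : l = j := (hall l).resolve_left hl
  refine ⟨b, ?_⟩
  have hti : Function.update s l b i = s i := Function.update_of_ne hij _ _
  have htj : Function.update s l b l = b := Function.update_self _ _ _
  have hne : ∀ c, W0 k τ (Function.update s l b) l c →
      c ⟨l, Function.update s l b l⟩ ≠ c ⟨i, Function.update s l b i⟩ := by
    intro c hc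
    rw [hti, htj]
    refine hw3 c hc.1 ?_
    intro v hv
    by_cases h : v.1 = i
    · have e : nuH (Function.update s l b) v = nuH s v := by
        obtain ⟨i', v⟩ := v
        have h' : i' = i := h
        subst h'
        change (⟨i', nuZ (Function.update s l b i') v⟩ : Vx k) = ⟨i', nuZ (s i') v⟩
        rw [hti]
      have hv' : nuH s v ≠ v := by
        intro h2
        apply hv
        change (if v.1 = i then nuH s v else v) = v
        rw [if_pos h, h2]
      have h3 := hc.2 v (by rw [e]; exact hv')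
        (by
          intro h4
          apply hij
          rw [← h, h4])
        (by
          intro h4
          apply hij
          rw [← h, h4])
      change c (if v.1 = i then nuH s v else v) ≠ c v
      rw [if_pos h, ← e]
      exact h3
    · exfalso
      apply hv
      change (if v.1 = i then nuH s v else v) = v
      rw [if_neg h]
  obtain ⟨hpos, h | h | h⟩ := TRI k hk τ hτ hτ1 l i hij.symm (fun l' => (hall l').symm)
    (Function.update s l b)
  · obtain ⟨c, hc1, hc2⟩ := h.2.2.2.2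
    exact absurd hc2 (hne c hc1)
  · obtain ⟨c, hc1, hc2⟩ := h.2.2
    exact absurd hc2 (hne c hc1)
  · intro hM
    have h1 := hM (up (Function.update s l b) l)
    have h2 := (TRI k hk τ hτ hτ1 l i hij.symm (fun l' => (hall l').symm)
      (up (Function.update s l b) l)).1
    omega

end Pool.Agent.TWB
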