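import Pool.Agent.TWB.MAIN2
import Pool.Agent.Helper74.BIS.FIN

set_option autoImplicit false

namespace Pool.Agent.Results.MP_be493c_co.ThreeModFour

/-- A component `K` of `G - M` (for a cubic graph `G` with perfect matching `M` it is a circuit) is
hard if it has an odd number of vertices, contains no end of a bridge of `G`, and contains no
vertex whose neighbours in `G - M` are adjacent in `G`. -/
def Hard {V : Type} (G : SimpleGraph V) (M : G.Subgraph)
    (K : (G.deleteEdges M.edgeSet).ConnectedComponent) : Prop :=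
  Odd K.supp.ncard ∧
    (∀ v ∈ K.supp, ∀ w : V, G.Adj v w → ¬ G.IsBridge s(v, w)) ∧
    (∀ v ∈ K.supp, ∀ a b : V, (G.deleteEdges M.edgeSet).Adj v a →
      (G.deleteEdges M.edgeSet).Adj v b → ¬ G.Adj a b)

/-- A cubic graph with a perfect matching `M` has a 2-bisection if any two different hard circuits
of `G - M` in the same component of `G` minus its bridges have length 3 mod 4. -/
theorem result :
    ∀ (V : Type) [Fintype V] [DecidableEq V] (G : SimpleGraph V) [DecidableRel G.Adj],
      G.IsRegularOfDegree 3 → ∀ M : G.Subgraph, M.IsPerfectMatching →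
      (∀ K K' : (G.deleteEdges M.edgeSet).ConnectedComponent, Hard G M K → Hard G M K' →
        K ≠ K' →
        (∃ u ∈ K.supp, ∃ w ∈ K'.supp, (G.deleteEdges {e | G.IsBridge e}).Reachable u w) →
        K.supp.ncard % 4 = 3 ∧ K'.supp.ncard % 4 = 3) →
      ∃ c : V → Bool,
        (Finset.univ.filter (fun v => c v = true)).card
          = (Finset.univ.filter (fun v => c v = false)).card ∧
        ∀ v : V, {w : V | (G ⊓ SimpleGraph.fromRel (fun a b : V => c a = c b)).Reachable v w}.ncard
          ≤ 2 := by
  intro V _ _ G _ hreg M hM hblock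
  classical
  -- the partner function of the perfect matching
  have hpart : ∀ v, ∃! w, M.Adj v w := fun v => hM.1 (hM.2 v)
  choose μ hμ1 hμ2 using hpart
  have hμ : ∀ v, μ (μ v) = v := fun v => (hμ2 (μ v) v (hμ1 v).symm).symm
  have hMadj : ∀ a b, M.Adj a b ↔ b = μ a :=
    fun a b => ⟨fun h => hμ2 a b h, fun h => h ▸ hμ1 a⟩
  have hFadj : ∀ a b, (G.deleteEdges M.edgeSet).Adj a b ↔ G.Adj a b ∧ b ≠ μ a := by
    intro a b
    rw [SimpleGraph.deleteEdges_adj, SimpleGraph.Subgraph.mem_edgeSet, hMadj]
  have hFG : ∀ a b, G.Adj a b ↔ (G.deleteEdges M.edgeSet).Adj a b ∨ b = μ a := by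
    intro a b
    rw [hFadj]
    constructor
    · intro h
      by_cases hb : b = μ a
      · exact Or.inr hb
      · exact Or.inl ⟨h, hb⟩
    · rintro (h | h)
      · exact h.1
      · rw [h]; exact (hμ1 a).adj_sub
  have hF : ∀ v, ((G.deleteEdges M.edgeSet).neighborSet v).ncard = 2 := by
    intro v
    have h1 : (G.deleteEdges M.edgeSet).neighborSet v = G.neighborSet v \ {μ v} := by
      ext w
      rw [SimpleGraph.mem_neighborSet, hFadj, Set.mem_sdiff, SimpleGraph.mem_neighborSet,
        Set.mem_singleton_iff]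
    have h2 : (G.neighborSet v).ncard = 3 := by
      rw [← Nat.card_coe_set_eq, Nat.card_eq_fintype_card,
        SimpleGraph.card_neighborSet_eq_degree]
      exact hreg v
    have h3 : μ v ∈ G.neighborSet v := (hμ1 v).adj_sub
    rw [h1, Set.ncard_sdiff_singleton_of_mem h3, h2]
  have hcyc : (G.deleteEdges M.edgeSet).IsCycles := fun v _ => hF v
  have hnb : ∀ v w, (G.deleteEdges M.edgeSet).Adj v w → ¬ G.IsBridge s(v, w) := by
    intro v w hvw hb
    have h1 := hcyc.reachable_deleteEdges hvw
    exact (hb.anti (SimpleGraph.deleteEdges_le _)) h1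
  obtain ⟨c, hc1, hc2⟩ := Pool.Agent.TWB.MAIN2 G (G.deleteEdges M.edgeSet) μ hμ hFG hF
    (Hard G M)
    (by
      intro K
      by_cases hK : Hard G M K
      · exact Or.inl hK
      · right
        by_contra hcon
        rw [not_or, not_or] at hcon
        apply hK
        refine ⟨Nat.not_even_iff_odd.1 hcon.1, ?_, ?_⟩
        · intro v hv w hvw hb
          rcases (hFG v w).1 hvw with h | h
          · exact hnb v w h hb
          · rw [h] at hb
            exact hcon.2.1 ⟨v, hv, hb⟩
        · intro v hv a b ha hb hab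
          exact hcon.2.2 ⟨v, hv, a, b, ha, hb, hab⟩)
    (fun K hK => hK.1)
    (fun K K' hK hK' hne h => hblock K K' hK hK' hne h)
  exact ⟨c, Pool.Agent.Helper74.BIS.FIN G μ hμ c hc1 hc2⟩

end Pool.Agent.Results.MP_be493c_co.ThreeModFour
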